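import Pool.Agent.DLP.CpL

/-!
# DLP/Chain: concatenation, `Msum > 1`

Let `S k = ∑_{h ∈ lamps 0 (N + k j)} cp 0 (2N + k j) 0 (0,0) (N + k j, h)`.
* `S 0 ≥ p^N q^N`: `cp_up` with `cp_mono` (`blk 0 N 0 ⊆ blk 0 (2N) 0`), `card_lamps`.
* `S (k+1) ≥ S k * Aj j N`: split `h = h₁ + h₂`, `h₁ ∈ lamps 0 (N+kj)`,
  `h₂ ∈ lamps (N+kj) (N+(k+1)j)` (`sum_lamps_split`); by `cp_trans` in
  `blk 0 (2N+(k+1)j) 0` the term is at least
  `cp 0 (2N+kj) 0 (0,0) (N+kj,h₁) * cp (kj) (2N+(k+1)j) h₁ (N+kj,h₁) (N+(k+1)j, h₁+h₂)`, and the sum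
  over `h₂` of the second factor is `Aj j N` by `sum_cp_up` (`n = N + kj`: `n - N = kj`,
  `n + (j + N) = 2N + (k+1) j`).
* `Msum (2N + k j) ≥ S k * p^N q^N`: the last `N` steps straight up: `cp_up` for
  `blk (N+kj) (2N+kj) h ⊆ blk 0 (2N+kj) 0`, `cp_trans` (with `blk 0 (2N+kj) 0` itself as the first
  block), `sum_lamps_split`, `card_lamps`.
So `Msum (2N + k j) ≥ (p q)^{2N} (Aj j N)^k`, which is `> 1` for large `k`.
-/

namespace Pool.Agent.DLP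

open Finset

variable (q : ℕ) [NeZero q]

/-- The expected number of vertices at the level `N + k j` joined to `(0,0)` in the block with the
levels `0, …, 2N + k j`. -/
private noncomputable def Sk (p : ℝ) (j N k : ℕ) : ℝ :=
  ∑ h ∈ lamps q 0 ((N + k * j : ℕ) : ℤ),
    cp q p 0 ((2 * N + k * j : ℕ) : ℤ) 0 (0, 0) (((N + k * j : ℕ) : ℤ), h)

private theorem sk_nonneg {p : ℝ} (h0 : 0 ≤ p) (h1 : p ≤ 1) (j N k : ℕ) : 0 ≤ Sk q p j N k :=
  sum_nonneg fun _ _ => cp_nonneg h0 h1 _ _ _ _ _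

private theorem sk_zero {p : ℝ} (h0 : 0 ≤ p) (h1 : p ≤ 1) (j N : ℕ) :
    (p * q) ^ N ≤ Sk q p j N 0 := by
  have hc : ∀ h ∈ lamps q 0 ((N + 0 * j : ℕ) : ℤ),
      p ^ N ≤ cp q p 0 ((2 * N + 0 * j : ℕ) : ℤ) 0 (0, 0) (((N + 0 * j : ℕ) : ℤ), h) := by
    intro h hh
    have hh' : h ∈ lamps q 0 (0 + (N : ℤ)) := by simpa using hh
    have h2 := cp_up h0 h1 0 N (0 : Lm q) hh'
    have h3 : blk q 0 (0 + (N : ℤ)) 0 ⊆ blk q 0 ((2 * N + 0 * j : ℕ) : ℤ) 0 := by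
      refine blk_subset le_rfl (by push_cast; omega) ?_
      rw [sub_zero]
      exact zero_mem_lamps _ _
    have h4 := h2.trans (cp_mono h0 h1 h3 _ _)
    simpa using h4
  have := card_nsmul_le_sum _ _ _ hc
  rw [card_lamps, nsmul_eq_mul] at this
  refine le_trans (le_of_eq ?_) this
  rw [mul_pow, mul_comm]
  congr 1
  simp

private theorem sk_succ {p : ℝ} (h0 : 0 ≤ p) (h1 : p ≤ 1) (j N k : ℕ) :
    Sk q p j N k * Aj q p j N ≤ Sk q p j N (k + 1) := by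
  have hA : ∀ h₁ : Lm q, ∑ h₂ ∈ lamps q ((N + k * j : ℕ) : ℤ) (((N + k * j : ℕ) : ℤ) + j),
      cp q p (((N + k * j : ℕ) : ℤ) - N) (((N + k * j : ℕ) : ℤ) + ((j + N : ℕ) : ℤ)) h₁
        (((N + k * j : ℕ) : ℤ), h₁) (((N + k * j : ℕ) : ℤ) + j, h₁ + h₂) = Aj q p j N := by
    intro h₁
    rw [sum_cp_up, Aj]
    push_cast
    rfl
  unfold Sk
  have e2 : (((N + (k + 1) * j : ℕ) : ℤ)) = ((N + k * j : ℕ) : ℤ) + j := by
    push_cast; ring
  rw [e2, sum_lamps_split (b := ((N + k * j : ℕ) : ℤ)) (c := ((N + k * j : ℕ) : ℤ) + j)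
    (Int.natCast_nonneg _) (by omega), sum_mul]
  refine sum_le_sum fun h₁ hh₁ => ?_
  rw [← hA h₁, mul_sum]
  refine sum_le_sum fun h₂ hh₂ => ?_
  refine cp_trans h0 h1 ?_ ?_ _ _ _
  · refine blk_subset le_rfl (by push_cast; nlinarith [Int.natCast_nonneg j]) ?_
    rw [sub_zero]
    exact zero_mem_lamps _ _
  · refine blk_subset (by push_cast; nlinarith [Int.natCast_nonneg j, Int.natCast_nonneg (k*j)])
      (by push_cast; nlinarith [Int.natCast_nonneg j]) ?_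
    rw [sub_zero]
    exact lamps_mono le_rfl (by push_cast; nlinarith [Int.natCast_nonneg j, Int.natCast_nonneg N])
      hh₁

private theorem sk_last {p : ℝ} (h0 : 0 ≤ p) (h1 : p ≤ 1) (j N k : ℕ) :
    Sk q p j N k * (p * q) ^ N ≤ Msum q p (2 * N + k * j) := by
  unfold Sk Msum
  rw [sum_lamps_split (b := ((N + k * j : ℕ) : ℤ)) (c := ((2 * N + k * j : ℕ) : ℤ))
    (Int.natCast_nonneg _) (by push_cast; nlinarith [Int.natCast_nonneg N]), sum_mul]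
  refine sum_le_sum fun h₁ hh₁ => ?_
  have e2 : (((2 * N + k * j : ℕ) : ℤ)) = ((N + k * j : ℕ) : ℤ) + N := by
    push_cast; ring
  have hc : ∀ h₂ ∈ lamps q ((N + k * j : ℕ) : ℤ) ((2 * N + k * j : ℕ) : ℤ),
      cp q p 0 ((2 * N + k * j : ℕ) : ℤ) 0 (0, 0) (((N + k * j : ℕ) : ℤ), h₁) * p ^ N ≤
        cp q p 0 ((2 * N + k * j : ℕ) : ℤ) 0 (0, 0) (((2 * N + k * j : ℕ) : ℤ), h₁ + h₂) := by
    intro h₂ hh₂
    rw [e2] at hh₂ ⊢
    have h3 := cp_up h0 h1 ((N + k * j : ℕ) : ℤ) N h₁ hh₂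
    refine (mul_le_mul_of_nonneg_left h3 (cp_nonneg h0 h1 _ _ _ _ _)).trans ?_
    refine cp_trans h0 h1 subset_rfl ?_ _ _ _
    refine blk_subset (Int.natCast_nonneg _) le_rfl ?_
    rw [sub_zero]
    exact lamps_mono le_rfl (by omega) hh₁
  have := card_nsmul_le_sum _ _ _ hc
  rw [card_lamps, nsmul_eq_mul] at this
  refine le_trans (le_of_eq ?_) this
  rw [mul_pow]
  have e3 : (((2 * N + k * j : ℕ) : ℤ) - ((N + k * j : ℕ) : ℤ)).toNat = N := by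
    rw [e2]; simp
  rw [e3]
  push_cast
  ring

theorem chain {p : ℝ} (h0 : 0 ≤ p) (h1 : p ≤ 1) (j N k : ℕ) :
    (p * q) ^ (2 * N) * Aj q p j N ^ k ≤ Msum q p (2 * N + k * j) := by
  have hA : 0 ≤ Aj q p j N := sum_nonneg fun _ _ => cp_nonneg h0 h1 _ _ _ _ _
  have hpq : 0 ≤ (p * q) ^ N := pow_nonneg (mul_nonneg h0 (Nat.cast_nonneg _)) _
  have key : ∀ k : ℕ, (p * q) ^ N * Aj q p j N ^ k ≤ Sk q p j N k := by
    intro k
    induction k with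
    | zero => simpa using sk_zero q h0 h1 j N
    | succ k ih =>
      refine le_trans ?_ (sk_succ q h0 h1 j N k)
      rw [pow_succ, ← mul_assoc]
      exact mul_le_mul_of_nonneg_right ih hA
  refine le_trans ?_ (sk_last q h0 h1 j N k)
  refine le_trans (le_of_eq ?_) (mul_le_mul_of_nonneg_right (key k) hpq)
  rw [two_mul, pow_add]
  ring

theorem exists_Msum {p : ℝ} (h0 : 0 < p) (h1 : p ≤ 1) {j N : ℕ} (hA : 1 < Aj q p j N) :
    ∃ H : ℕ, 1 < Msum q p H := by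
  have hq : (0 : ℝ) < q := by
    exact_mod_cast Nat.pos_of_ne_zero (NeZero.ne q)
  have hpq : 0 < (p * q) ^ (2 * N) := pow_pos (mul_pos h0 hq) _
  obtain ⟨k, hk⟩ := pow_unbounded_of_one_lt (1 / (p * q) ^ (2 * N)) hA
  refine ⟨2 * N + k * j, lt_of_lt_of_le ?_ (chain q h0.le h1 j N k)⟩
  rw [div_lt_iff₀ hpq] at hk
  rw [mul_comm]
  exact hk

/-- `Msum 1 = q p`: the block of height `1` (for the bound `p_c ≤ 1/q`): only the lower bound
`q p ≤ Msum 1` is needed (`cp_up`). -/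
theorem Msum_one {p : ℝ} (h0 : 0 ≤ p) (h1 : p ≤ 1) : (q : ℝ) * p ≤ Msum q p 1 := by
  have hc : ∀ h ∈ lamps q 0 ((1 : ℕ) : ℤ),
      p ≤ cp q p 0 ((1 : ℕ) : ℤ) 0 (0, 0) (((1 : ℕ) : ℤ), h) := by
    intro h hh
    have hh' : h ∈ lamps q 0 (0 + ((1 : ℕ) : ℤ)) := by simpa using hh
    have h2 := cp_up h0 h1 0 1 (0 : Lm q) hh'
    simpa using h2
  have := card_nsmul_le_sum _ _ _ hc
  rw [card_lamps, nsmul_eq_mul] at this
  refine le_trans (le_of_eq ?_) this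
  simp

end Pool.Agent.DLP
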