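import Pool.Agent.DLP.Phi
import Pool.Agent.DLP.Chain

/-!
# DLP/Iso: the deterministic isoperimetric inequality, and two calculus facts

`iso_lower`: `phi_lower` with `p = 1`, `H = 1` (`Msum 1 1 ≥ q ≥ 2 > 1` by `Msum_one`), `Λ = T`;
`acc ≤ 1` by `pr_le_one`, so `∑ acc ≤ |cut T|`.
`summable_log`: `exp(-a n/log(n+1)) ≤ C/n²` eventually, since `n / log (n+1) ≥ √n`-like growth
(`log (n+1) ≤ √(n+1)`...), compare with `1/n²`.
-/

namespace Pool.Agent.DLP

open Finset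

variable (q : ℕ) [NeZero q]

theorem iso_lower (hq : 2 ≤ q) : ∃ c : ℝ, 0 < c ∧ ∀ T : Finset (DV q), T.Nonempty →
    c * T.card / Real.log (T.card + 1) ≤ ((DL q).cut T).card := by
  have h1 : (q : ℝ) * 1 ≤ Msum q 1 1 := Msum_one q zero_le_one le_rfl
  have h2 : (2 : ℝ) ≤ q := by exact_mod_cast hq
  have hM : 1 < Msum q 1 1 := by linarith
  obtain ⟨c, hc, h⟩ := phi_lower one_pos le_rfl hM
  refine ⟨c, hc, fun T hT => (h T T subset_rfl hT).trans ?_⟩
  calc ∑ e ∈ (DL q).cut T, (DL q).acc 1 T T e ≤ ∑ e ∈ (DL q).cut T, (1 : ℝ) := by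
        apply Finset.sum_le_sum
        intro e _
        exact pr_le_one zero_le_one le_rfl _ _
    _ = ((DL q).cut T).card := by rw [Finset.sum_const, nsmul_eq_mul, mul_one]

theorem summable_log {a : ℝ} (ha : 0 < a) :
    Summable (fun n : ℕ => Real.exp (-(a * n / Real.log (n + 1)))) := by
  rw [← summable_nat_add_iff 1]
  have hs : Summable (fun n : ℕ => 1536 / a ^ 4 * (1 / ((n + 1 : ℕ) : ℝ) ^ 2)) := by
    apply Summable.mul_left
    exact (summable_nat_add_iff (f := fun n : ℕ => 1 / (n : ℝ) ^ 2) 1).2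
      (Real.summable_one_div_nat_pow.2 one_lt_two)
  refine Summable.of_nonneg_of_le (fun n => (Real.exp_pos _).le) (fun n => ?_) hs
  have hn : (1 : ℝ) ≤ ((n + 1 : ℕ) : ℝ) := by
    push_cast
    linarith [Nat.cast_nonneg (α := ℝ) n]
  generalize ((n + 1 : ℕ) : ℝ) = x at hn
  have hlog : 0 < Real.log (x + 1) := Real.log_pos (by linarith)
  have hsq : Real.log (x + 1) ^ 2 ≤ 8 * x := by
    have h1 : Real.log (Real.sqrt (x + 1)) ≤ Real.sqrt (x + 1) - 1 :=
      Real.log_le_sub_one_of_pos (Real.sqrt_pos.2 (by linarith))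
    rw [Real.log_sqrt (by linarith)] at h1
    have h2 : Real.log (x + 1) ≤ 2 * Real.sqrt (x + 1) := by linarith
    have h3 : Real.log (x + 1) ^ 2 ≤ (2 * Real.sqrt (x + 1)) ^ 2 :=
      pow_le_pow_left₀ hlog.le h2 2
    rw [mul_pow, Real.sq_sqrt (by linarith)] at h3
    linarith
  have hx0 : 0 < x := by linarith
  have ht : 0 < a * x / Real.log (x + 1) := by positivity
  have h4 := Real.pow_div_factorial_le_exp (a * x / Real.log (x + 1)) ht.le 4
  have h5 : a ^ 4 * x ^ 2 / 64 ≤ (a * x / Real.log (x + 1)) ^ 4 := by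
    rw [div_pow, mul_pow, div_le_div_iff₀ (by norm_num) (by positivity)]
    have h6 : Real.log (x + 1) ^ 4 ≤ (8 * x) ^ 2 := by
      have : Real.log (x + 1) ^ 4 = (Real.log (x + 1) ^ 2) ^ 2 := by ring
      rw [this]
      exact pow_le_pow_left₀ (by positivity) hsq 2
    calc a ^ 4 * x ^ 2 * Real.log (x + 1) ^ 4 ≤ a ^ 4 * x ^ 2 * (8 * x) ^ 2 :=
          mul_le_mul_of_nonneg_left h6 (by positivity)
      _ = a ^ 4 * x ^ 4 * 64 := by ring
  have h7 : a ^ 4 * x ^ 2 / 1536 ≤ Real.exp (a * x / Real.log (x + 1)) := by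
    refine le_trans ?_ h4
    have h8 : ((Nat.factorial 4 : ℕ) : ℝ) = 24 := by norm_num [Nat.factorial]
    rw [h8]
    calc a ^ 4 * x ^ 2 / 1536 = a ^ 4 * x ^ 2 / 64 / 24 := by ring
      _ ≤ (a * x / Real.log (x + 1)) ^ 4 / 24 := by
          apply div_le_div_of_nonneg_right h5 (by norm_num)
  rw [Real.exp_neg]
  have h9 : 0 < a ^ 4 * x ^ 2 / 1536 := by positivity
  calc (Real.exp (a * x / Real.log (x + 1)))⁻¹ ≤ (a ^ 4 * x ^ 2 / 1536)⁻¹ :=
        inv_anti₀ h9 h7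
    _ = 1536 / a ^ 4 * (1 / x ^ 2) := by
        field_simp

end Pool.Agent.DLP
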