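import Pool.Agent.DLP.TrickA

/-!
# DLP/Trick: disconnection probabilities from accessible boundaries

`0 ≤ p₁ < p < 1`, `t = p₁ / p`, `κ = (1 - p₁)/(1 - p) > 1`, `F = touch Λ`.

If `Disc Λ T ω`, let `H` be the set of the vertices joined to `T` by `ω` (inside `V`): it is
contained in every `B ⊇ T` with closed boundary, hence in `Λ` (and finite); `cut H ∩ ω = ∅`; all its
vertices are joined to `T` inside `H`. So `Disc` implies that for some `H`, `T ⊆ H ⊆ Λ`:
`C(H) = `∀ x ∈ H, ∃ y ∈ T, Reach ω H y x`` and `Disjoint (cut H) ω`. By the union bound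
and independence (`dep_reach`, `pr_indep`, `pr_avoid`, `pr_dep`)
`P(Disc) ≤ ∑_H pr p (inn H) (C H) (1-p)^{|cut H|}`.
By `sep_prob` and the hypothesis `Φ ≤ ∑ acc` each summand is at most
`κ^{-Φ} ex p F (pr t F (Sep Λ T H))`, and the sum over `H` of
these expectations is at most `1` by `sep_unique` (`sum_pr_le_one` for the pair: for each `ω`
`∑_H pr t F (Sep H ω) ≤ 1`, then `ex_sum`, `ex_mono`, `ex_const`). If `T ⊄ Λ` then `Disc` is
impossible.
-/

namespace Pool.Agent.DLP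

open Finset

namespace Gr

variable {V E : Type} [DecidableEq V] [DecidableEq E] (G : Gr V E)

private theorem disc_split {Λ T : Finset V} {ω : Finset E} (h : G.Disc Λ T ω) :
    ∃ H ∈ Λ.powerset.filter (fun H => T ⊆ H),
      (∀ x ∈ H, ∃ y ∈ T, G.Reach (↑ω : Set E) (↑H : Set V) y x) ∧ Disjoint (G.cut H) ω := by
  classical
  obtain ⟨B, hTB, hBΛ, hd⟩ := h
  set H : Finset V := B.filter (fun x => ∃ y ∈ T, G.Reach (↑ω : Set E) (↑B : Set V) y x) with hH
  have hHB : H ⊆ B := Finset.filter_subset _ _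
  refine ⟨H, Finset.mem_filter.2 ⟨Finset.mem_powerset.2 (hHB.trans hBΛ), fun x hx =>
    Finset.mem_filter.2 ⟨hTB hx, x, hx, Reach.refl G _ _ _⟩⟩, ?_, ?_⟩
  · intro x hx
    obtain ⟨-, y, hy, hr⟩ := Finset.mem_filter.1 hx
    refine ⟨y, hy, ?_⟩
    unfold Reach at hr ⊢
    induction hr with
    | refl => exact Relation.ReflTransGen.refl
    | tail hab hbc ih =>
      rename_i b d
      obtain ⟨hs, hb, hd⟩ := hbc
      have hb2 : b ∈ H := Finset.mem_filter.2 ⟨by exact_mod_cast hb, y, hy, hab⟩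
      exact (ih hb2).tail ⟨hs, by exact_mod_cast hb2, by exact_mod_cast hx⟩
  · refine Finset.disjoint_left.2 fun e he heω => ?_
    have hb : e ∉ G.cut B := fun h => Finset.disjoint_left.1 hd h heω
    rw [mem_cut] at he hb
    rcases he with ⟨h1, h2⟩ | ⟨h1, h2⟩
    · obtain ⟨h3, y, hy, hr⟩ := Finset.mem_filter.1 h1
      have h4 : G.b e ∈ B := by
        by_contra h4
        exact hb (Or.inl ⟨h3, h4⟩)
      exact h2 (Finset.mem_filter.2 ⟨h4, y, hy, hr.trans (Reach.edge (by exact_mod_cast heω)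
        (by exact_mod_cast h3) (by exact_mod_cast h4))⟩)
    · obtain ⟨h3, y, hy, hr⟩ := Finset.mem_filter.1 h2
      have h4 : G.a e ∈ B := by
        by_contra h4
        exact hb (Or.inr ⟨h4, h3⟩)
      exact h1 (Finset.mem_filter.2 ⟨h4, y, hy, hr.trans (Reach.edge (by exact_mod_cast heω)
        (by exact_mod_cast h4) (by exact_mod_cast h3)).symm⟩)

theorem trick {p₁ p : ℝ} (h0 : 0 ≤ p₁) (h01 : p₁ < p) (h1 : p < 1) {Λ T : Finset V} {Φ : ℝ}
    (hΦ : ∀ H : Finset V, T ⊆ H → H ⊆ Λ → Φ ≤ ∑ e ∈ G.cut H, G.acc p₁ Λ H e) :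
    pr p (G.touch Λ) (fun ω => G.Disc Λ T ω) ≤ ((1 - p) / (1 - p₁)) ^ Φ := by
  have hp : 0 < p := lt_of_le_of_lt h0 h01
  have h2 : 0 < 1 - p := by linarith
  have h3 : 0 < 1 - p₁ := by linarith
  have ht0 : 0 ≤ p₁ / p := div_nonneg h0 hp.le
  have ht1 : p₁ / p ≤ 1 := by rw [div_le_one hp]; exact h01.le
  have hpt : p * (p₁ / p) = p₁ := by field_simp
  have hκ : 1 ≤ (1 - p₁) / (1 - p) := by rw [le_div_iff₀ h2]; linarith
  have hκ0 : 0 < (1 - p₁) / (1 - p) := lt_of_lt_of_le one_pos hκ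
  set t := p₁ / p with ht
  set F := G.touch Λ with hF
  -- union bound
  have s1 : pr p F (fun ω => G.Disc Λ T ω) ≤ ∑ H ∈ Λ.powerset.filter (fun H => T ⊆ H),
      pr p F (fun ω => (∀ x ∈ H, ∃ y ∈ T, G.Reach (↑ω : Set E) (↑H : Set V) y x) ∧
        Disjoint (G.cut H) ω) := by
    refine le_trans (pr_mono hp.le h1.le fun ω _ hd => G.disc_split hd) ?_
    exact pr_exists_le hp.le h1.le F _ (fun (H : Finset V) (ω : Finset E) =>
      (∀ x ∈ H, ∃ y ∈ T, G.Reach (↑ω : Set E) (↑H : Set V) y x) ∧ Disjoint (G.cut H) ω)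
  -- each summand
  have s2 : ∀ H ∈ Λ.powerset.filter (fun H => T ⊆ H),
      pr p F (fun ω => (∀ x ∈ H, ∃ y ∈ T, G.Reach (↑ω : Set E) (↑H : Set V) y x) ∧
        Disjoint (G.cut H) ω) ≤
      ((1 - p) / (1 - p₁)) ^ Φ * ex p F (fun ω => pr t F (fun η => G.Sep Λ T H ω η)) := by
    intro H hH
    rw [Finset.mem_filter, Finset.mem_powerset] at hH
    have c1 : Dep (↑(G.inn H) : Set E) (fun ω : Finset E =>
        ∀ x ∈ H, ∃ y ∈ T, G.Reach (↑ω : Set E) (↑H : Set V) y x) := by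
      intro ω ω' h
      refine propext ?_
      refine forall_congr' fun x => forall_congr' fun _ => exists_congr fun y =>
        and_congr_right fun _ => ?_
      exact (G.dep_reach H y x ω ω' h).to_iff
    have c2 : Dep (↑(G.cut H) : Set E) (fun ω : Finset E => Disjoint (G.cut H) ω) := by
      intro ω ω' h
      refine propext ?_
      show Disjoint (G.cut H) ω ↔ Disjoint (G.cut H) ω'
      rw [Finset.disjoint_left, Finset.disjoint_left]
      exact forall_congr' fun e => forall_congr' fun he =>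
        not_congr (h e (by exact_mod_cast he))
    have c3 : Disjoint (↑(G.inn H) : Set E) (↑(G.cut H) : Set E) := by
      exact_mod_cast G.disjoint_inn_cut H
    have c4 : G.cut H ⊆ F := (G.cut_subset_touch H).trans (G.touch_mono hH.1)
    have c5 : ∀ e ∈ (↑(G.inn H) : Set E), (e ∈ F ↔ e ∈ G.inn H) := by
      intro e he
      have he2 : e ∈ G.inn H := by exact_mod_cast he
      refine ⟨fun _ => he2, fun _ => ?_⟩
      rw [hF, mem_touch]
      exact Or.inl (hH.1 ((G.mem_inn.1 he2).1))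
    rw [pr_indep c1 c2 c3, pr_avoid p c4, pr_dep c1 c5]
    have c6 := G.sep_prob hp.le h1 ht0 ht1 hH.2 hH.1
    rw [hpt] at c6
    have c7 : ((1 - p₁) / (1 - p)) ^ Φ ≤
        ((1 - p₁) / (1 - p)) ^ (∑ e ∈ G.cut H, G.acc p₁ Λ H e) :=
      Real.rpow_le_rpow_of_exponent_le hκ (hΦ H hH.2 hH.1)
    have c8 : ((1 - p) / (1 - p₁)) ^ Φ * ((1 - p₁) / (1 - p)) ^ Φ = 1 := by
      rw [← Real.mul_rpow (div_nonneg h2.le h3.le) hκ0.le]
      have : (1 - p) / (1 - p₁) * ((1 - p₁) / (1 - p)) = 1 := by field_simp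
      rw [this, Real.one_rpow]
    have c9 : 0 ≤ ((1 - p) / (1 - p₁)) ^ Φ := Real.rpow_nonneg (div_nonneg h2.le h3.le) _
    have c10 : 0 ≤ pr p (G.inn H) (fun ω => ∀ x ∈ H, ∃ y ∈ T,
        G.Reach (↑ω : Set E) (↑H : Set V) y x) := pr_nonneg hp.le h1.le _ _
    set Q := pr p (G.inn H) (fun ω => ∀ x ∈ H, ∃ y ∈ T,
        G.Reach (↑ω : Set E) (↑H : Set V) y x) with hQ
    calc Q * (1 - p) ^ (G.cut H).card
        = ((1 - p) / (1 - p₁)) ^ Φ * (Q * ((1 - p) ^ (G.cut H).card *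
            ((1 - p₁) / (1 - p)) ^ Φ)) := by
          rw [show ((1 - p) / (1 - p₁)) ^ Φ * (Q * ((1 - p) ^ (G.cut H).card *
            ((1 - p₁) / (1 - p)) ^ Φ)) = Q * (1 - p) ^ (G.cut H).card *
            (((1 - p) / (1 - p₁)) ^ Φ * ((1 - p₁) / (1 - p)) ^ Φ) by ring, c8, mul_one]
      _ ≤ ((1 - p) / (1 - p₁)) ^ Φ * (Q * ((1 - p) ^ (G.cut H).card *
            ((1 - p₁) / (1 - p)) ^ (∑ e ∈ G.cut H, G.acc p₁ Λ H e))) := by
          refine mul_le_mul_of_nonneg_left (mul_le_mul_of_nonneg_left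
            (mul_le_mul_of_nonneg_left c7 (by positivity)) c10) c9
      _ ≤ _ := mul_le_mul_of_nonneg_left c6 c9
  have s3 : ∑ H ∈ Λ.powerset.filter (fun H => T ⊆ H),
      ex p F (fun ω => pr t F (fun η => G.Sep Λ T H ω η)) ≤ 1 := by
    rw [← ex_sum]
    refine (ex_mono hp.le h1.le fun ω _ => ?_).trans (ex_const p F 1).le
    exact sum_pr_le_one ht0 ht1 F _ (fun H η => G.Sep Λ T H ω η)
      fun η _ H _ H' _ a a' => G.sep_unique a a'
  have c9 : 0 ≤ ((1 - p) / (1 - p₁)) ^ Φ := Real.rpow_nonneg (div_nonneg h2.le h3.le) _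
  refine s1.trans ((Finset.sum_le_sum s2).trans ?_)
  rw [← Finset.mul_sum]
  calc _ ≤ ((1 - p) / (1 - p₁)) ^ Φ * 1 := mul_le_mul_of_nonneg_left s3 c9
    _ = _ := mul_one _

end Gr

end Pool.Agent.DLP
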