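import Pool.Agent.DLP.ExA

/-!
# DLP/ExB: Fubini, dependence, independence, renaming

Proofs by induction over the finite set `F` with `ex_insert` (model:
`Pool/Agent/H95/Perc/Prob.lean`, `indep`, `pr_restrict`, `pr_image`).

* `ex_union`: induction on `G` (or on `F`).
* `ex_swap`: both sides are double sums, `Finset.sum_comm`.
* `ex_dep_insert`: if `Dep S f` and `i ∉ S` then `f (insert i ω) = f ω`.
* `ex_dep`: reduce both sides to `F ∩ F'`: remove the elements of `F \ F'` (they are not in `S`)
  one by one with `ex_insert` and `p * x + (1 - p) * x = x`.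
* `ex_indep`: induction on `F` with `f, g` generalized: an element `i ∉ F` is not in `S` or not in
  `T`; in the first case `f (insert i ω) = f ω`.
* `ex_two`: `f` depends on `S`, `F = (F ∩ S) ∪ (F \ S)`: special case of `ex_union`.
-/

namespace Pool.Agent.DLP

open Finset

variable {ι : Type} [DecidableEq ι]

theorem ex_union (p : ℝ) {F G : Finset ι} (h : Disjoint F G) (f : Finset ι → ℝ) :
    ex p (F ∪ G) f = ex p F (fun ω => ex p G (fun η => f (ω ∪ η))) := by
  induction F using Finset.induction_on generalizing f with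
  | empty => simp [ex_empty]
  | insert i F hi ih =>
    rw [disjoint_insert_left] at h
    have hi' : i ∉ F ∪ G := by
      rw [mem_union, not_or]
      exact ⟨hi, h.1⟩
    rw [insert_union, ex_insert p hi', ex_insert p hi, ih h.2, ih h.2]
    simp only [insert_union]

theorem ex_swap {κ : Type} [DecidableEq κ] (p t : ℝ) (F : Finset ι) (G : Finset κ)
    (f : Finset ι → Finset κ → ℝ) :
    ex p F (fun ω => ex t G (fun η => f ω η)) = ex t G (fun η => ex p F (fun ω => f ω η)) := by
  unfold ex
  simp only [mul_sum]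
  rw [sum_comm]
  refine sum_congr rfl fun η _ => sum_congr rfl fun ω _ => ?_
  ring

theorem Dep.mono {β : Type*} {S T : Set ι} {f : Finset ι → β} (h : Dep S f) (hST : S ⊆ T) :
    Dep T f := by
  exact fun ω ω' h1 => h ω ω' fun i hi => h1 i (hST hi)

theorem Dep.comp {β γ : Type*} {S : Set ι} {f : Finset ι → β} (h : Dep S f) (g : β → γ) :
    Dep S (fun ω => g (f ω)) := by
  exact fun ω ω' h1 => congrArg g (h ω ω' h1)

theorem Dep.comp₂ {β γ δ : Type*} {S : Set ι} {f : Finset ι → β} {g : Finset ι → γ}
    (hf : Dep S f) (hg : Dep S g) (u : β → γ → δ) : Dep S (fun ω => u (f ω) (g ω)) := by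
  intro ω ω' h1
  show u (f ω) (g ω) = u (f ω') (g ω')
  rw [hf ω ω' h1, hg ω ω' h1]

/-- The expectation of a function which depends only on `S` does not change when `F` is changed
off `S`. -/
theorem ex_dep {p : ℝ} {S : Set ι} {F F' : Finset ι} {f : Finset ι → ℝ} (hf : Dep S f)
    (h : ∀ i ∈ S, (i ∈ F ↔ i ∈ F')) : ex p F f = ex p F' f := by
  have key : ∀ (F F' : Finset ι), (∀ i ∈ S, (i ∈ F ↔ i ∈ F')) → ex p F f = ex p (F ∩ F') f := by
    intro F F' h
    have hd : Disjoint (F ∩ F') (F \ F') := by
      rw [disjoint_left]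
      intro x hx hx'
      rw [mem_inter] at hx
      rw [mem_sdiff] at hx'
      exact hx'.2 hx.2
    have hu : (F ∩ F') ∪ (F \ F') = F := by
      ext x
      rw [mem_union, mem_inter, mem_sdiff]
      tauto
    have h1 := ex_union p hd f
    rw [hu] at h1
    rw [h1]
    refine ex_congr fun ω _ => ?_
    have h2 : ex p (F \ F') (fun η => f (ω ∪ η)) = ex p (F \ F') (fun _ => f ω) := by
      refine ex_congr fun η hη => hf _ _ fun i hi => ?_
      rw [mem_union]
      constructor
      · rintro (h3 | h3)
        · exact h3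
        · have h4 := hη h3
          rw [mem_sdiff] at h4
          exact absurd ((h i hi).1 h4.1) h4.2
      · exact Or.inl
    rw [h2, ex_const]
  rw [key F F' h, key F' F fun i hi => (h i hi).symm, inter_comm]

theorem pr_dep {p : ℝ} {S : Set ι} {F F' : Finset ι} {A : Finset ι → Prop} (hA : Dep S A)
    (h : ∀ i ∈ S, (i ∈ F ↔ i ∈ F')) : pr p F A = pr p F' A := by
  classical
  unfold pr
  exact ex_dep (hA.comp (fun P : Prop => if P then (1 : ℝ) else 0)) h

theorem ex_indep {p : ℝ} {S T : Set ι} {F : Finset ι} {f g : Finset ι → ℝ} (hf : Dep S f)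
    (hg : Dep T g) (hST : Disjoint S T) :
    ex p F (fun ω => f ω * g ω) = ex p F f * ex p F g := by
  induction F using Finset.induction_on generalizing f g with
  | empty => simp [ex_empty]
  | insert i F hi ih =>
    have hsh : ∀ {S : Set ι} {f : Finset ι → ℝ}, Dep S f → Dep S (fun ω => f (insert i ω)) := by
      intro S f hf ω ω' h
      refine hf _ _ fun j hj => ?_
      rw [mem_insert, mem_insert, h j hj]
    have hsame : ∀ {S : Set ι} {f : Finset ι → ℝ}, Dep S f → i ∉ S →
        ex p F (fun ω => f (insert i ω)) = ex p F f := by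
      intro S f hf hiS
      refine ex_congr fun ω _ => hf _ _ fun j hj => ?_
      rw [mem_insert]
      constructor
      · rintro (rfl | h)
        · exact absurd hj hiS
        · exact h
      · exact Or.inr
    rw [ex_insert p hi, ex_insert p hi, ex_insert p hi, ih (hsh hf) (hsh hg), ih hf hg]
    by_cases h : i ∈ S
    · have hT : i ∉ T := fun h' => Set.disjoint_left.1 hST h h'
      rw [hsame hg hT]
      ring
    · rw [hsame hf h]
      ring

theorem pr_indep {p : ℝ} {S T : Set ι} {F : Finset ι} {A B : Finset ι → Prop} (hA : Dep S A)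
    (hB : Dep T B) (hST : Disjoint S T) :
    pr p F (fun ω => A ω ∧ B ω) = pr p F A * pr p F B := by
  classical
  have h1 := ex_indep (p := p) (F := F) (hA.comp (fun P : Prop => if P then (1 : ℝ) else 0))
    (hB.comp (fun P : Prop => if P then (1 : ℝ) else 0)) hST
  have h2 : pr p F (fun ω => A ω ∧ B ω) =
      ex p F (fun ω => (if A ω then (1 : ℝ) else 0) * (if B ω then (1 : ℝ) else 0)) := by
    unfold pr
    refine ex_congr fun ω _ => ?_
    by_cases ha : A ω <;> by_cases hb : B ω <;> simp [ha, hb]
  rw [h2]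
  unfold pr
  convert h1

/-- Renaming. -/
theorem ex_map {κ : Type} [DecidableEq κ] (p : ℝ) (φ : ι ↪ κ) (F : Finset ι)
    (f : Finset κ → ℝ) : ex p (F.map φ) f = ex p F (fun ω => f (ω.map φ)) := by
  induction F using Finset.induction_on generalizing f with
  | empty => simp [ex_empty]
  | insert i F hi ih =>
    have hi' : φ i ∉ F.map φ := by
      rw [mem_map']
      exact hi
    rw [map_insert, ex_insert p hi', ex_insert p hi, ih, ih]
    simp only [map_insert]

theorem pr_map {κ : Type} [DecidableEq κ] (p : ℝ) (φ : ι ↪ κ) (F : Finset ι)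
    (A : Finset κ → Prop) : pr p (F.map φ) A = pr p F (fun ω => A (ω.map φ)) := by
  unfold pr
  exact ex_map p φ F _

private theorem pr_trace_aux (p : ℝ) {A S F : Finset ι} (h : A ⊆ F) (hS : S ⊆ A) :
    pr p F (fun ω => A ∩ ω = S) = p ^ S.card * (1 - p) ^ (A \ S).card := by
  have hdep : Dep (↑A : Set ι) (fun ω : Finset ι => A ∩ ω = S) := by
    intro ω ω' h1
    have h2 : A ∩ ω = A ∩ ω' := by
      ext x
      rw [mem_inter, mem_inter]
      exact and_congr_right fun hx => h1 x hx
    show (A ∩ ω = S) = (A ∩ ω' = S)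
    rw [h2]
  rw [pr_dep (F' := A) hdep fun i hi => ⟨fun _ => hi, fun hi' => h hi'⟩]
  unfold pr ex
  rw [sum_eq_single S]
  · have h1 : A ∩ S = S := inter_eq_right.2 hS
    simp only [h1, if_true, mul_one]
  · intro ω hω hne
    rw [mem_powerset] at hω
    have h1 : ¬ (A ∩ ω = S) := by
      rw [inter_eq_right.2 hω]
      exact hne
    simp only [h1, if_false, mul_zero]
  · intro h1
    exact absurd (mem_powerset.2 hS) h1

theorem pr_contain (p : ℝ) {A F : Finset ι} (h : A ⊆ F) :
    pr p F (fun ω => A ⊆ ω) = p ^ A.card := by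
  have h1 := pr_trace_aux p h (Subset.refl A)
  rw [sdiff_self, bot_eq_empty, card_empty, pow_zero, mul_one] at h1
  rw [← h1]
  exact pr_congr fun ω _ => inter_eq_left.symm

theorem pr_avoid (p : ℝ) {A F : Finset ι} (h : A ⊆ F) :
    pr p F (fun ω => Disjoint A ω) = (1 - p) ^ A.card := by
  have h1 := pr_trace_aux p h (empty_subset A)
  rw [sdiff_empty, card_empty, pow_zero, one_mul] at h1
  rw [← h1]
  exact pr_congr fun ω _ => disjoint_iff_inter_eq_empty

/-- The trace of `ω` on `A ⊆ F` is exactly `S ⊆ A`. -/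
theorem pr_trace (p : ℝ) {A S F : Finset ι} (h : A ⊆ F) (hS : S ⊆ A) :
    pr p F (fun ω => A ∩ ω = S) = p ^ S.card * (1 - p) ^ (A \ S).card := by
  exact pr_trace_aux p h hS

end Pool.Agent.DLP
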