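import Pool.Agent.DLP.Cut

/-!
# DLP/Rch: elementary facts on open paths

* `Reach` is reflexive, symmetric (`Relation.ReflTransGen.symmetric`, the one step relation is
  symmetric), transitive and monotone in `ω` and `U` (`Relation.ReflTransGen.mono`).
* `reach_mem`: all vertices of a nontrivial path are in `U`.
* `exists_cut_edge` : a path in `U` from `x ∈ B` to `y ∉ B` uses an edge of `cut B ∩ ω`; induction on
  the path (`Relation.ReflTransGen.head_induction_on` or `.rec`): take the LAST edge from `B` to its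
  complement; after it the path stays off `B`. Statement `exists_last_exit` gives that form, proved
  by induction with `head_induction_on`: if the first vertex is in `B` ... .
* `reach_inter_touch`: a path all of whose steps have their first vertex in `Λ` only uses
  edges of `touch Λ`; for `Exit` cut the path at the first vertex outside `Λ`.
* `disc_iff`: if no `x ∈ H` exits, take `B` = set of the vertices of `Λ` joined to `H`
  (`B ⊆ Λ`); conversely a path from `x ∈ H ⊆ B` to `y ∉ Λ` leaves `B` through an open edge of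
  `cut B`.
* `dep_*`: `Step` with both end points in `U` only depends on the edges with both end points in `U`.
-/

namespace Pool.Agent.DLP

open Finset

namespace Gr

variable {V E : Type} [DecidableEq V] [DecidableEq E] (G : Gr V E)

theorem Step.symm {G : Gr V E} {ω : Set E} {x y : V} (h : G.Step ω x y) : G.Step ω y x := by
  obtain ⟨e, he, h⟩ := h
  exact ⟨e, he, h.symm⟩

theorem Reach.refl (ω : Set E) (U : Set V) (x : V) : G.Reach ω U x x :=
  Relation.ReflTransGen.refl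

theorem Reach.symm {G : Gr V E} {ω : Set E} {U : Set V} {x y : V} (h : G.Reach ω U x y) :
    G.Reach ω U y x := by
  have h1 : ∀ a b, (G.Step ω a b ∧ a ∈ U ∧ b ∈ U) → (G.Step ω b a ∧ b ∈ U ∧ a ∈ U) :=
    fun a b ⟨h1, h2, h3⟩ => ⟨h1.symm, h3, h2⟩
  unfold Reach at h ⊢
  induction h with
  | refl => exact Relation.ReflTransGen.refl
  | tail _ h2 ih => exact Relation.ReflTransGen.head (h1 _ _ h2) ih

theorem Reach.trans {G : Gr V E} {ω : Set E} {U : Set V} {x y z : V} (h : G.Reach ω U x y)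
    (h' : G.Reach ω U y z) : G.Reach ω U x z :=
  Relation.ReflTransGen.trans h h'

theorem Reach.mono {G : Gr V E} {ω ω' : Set E} {U U' : Set V} {x y : V} (h : G.Reach ω U x y)
    (hω : ω ⊆ ω') (hU : U ⊆ U') : G.Reach ω' U' x y := by
  unfold Reach at h ⊢
  refine Relation.ReflTransGen.mono (fun a b hab => ?_) _ _ h
  obtain ⟨⟨e, he, h1⟩, ha, hb⟩ := hab
  exact ⟨⟨e, hω he, h1⟩, hU ha, hU hb⟩

/-- One open edge inside `U`. -/
theorem Reach.edge {G : Gr V E} {ω : Set E} {U : Set V} {e : E} (he : e ∈ ω) (ha : G.a e ∈ U)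
    (hb : G.b e ∈ U) : G.Reach ω U (G.a e) (G.b e) :=
  Relation.ReflTransGen.single ⟨⟨e, he, Or.inl ⟨rfl, rfl⟩⟩, ha, hb⟩

theorem Reach.mem {G : Gr V E} {ω : Set E} {U : Set V} {x y : V} (h : G.Reach ω U x y)
    (hx : x ∈ U) : y ∈ U := by
  unfold Reach at h
  rcases Relation.ReflTransGen.cases_tail h with h | ⟨c, _, h⟩
  · rw [h]; exact hx
  · exact h.2.2

theorem Reach.eq_or_mem {G : Gr V E} {ω : Set E} {U : Set V} {x y : V} (h : G.Reach ω U x y) :
    x = y ∨ (x ∈ U ∧ y ∈ U) := by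
  have h0 := h
  unfold Reach at h
  rcases Relation.ReflTransGen.cases_head h with h | ⟨c, h, _⟩
  · exact Or.inl h
  · exact Or.inr ⟨h.2.1, h0.mem h.2.1⟩

/-- A path which starts in `B` and ends off `B`: it uses an edge of `cut B`, and after the last such
edge `e` it stays off `B`. -/
theorem Reach.last_exit {G : Gr V E} {ω : Set E} {U : Set V} {x y : V} (h : G.Reach ω U x y)
    {B : Finset V} (hx : x ∈ B) (hy : y ∉ B) :
    ∃ e ∈ ω, ∃ u w, u ∈ B ∧ w ∉ B ∧ ((G.a e = u ∧ G.b e = w) ∨ (G.a e = w ∧ G.b e = u)) ∧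
      u ∈ U ∧ w ∈ U ∧ G.Reach ω U x u ∧ G.Reach ω (U ∩ {z | z ∉ B}) w y := by
  have key : (∃ e ∈ ω, ∃ u w, u ∈ B ∧ w ∉ B ∧
      ((G.a e = u ∧ G.b e = w) ∨ (G.a e = w ∧ G.b e = u)) ∧
      u ∈ U ∧ w ∈ U ∧ G.Reach ω U x u ∧ G.Reach ω (U ∩ {z | z ∉ B}) w y) ∨
      (x ∉ B ∧ G.Reach ω (U ∩ {z | z ∉ B}) x y) := by
    clear hx
    unfold Reach at h
    induction h using Relation.ReflTransGen.head_induction_on with
    | refl => exact Or.inr ⟨hy, Reach.refl G _ _ _⟩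
    | head h1 h2 ih =>
      rename_i p c
      rcases ih with ⟨e, he, u, w, hu, hw, hab, huU, hwU, hr1, hr2⟩ | ⟨hc, hr⟩
      · exact Or.inl ⟨e, he, u, w, hu, hw, hab, huU, hwU,
          Relation.ReflTransGen.head h1 hr1, hr2⟩
      · by_cases ha : p ∈ B
        · obtain ⟨⟨e, he, hab⟩, hpU, hcU⟩ := h1
          exact Or.inl ⟨e, he, p, c, ha, hc, hab, hpU, hcU, Reach.refl G _ _ _, hr⟩
        · exact Or.inr ⟨ha, Relation.ReflTransGen.head
            ⟨h1.1, ⟨h1.2.1, ha⟩, ⟨h1.2.2, hc⟩⟩ hr⟩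
  rcases key with h | h
  · exact h
  · exact absurd hx h.1

/-- The same, with the first exit: before the edge `e` the path stays in `B`. -/
theorem Reach.first_exit {G : Gr V E} {ω : Set E} {U : Set V} {x y : V} (h : G.Reach ω U x y)
    {B : Finset V} (hx : x ∈ B) (hy : y ∉ B) :
    ∃ e ∈ ω, ∃ u w, u ∈ B ∧ w ∉ B ∧ ((G.a e = u ∧ G.b e = w) ∨ (G.a e = w ∧ G.b e = u)) ∧
      u ∈ U ∧ w ∈ U ∧ G.Reach ω (U ∩ (↑B : Set V)) x u ∧ G.Reach ω U w y := by
  unfold Reach at h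
  induction h using Relation.ReflTransGen.head_induction_on with
  | refl => exact absurd hx hy
  | head h1 h2 ih =>
    rename_i p c
    by_cases hc : c ∈ B
    · obtain ⟨e, he, u, w, hu, hw, hab, huU, hwU, hr1, hr2⟩ := ih hc
      exact ⟨e, he, u, w, hu, hw, hab, huU, hwU, Relation.ReflTransGen.head
        ⟨h1.1, ⟨h1.2.1, mem_coe.2 hx⟩, ⟨h1.2.2, mem_coe.2 hc⟩⟩ hr1, hr2⟩
    · obtain ⟨⟨e, he, hab⟩, hpU, hcU⟩ := h1
      exact ⟨e, he, p, c, hx, hc, hab, hpU, hcU, Reach.refl G _ _ _, h2⟩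

theorem Reach.exists_cut_edge {G : Gr V E} {ω : Set E} {U : Set V} {x y : V}
    (h : G.Reach ω U x y) {B : Finset V} (hx : x ∈ B) (hy : y ∉ B) :
    ∃ e ∈ G.cut B, e ∈ ω ∧ G.a e ∈ U ∧ G.b e ∈ U := by
  obtain ⟨e, he, u, w, hu, hw, hab, huU, hwU, -, -⟩ := h.last_exit hx hy
  refine ⟨e, ?_, he, ?_⟩
  · rw [mem_cut]
    rcases hab with ⟨rfl, rfl⟩ | ⟨rfl, rfl⟩
    · exact Or.inl ⟨hu, hw⟩
    · exact Or.inr ⟨hw, hu⟩
  · rcases hab with ⟨rfl, rfl⟩ | ⟨rfl, rfl⟩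
    · exact ⟨huU, hwU⟩
    · exact ⟨hwU, huU⟩

/-- A path inside `U` only uses edges with both end points in `U`. -/
theorem Reach.restrict {G : Gr V E} {ω ω' : Set E} {U : Set V} {x y : V}
    (hω : ∀ e, G.a e ∈ U → G.b e ∈ U → e ∈ ω → e ∈ ω') (h : G.Reach ω U x y) :
    G.Reach ω' U x y := by
  unfold Reach at h ⊢
  refine Relation.ReflTransGen.mono (fun a b hab => ?_) _ _ h
  obtain ⟨⟨e, he, h1⟩, ha, hb⟩ := hab
  refine ⟨⟨e, hω e ?_ ?_ he, h1⟩, ha, hb⟩
  · rcases h1 with ⟨rfl, rfl⟩ | ⟨rfl, rfl⟩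
    · exact ha
    · exact hb
  · rcases h1 with ⟨rfl, rfl⟩ | ⟨rfl, rfl⟩
    · exact hb
    · exact ha

/-- If `x` exits `Λ` then it does so with edges which touch `Λ`. -/
theorem Exit.touch {G : Gr V E} {Λ : Finset V} {ω : Set E} {U : Set V} {x : V}
    (h : G.Exit Λ ω U x) : G.Exit Λ (ω ∩ (↑(G.touch Λ) : Set E)) U x := by
  obtain ⟨y, hy, hr⟩ := h
  by_cases hx : x ∈ Λ
  · obtain ⟨e, he, u, w, hu, hw, hab, huU, hwU, hr1, -⟩ := hr.first_exit hx hy
    refine ⟨w, hw, Reach.trans (y := u) ?_ ?_⟩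
    · refine (hr1.restrict (ω' := ω ∩ (↑(G.touch Λ) : Set E)) ?_).mono subset_rfl
        Set.inter_subset_left
      intro e ha _ he
      exact ⟨he, mem_coe.2 ((mem_touch G).2 (Or.inl (mem_coe.1 ha.2)))⟩
    · refine Relation.ReflTransGen.single ⟨⟨e, ⟨he, mem_coe.2 ((mem_touch G).2 ?_)⟩, hab⟩,
        huU, hwU⟩
      rcases hab with ⟨rfl, rfl⟩ | ⟨rfl, rfl⟩
      · exact Or.inl hu
      · exact Or.inr hu
  · exact ⟨x, hx, Reach.refl G _ _ _⟩

theorem Exit.mono {G : Gr V E} {Λ Λ' : Finset V} {ω ω' : Set E} {U U' : Set V} {x : V}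
    (h : G.Exit Λ ω U x) (hΛ : Λ' ⊆ Λ) (hω : ω ⊆ ω') (hU : U ⊆ U') : G.Exit Λ' ω' U' x := by
  obtain ⟨y, hy, hr⟩ := h
  exact ⟨y, fun h => hy (hΛ h), hr.mono hω hU⟩

theorem disc_iff {Λ H : Finset V} (hH : H ⊆ Λ) (ω : Finset E) :
    G.Disc Λ H ω ↔ ∀ x ∈ H, ¬ G.Exit Λ (↑ω : Set E) Set.univ x := by
  classical
  constructor
  · rintro ⟨B, hHB, hBΛ, hd⟩ x hx ⟨y, hy, hr⟩
    obtain ⟨e, he, heω, -, -⟩ := hr.exists_cut_edge (hHB hx) (fun h => hy (hBΛ h))
    exact disjoint_left.1 hd he (mem_coe.1 heω)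
  · intro h
    refine ⟨Λ.filter (fun y => ∃ x ∈ H, G.Reach (↑ω : Set E) Set.univ x y), ?_,
      filter_subset _ _, ?_⟩
    · intro x hx
      rw [mem_filter]
      exact ⟨hH hx, x, hx, Reach.refl G _ _ _⟩
    · have key : ∀ e ∈ ω, ∀ u w, ((G.a e = u ∧ G.b e = w) ∨ (G.a e = w ∧ G.b e = u)) →
          u ∈ Λ.filter (fun y => ∃ x ∈ H, G.Reach (↑ω : Set E) Set.univ x y) →
          w ∈ Λ.filter (fun y => ∃ x ∈ H, G.Reach (↑ω : Set E) Set.univ x y) := by
        intro e he u w hab hu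
        rw [mem_filter] at hu ⊢
        obtain ⟨-, x, hx, hr⟩ := hu
        have hr2 : G.Reach (↑ω : Set E) Set.univ x w :=
          hr.trans (Relation.ReflTransGen.single ⟨⟨e, mem_coe.2 he, hab⟩, trivial, trivial⟩)
        refine ⟨?_, x, hx, hr2⟩
        by_contra hw
        exact h x hx ⟨w, hw, hr2⟩
      rw [disjoint_left]
      intro e he heω
      rw [mem_cut] at he
      rcases he with ⟨h1, h2⟩ | ⟨h1, h2⟩
      · exact h2 (key e heω _ _ (Or.inl ⟨rfl, rfl⟩) h1)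
      · exact h1 (key e heω _ _ (Or.inr ⟨rfl, rfl⟩) h2)

/-- Inside the finite vertex set `B`, connections only depend on the edges inside `B`. -/
theorem dep_reach (B : Finset V) (x y : V) :
    Dep (↑(G.inn B) : Set E) (fun ω : Finset E => G.Reach (↑ω : Set E) (↑B : Set V) x y) := by
  have key : ∀ ω ω' : Finset E, (∀ i ∈ (↑(G.inn B) : Set E), (i ∈ ω ↔ i ∈ ω')) →
      G.Reach (↑ω : Set E) (↑B : Set V) x y → G.Reach (↑ω' : Set E) (↑B : Set V) x y := by
    intro ω ω' h hr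
    refine hr.restrict ?_
    intro e ha hb he
    exact mem_coe.2 ((h e (mem_coe.2 ((mem_inn G).2 ⟨mem_coe.1 ha, mem_coe.1 hb⟩))).1
      (mem_coe.1 he))
  intro ω ω' h
  exact propext ⟨key ω ω' h, key ω' ω fun i hi => (h i hi).symm⟩

/-- Connections off `H` only depend on the edges which do not touch `H`. -/
theorem dep_exit (Λ H : Finset V) (x : V) :
    Dep {e : E | e ∈ G.touch Λ ∧ G.a e ∉ H ∧ G.b e ∉ H}
      (fun ω : Finset E => G.Exit Λ (↑ω : Set E) {y | y ∉ H} x) := by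
  have key : ∀ ω ω' : Finset E,
      (∀ i ∈ {e : E | e ∈ G.touch Λ ∧ G.a e ∉ H ∧ G.b e ∉ H}, (i ∈ ω ↔ i ∈ ω')) →
      G.Exit Λ (↑ω : Set E) {y | y ∉ H} x → G.Exit Λ (↑ω' : Set E) {y | y ∉ H} x := by
    intro ω ω' h hr
    obtain ⟨y, hy, hr⟩ := hr.touch
    refine ⟨y, hy, hr.restrict ?_⟩
    intro e ha hb he
    exact mem_coe.2 ((h e ⟨mem_coe.1 he.2, ha, hb⟩).1 (mem_coe.1 he.1))
  intro ω ω' h
  exact propext ⟨key ω ω' h, key ω' ω fun i hi => (h i hi).symm⟩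

theorem dep_disc (Λ H : Finset V) :
    Dep (↑(G.touch Λ) : Set E) (fun ω : Finset E => G.Disc Λ H ω) := by
  have key : ∀ ω ω' : Finset E, (∀ i ∈ (↑(G.touch Λ) : Set E), (i ∈ ω ↔ i ∈ ω')) →
      G.Disc Λ H ω → G.Disc Λ H ω' := by
    rintro ω ω' h ⟨B, hHB, hBΛ, hd⟩
    refine ⟨B, hHB, hBΛ, ?_⟩
    rw [disjoint_left] at hd ⊢
    intro e he heω
    exact hd he ((h e (mem_coe.2 (touch_mono G hBΛ (cut_subset_touch G B he)))).2 heω)
  intro ω ω' h
  exact propext ⟨key ω ω' h, key ω' ω fun i hi => (h i hi).symm⟩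

end Gr

end Pool.Agent.DLP
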