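import Pool.Agent.DLP.Official
import Pool.Agent.DLP.Rch
import Pool.Agent.DLP.ExB

/-!
# DLP/Inf1: the infinite product measure and finite volume probabilities

* `perc_cyl`: the set `{ω | A (F.filter ω)}` is the disjoint union over the `S ⊆ F` with `A S` of the
  cylinders `{ω | ∀ e ∈ F, (ω e = true ↔ e ∈ S)}`; the measure of such a cylinder is
  `p^|S| (1-p)^|F \ S|` (`Measure.infinitePi_pi` or
  `MeasureTheory.Measure.infinitePi_apply`-type lemma for boxes `Set.pi F t` with
  `t e = {true}` or `{false}`; `bern {true} = p`, `bern {false} = 1 - p`; note that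
  `Set.pi (↑F) t`). Sum: `ENNReal.ofReal_sum_of_nonneg`, definition of `pr`, `ex`
  (`Finset.sum_filter`).
* `exit_cyl`: `Exit Λ (opn ω) univ x` iff `Exit Λ ↑((touch Λ).filter ω) univ x` (`Exit.touch`,
  `Exit.mono`).
* `infinite_iff`: the cluster is infinite iff `v` exits every finite set: if infinite it is not
  contained in `Λ`; if finite, take `Λ` = the cluster.
* `exists_exhaustion`: for countable `V`: an increasing sequence of finite sets with union `V`
  (`Set.countable_univ`, enumeration `exists_surjective_nat` or `Encodable`).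
* `perc_infinite_ge`: if every finite `Λ ∋ v` is exited with probability `≥ θ`, then
  `perc {infinite} ≥ θ`: decreasing intersection of the cylinder events over an
  exhaustion (`tendsto_measure_iInter_atTop` / `measure_iInter_eq_iInf`), measurable since they are
  finite unions of cylinders (measurability: `measurableSet_cyl`).
-/

namespace Pool.Agent.DLP

open Finset MeasureTheory

section

variable {E : Type} [DecidableEq E]

open Classical in
private theorem inf1_union (F : Finset E) (A : Finset E → Prop) :
    {ω : E → Bool | A (F.filter (fun e => ω e = true))} =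
      ⋃ S ∈ F.powerset.filter (fun S => A S),
        Set.pi (↑F : Set E) (fun e => if e ∈ S then ({true} : Set Bool) else {false}) := by
  ext ω
  rw [Set.mem_ofPred_eq, Set.mem_iUnion₂]
  constructor
  · intro h
    refine ⟨F.filter (fun e => ω e = true), ?_, ?_⟩
    · rw [mem_filter, mem_powerset]
      exact ⟨filter_subset _ _, h⟩
    · intro e he
      by_cases h1 : ω e = true
      · have h2 : e ∈ F.filter (fun e => ω e = true) := mem_filter.2 ⟨mem_coe.1 he, h1⟩
        simp only [h2, if_true]
        exact h1
      · have h2 : e ∉ F.filter (fun e => ω e = true) := fun h3 => h1 (mem_filter.1 h3).2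
        simp only [h2, if_false]
        exact Bool.eq_false_iff.2 h1
  · rintro ⟨S, hS, hω⟩
    rw [mem_filter, mem_powerset] at hS
    have h1 : F.filter (fun e => ω e = true) = S := by
      ext e
      rw [mem_filter]
      constructor
      · rintro ⟨he, h2⟩
        by_contra hc
        have h3 := hω e (mem_coe.2 he)
        simp only [hc, if_false] at h3
        rw [Set.mem_singleton_iff, h2] at h3
        exact absurd h3 (by decide)
      · intro he
        have h3 := hω e (mem_coe.2 (hS.1 he))
        simp only [he, if_true] at h3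
        exact ⟨hS.1 he, h3⟩
    rw [h1]
    exact hS.2

private theorem inf1_meas (F S : Finset E) : MeasurableSet
    (Set.pi (↑F : Set E) (fun e => if e ∈ S then ({true} : Set Bool) else {false})) := by
  refine MeasurableSet.pi F.countable_toSet fun e _ => ?_
  exact MeasurableSet.of_discrete

open Classical in
private theorem inf1_disj (F : Finset E) (A : Finset E → Prop) :
    Set.PairwiseDisjoint (↑(F.powerset.filter (fun S => A S)) : Set (Finset E))
      (fun S => Set.pi (↑F : Set E) (fun e => if e ∈ S then ({true} : Set Bool) else {false})) := by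
  intro S hS S' hS' hne
  rw [mem_coe, mem_filter, mem_powerset] at hS hS'
  rw [Function.onFun, Set.disjoint_left]
  intro ω h1 h2
  apply hne
  have key : ∀ {S S' : Finset E}, S ⊆ F →
      ω ∈ Set.pi (↑F : Set E) (fun e => if e ∈ S then ({true} : Set Bool) else {false}) →
      ω ∈ Set.pi (↑F : Set E) (fun e => if e ∈ S' then ({true} : Set Bool) else {false}) →
      S ⊆ S' := by
    intro S S' hS h1 h2 e he
    by_contra hc
    have h3 := h1 e (mem_coe.2 (hS he))
    have h4 := h2 e (mem_coe.2 (hS he))
    simp only [he, if_true] at h3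
    simp only [hc, if_false] at h4
    rw [Set.mem_singleton_iff] at h3 h4
    rw [h3] at h4
    exact absurd h4 (by decide)
  exact Finset.Subset.antisymm (key hS.1 h1 h2) (key hS'.1 h2 h1)

private theorem inf1_perc (p : unitInterval) {F S : Finset E} (hS : S ⊆ F) :
    perc E p (Set.pi (↑F : Set E) (fun e => if e ∈ S then ({true} : Set Bool) else {false})) =
      ENNReal.ofReal ((p : ℝ) ^ S.card * (1 - (p : ℝ)) ^ (F \ S).card) := by
  have h0 : (0 : ℝ) ≤ p := p.2.1
  have h1 : (0 : ℝ) ≤ 1 - p := sub_nonneg.mpr p.2.2
  unfold perc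
  have h3 := Measure.infinitePi_pi (μ := fun _ : E => bern p) (s := F)
    (t := fun e => if e ∈ S then ({true} : Set Bool) else {false})
    (fun e _ => MeasurableSet.of_discrete)
  rw [h3]
  have ht : bern p {true} = ENNReal.ofReal p := by
    simp [bern]
  have hf : bern p {false} = ENNReal.ofReal (1 - p) := by
    simp [bern]
  have h2 : ∀ e ∈ F, bern p (if e ∈ S then ({true} : Set Bool) else {false}) =
      if e ∈ S then ENNReal.ofReal p else ENNReal.ofReal (1 - p) := by
    intro e _
    by_cases he : e ∈ S
    · simp only [he, if_true, ht]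
    · simp only [he, if_false, hf]
  rw [prod_congr rfl h2, prod_ite, prod_const, prod_const, ENNReal.ofReal_mul (by positivity),
    ENNReal.ofReal_pow h0, ENNReal.ofReal_pow h1]
  congr 3
  · rw [filter_mem_eq_inter, inter_eq_right.2 hS]
  · rw [filter_notMem_eq_sdiff]

theorem measurableSet_cyl (F : Finset E) (A : Finset E → Prop) :
    MeasurableSet {ω : E → Bool | A (F.filter (fun e => ω e = true))} := by
  classical
  rw [inf1_union F A]
  exact Finset.measurableSet_biUnion _ fun S _ => inf1_meas F S

theorem perc_cyl (p : unitInterval) (F : Finset E) (A : Finset E → Prop) :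
    perc E p {ω : E → Bool | A (F.filter (fun e => ω e = true))} =
      ENNReal.ofReal (pr (p : ℝ) F A) := by
  classical
  have h0 : (0 : ℝ) ≤ p := p.2.1
  have h1 : (0 : ℝ) ≤ 1 - p := sub_nonneg.mpr p.2.2
  rw [inf1_union F A, measure_biUnion_finset (inf1_disj F _) fun S _ => inf1_meas F S]
  have h2 : pr (p : ℝ) F A = ∑ S ∈ F.powerset.filter (fun S => A S),
      (p : ℝ) ^ S.card * (1 - (p : ℝ)) ^ (F \ S).card := by
    unfold pr ex
    rw [sum_filter]
    refine sum_congr rfl fun S _ => ?_
    by_cases hS : A S
    · simp [hS]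
    · simp [hS]
  rw [h2, ENNReal.ofReal_sum_of_nonneg fun S _ => by positivity]
  refine sum_congr rfl fun S hS => ?_
  rw [mem_filter, mem_powerset] at hS
  exact inf1_perc p hS.1

/-- At `p = 1` almost surely all the edges are open. -/
theorem perc_one [Countable E] : ∀ᵐ ω ∂(perc E 1), ∀ e, ω e = true := by
  rw [ae_all_iff]
  intro e
  rw [ae_iff]
  have h1 := perc_cyl (1 : unitInterval) ({e} : Finset E) (fun S => Disjoint ({e} : Finset E) S)
  have h2 : {ω : E → Bool | ¬ ω e = true} = {ω : E → Bool |
      (fun S => Disjoint ({e} : Finset E) S) (({e} : Finset E).filter (fun e => ω e = true))} := by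
    ext ω
    by_cases h : ω e = true <;> simp [Finset.filter_singleton, h]
  rw [h2, h1, pr_avoid _ (Finset.Subset.refl _)]
  simp

end

namespace Gr

variable {V E : Type} [DecidableEq V] [DecidableEq E] (G : Gr V E)

theorem exit_cyl (ω : E → Bool) (Λ : Finset V) (x : V) :
    G.Exit Λ (opn ω) Set.univ x ↔
      G.Exit Λ (↑((G.touch Λ).filter (fun e => ω e = true)) : Set E) Set.univ x := by
  constructor
  · intro h
    refine h.touch.mono (Finset.Subset.refl _) ?_ subset_rfl
    intro e he
    rw [mem_coe, mem_filter]
    exact ⟨mem_coe.1 he.2, he.1⟩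
  · intro h
    refine h.mono (Finset.Subset.refl _) ?_ subset_rfl
    intro e he
    rw [mem_coe, mem_filter] at he
    exact he.2

theorem infinite_iff (ω : E → Bool) (v : V) :
    (G.cluster ω v).Infinite ↔ ∀ Λ : Finset V, v ∈ Λ → G.Exit Λ (opn ω) Set.univ v := by
  constructor
  · intro h Λ _
    obtain ⟨y, hy, hyΛ⟩ := h.exists_notMem_finset Λ
    exact ⟨y, hyΛ, hy⟩
  · intro h hfin
    have hv : v ∈ G.cluster ω v := Reach.refl G _ _ _
    obtain ⟨y, hy, hr⟩ := h hfin.toFinset (hfin.mem_toFinset.2 hv)
    exact hy (hfin.mem_toFinset.2 hr)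

theorem perc_exit (p : unitInterval) (Λ : Finset V) (x : V) :
    perc E p {ω | G.Exit Λ (opn ω) Set.univ x} =
      ENNReal.ofReal (pr (p : ℝ) (G.touch Λ)
        (fun ω => G.Exit Λ (↑ω : Set E) Set.univ x)) := by
  have h : {ω : E → Bool | G.Exit Λ (opn ω) Set.univ x} =
      {ω : E → Bool | (fun S : Finset E => G.Exit Λ (↑S : Set E) Set.univ x)
        ((G.touch Λ).filter (fun e => ω e = true))} := by
    ext ω
    exact G.exit_cyl ω Λ x
  rw [h]
  exact perc_cyl p (G.touch Λ) (fun S : Finset E => G.Exit Λ (↑S : Set E) Set.univ x)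

theorem perc_infinite_ge [Countable V] (p : unitInterval) (v : V) {θ : ℝ}
    (h : ∀ Λ : Finset V, v ∈ Λ → θ ≤ pr (p : ℝ) (G.touch Λ)
      (fun ω => G.Exit Λ (↑ω : Set E) Set.univ v)) :
    ENNReal.ofReal θ ≤ perc E p {ω | (G.cluster ω v).Infinite} := by
  have hanti : Antitone fun Λ : Finset V =>
      {ω : E → Bool | G.Exit (insert v Λ) (opn ω) Set.univ v} := by
    intro Λ Λ' h' ω hω
    exact Exit.mono hω (Finset.insert_subset_insert v h') subset_rfl subset_rfl
  have hmeas : ∀ Λ : Finset V, MeasurableSet
      {ω : E → Bool | G.Exit (insert v Λ) (opn ω) Set.univ v} := by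
    intro Λ
    have h : {ω : E → Bool | G.Exit (insert v Λ) (opn ω) Set.univ v} =
        {ω : E → Bool | (fun S : Finset E => G.Exit (insert v Λ) (↑S : Set E) Set.univ v)
          ((G.touch (insert v Λ)).filter (fun e => ω e = true))} := by
      ext ω
      exact G.exit_cyl ω (insert v Λ) v
    rw [h]
    exact measurableSet_cyl (G.touch (insert v Λ))
      (fun S : Finset E => G.Exit (insert v Λ) (↑S : Set E) Set.univ v)
  have heq : {ω : E → Bool | (G.cluster ω v).Infinite} =
      ⋂ Λ : Finset V, {ω : E → Bool | G.Exit (insert v Λ) (opn ω) Set.univ v} := by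
    ext ω
    rw [Set.mem_ofPred_eq, G.infinite_iff, Set.mem_iInter]
    constructor
    · intro h1 Λ
      exact h1 _ (mem_insert_self v Λ)
    · intro h1 Λ hv
      have := h1 Λ
      rwa [Set.mem_ofPred_eq, insert_eq_of_mem hv] at this
  have hprob : IsProbabilityMeasure (perc E p) := by
    unfold perc
    infer_instance
  rw [heq, hanti.measure_iInter (fun Λ => (hmeas Λ).nullMeasurableSet)
    ⟨∅, measure_ne_top _ _⟩]
  refine le_iInf fun Λ => ?_
  rw [perc_exit]
  exact ENNReal.ofReal_le_ofReal (h _ (mem_insert_self v Λ))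

end Gr

end Pool.Agent.DLP
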