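import Pool.Agent.DLP.ExB

/-!
# DLP/ExC: Harris' inequality and thinning

* `harris`: induction on `F` with `f, g` generalized, exactly as in
  `Pool/Agent/H95/Perc/Prob.lean`: with `f₁ = ex p F (f ∘ insert i)`, `f₀ = ex p F f` etc. one has
  `f₀ ≤ f₁`, `g₀ ≤ g₁` and
  `p f₁ g₁ + (1-p) f₀ g₀ - (p f₁ + (1-p) f₀)(p g₁ + (1-p) g₀) = p (1-p) (f₁ - f₀)(g₁ - g₀) ≥ 0`.
* `ex_thin`: induction on `F` with `f` generalized:
  `(insert i ω) ∩ (insert i η) = insert i (ω ∩ η)`, and the other three combinations give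
  `ω ∩ η`; the weights are `p t` and `p (1-t) + (1-p) t + (1-p)(1-t) = 1 - p t`.
* `ex_mono_p`: induction, or `ex_thin` with `p = p' * (p / p')` and `ω ∩ η ⊆ ω`.
-/

namespace Pool.Agent.DLP

open Finset

variable {ι : Type} [DecidableEq ι]

theorem harris {p : ℝ} (h0 : 0 ≤ p) (h1 : p ≤ 1) (F : Finset ι) {f g : Finset ι → ℝ}
    (hf : ∀ ω ω' : Finset ι, ω ⊆ ω' → f ω ≤ f ω') (hg : ∀ ω ω' : Finset ι, ω ⊆ ω' → g ω ≤ g ω') :
    ex p F f * ex p F g ≤ ex p F (fun ω => f ω * g ω) := by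
  induction F using Finset.induction_on generalizing f g with
  | empty => rw [ex_empty, ex_empty, ex_empty]
  | insert i F hi ih =>
    have hsh : ∀ {f : Finset ι → ℝ}, (∀ ω ω' : Finset ι, ω ⊆ ω' → f ω ≤ f ω') →
        (∀ ω ω' : Finset ι, ω ⊆ ω' → f (insert i ω) ≤ f (insert i ω')) :=
      fun hf ω ω' h => hf _ _ (insert_subset_insert i h)
    rw [ex_insert p hi, ex_insert p hi, ex_insert p hi]
    have i0 := ih hf hg
    have i1 := ih (hsh hf) (hsh hg)
    have m1 : ex p F f ≤ ex p F (fun ω => f (insert i ω)) :=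
      ex_mono h0 h1 fun ω _ => hf _ _ (subset_insert i ω)
    have m2 : ex p F g ≤ ex p F (fun ω => g (insert i ω)) :=
      ex_mono h0 h1 fun ω _ => hg _ _ (subset_insert i ω)
    have hq : 0 ≤ 1 - p := by linarith
    have j1 := mul_le_mul_of_nonneg_left i1 h0
    have j0 := mul_le_mul_of_nonneg_left i0 hq
    have j2 := mul_nonneg (mul_nonneg h0 hq) (mul_nonneg (sub_nonneg.mpr m1) (sub_nonneg.mpr m2))
    nlinarith [j0, j1, j2]

theorem harris_pr {p : ℝ} (h0 : 0 ≤ p) (h1 : p ≤ 1) (F : Finset ι) {A B : Finset ι → Prop}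
    (hA : ∀ ω ω' : Finset ι, ω ⊆ ω' → A ω → A ω') (hB : ∀ ω ω' : Finset ι, ω ⊆ ω' → B ω → B ω') :
    pr p F A * pr p F B ≤ pr p F (fun ω => A ω ∧ B ω) := by
  classical
  have key : ∀ {A : Finset ι → Prop}, (∀ ω ω' : Finset ι, ω ⊆ ω' → A ω → A ω') →
      ∀ ω ω' : Finset ι, ω ⊆ ω' → (if A ω then (1 : ℝ) else 0) ≤ if A ω' then (1 : ℝ) else 0 := by
    intro A hA ω ω' h
    by_cases h2 : A ω
    · rw [if_pos h2, if_pos (hA _ _ h h2)]
    · rw [if_neg h2]
      split_ifs
      · exact zero_le_one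
      · exact le_rfl
  have h2 := harris h0 h1 F (key hA) (key hB)
  unfold pr
  refine h2.trans (le_of_eq (ex_congr fun ω _ => ?_))
  by_cases ha : A ω <;> by_cases hb : B ω <;> simp [ha, hb]

theorem ex_thin (p t : ℝ) (F : Finset ι) (f : Finset ι → ℝ) :
    ex p F (fun ω => ex t F (fun η => f (ω ∩ η))) = ex (p * t) F f := by
  induction F using Finset.induction_on generalizing f with
  | empty => rw [ex_empty, ex_empty, ex_empty, inter_empty]
  | insert i F hi ih =>
    rw [ex_insert p hi, ex_insert (p * t) hi, ← ih, ← ih]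
    have e1 : ex p F (fun ω => ex t (insert i F) (fun η => f (insert i ω ∩ η))) =
        t * ex p F (fun ω => ex t F (fun η => f (insert i (ω ∩ η)))) +
        (1 - t) * ex p F (fun ω => ex t F (fun η => f (ω ∩ η))) := by
      rw [← ex_mul_left, ← ex_mul_left, ← ex_add]
      refine ex_congr fun ω hω => ?_
      rw [ex_insert t hi]
      congr 2
      · refine ex_congr fun η _ => ?_
        rw [← insert_inter_distrib]
      · refine ex_congr fun η hη => ?_
        rw [insert_inter_of_notMem fun h => hi (hη h)]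
    have e2 : ex p F (fun ω => ex t (insert i F) (fun η => f (ω ∩ η))) =
        ex p F (fun ω => ex t F (fun η => f (ω ∩ η))) := by
      refine ex_congr fun ω hω => ?_
      rw [ex_insert t hi]
      have e3 : ex t F (fun η => f (ω ∩ insert i η)) = ex t F (fun η => f (ω ∩ η)) := by
        refine ex_congr fun η _ => ?_
        rw [inter_insert_of_notMem fun h => hi (hω h)]
      rw [e3]
      ring
    rw [e1, e2]
    ring

theorem pr_thin (p t : ℝ) (F : Finset ι) (A : Finset ι → Prop) :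
    ex p F (fun ω => pr t F (fun η => A (ω ∩ η))) = pr (p * t) F A := by
  classical
  unfold pr
  exact ex_thin p t F (fun ω => if A ω then (1 : ℝ) else 0)

theorem ex_mono_p {p p' : ℝ} (h0 : 0 ≤ p) (hp : p ≤ p') (h1 : p' ≤ 1) (F : Finset ι)
    {f : Finset ι → ℝ} (hf : ∀ ω ω' : Finset ι, ω ⊆ ω' → f ω ≤ f ω') :
    ex p F f ≤ ex p' F f := by
  induction F using Finset.induction_on generalizing f with
  | empty => rw [ex_empty, ex_empty]
  | insert i F hi ih =>
    rw [ex_insert p hi, ex_insert p' hi]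
    have i0 := ih hf
    have i1 := ih (f := fun ω => f (insert i ω))
      (fun ω ω' h => hf _ _ (insert_subset_insert i h))
    have m1 : ex p F f ≤ ex p F (fun ω => f (insert i ω)) :=
      ex_mono h0 (hp.trans h1) fun ω _ => hf _ _ (subset_insert i ω)
    have hq : 0 ≤ 1 - p' := by linarith
    have j1 := mul_le_mul_of_nonneg_left i1 (h0.trans hp)
    have j0 := mul_le_mul_of_nonneg_left i0 hq
    have j2 := mul_nonneg (sub_nonneg.mpr hp) (sub_nonneg.mpr m1)
    nlinarith [j0, j1, j2]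

theorem pr_mono_p {p p' : ℝ} (h0 : 0 ≤ p) (hp : p ≤ p') (h1 : p' ≤ 1) (F : Finset ι)
    {A : Finset ι → Prop} (hA : ∀ ω ω' : Finset ι, ω ⊆ ω' → A ω → A ω') :
    pr p F A ≤ pr p' F A := by
  classical
  unfold pr
  refine ex_mono_p h0 hp h1 F fun ω ω' h => ?_
  by_cases h2 : A ω
  · rw [if_pos h2, if_pos (hA _ _ h h2)]
  · rw [if_neg h2]
    split_ifs
    · exact zero_le_one
    · exact le_rfl

end Pool.Agent.DLP
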