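import Pool.Agent.DLP.DL
import Pool.Agent.DLP.Rch

/-!
# DLP/DLBasic: lamps, blocks, edges of blocks

All statements are elementary. `mem_lamps` from `Finset.mem_finsupp_iff`; `card_lamps` from
`Finset.card_finsupp` and `Int.card_Ico`, `ZMod.card`.
`sum_lamps_split`: the map `(h₁, h₂) ↦ h₁ + h₂` is a bijection from
`lamps a b ×ˢ lamps b c` onto `lamps a c` (inverse: restrict with `Finsupp.filter`);
`Finset.sum_product`, `Finset.sum_bij`/`Finset.sum_nbij'`.
`mem_inn_blk`: if `a ≤ n < b` and `g - f ∈ lamps a b` then `g + x δ_n - f ∈ lamps a b`.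
`inc_interior`: for a vertex `v` of the block with `a < v.1 < b` both kinds of edges at `v` have
both end points in the block.
`exit_blk`: `Reach.first_exit` with `B` the block: the edge `e` has one end point `u` in the block
and the other one not in the block, so by `inc_interior` `u.1 = a` or `u.1 = b`.
-/

namespace Pool.Agent.DLP

open Finset

variable {q : ℕ} [NeZero q]

theorem DL_a (e : DE q) : (DL q).a e = e.1 := rfl

theorem DL_b (e : DE q) : (DL q).b e = (e.1.1 + 1, e.1.2 + Finsupp.single e.1.1 e.2) := rfl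

theorem card_inc (v : DV q) : ((DL q).inc v).card = 2 * q := by
  classical
  have h1 : (Finset.univ.image fun x : ZMod q => (v, x)).card = q := by
    rw [Finset.card_image_of_injective, Finset.card_univ, ZMod.card]
    intro x y h
    exact (Prod.ext_iff.1 h).2
  have h2 : (Finset.univ.image fun x : ZMod q =>
      (((v.1 - 1, v.2 - Finsupp.single (v.1 - 1) x), x) : DE q)).card = q := by
    rw [Finset.card_image_of_injective, Finset.card_univ, ZMod.card]
    intro x y h
    exact (Prod.ext_iff.1 h).2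
  have h3 : Disjoint (Finset.univ.image fun x : ZMod q => ((v, x) : DE q))
      (Finset.univ.image fun x : ZMod q =>
        (((v.1 - 1, v.2 - Finsupp.single (v.1 - 1) x), x) : DE q)) := by
    rw [Finset.disjoint_left]
    intro e he he'
    rw [Finset.mem_image] at he he'
    obtain ⟨x, -, hx⟩ := he
    obtain ⟨y, -, hy⟩ := he'
    have h4 : e.1.1 = v.1 := by rw [← hx]
    have h5 : e.1.1 = v.1 - 1 := by rw [← hy]
    omega
  have h4 : (DL q).inc v = (Finset.univ.image fun x : ZMod q => ((v, x) : DE q)) ∪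
      (Finset.univ.image fun x : ZMod q =>
        (((v.1 - 1, v.2 - Finsupp.single (v.1 - 1) x), x) : DE q)) := by
    ext e
    simp only [DL]
  rw [h4, Finset.card_union_of_disjoint h3, h1, h2]
  ring

theorem mem_lamps {a b : ℤ} {h : Lm q} : h ∈ lamps q a b ↔ ∀ i, (i < a ∨ b ≤ i) → h i = 0 := by
  unfold lamps
  rw [Finset.mem_finsupp_iff]
  constructor
  · rintro ⟨h1, -⟩ i hi
    by_contra hne
    have h2 := h1 (Finsupp.mem_support_iff.2 hne)
    rw [Finset.mem_Ico] at h2
    omega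
  · intro h1
    refine ⟨?_, fun i _ => Finset.mem_univ _⟩
    intro i hi
    rw [Finsupp.mem_support_iff] at hi
    rw [Finset.mem_Ico]
    by_contra hcon
    apply hi
    apply h1
    omega

theorem card_lamps (a b : ℤ) : (lamps q a b).card = q ^ (b - a).toNat := by
  unfold lamps
  rw [Finset.card_finsupp]
  simp only [Finset.card_univ, ZMod.card]
  rw [Finset.prod_const, Int.card_Ico]

theorem zero_mem_lamps (a b : ℤ) : (0 : Lm q) ∈ lamps q a b := by
  rw [mem_lamps]
  intro i _
  rfl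

theorem add_mem_lamps {a b : ℤ} {h h' : Lm q} (hh : h ∈ lamps q a b) (hh' : h' ∈ lamps q a b) :
    h + h' ∈ lamps q a b := by
  rw [mem_lamps] at hh hh' ⊢
  intro i hi
  rw [Finsupp.add_apply, hh i hi, hh' i hi, add_zero]

theorem neg_mem_lamps {a b : ℤ} {h : Lm q} (hh : h ∈ lamps q a b) : -h ∈ lamps q a b := by
  rw [mem_lamps] at hh ⊢
  intro i hi
  rw [Finsupp.neg_apply, hh i hi, neg_zero]

theorem sub_mem_lamps {a b : ℤ} {h h' : Lm q} (hh : h ∈ lamps q a b) (hh' : h' ∈ lamps q a b) :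
    h - h' ∈ lamps q a b := by
  rw [mem_lamps] at hh hh' ⊢
  intro i hi
  rw [Finsupp.sub_apply, hh i hi, hh' i hi, sub_zero]

theorem lamps_mono {a b a' b' : ℤ} (ha : a' ≤ a) (hb : b ≤ b') : lamps q a b ⊆ lamps q a' b' := by
  intro h hh
  rw [mem_lamps] at hh ⊢
  intro i hi
  apply hh
  omega

theorem single_mem_lamps {a b n : ℤ} (ha : a ≤ n) (hb : n < b) (x : ZMod q) :
    Finsupp.single n x ∈ lamps q a b := by
  rw [mem_lamps]
  intro i hi
  rw [Finsupp.single_apply, if_neg]
  omega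

theorem sum_lamps_split {a b c : ℤ} (hab : a ≤ b) (hbc : b ≤ c) (F : Lm q → ℝ) :
    ∑ h ∈ lamps q a c, F h = ∑ h₁ ∈ lamps q a b, ∑ h₂ ∈ lamps q b c, F (h₁ + h₂) := by
  classical
  rw [← Finset.sum_product']
  refine Finset.sum_bij' (fun h _ => (h.filter (fun i => i < b), h.filter (fun i => b ≤ i)))
    (fun p _ => p.1 + p.2) ?_ ?_ ?_ ?_ ?_
  · intro h hh
    rw [mem_lamps] at hh
    rw [Finset.mem_product]
    constructor
    · rw [mem_lamps]
      intro i hi
      rw [Finsupp.filter_apply]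
      split_ifs with h1
      · apply hh
        omega
      · rfl
    · rw [mem_lamps]
      intro i hi
      rw [Finsupp.filter_apply]
      split_ifs with h1
      · apply hh
        omega
      · rfl
  · rintro ⟨h1, h2⟩ hp
    rw [Finset.mem_product] at hp
    exact add_mem_lamps (lamps_mono le_rfl hbc hp.1) (lamps_mono hab le_rfl hp.2)
  · intro h _
    ext i
    simp only [Finsupp.add_apply, Finsupp.filter_apply]
    by_cases h1 : i < b
    · rw [if_pos h1, if_neg (by omega), add_zero]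
    · rw [if_neg h1, if_pos (by omega), zero_add]
  · rintro ⟨h1, h2⟩ hp
    rw [Finset.mem_product, mem_lamps, mem_lamps] at hp
    obtain ⟨hp1, hp2⟩ := hp
    simp only at hp1 hp2
    refine Prod.ext ?_ ?_
    · ext i
      simp only [Finsupp.add_apply, Finsupp.filter_apply]
      by_cases h3 : i < b
      · rw [if_pos h3, hp2 i (Or.inl h3), add_zero]
      · rw [if_neg h3, hp1 i (Or.inr (by omega))]
    · ext i
      simp only [Finsupp.add_apply, Finsupp.filter_apply]
      by_cases h3 : b ≤ i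
      · rw [if_pos h3, hp1 i (Or.inr h3), zero_add]
      · rw [if_neg h3, hp2 i (Or.inl (by omega))]
  · intro h _
    congr 1
    ext i
    simp only [Finsupp.add_apply, Finsupp.filter_apply]
    by_cases h1 : i < b
    · rw [if_pos h1, if_neg (by omega), add_zero]
    · rw [if_neg h1, if_pos (by omega), zero_add]

theorem mem_blk {a b : ℤ} {f : Lm q} {v : DV q} :
    v ∈ blk q a b f ↔ a ≤ v.1 ∧ v.1 ≤ b ∧ v.2 - f ∈ lamps q a b := by
  unfold blk
  rw [Finset.mem_product, Finset.mem_Icc, Finset.mem_image]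
  constructor
  · rintro ⟨⟨h1, h2⟩, h, hh, hv⟩
    refine ⟨h1, h2, ?_⟩
    rw [← hv, add_sub_cancel_left]
    exact hh
  · rintro ⟨h1, h2, h3⟩
    exact ⟨⟨h1, h2⟩, v.2 - f, h3, add_sub_cancel _ _⟩

theorem card_blk {a b : ℤ} (hab : a ≤ b) (f : Lm q) :
    (blk q a b f).card = ((b - a).toNat + 1) * q ^ (b - a).toNat := by
  unfold blk
  rw [Finset.card_product, Int.card_Icc, Finset.card_image_of_injective _ (add_right_injective f),
    card_lamps]
  congr 1
  omega

theorem blk_eq {a b : ℤ} {f g : Lm q} (h : g - f ∈ lamps q a b) : blk q a b g = blk q a b f := by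
  ext v
  rw [mem_blk, mem_blk]
  constructor
  · rintro ⟨h1, h2, h3⟩
    refine ⟨h1, h2, ?_⟩
    have h4 := add_mem_lamps h3 h
    rwa [sub_add_sub_cancel] at h4
  · rintro ⟨h1, h2, h3⟩
    refine ⟨h1, h2, ?_⟩
    have h4 := sub_mem_lamps h3 h
    rwa [sub_sub_sub_cancel_right] at h4

theorem blk_subset {a b a' b' : ℤ} {f g : Lm q} (ha : a ≤ a') (hb : b' ≤ b)
    (h : g - f ∈ lamps q a b) : blk q a' b' g ⊆ blk q a b f := by
  intro v hv
  rw [mem_blk] at hv ⊢
  obtain ⟨h1, h2, h3⟩ := hv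
  refine ⟨by omega, by omega, ?_⟩
  have h4 := add_mem_lamps (lamps_mono ha hb h3) h
  rwa [sub_add_sub_cancel] at h4

/-- Blocks whose lamps differ outside of both windows are disjoint. -/
theorem blk_disjoint {a b a' b' : ℤ} {f g : Lm q} {i : ℤ} (hi : i < a ∨ b ≤ i)
    (hi' : i < a' ∨ b' ≤ i) (h : f i ≠ g i) : Disjoint (blk q a b f) (blk q a' b' g) := by
  rw [Finset.disjoint_left]
  intro v hv hv'
  rw [mem_blk] at hv hv'
  have h1 := mem_lamps.1 hv.2.2 i hi
  have h2 := mem_lamps.1 hv'.2.2 i hi'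
  rw [Finsupp.sub_apply, sub_eq_zero] at h1 h2
  exact h (h1.symm.trans h2)

theorem mem_inn_blk {a b : ℤ} {f : Lm q} {e : DE q} :
    e ∈ (DL q).inn (blk q a b f) ↔ a ≤ e.1.1 ∧ e.1.1 + 1 ≤ b ∧ e.1.2 - f ∈ lamps q a b := by
  rw [Gr.mem_inn, DL_a, DL_b, mem_blk, mem_blk]
  simp only
  constructor
  · rintro ⟨⟨h1, h2, h3⟩, h4, h5, h6⟩
    exact ⟨h1, h5, h3⟩
  · rintro ⟨h1, h2, h3⟩
    refine ⟨⟨h1, by omega, h3⟩, by omega, h2, ?_⟩
    have h4 := add_mem_lamps h3 (single_mem_lamps h1 (by omega : e.1.1 < b) e.2)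
    rwa [sub_add_eq_add_sub] at h4

theorem inc_interior {a b : ℤ} {f : Lm q} {v : DV q} (hv : v ∈ blk q a b f) (ha : a < v.1)
    (hb : v.1 < b) {e : DE q} (he : (DL q).a e = v ∨ (DL q).b e = v) :
    (DL q).a e ∈ blk q a b f ∧ (DL q).b e ∈ blk q a b f := by
  rw [← Gr.mem_inn, mem_inn_blk]
  rw [mem_blk] at hv
  obtain ⟨h1, h2, h3⟩ := hv
  rcases he with he | he
  · rw [DL_a] at he
    rw [he]
    exact ⟨h1, by omega, h3⟩
  · rw [DL_b] at he
    have h4 : e.1.1 + 1 = v.1 := congrArg Prod.fst he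
    have h5 : e.1.2 + Finsupp.single e.1.1 e.2 = v.2 := congrArg Prod.snd he
    refine ⟨by omega, by omega, ?_⟩
    have h6 : e.1.2 - f = (v.2 - f) - Finsupp.single e.1.1 e.2 := by
      rw [← h5]
      abel
    rw [h6]
    exact sub_mem_lamps h3 (single_mem_lamps (by omega) (by omega) e.2)

/-- A path which leaves the block goes through a vertex of the top or of the bottom level, and
stays in the block until then. -/
theorem exit_blk {a b : ℤ} {f : Lm q} {ω : Set (DE q)} {U : Set (DV q)} {x y : DV q}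
    (h : (DL q).Reach ω U x y) (hx : x ∈ blk q a b f) (hy : y ∉ blk q a b f) :
    ∃ z ∈ blk q a b f, (z.1 = a ∨ z.1 = b) ∧
      (DL q).Reach ω (U ∩ (↑(blk q a b f) : Set (DV q))) x z := by
  obtain ⟨e, he, u, w, hu, hw, hab, huU, hwU, hr1, -⟩ := h.first_exit hx hy
  refine ⟨u, hu, ?_, hr1⟩
  by_contra hcon
  push Not at hcon
  have hu' := mem_blk.1 hu
  have h1 : a < u.1 := lt_of_le_of_ne hu'.1 (Ne.symm hcon.1)
  have h2 : u.1 < b := lt_of_le_of_ne hu'.2.1 hcon.2
  rcases hab with ⟨ha, hb⟩ | ⟨ha, hb⟩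
  · have h3 := inc_interior hu h1 h2 (Or.inl ha)
    rw [hb] at h3
    exact hw h3.2
  · have h3 := inc_interior hu h1 h2 (Or.inr hb)
    rw [ha] at h3
    exact hw h3.1

/-- The upward path from `(n, f)` to `(n + k, f + h)`, `h ∈ lamps n (n+k)`: there is a set of `k`
edges inside the block which joins them. -/
theorem up_path (n : ℤ) (k : ℕ) (f : Lm q) {h : Lm q} (hh : h ∈ lamps q n (n + k)) :
    ∃ A : Finset (DE q), A.card = k ∧ A ⊆ (DL q).inn (blk q n (n + k) f) ∧
      (DL q).Reach (↑A : Set (DE q)) (↑(blk q n (n + k) f) : Set (DV q)) (n, f) (n + k, f + h) := by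
  classical
  induction k generalizing h with
  | zero =>
    have h0 : h = 0 := by
      ext i
      have h1 := mem_lamps.1 hh i (by push_cast; omega)
      rw [h1]
      rfl
    subst h0
    refine ⟨∅, rfl, Finset.empty_subset _, ?_⟩
    have h2 : ((n + ((0 : ℕ) : ℤ), f + 0) : DV q) = (n, f) := by simp
    rw [h2]
    exact Gr.Reach.refl _ _ _ _
  | succ k ih =>
    have hh0 := mem_lamps.1 hh
    have hh' : h - Finsupp.single (n + k) (h (n + k)) ∈ lamps q n (n + k) := by
      rw [mem_lamps]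
      intro i hi
      rw [Finsupp.sub_apply, Finsupp.single_apply]
      split_ifs with h1
      · rw [h1, sub_self]
      · rw [sub_zero]
        apply hh0
        push_cast
        omega
    obtain ⟨A, hA1, hA2, hA3⟩ := ih hh'
    set h' : Lm q := h - Finsupp.single (n + k) (h (n + k)) with hdef
    set e : DE q := ((n + k, f + h'), h (n + k)) with he
    have hsub : blk q n (n + k) f ⊆ blk q n (n + ((k + 1 : ℕ) : ℤ)) f :=
      blk_subset le_rfl (by push_cast; omega) (by rw [sub_self]; exact zero_mem_lamps _ _)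
    have heA : e ∉ A := by
      intro hcon
      have h1 := mem_inn_blk.1 (hA2 hcon)
      have h2 : e.1.1 = n + k := rfl
      omega
    have heb : e ∈ (DL q).inn (blk q n (n + ((k + 1 : ℕ) : ℤ)) f) := by
      rw [mem_inn_blk]
      refine ⟨?_, ?_, ?_⟩
      · show n ≤ n + k
        omega
      · show n + k + 1 ≤ n + ((k + 1 : ℕ) : ℤ)
        push_cast
        omega
      · show f + h' - f ∈ _
        rw [add_sub_cancel_left]
        exact lamps_mono le_rfl (by push_cast; omega) hh'
    refine ⟨insert e A, ?_, ?_, ?_⟩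
    · rw [Finset.card_insert_of_notMem heA, hA1]
    · intro x hx
      rw [Finset.mem_insert] at hx
      rcases hx with rfl | hx
      · exact heb
      · have h1 := mem_inn_blk.1 (hA2 hx)
        rw [mem_inn_blk]
        exact ⟨h1.1, by push_cast; omega, lamps_mono le_rfl (by push_cast; omega) h1.2.2⟩
    · have h1 : (DL q).Reach (↑(insert e A) : Set (DE q))
          (↑(blk q n (n + ((k + 1 : ℕ) : ℤ)) f) : Set (DV q)) (n, f) (n + k, f + h') := by
        refine hA3.mono ?_ ?_
        · exact Finset.coe_subset.2 (Finset.subset_insert _ _)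
        · exact Finset.coe_subset.2 hsub
      refine h1.trans ?_
      have h2 := (Gr.mem_inn _).1 heb
      have h3 : (DL q).Reach (↑(insert e A) : Set (DE q))
          (↑(blk q n (n + ((k + 1 : ℕ) : ℤ)) f) : Set (DV q)) ((DL q).a e) ((DL q).b e) :=
        Gr.Reach.edge (Finset.mem_coe.2 (Finset.mem_insert_self _ _)) (Finset.mem_coe.2 h2.1)
          (Finset.mem_coe.2 h2.2)
      have h4 : (DL q).a e = (n + k, f + h') := rfl
      have h5 : (DL q).b e = (n + ((k + 1 : ℕ) : ℤ), f + h) := by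
        rw [DL_b]
        refine Prod.ext ?_ ?_
        · show n + k + 1 = n + ((k + 1 : ℕ) : ℤ)
          push_cast
          ring
        · show f + h' + Finsupp.single (n + (k : ℤ)) (h (n + k)) = f + h
          rw [hdef]
          abel
      rw [h4, h5] at h3
      exact h3

/-- A vertex `x` of the top level and a vertex `y` of the block are joined by a path of at most `2k`
edges in the block (down to the bottom vertex `(a, y.2)` changing the lamps to those of `y`
where possible: go down from `x` to `(a, g)` where `g = x.2` off `[a, a+k)` and `g = y.2` on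
`[a, a+k)`, i.e. `g = y.2`; then straight up to `y`). If the vertex set `T` contains `y` and
not `x`, follow the path up to the last vertex `w` before it meets `T` for the first time. -/
theorem blk_path (a : ℤ) (k : ℕ) (f : Lm q) {x y : DV q} (hx : x ∈ blk q a (a + k) f)
    (hx1 : x.1 = a + k)
    (hy : y ∈ blk q a (a + k) f) {T : Finset (DV q)} (hxT : x ∉ T) (hyT : y ∈ T) :
    ∃ A : Finset (DE q), A.card ≤ 2 * k ∧ A ⊆ (DL q).inn (blk q a (a + k) f) ∧
      ∃ e ∈ (DL q).cut T, e ∈ (DL q).inn (blk q a (a + k) f) ∧ ∃ w, w ∉ T ∧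
        ((DL q).a e = w ∨ (DL q).b e = w) ∧
        (DL q).Reach (↑A : Set (DE q)) {z | z ∈ blk q a (a + k) f ∧ z ∉ T} x w := by
  classical
  have hx' := mem_blk.1 hx
  have hy' := mem_blk.1 hy
  have hxy : x.2 - y.2 ∈ lamps q a (a + k) := by
    have h1 := sub_mem_lamps hx'.2.2 hy'.2.2
    rwa [sub_sub_sub_cancel_right] at h1
  obtain ⟨A1, hA1, hA1s, hA1r⟩ := up_path a k y.2 hxy
  have hb1 : blk q a (a + k) y.2 = blk q a (a + k) f := blk_eq hy'.2.2
  rw [hb1] at hA1s hA1r
  obtain ⟨j, hj⟩ : ∃ j : ℕ, y.1 = a + j := ⟨(y.1 - a).toNat, by omega⟩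
  have hjk : j ≤ k := by omega
  obtain ⟨A2, hA2, hA2s, hA2r⟩ := up_path a j y.2 (zero_mem_lamps a (a + j))
  have hb2 : blk q a (a + j) y.2 ⊆ blk q a (a + k) f :=
    blk_subset le_rfl (by omega) hy'.2.2
  have hxe : ((a + (k : ℤ), y.2 + (x.2 - y.2)) : DV q) = x := by
    refine Prod.ext hx1.symm ?_
    show y.2 + (x.2 - y.2) = x.2
    abel
  have hye : ((a + (j : ℤ), y.2 + 0) : DV q) = y := by
    refine Prod.ext hj.symm ?_
    show y.2 + 0 = y.2
    rw [add_zero]
  rw [hxe] at hA1r
  rw [hye] at hA2r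
  have hr : (DL q).Reach (↑(A1 ∪ A2) : Set (DE q)) (↑(blk q a (a + k) f) : Set (DV q)) x y := by
    refine (hA1r.symm.mono (Finset.coe_subset.2 Finset.subset_union_left) subset_rfl).trans ?_
    exact hA2r.mono (Finset.coe_subset.2 Finset.subset_union_right) (Finset.coe_subset.2 hb2)
  have hxB : x ∈ (blk q a (a + k) f).filter (fun z => z ∉ T) := Finset.mem_filter.2 ⟨hx, hxT⟩
  have hyB : y ∉ (blk q a (a + k) f).filter (fun z => z ∉ T) := fun h =>
    (Finset.mem_filter.1 h).2 hyT
  obtain ⟨e, he, u, w, hu, hw, hab, huU, hwU, hr1, -⟩ := hr.first_exit hxB hyB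
  rw [Finset.mem_filter] at hu
  have hwT : w ∈ T := by
    by_contra hcon
    exact hw (Finset.mem_filter.2 ⟨Finset.mem_coe.1 hwU, hcon⟩)
  refine ⟨A1 ∪ A2, ?_, ?_, e, ?_, ?_, u, hu.2, ?_, ?_⟩
  · refine (Finset.card_union_le _ _).trans ?_
    omega
  · refine Finset.union_subset hA1s ?_
    intro z hz
    have h1 := (Gr.mem_inn _).1 (hA2s hz)
    exact (Gr.mem_inn _).2 ⟨hb2 h1.1, hb2 h1.2⟩
  · rw [Gr.mem_cut]
    rcases hab with ⟨ha, hb⟩ | ⟨ha, hb⟩
    · rw [ha, hb]
      exact Or.inr ⟨hu.2, hwT⟩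
    · rw [ha, hb]
      exact Or.inl ⟨hwT, hu.2⟩
  · rw [Gr.mem_inn]
    rcases hab with ⟨ha, hb⟩ | ⟨ha, hb⟩
    · rw [ha, hb]
      exact ⟨hu.1, Finset.mem_coe.1 hwU⟩
    · rw [ha, hb]
      exact ⟨Finset.mem_coe.1 hwU, hu.1⟩
  · rcases hab with ⟨ha, hb⟩ | ⟨ha, hb⟩
    · exact Or.inl ha
    · exact Or.inr hb
  · refine hr1.mono subset_rfl ?_
    intro z hz
    have h1 := Finset.mem_filter.1 (Finset.mem_coe.1 hz.2)
    exact h1

end Pool.Agent.DLP
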