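import Pool.Agent.DLP.Official
import Pool.Agent.DLP.Rch
import Pool.Agent.DLP.DLBasic

/-!
# DLP/ConvA: finite connected subgraphs of the cluster

* `sub_reach`: the `A`-path from `v` to `x ∈ U`: all its edges are in `A`, so their end points are in
  `U`, and they are open.
* `sub_card`: every edge of `A` has its lower end point in `U`, and for every vertex there are `q`
  edges with this lower end point: `|A| ≤ q |U|`.
* `cut_subset_bdry`: an open edge of `cut U` is not in `A`.
* `exists_sub`: the cluster is infinite; choose a set `W` of `2n+1` of its vertices; for each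
  choose a finite set of open edges containing a path from `v` to it (`reach_finite`: by induction
  on the path); `A` = union of these sets, restricted to the edges with both end points
  joined to `v` by `A`...: simplest: let `A₀` be the union, `U = {x : x joined to v by A₀}` (finite:
  contained in `{v} ∪` end points of `A₀`), `A = A₀` restricted to the edges with an end point
  in `U` (then both are in `U`). `W ⊆ U`. Every vertex of `U \ {v}` is an end point of an edge of
  `A`, so `2n ≤ |U| - 1 ≤ 2 |A|`.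
-/

namespace Pool.Agent.DLP

open Finset

namespace Gr

variable {V E : Type} [DecidableEq V] [DecidableEq E] (G : Gr V E)

theorem sub_reach {ω : E → Bool} {v : V} {U : Finset V} {A : Finset E} (h : G.IsSub ω v U A) :
    ∀ x ∈ U, G.Reach (opn ω) (↑U : Set V) v x := by
  intro x hx
  obtain ⟨hv, hA, hr⟩ := h
  refine Relation.ReflTransGen.mono (fun a b hab => ?_) _ _ (hr x hx)
  obtain ⟨⟨e, he, h1⟩, -, -⟩ := hab
  obtain ⟨h2, h3, h4⟩ := hA e (Finset.mem_coe.1 he)
  refine ⟨⟨e, h2, h1⟩, ?_, ?_⟩
  · rcases h1 with ⟨rfl, rfl⟩ | ⟨rfl, rfl⟩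
    · exact Finset.mem_coe.2 h3
    · exact Finset.mem_coe.2 h4
  · rcases h1 with ⟨rfl, rfl⟩ | ⟨rfl, rfl⟩
    · exact Finset.mem_coe.2 h4
    · exact Finset.mem_coe.2 h3

theorem cut_subset_bdry {ω : E → Bool} {v : V} {U : Finset V} {A : Finset E}
    (h : G.IsSub ω v U A) : (G.cut U).filter (fun e => ω e = true) ⊆ G.bdry ω U A := by
  obtain ⟨hv, hA, hr⟩ := h
  intro e he
  rw [Finset.mem_filter] at he
  unfold bdry
  rw [Finset.mem_filter]
  refine ⟨G.cut_subset_touch U he.1, he.2, fun h1 => ?_⟩
  obtain ⟨-, h3, h4⟩ := hA e h1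
  rcases (G.mem_cut).1 he.1 with h5 | h5
  · exact h5.2 h4
  · exact h5.1 h3

/-- A finite connected subgraph can be enlarged so that it contains a given vertex of the
cluster. -/
theorem sub_extend {ω : E → Bool} {v w : V} (hw : w ∈ G.cluster ω v) {U : Finset V}
    {A : Finset E} (h : G.IsSub ω v U A) :
    ∃ (U' : Finset V) (A' : Finset E), G.IsSub ω v U' A' ∧ U ⊆ U' ∧ w ∈ U' := by
  have hw' : G.Reach (opn ω) Set.univ v w := hw
  unfold Reach at hw'
  clear hw
  induction hw' with
  | refl => exact ⟨U, A, h, subset_rfl, h.1⟩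
  | @tail c x _ h2 ih =>
    obtain ⟨U', A', ⟨hv, hA, hr⟩, hU, hc⟩ := ih
    obtain ⟨⟨e, he, hab⟩, -, -⟩ := h2
    refine ⟨insert x U', insert e A', ⟨Finset.mem_insert_of_mem hv, ?_, ?_⟩,
      hU.trans (Finset.subset_insert _ _), Finset.mem_insert_self _ _⟩
    · intro e' he'
      rw [Finset.mem_insert] at he'
      rcases he' with rfl | he'
      · refine ⟨he, ?_⟩
        rcases hab with ⟨h3, h4⟩ | ⟨h3, h4⟩
        · rw [h3, h4]
          exact ⟨Finset.mem_insert_of_mem hc, Finset.mem_insert_self _ _⟩
        · rw [h3, h4]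
          exact ⟨Finset.mem_insert_self _ _, Finset.mem_insert_of_mem hc⟩
      · obtain ⟨h3, h4, h5⟩ := hA e' he'
        exact ⟨h3, Finset.mem_insert_of_mem h4, Finset.mem_insert_of_mem h5⟩
    · have hmono : ∀ y ∈ U', G.Reach (↑(insert e A') : Set E) Set.univ v y := fun y hy =>
        (hr y hy).mono (Finset.coe_subset.2 (Finset.subset_insert _ _)) subset_rfl
      intro y hy
      rw [Finset.mem_insert] at hy
      rcases hy with rfl | hy
      · exact (hmono c hc).trans (Relation.ReflTransGen.single
          ⟨⟨e, Finset.mem_coe.2 (Finset.mem_insert_self _ _), hab⟩, trivial, trivial⟩)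
      · exact hmono y hy

theorem exists_sub_superset {ω : E → Bool} {v : V} (W : Finset V)
    (hW : (↑W : Set V) ⊆ G.cluster ω v) :
    ∃ (U : Finset V) (A : Finset E), G.IsSub ω v U A ∧ W ⊆ U := by
  induction W using Finset.induction_on with
  | empty =>
    refine ⟨{v}, ∅, ⟨Finset.mem_singleton_self v, fun e he => ?_, fun x hx => ?_⟩,
      Finset.empty_subset _⟩
    · exact absurd he (Finset.notMem_empty e)
    · rw [Finset.mem_singleton] at hx
      subst hx
      exact Reach.refl G _ _ _
  | insert w W _ ih =>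
    have h1 : (↑W : Set V) ⊆ G.cluster ω v := fun x hx =>
      hW (Finset.mem_coe.2 (Finset.mem_insert_of_mem (Finset.mem_coe.1 hx)))
    obtain ⟨U, A, hsub, hWU⟩ := ih h1
    obtain ⟨U', A', hsub', hUU', hw⟩ := G.sub_extend
      (hW (Finset.mem_coe.2 (Finset.mem_insert_self w W))) hsub
    refine ⟨U', A', hsub', ?_⟩
    exact Finset.insert_subset hw (hWU.trans hUU')

theorem card_le_of_isSub {ω : E → Bool} {v : V} {U : Finset V} {A : Finset E}
    (h : G.IsSub ω v U A) : U.card ≤ 2 * A.card + 1 := by
  obtain ⟨hv, hA, hr⟩ := h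
  have h1 : U ⊆ insert v (A.image G.a ∪ A.image G.b) := by
    intro x hx
    have h2 := hr x hx
    unfold Reach at h2
    rcases Relation.ReflTransGen.cases_tail h2 with h3 | ⟨c, _, h3⟩
    · rw [h3]
      exact Finset.mem_insert_self _ _
    · obtain ⟨⟨e, he, hab⟩, -, -⟩ := h3
      refine Finset.mem_insert_of_mem (Finset.mem_union.2 ?_)
      rcases hab with ⟨_, h4⟩ | ⟨h4, _⟩
      · exact Or.inr (Finset.mem_image.2 ⟨e, Finset.mem_coe.1 he, h4⟩)
      · exact Or.inl (Finset.mem_image.2 ⟨e, Finset.mem_coe.1 he, h4⟩)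
  refine (Finset.card_le_card h1).trans ((Finset.card_insert_le _ _).trans ?_)
  have h2 := Finset.card_union_le (A.image G.a) (A.image G.b)
  have h3 : (A.image G.a).card ≤ A.card := Finset.card_image_le
  have h4 : (A.image G.b).card ≤ A.card := Finset.card_image_le
  omega

theorem exists_sub {ω : E → Bool} {v : V} (h : (G.cluster ω v).Infinite) (n : ℕ) :
    ∃ (U : Finset V) (A : Finset E), G.IsSub ω v U A ∧ n ≤ A.card := by
  obtain ⟨W, hW, hcard⟩ := h.exists_subset_card_eq (2 * n + 1)
  obtain ⟨U, A, hsub, hWU⟩ := G.exists_sub_superset W hW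
  refine ⟨U, A, hsub, ?_⟩
  have h1 := G.card_le_of_isSub hsub
  have h2 := Finset.card_le_card hWU
  omega

end Gr

theorem sub_card {q : ℕ} [NeZero q] {ω : DE q → Bool} {v : DV q} {U : Finset (DV q)}
    {A : Finset (DE q)} (h : (DL q).IsSub ω v U A) : A.card ≤ q * U.card := by
  classical
  obtain ⟨hv, hA, hr⟩ := h
  have h1 : A ⊆ U ×ˢ (Finset.univ : Finset (ZMod q)) := by
    intro e he
    rw [Finset.mem_product]
    exact ⟨(hA e he).2.1, Finset.mem_univ _⟩
  refine (Finset.card_le_card h1).trans ?_
  rw [Finset.card_product, Finset.card_univ, ZMod.card, mul_comm]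

end Pool.Agent.DLP
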