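import Mathlib

/-!
# DLP/Tri: the Burton–Keane counting lemma for disjoint sets (Mathlib only)

`r` symmetric relation on `V`, nonzero only inside the finite set `R`.
`OffR B x y`: `x` and `y` are joined by a path off `B`. `Att B x`: `x ∉ B` is joined off `B` to a
neighbour of `B`. Family `S` of pairwise disjoint nonempty `r`-connected sets such that every
`B ∈ S` has three points `x₁, x₂, x₃ ∈ bd`, attached to `B` and pairwise not joined off `B`.
Claim: `|S| ≤ |bd|`.

Proof by induction on `|S|` (generalizing `bd`). For `S ≠ ∅` choose a pair `(B, x)`, `B ∈ S`,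
`x ∈ bd`, `Att B x`, such that the branch `K = {y : OffR B x y}` (finite: contained in
`insert x R`) has the minimal number of elements. Facts (all sets connected by paths):
 (1) no `B' ∈ S`, `B' ≠ B`, meets `K`. Suppose it does. `B'` is connected and disjoint from `B`,
   so `B' ⊆ K`. `B'` has three attached points in different components off `B'`;
   `B` is connected and disjoint from `B'`, so it lies in at most one component off `B'`; choose
   an attached point `x'` of `B'` (in `bd`) whose branch `K'` (off `B'`) does not meet `B`.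
   `K'` is connected to `B'` and disjoint from `B`; so `K' ∪ B'` is connected off `B`, hence
   `K' ⊆ K`, and `K' ∩ B' = ∅ ≠ B'`, `B' ⊆ K`: so `|K'| < |K|`, contradiction.
 (2) Let `S' = S \ {B}`, `bd' = bd \ K`; `|bd'| < |bd|` because `x ∈ K ∩ bd`. Every `B' ∈ S'` still
   has three attached points in `bd'`, pairwise not joined off `B'`: let `x₁, x₂, x₃` be the old
   ones. By (1) `K ∪ B` is disjoint from `B'` and connected (`K` is attached to `B`), hence it lies
   in one component off `B'`. If no `x_i` is in `K`, nothing to do. If `x_i ∈ K` (then only one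
   `i`, as the `x_i` are not joined off `B'`): the component of `x_i` off `B'` contains `K ∪ B`.
   `B` has three attached points `z₁, z₂, z₃ ∈ bd` in different components off `B`; `B'` is
   connected and disjoint from `B`, so at most one of these components meets `B'`, and at
   most one is `K`: so some `z_j` has a branch (off `B`) which is not `K` and
   does not meet `B'`. Then `z_j ∉ K`, `z_j ∈ bd'`, `z_j` is joined to `B` off `B'`, hence to `x_i`
   off `B'`. Replace `x_i` by `z_j`: it is attached to `B'` (joined off `B'` to `x_i`) and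
   not joined off `B'` to the other two.
 By induction `|S| - 1 ≤ |bd'| ≤ |bd| - 1`.
-/

namespace Pool.Agent.DLP

open Finset

/-- Joined by a path off `B`. -/
def OffR {V : Type} (r : V → V → Prop) (B : Finset V) (x y : V) : Prop :=
  Relation.ReflTransGen (fun x y => r x y ∧ x ∉ B ∧ y ∉ B) x y

/-- Attached to `B`. -/
def Att {V : Type} (r : V → V → Prop) (B : Finset V) (x : V) : Prop :=
  x ∉ B ∧ ∃ u, u ∉ B ∧ OffR r B x u ∧ ∃ b ∈ B, r u b

section aux

variable {V : Type} {r : V → V → Prop} {B B' : Finset V} {x y z : V}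

theorem OffR.symm' (hr : ∀ x y, r x y → r y x) (h : OffR r B x y) : OffR r B y x := by
  induction h with
  | refl => exact Relation.ReflTransGen.refl
  | tail _ hbc ih => exact Relation.ReflTransGen.head ⟨hr _ _ hbc.1, hbc.2.2, hbc.2.1⟩ ih

theorem OffR.trans' (h : OffR r B x y) (h' : OffR r B y z) : OffR r B x z :=
  Relation.ReflTransGen.trans h h'

theorem OffR.notMem' (h : OffR r B x y) (hx : x ∉ B) : y ∉ B := by
  induction h with
  | refl => exact hx
  | tail _ hbc _ => exact hbc.2.2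

theorem OffR.stay (h : OffR r B x y) (hd : ∀ z, OffR r B x z → z ∉ B') : OffR r B' x y := by
  induction h with
  | refl => exact Relation.ReflTransGen.refl
  | tail hab hbc ih =>
    exact Relation.ReflTransGen.tail ih ⟨hbc.1, hd _ hab, hd _ (Relation.ReflTransGen.tail hab hbc)⟩

theorem OffR.one (h : r x y) (hx : x ∉ B) (hy : y ∉ B) : OffR r B x y :=
  Relation.ReflTransGen.single ⟨h, hx, hy⟩

theorem offR_of_conn (hc : Relation.ReflTransGen (fun x y => r x y ∧ x ∈ B' ∧ y ∈ B') x y)
    (hd : Disjoint B' B) : OffR r B x y :=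
  Relation.ReflTransGen.mono
    (fun _ _ h => ⟨h.1, disjoint_left.1 hd h.2.1, disjoint_left.1 hd h.2.2⟩) _ _ hc

theorem OffR.mem_insert' [DecidableEq V] {R : Finset V} (hR : ∀ x y, r x y → x ∈ R ∧ y ∈ R)
    (h : OffR r B x y) : y ∈ insert x R := by
  cases h with
  | refl => exact mem_insert_self _ _
  | tail _ hbc => exact mem_insert_of_mem (hR _ _ hbc.1).2

/-- if the branch of `x'` off `B'` avoids `B`, then `x'` is joined to every point of `B'` off `B` -/
theorem Att.join (ha : Att r B' x) (hav : ∀ z, OffR r B' x z → z ∉ B)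
    (hc : ∀ x ∈ B', ∀ y ∈ B', Relation.ReflTransGen (fun x y => r x y ∧ x ∈ B' ∧ y ∈ B') x y)
    (hd : Disjoint B' B) (hy : y ∈ B') : OffR r B x y := by
  obtain ⟨_, u, _, hxu, b, hb, hub⟩ := ha
  exact ((hxu.stay hav).trans' (OffR.one hub (hav u hxu) (disjoint_left.1 hd hb))).trans'
    (offR_of_conn (hc b hb y hy) hd)

end aux

theorem tri_count {V : Type} [DecidableEq V] (r : V → V → Prop) (hr : ∀ x y, r x y → r y x)
    (R : Finset V) (hR : ∀ x y, r x y → x ∈ R ∧ y ∈ R) (S : Finset (Finset V)) :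
    ∀ bd : Finset V, (∀ B ∈ S, B.Nonempty) →
      (∀ B ∈ S, ∀ B' ∈ S, B ≠ B' → Disjoint B B') →
      (∀ B ∈ S, ∀ x ∈ B, ∀ y ∈ B, Relation.ReflTransGen (fun x y => r x y ∧ x ∈ B ∧ y ∈ B) x y) →
      (∀ B ∈ S, ∃ x₁ ∈ bd, ∃ x₂ ∈ bd, ∃ x₃ ∈ bd, Att r B x₁ ∧ Att r B x₂ ∧ Att r B x₃ ∧
        ¬ OffR r B x₁ x₂ ∧ ¬ OffR r B x₁ x₃ ∧ ¬ OffR r B x₂ x₃) →
      S.card ≤ bd.card := by
  classical
  induction S using Finset.strongInduction with
  | H S ih =>
  intro bd hne hdis hconn htri
  rcases S.eq_empty_or_nonempty with hS | hS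
  · subst hS; simp
  -- the minimal pair
  obtain ⟨⟨B, x⟩, hp, hmin⟩ := Finset.exists_min_image
    ((S ×ˢ bd).filter (fun p => Att r p.1 p.2))
    (fun p => ((insert p.2 R).filter (OffR r p.1 p.2)).card) (by
      obtain ⟨B, hB⟩ := hS
      obtain ⟨x₁, h1, _, _, _, _, h2, _⟩ := htri B hB
      exact ⟨(B, x₁), by simp [hB, h1, h2]⟩)
  rw [mem_filter, mem_product] at hp
  obtain ⟨⟨hB, hx⟩, hax⟩ := hp
  simp only at hB hx hax hmin
  -- (1)
  have h1 : ∀ B' ∈ S, B' ≠ B → ∀ y, OffR r B x y → y ∉ B' := by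
    intro B' hB' hBB' y hy hyB'
    have hd : Disjoint B' B := hdis B' hB' B hB hBB'
    have hsub : ∀ b ∈ B', OffR r B x b := fun b hb =>
      hy.trans' (offR_of_conn (hconn B' hB' y hyB' b hb) hd)
    obtain ⟨x₁, hx₁, x₂, hx₂, x₃, hx₃, ha₁, ha₂, ha₃, h12, h13, h23⟩ := htri B' hB'
    have hone : ∀ a b, (∃ z, OffR r B' a z ∧ z ∈ B) → (∃ z, OffR r B' b z ∧ z ∈ B) →
        OffR r B' a b := by
      rintro a b ⟨z, hz, hzB⟩ ⟨z', hz', hzB'⟩
      exact (hz.trans' (offR_of_conn (hconn B hB z hzB z' hzB') hd.symm)).trans' (hz'.symm' hr)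
    have hex : ∃ x' ∈ bd, Att r B' x' ∧ ∀ z, OffR r B' x' z → z ∉ B := by
      by_cases hc1 : ∃ z, OffR r B' x₁ z ∧ z ∈ B
      · have hc2 : ¬ ∃ z, OffR r B' x₂ z ∧ z ∈ B := fun hc2 => h12 (hone _ _ hc1 hc2)
        push Not at hc2
        exact ⟨x₂, hx₂, ha₂, hc2⟩
      · push Not at hc1
        exact ⟨x₁, hx₁, ha₁, hc1⟩
    obtain ⟨x', hx', ha', hav⟩ := hex
    have hj := fun b (hb : b ∈ B') => ha'.join hav (hconn B' hB') hd hb
    have hlt : ((insert x' R).filter (OffR r B' x')).card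
        < ((insert x R).filter (OffR r B x)).card := by
      apply Finset.card_lt_card
      rw [Finset.ssubset_iff_of_subset]
      · obtain ⟨b, hb⟩ := hne B' hB'
        refine ⟨b, ?_, ?_⟩
        · rw [mem_filter]
          exact ⟨(hsub b hb).mem_insert' hR, hsub b hb⟩
        · rw [mem_filter]
          rintro ⟨_, h⟩
          exact h.notMem' ha'.1 hb
      · intro z hz
        rw [mem_filter] at hz
        obtain ⟨b, hb⟩ := hne B' hB'
        have hz1 : OffR r B x z :=
          ((hsub b hb).trans' ((hj b hb).symm' hr)).trans' (hz.2.stay hav)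
        rw [mem_filter]
        exact ⟨hz1.mem_insert' hR, hz1⟩
    have hle := hmin (B', x') (by
      rw [mem_filter, mem_product]
      exact ⟨⟨hB', hx'⟩, ha'⟩)
    exact absurd hle (not_le.2 hlt)
  -- (2)
  have hxx : OffR r B x x := Relation.ReflTransGen.refl
  have hbd : (bd.filter (fun y => ¬ OffR r B x y)).card < bd.card := by
    apply Finset.card_lt_card
    rw [Finset.ssubset_iff_of_subset (Finset.filter_subset _ _)]
    exact ⟨x, hx, by simp [hxx]⟩
  have hkey : ∀ B' ∈ S, B' ≠ B → ∀ y ∈ bd, Att r B' y →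
      ∃ z ∈ bd.filter (fun y => ¬ OffR r B x y), Att r B' z ∧ OffR r B' z y := by
    intro B' hB' hBB' y hy hay
    by_cases hyK : OffR r B x y
    · have hd : Disjoint B' B := hdis B' hB' B hB hBB'
      have hav := h1 B' hB' hBB'
      obtain ⟨x₁, hx₁, x₂, hx₂, x₃, hx₃, ha₁, ha₂, ha₃, h12, h13, h23⟩ := htri B hB
      have hone : ∀ a b, (∃ z, OffR r B a z ∧ z ∈ B') → (∃ z, OffR r B b z ∧ z ∈ B') →
          OffR r B a b := by
        rintro a b ⟨z, hz, hzB⟩ ⟨z', hz', hzB'⟩
        exact (hz.trans' (offR_of_conn (hconn B' hB' z hzB z' hzB') hd)).trans' (hz'.symm' hr)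
      have htwo : ∀ a b, OffR r B x a → OffR r B x b → OffR r B a b := fun a b ha hb =>
        (ha.symm' hr).trans' hb
      have hex : ∃ z ∈ bd, Att r B z ∧ ¬ OffR r B x z ∧ ∀ v, OffR r B z v → v ∉ B' := by
        by_contra hcon
        push Not at hcon
        have c1 := hcon x₁ hx₁ ha₁
        have c2 := hcon x₂ hx₂ ha₂
        have c3 := hcon x₃ hx₃ ha₃
        by_cases d1 : OffR r B x x₁
        · have e2 := c2 fun d2 => h12 (htwo _ _ d1 d2)
          have e3 := c3 fun d3 => h13 (htwo _ _ d1 d3)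
          exact h23 (hone _ _ e2 e3)
        · have e1 := c1 d1
          by_cases d2 : OffR r B x x₂
          · exact h13 (hone _ _ e1 (c3 fun d3 => h23 (htwo _ _ d2 d3)))
          · exact h12 (hone _ _ e1 (c2 d2))
      obtain ⟨z, hz, haz, hzK, hzav⟩ := hex
      obtain ⟨b, hb⟩ := hne B hB
      have hj1 : OffR r B' z b := haz.join hzav (hconn B hB) hd.symm hb
      have hj2 : OffR r B' x b := hax.join hav (hconn B hB) hd.symm hb
      have hj3 : OffR r B' x y := hyK.stay hav
      have hzy : OffR r B' z y := (hj1.trans' (hj2.symm' hr)).trans' hj3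
      obtain ⟨_, u, hu, hyu, hb'⟩ := hay
      exact ⟨z, by rw [mem_filter]; exact ⟨hz, hzK⟩,
        ⟨hzav z Relation.ReflTransGen.refl, u, hu, hzy.trans' hyu, hb'⟩, hzy⟩
    · exact ⟨y, by rw [mem_filter]; exact ⟨hy, hyK⟩, hay, Relation.ReflTransGen.refl⟩
  have hih := ih (S.erase B) (Finset.erase_ssubset hB)
    (bd.filter (fun y => ¬ OffR r B x y))
    (fun B' hB' => hne B' (mem_of_mem_erase hB'))
    (fun B' hB' B'' hB'' => hdis B' (mem_of_mem_erase hB') B'' (mem_of_mem_erase hB''))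
    (fun B' hB' => hconn B' (mem_of_mem_erase hB'))
    (by
      intro B' hB'
      have hB'S := mem_of_mem_erase hB'
      have hBB' := ne_of_mem_erase hB'
      obtain ⟨x₁, hx₁, x₂, hx₂, x₃, hx₃, ha₁, ha₂, ha₃, h12, h13, h23⟩ := htri B' hB'S
      obtain ⟨z₁, hz₁, hb₁, hc₁⟩ := hkey B' hB'S hBB' x₁ hx₁ ha₁
      obtain ⟨z₂, hz₂, hb₂, hc₂⟩ := hkey B' hB'S hBB' x₂ hx₂ ha₂
      obtain ⟨z₃, hz₃, hb₃, hc₃⟩ := hkey B' hB'S hBB' x₃ hx₃ ha₃
      refine ⟨z₁, hz₁, z₂, hz₂, z₃, hz₃, hb₁, hb₂, hb₃, fun h => h12 ?_, fun h => h13 ?_,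
        fun h => h23 ?_⟩
      · exact ((hc₁.symm' hr).trans' h).trans' hc₂
      · exact ((hc₁.symm' hr).trans' h).trans' hc₃
      · exact ((hc₂.symm' hr).trans' h).trans' hc₃)
  rw [Finset.card_erase_of_mem hB] at hih
  omega

end Pool.Agent.DLP
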