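import Pool.Agent.DLP.LineA

/-!
# DLP/LineB: an open line leads far away; from the top of a block back to `T`

* `Ln_reach`: induction on `K`: if the sum is positive some term is positive, so the block of `z` is
  disjoint from `T`, `z` is joined to `mv z h` inside the block (all its vertices are off `T` and at
  levels `≥ z.1`), and `0 < Ln T K ω (mv z h)`.
* `acc_line`: `y` with `wt T K y > 0`, `K ≥ 1` (so `y ∉ T`, as `y ∈ bl y`), `t ∈ T` in the block `B`
  of height `H` below `y` (`B = blk (y.1 - H) y.1 y.2`), all levels of `Λ` are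
  `< y.1 + K H`. `blk_path` (with `a = y.1 - H`, `k = H`, `x = y`, `y = t`) gives the edge set
  `A` (at most `2H` edges, all in `inn B`), the edge `e ∈ cut T ∩ inn B` and its end point `w ∉ T`,
  joined to `y` by `A` off `T`. Let `F = off Λ T ∪ A ∪ inn (blk y.1 (y.1 + K H) y.2)`. The events
  `A ⊆ ω` and `0 < Ln T K ω y` depend on disjoint sets of edges (levels of the lower
  end points `< y.1`, resp. `≥ y.1`), so (`pr_indep`, `pr_contain`, `p ≤ 1`)
  `p^{2H} P(0 < Ln) ≤ P(A ⊆ ω, 0 < Ln)`. On this event `w` is joined to `y` and `y` to a vertex `z`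
  with `z.1 = y.1 + K H`, `z ∉ Λ`, everything off `T`: so `w` exits `Λ` off `T`; this
  event depends only on the edges of `off Λ T` (`dep_exit`), so its probability over
  `F` is the one over `off Λ T` (`pr_dep`), which is `≤ acc p Λ T e`.
-/

namespace Pool.Agent.DLP

open Finset

variable {q : ℕ} [NeZero q]

open Classical in
private theorem Ln_succ (H : ℕ) (T : Finset (DV q)) (K : ℕ) (ω : Finset (DE q)) (z : DV q) :
    Ln q H T (K + 1) ω z =
      if Disjoint (bl q H z) T then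
        ∑ h ∈ lamps q z.1 (z.1 + H),
          (if (DL q).Reach (↑ω : Set (DE q)) (↑(bl q H z) : Set (DV q)) z (mv q H z h) then
            Ln q H T K ω (mv q H z h) else 0)
      else 0 := rfl

theorem Ln_reach {H : ℕ} {T : Finset (DV q)} {K : ℕ} {ω : Finset (DE q)} {z : DV q}
    (h : 0 < Ln q H T K ω z) : ∃ z' : DV q, z'.1 = z.1 + K * H ∧
      (DL q).Reach (↑ω : Set (DE q)) {v | v ∉ T ∧ z.1 ≤ v.1} z z' := by
  classical
  induction K generalizing z with
  | zero => exact ⟨z, by simp, Gr.Reach.refl (DL q) _ _ _⟩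
  | succ K ih =>
    rw [Ln_succ] at h
    by_cases hd : Disjoint (bl q H z) T
    · rw [if_pos hd] at h
      have h1 : ∃ h' ∈ lamps q z.1 (z.1 + H), 0 <
          (if (DL q).Reach (↑ω : Set (DE q)) (↑(bl q H z) : Set (DV q)) z (mv q H z h') then
            Ln q H T K ω (mv q H z h') else 0) := by
        by_contra hcon
        push Not at hcon
        exact absurd h (not_lt.2 (sum_nonpos hcon))
      obtain ⟨h', _, hpos⟩ := h1
      by_cases hr : (DL q).Reach (↑ω : Set (DE q)) (↑(bl q H z) : Set (DV q)) z (mv q H z h')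
      · rw [if_pos hr] at hpos
        obtain ⟨z', hz', hreach⟩ := ih hpos
        have hz1 : (mv q H z h').1 = z.1 + H := rfl
        rw [hz1] at hz' hreach
        refine ⟨z', ?_, ?_⟩
        · rw [hz']
          push_cast
          ring
        · refine Gr.Reach.trans (hr.mono (Set.Subset.refl _) ?_)
            (hreach.mono (Set.Subset.refl _) ?_)
          · intro v hv
            rw [mem_coe] at hv
            exact ⟨fun hvT => (disjoint_left.1 hd) hv hvT, (mem_blk.1 hv).1⟩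
          · rintro v ⟨hv1, hv2⟩
            have hH : (0 : ℤ) ≤ H := by positivity
            exact ⟨hv1, by linarith⟩
      · rw [if_neg hr] at hpos
        exact absurd hpos (lt_irrefl _)
    · rw [if_neg hd] at h
      exact absurd h (lt_irrefl _)

theorem mem_tops {H : ℕ} {t y : DV q} :
    y ∈ tops q H t ↔ t ∈ blk q (y.1 - H) y.1 y.2 := by
  unfold tops
  rw [mem_blk]
  simp only [mem_biUnion, mem_Icc, mem_image]
  constructor
  · rintro ⟨m, ⟨hm1, hm2⟩, h, hh, rfl⟩
    refine ⟨by simp only; linarith, hm1, ?_⟩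
    have : t.2 - (t.2 + h) = -h := by abel
    simp only
    rw [this]
    exact neg_mem_lamps hh
  · rintro ⟨h1, h2, h3⟩
    refine ⟨y.1, ⟨h2, by linarith⟩, y.2 - t.2, ?_, ?_⟩
    · have := neg_mem_lamps h3
      rwa [neg_sub] at this
    · rw [add_sub_cancel]

theorem acc_line {p : ℝ} (h0 : 0 ≤ p) (h1 : p ≤ 1) {H : ℕ} (hH : 1 ≤ H)
    {Λ T : Finset (DV q)} {K : ℕ} (hK : 1 ≤ K) {y t : DV q} (ht : t ∈ T)
    (hyt : t ∈ blk q (y.1 - H) y.1 y.2) (hΛ : ∀ v ∈ Λ, v.1 < y.1 + K * H)
    (hy : y ∉ T) :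
    ∃ e ∈ (DL q).cut T, e ∈ (DL q).inn (blk q (y.1 - H) y.1 y.2) ∧
      p ^ (2 * H) * pr p ((DL q).inn (blk q y.1 (y.1 + K * H) y.2))
        (fun ω => 0 < Ln q H T K ω y) ≤ (DL q).acc p Λ T e := by
  classical
  have hB : blk q (y.1 - H) (y.1 - H + H) y.2 = blk q (y.1 - H) y.1 y.2 := by
    rw [sub_add_cancel]
  have hyB : y ∈ blk q (y.1 - H) (y.1 - H + H) y.2 := by
    rw [hB, mem_blk]
    refine ⟨?_, le_rfl, ?_⟩
    · have : (0 : ℤ) ≤ H := by positivity
      linarith
    · rw [sub_self]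
      exact zero_mem_lamps _ _
  obtain ⟨A, hAc, hAsub, e, hecut, heinn, w, hwT, hwe, hreach⟩ :=
    blk_path (y.1 - H) H y.2 hyB (by rw [sub_add_cancel]) (hB ▸ hyt) hy ht
  rw [hB] at hAsub heinn hreach
  refine ⟨e, hecut, heinn, ?_⟩
  set U : Finset (DE q) := (DL q).inn (blk q y.1 (y.1 + K * H) y.2) with hU
  set F : Finset (DE q) := ((DL q).off Λ T ∪ A) ∪ U with hF
  have hAF : A ⊆ F := subset_union_right.trans subset_union_left
  have hUF : U ⊆ F := subset_union_right
  have s1 : p ^ (2 * H) ≤ p ^ A.card := pow_le_pow_of_le_one h0 h1 hAc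
  have s2 : pr p F (fun ω => A ⊆ ω) = p ^ A.card := pr_contain p hAF
  have hdepL : Dep (↑U : Set (DE q)) (fun ω : Finset (DE q) => 0 < Ln q H T K ω y) :=
    (dep_Ln H T K y).comp (fun x => 0 < x)
  have s3 : pr p U (fun ω => 0 < Ln q H T K ω y) = pr p F (fun ω => 0 < Ln q H T K ω y) :=
    pr_dep hdepL (fun i hi => ⟨fun _ => hUF hi, fun _ => hi⟩)
  have hdepA : Dep (↑A : Set (DE q)) (fun ω : Finset (DE q) => A ⊆ ω) := by
    intro ω ω' hω
    refine propext ⟨fun h i hi => (hω i hi).1 (h hi), fun h i hi => (hω i hi).2 (h hi)⟩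
  have hdisj : Disjoint (↑A : Set (DE q)) (↑U : Set (DE q)) := by
    rw [Set.disjoint_left]
    intro i hi hi'
    have e1 := (mem_inn_blk.1 (hAsub hi)).2.1
    have e2 := (mem_inn_blk.1 (mem_coe.1 hi')).1
    omega
  have s4 := pr_indep (p := p) (F := F) hdepA hdepL hdisj
  have s5 : pr p F (fun ω => A ⊆ ω ∧ 0 < Ln q H T K ω y) ≤
      pr p F (fun ω : Finset (DE q) => (DL q).Exit Λ (↑ω : Set (DE q)) {v | v ∉ T} w) := by
    refine pr_mono h0 h1 fun ω _ hω => ?_
    obtain ⟨z', hz', hr⟩ := Ln_reach hω.2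
    refine ⟨z', ?_, ?_⟩
    · intro hzΛ
      have := hΛ z' hzΛ
      rw [hz'] at this
      exact lt_irrefl _ this
    · refine Gr.Reach.trans (Gr.Reach.symm (hreach.mono (coe_subset.2 hω.1) ?_))
        (hr.mono (Set.Subset.refl _) ?_)
      · rintro v ⟨_, hv⟩
        exact hv
      · rintro v ⟨hv, _⟩
        exact hv
  have s6 : pr p F (fun ω : Finset (DE q) => (DL q).Exit Λ (↑ω : Set (DE q)) {v | v ∉ T} w) =
      pr p ((DL q).off Λ T)
        (fun ω : Finset (DE q) => (DL q).Exit Λ (↑ω : Set (DE q)) {v | v ∉ T} w) := by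
    refine pr_dep (Gr.dep_exit (DL q) Λ T w) fun i hi => ?_
    have hi' : i ∈ (DL q).off Λ T := by
      rw [Gr.mem_off]
      obtain ⟨hi1, hi2, hi3⟩ := hi
      rw [Gr.mem_touch] at hi1
      exact ⟨hi1, hi2, hi3⟩
    exact ⟨fun _ => hi', fun _ => subset_union_left.trans subset_union_left hi'⟩
  have s7 : pr p ((DL q).off Λ T)
        (fun ω : Finset (DE q) => (DL q).Exit Λ (↑ω : Set (DE q)) {v | v ∉ T} w) ≤
      (DL q).acc p Λ T e := by
    refine pr_mono h0 h1 fun ω _ hω => ?_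
    exact ⟨w, hwT, hwe, hω⟩
  calc p ^ (2 * H) * pr p U (fun ω => 0 < Ln q H T K ω y)
      ≤ p ^ A.card * pr p U (fun ω => 0 < Ln q H T K ω y) :=
        mul_le_mul_of_nonneg_right s1 (pr_nonneg h0 h1 _ _)
    _ = pr p F (fun ω => A ⊆ ω ∧ 0 < Ln q H T K ω y) := by rw [s4, s2, s3]
    _ ≤ _ := s5
    _ = _ := s6
    _ ≤ _ := s7

end Pool.Agent.DLP
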