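import Pool.Agent.DLP.FlowA
import Pool.Agent.DLP.LineB

/-!
# DLP/FlowB: the last exit from `T`

`Y = T.biUnion (tops H)`: the tops of the blocks which meet `T`.

`exit_sum` (last exit decomposition). Let `b z = 1` if the block `bl z` meets `T` and `0` otherwise,
`P u z = ∑_h tau z h / M * u (mv z h)` (so `P 1 = 1` by `sum_tau`), `w_K = wt T K`:
`w_{K+1} = (1 - b) P w_K`. Define `R_0 = 0`, `R_{K+1} = b P w_K + P R_K`. Then `w_K + R_K = 1` by
induction: `w_{K+1} + R_{K+1} = P w_K + P R_K = P 1 = 1`.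
Claim: `R_K x ≤ ∑_{k ∈ range K} ∑_{y ∈ Y} lam (k+1) x y * wt T (K-1-k) y`: by induction on `K`
(generalizing `x`): `b x P w_K x` is nonzero only if the block of `x` meets `T`, and then all
`mv x h ∈ Y` (`mem_tops`), so it is `≤ ∑_{y ∈ Y} lam 1 x y w_K y`; and
`P R_K x ≤ ∑_h (tau/M) ∑_k ∑_y lam (k+1) (mv x h) y w_{K-1-k} y = ∑_k ∑_y lam (k+2) x y w_{K-1-k} y`.
For `x ∈ T`, `K ≥ 1`: `w_K x = 0`, so `1 ≤ ∑_{k<K} ∑_{y∈Y} lam (k+1) x y * wt T (K-1-k) y`.
Now take `K = K₀ + m + 1`, where `m` is so large that all levels of `Y` are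
`< x.1 + (m+1) H` for all `x ∈ T` (`H ≥ 1`): the terms with `k ≥ m` vanish by `lam_level`
(careful: `k + 1 > m`), and for `k < m`, `K - 1 - k ≥ K₀`, so `wt T (K-1-k) y ≤ wt T K₀ y`
(`wt_anti`). Also only `y` with `y.1 ≡ x.1` mod `H` contribute (`lam_level`).

`flow_bound`: sum over `x ∈ T` with `x.1 ≡ r`; for each `y`:
`∑_{k} ∑_x lam (k+1) x y ≤ ∑_{k ≥ 1} min(1, |T| M^{-k}) ≤ log |T| / log M + M/(M-1) ≤ C log(|T|+1)`
(`lam_sum`, `lam_le`; split at `M^k ≤ |T|`; geometric series; `|T| ≥ 1`, `log (|T|+1) ≥ log 2`).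
-/

namespace Pool.Agent.DLP

open Finset

variable {q : ℕ} [NeZero q]

open Classical in
private theorem wt_succ (p : ℝ) (H : ℕ) (T : Finset (DV q)) (K : ℕ) (z : DV q) :
    wt q p H T (K + 1) z =
      if Disjoint (bl q H z) T then
        ∑ h ∈ lamps q z.1 (z.1 + H), tau q p H z h / Msum q p H * wt q p H T K (mv q H z h)
      else 0 := rfl

private theorem lam_succ (p : ℝ) (H k : ℕ) (x y : DV q) :
    lam q p H (k + 1) x y = ∑ h ∈ lamps q x.1 (x.1 + H), tau q p H x h / Msum q p H *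
      lam q p H k (mv q H x h) y := rfl

private theorem sum_tau_div' (p : ℝ) {H : ℕ} (hM : 0 < Msum q p H) (z : DV q) :
    ∑ h ∈ lamps q z.1 (z.1 + H), tau q p H z h / Msum q p H = 1 := by
  rw [← sum_div, sum_tau, div_self hM.ne']

private theorem claim {p : ℝ} (h0 : 0 ≤ p) (h1 : p ≤ 1) {H : ℕ} (hM : 0 < Msum q p H)
    (T : Finset (DV q)) : ∀ (K : ℕ) (x : DV q), 1 - wt q p H T K x ≤
      ∑ k ∈ range K, ∑ y ∈ T.biUnion (tops q H),
        lam q p H (k + 1) x y * wt q p H T (K - 1 - k) y := by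
  classical
  intro K
  induction K with
  | zero =>
    intro x
    have : wt q p H T 0 x = 1 := rfl
    rw [this]
    simp
  | succ K ih =>
    intro x
    set Y := T.biUnion (tops q H) with hY
    have hw0 : ∀ K z, 0 ≤ wt q p H T K z := wt_nonneg h0 h1 hM T
    have hl0 : ∀ k x y, 0 ≤ lam q p H k x y := lam_nonneg h0 h1 hM
    have ht0 : ∀ z h, 0 ≤ tau q p H z h / Msum q p H := fun z h =>
      div_nonneg (tau_nonneg h0 h1 H z h) hM.le
    have s1 : ∑ h ∈ lamps q x.1 (x.1 + H), tau q p H x h / Msum q p H *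
        (∑ k ∈ range K, ∑ y ∈ Y, lam q p H (k + 1) (mv q H x h) y *
          wt q p H T (K - 1 - k) y) =
        ∑ k ∈ range K, ∑ y ∈ Y, lam q p H (k + 1 + 1) x y *
          wt q p H T (K + 1 - 1 - (k + 1)) y := by
      simp_rw [Finset.mul_sum]
      rw [Finset.sum_comm]
      refine Finset.sum_congr rfl fun k hk => ?_
      rw [Finset.sum_comm]
      refine Finset.sum_congr rfl fun y _ => ?_
      rw [lam_succ p H (k + 1) x y, Finset.sum_mul]
      have e1 : K + 1 - 1 - (k + 1) = K - 1 - k := by omega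
      rw [e1]
      exact Finset.sum_congr rfl fun h _ => by ring
    rw [Finset.sum_range_succ', ← s1]
    have s2 : ∑ h ∈ lamps q x.1 (x.1 + H), tau q p H x h / Msum q p H *
        (1 - wt q p H T K (mv q H x h)) ≤
        ∑ h ∈ lamps q x.1 (x.1 + H), tau q p H x h / Msum q p H *
        (∑ k ∈ range K, ∑ y ∈ Y, lam q p H (k + 1) (mv q H x h) y *
          wt q p H T (K - 1 - k) y) :=
      Finset.sum_le_sum fun h _ => mul_le_mul_of_nonneg_left (ih _) (ht0 _ _)
    have s3 : ∑ h ∈ lamps q x.1 (x.1 + H), tau q p H x h / Msum q p H *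
        (1 - wt q p H T K (mv q H x h)) = 1 - ∑ h ∈ lamps q x.1 (x.1 + H),
          tau q p H x h / Msum q p H * wt q p H T K (mv q H x h) := by
      simp only [mul_sub, mul_one]
      rw [Finset.sum_sub_distrib, sum_tau_div' p hM x]
    by_cases hd : Disjoint (bl q H x) T
    · rw [wt_succ, if_pos hd]
      have s4 : 0 ≤ ∑ y ∈ Y, lam q p H (0 + 1) x y * wt q p H T (K + 1 - 1 - 0) y :=
        Finset.sum_nonneg fun y _ => mul_nonneg (hl0 _ _ _) (hw0 _ _)
      linarith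
    · rw [wt_succ, if_neg hd]
      have s4 : ∑ h ∈ lamps q x.1 (x.1 + H),
          tau q p H x h / Msum q p H * wt q p H T K (mv q H x h) ≤
          ∑ y ∈ Y, lam q p H (0 + 1) x y * wt q p H T (K + 1 - 1 - 0) y := by
        have e1 : ∀ y ∈ Y, lam q p H (0 + 1) x y * wt q p H T (K + 1 - 1 - 0) y =
            ∑ h ∈ lamps q x.1 (x.1 + H), tau q p H x h / Msum q p H *
              (lam q p H 0 (mv q H x h) y * wt q p H T K y) := by
          intro y _
          rw [lam_succ p H 0 x y, Finset.sum_mul]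
          refine Finset.sum_congr rfl fun h _ => ?_
          rw [show K + 1 - 1 - 0 = K by omega]
          ring
        rw [Finset.sum_congr rfl e1, Finset.sum_comm]
        refine Finset.sum_le_sum fun h hh => ?_
        rw [← Finset.mul_sum]
        refine mul_le_mul_of_nonneg_left ?_ (ht0 _ _)
        have e2 : mv q H x h ∈ Y := by
          obtain ⟨t, ht, htT⟩ := Finset.not_disjoint_iff.1 hd
          rw [hY, Finset.mem_biUnion]
          refine ⟨t, htT, mem_tops.2 ?_⟩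
          show t ∈ blk q (x.1 + H - H) (x.1 + H) (x.2 + h)
          rw [add_sub_cancel_right, blk_eq (f := x.2) (by rw [add_sub_cancel_left]; exact hh)]
          exact ht
        have e3 := Finset.single_le_sum
          (f := fun y => lam q p H 0 (mv q H x h) y * wt q p H T K y)
          (fun y _ => mul_nonneg (hl0 _ _ _) (hw0 _ _)) e2
        have e4 : lam q p H 0 (mv q H x h) (mv q H x h) = 1 := by simp [lam]
        simp only [e4, one_mul] at e3
        exact e3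
      linarith

theorem exit_sum {p : ℝ} (h0 : 0 ≤ p) (h1 : p ≤ 1) {H : ℕ} (hH : 1 ≤ H)
    (hM : 1 < Msum q p H) (T : Finset (DV q)) (r : ℤ) (K₀ : ℕ) :
    ∃ m : ℕ, ∀ x ∈ T, (H : ℤ) ∣ x.1 - r →
      1 ≤ ∑ k ∈ range m, ∑ y ∈ (T.biUnion (tops q H)).filter (fun y => (H : ℤ) ∣ y.1 - r),
        lam q p H (k + 1) x y * wt q p H T K₀ y := by
  have hM0 : 0 < Msum q p H := by linarith
  set Y := T.biUnion (tops q H) with hY
  obtain ⟨M1, hM1⟩ := (Y.image (fun y => y.1)).exists_le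
  obtain ⟨M2, hM2⟩ := (T.image (fun x => -x.1)).exists_le
  refine ⟨(M1 + M2).toNat, fun x hx hxr => ?_⟩
  set m := (M1 + M2).toNat with hm
  have a5 : (0 : ℤ) ≤ H := by positivity
  have hlev : ∀ y ∈ Y, y.1 < x.1 + (m + 1) * H := by
    intro y hy
    have a1 : y.1 ≤ M1 := hM1 y.1 (Finset.mem_image_of_mem _ hy)
    have a2 : -x.1 ≤ M2 := hM2 (-x.1) (Finset.mem_image_of_mem _ hx)
    have a3 : M1 + M2 ≤ m := Int.self_le_toNat _
    have a4 : (1 : ℤ) ≤ H := by exact_mod_cast hH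
    have a6 : (0 : ℤ) ≤ m := by positivity
    have a7 : ((m : ℤ) + 1) * 1 ≤ (m + 1) * H := mul_le_mul_of_nonneg_left a4 (by positivity)
    linarith
  have c := claim h0 h1 hM0 T (K₀ + m + 1) x
  have hw : wt q p H T (K₀ + m + 1) x = 0 := by
    rw [wt_succ, if_neg]
    rw [Finset.not_disjoint_iff]
    refine ⟨x, ?_, hx⟩
    unfold bl
    rw [mem_blk]
    refine ⟨le_rfl, by linarith, ?_⟩
    rw [sub_self]
    exact zero_mem_lamps _ _
  rw [hw, sub_zero] at c
  refine c.trans ?_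
  have e1 : ∑ k ∈ range (K₀ + m + 1), ∑ y ∈ Y,
      lam q p H (k + 1) x y * wt q p H T (K₀ + m + 1 - 1 - k) y =
      ∑ k ∈ range m, ∑ y ∈ Y, lam q p H (k + 1) x y * wt q p H T (K₀ + m + 1 - 1 - k) y := by
    symm
    refine Finset.sum_subset (Finset.range_subset_range.2 (by omega)) fun k _ hk => ?_
    rw [Finset.mem_range, not_lt] at hk
    refine Finset.sum_eq_zero fun y hy => ?_
    have : lam q p H (k + 1) x y = 0 := by
      by_contra hne
      have a1 := (lam_level hne).1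
      have a2 := hlev y hy
      have a3 : (m : ℤ) + 1 ≤ ((k + 1 : ℕ) : ℤ) := by
        push_cast
        have : (m : ℤ) ≤ k := by exact_mod_cast hk
        linarith
      have a4 := mul_le_mul_of_nonneg_right a3 a5
      linarith
    rw [this, zero_mul]
  rw [e1]
  refine Finset.sum_le_sum fun k hk => ?_
  rw [Finset.mem_range] at hk
  rw [Finset.sum_filter]
  refine Finset.sum_le_sum fun y hy => ?_
  by_cases hl : lam q p H (k + 1) x y = 0
  · rw [hl, zero_mul]
    split_ifs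
    · rw [zero_mul]
    · exact le_rfl
  · have a1 := (lam_level hl).1
    have a2 : (H : ℤ) ∣ y.1 - r := by
      rw [a1]
      have : x.1 + ((k + 1 : ℕ) : ℤ) * H - r = (x.1 - r) + ((k + 1 : ℕ) : ℤ) * H := by ring
      rw [this]
      exact dvd_add hxr (Dvd.intro_left _ rfl)
    rw [if_pos a2]
    exact mul_le_mul_of_nonneg_left (wt_anti h0 h1 hM0 T (by omega) y)
      (lam_nonneg h0 h1 hM0 _ _ _)

/-- `∑_{k ≥ 1} min(1, n M^{-k}) ≤ C log (n+1)`. -/
theorem sum_min_le {M : ℝ} (hM : 1 < M) : ∃ C : ℝ, 0 < C ∧ ∀ n : ℕ, 1 ≤ n → ∀ m : ℕ,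
    ∑ k ∈ range m, min 1 ((n : ℝ) * M⁻¹ ^ (k + 1)) ≤ C * Real.log (n + 1) := by
  set U : ℝ := (M - 1) / 2 with hU
  have hU0 : 0 < U := by rw [hU]; linarith
  have hL : 0 < Real.log (1 + U) := Real.log_pos (by linarith)
  refine ⟨1 / Real.log (1 + U), by positivity, fun n hn m => ?_⟩
  have hM0 : 0 < M := by linarith
  have key : ∀ a : ℝ, 0 ≤ a → min 1 a ≤ 1 / Real.log (1 + U) * Real.log (1 + a * M) -
      1 / Real.log (1 + U) * Real.log (1 + a) := by
    intro a ha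
    have b1 : 0 < 1 + a := by linarith
    have b2 : 0 < 1 + a * M := by positivity
    rw [← mul_sub, ← Real.log_div b2.ne' b1.ne', one_div, inv_mul_eq_div, le_div_iff₀ hL]
    rcases le_total 1 a with h | h
    · rw [min_eq_left h, one_mul]
      refine Real.log_le_log (by linarith) ?_
      rw [le_div_iff₀ b1, hU]
      nlinarith
    · rw [min_eq_right h]
      have b3 : (1 + U) ^ a ≤ 1 + a * U := _root_.rpow_one_add_le_one_add_mul_self (by linarith) ha h
      have b4 : a * Real.log (1 + U) = Real.log ((1 + U) ^ a) :=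
        (Real.log_rpow (by linarith) a).symm
      rw [b4]
      refine Real.log_le_log (Real.rpow_pos_of_pos (by linarith) _) (b3.trans ?_)
      rw [le_div_iff₀ b1, hU]
      nlinarith [mul_nonneg ha (sub_nonneg.2 h), mul_nonneg (mul_nonneg ha (sub_nonneg.2 h))
        (show 0 ≤ M - 1 by linarith)]
  have h2 : ∀ k ∈ range m, min 1 ((n : ℝ) * M⁻¹ ^ (k + 1)) ≤
      (fun k : ℕ => 1 / Real.log (1 + U) * Real.log (1 + (n : ℝ) * M⁻¹ ^ k)) k -
      (fun k : ℕ => 1 / Real.log (1 + U) * Real.log (1 + (n : ℝ) * M⁻¹ ^ k)) (k + 1) := by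
    intro k _
    have h3 := key ((n : ℝ) * M⁻¹ ^ (k + 1)) (by positivity)
    have h4 : (n : ℝ) * M⁻¹ ^ (k + 1) * M = (n : ℝ) * M⁻¹ ^ k := by
      rw [pow_succ]
      field_simp
    rw [h4] at h3
    exact h3
  refine (Finset.sum_le_sum h2).trans ?_
  rw [Finset.sum_range_sub']
  have h5 : 0 ≤ 1 / Real.log (1 + U) * Real.log (1 + (n : ℝ) * M⁻¹ ^ m) := by
    refine mul_nonneg (by positivity) (Real.log_nonneg ?_)
    have : 0 ≤ (n : ℝ) * M⁻¹ ^ m := by positivity
    linarith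
  have h6 : 1 + (n : ℝ) * M⁻¹ ^ 0 = n + 1 := by rw [pow_zero]; ring
  simp only [h6]
  linarith

theorem flow_bound {p : ℝ} (h0 : 0 ≤ p) (h1 : p ≤ 1) {H : ℕ} (hH : 1 ≤ H)
    (hM : 1 < Msum q p H) : ∃ C : ℝ, 0 < C ∧ ∀ (T : Finset (DV q)), T.Nonempty →
      ∀ (r : ℤ) (K₀ : ℕ),
      ((T.filter (fun x => (H : ℤ) ∣ x.1 - r)).card : ℝ) ≤ C * Real.log (T.card + 1) *
        ∑ y ∈ (T.biUnion (tops q H)).filter (fun y => (H : ℤ) ∣ y.1 - r), wt q p H T K₀ y := by
  have hM0 : 0 < Msum q p H := by linarith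
  obtain ⟨C, hC, hC2⟩ := sum_min_le hM
  refine ⟨C, hC, fun T hT r K₀ => ?_⟩
  obtain ⟨m, hm⟩ := exit_sum h0 h1 hH hM T r K₀
  set Y := (T.biUnion (tops q H)).filter (fun y => (H : ℤ) ∣ y.1 - r) with hY
  set X := T.filter (fun x => (H : ℤ) ∣ x.1 - r) with hX
  have hXT : X.card ≤ T.card := Finset.card_le_card (Finset.filter_subset _ _)
  have hT1 : 1 ≤ T.card := Finset.card_pos.2 hT
  have c1 : (X.card : ℝ) ≤ ∑ x ∈ X, ∑ k ∈ range m, ∑ y ∈ Y,
      lam q p H (k + 1) x y * wt q p H T K₀ y := by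
    have : (X.card : ℝ) = ∑ x ∈ X, (1 : ℝ) := by simp
    rw [this]
    refine Finset.sum_le_sum fun x hx => ?_
    rw [hX, Finset.mem_filter] at hx
    exact hm x hx.1 hx.2
  refine c1.trans ?_
  have c2 : ∑ x ∈ X, ∑ k ∈ range m, ∑ y ∈ Y, lam q p H (k + 1) x y * wt q p H T K₀ y =
      ∑ y ∈ Y, (∑ k ∈ range m, ∑ x ∈ X, lam q p H (k + 1) x y) * wt q p H T K₀ y := by
    rw [Finset.sum_comm]
    have : ∀ k ∈ range m, ∑ x ∈ X, ∑ y ∈ Y, lam q p H (k + 1) x y * wt q p H T K₀ y =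
        ∑ y ∈ Y, ∑ x ∈ X, lam q p H (k + 1) x y * wt q p H T K₀ y := fun k _ =>
      Finset.sum_comm
    rw [Finset.sum_congr rfl this, Finset.sum_comm]
    refine Finset.sum_congr rfl fun y _ => ?_
    rw [Finset.sum_mul]
    exact Finset.sum_congr rfl fun k _ => by rw [Finset.sum_mul]
  rw [c2, Finset.mul_sum]
  refine Finset.sum_le_sum fun y _ => ?_
  refine mul_le_mul_of_nonneg_right ?_ (wt_nonneg h0 h1 hM0 T K₀ y)
  refine le_trans (Finset.sum_le_sum fun k _ => ?_) (hC2 T.card hT1 m)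
  refine le_min (lam_sum h0 h1 hM0 (k + 1) X y) ?_
  have c3 : ∑ x ∈ X, lam q p H (k + 1) x y ≤ ∑ _x ∈ X, (Msum q p H)⁻¹ ^ (k + 1) :=
    Finset.sum_le_sum fun x _ => lam_le h0 h1 hM0 (k + 1) x y
  rw [Finset.sum_const, nsmul_eq_mul] at c3
  refine c3.trans (mul_le_mul_of_nonneg_right (by exact_mod_cast hXT) (by positivity))

end Pool.Agent.DLP
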