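import Pool.Agent.DLP.Shift
import Pool.Agent.DLP.ExC

/-!
# DLP/CpL: the connection probabilities `cp`: monotonicity, concatenation, straight paths

* `cp_nonneg`, `cp_le_one`.
* `cp_mono`: if `blk a' b' g ⊆ blk a b f` then a connection inside the smaller block is one inside
  the larger block; the probability over `inn` of the larger block of the event for the
  smaller one is `cp a' b' g` (`dep_reach`, `pr_dep`, `inn_mono`).
* `cp_trans`: two connections inside two blocks contained in a third one: Harris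
  (`harris_pr`, the events are increasing) and `Reach.trans`.
* `cp_up`: `up_path`: all the `k` edges are open with probability `p^k` (`pr_contain`).
* `Aj q p j N = ∑_{h ∈ lamps 0 j} cp (-N) (j+N) 0 (0,0) (j,h)`.
-/

namespace Pool.Agent.DLP

open Finset

variable {q : ℕ} [NeZero q]

theorem cp_nonneg {p : ℝ} (h0 : 0 ≤ p) (h1 : p ≤ 1) (a b : ℤ) (f : Lm q) (x y : DV q) :
    0 ≤ cp q p a b f x y :=
  pr_nonneg h0 h1 _ _

theorem cp_le_one {p : ℝ} (h0 : 0 ≤ p) (h1 : p ≤ 1) (a b : ℤ) (f : Lm q) (x y : DV q) :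
    cp q p a b f x y ≤ 1 :=
  pr_le_one h0 h1 _ _

private theorem cp_eq (p : ℝ) {a b a' b' : ℤ} {f g : Lm q}
    (h : blk q a' b' g ⊆ blk q a b f) (x y : DV q) :
    cp q p a' b' g x y = pr p ((DL q).inn (blk q a b f))
      (fun ω => (DL q).Reach (↑ω : Set (DE q)) (↑(blk q a' b' g) : Set (DV q)) x y) := by
  unfold cp
  refine pr_dep (Gr.dep_reach (DL q) (blk q a' b' g) x y) fun i hi => ?_
  have hi' : i ∈ (DL q).inn (blk q a' b' g) := mem_coe.1 hi
  exact ⟨fun _ => Gr.inn_mono (DL q) h hi', fun _ => hi'⟩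

theorem cp_mono {p : ℝ} (h0 : 0 ≤ p) (h1 : p ≤ 1) {a b a' b' : ℤ} {f g : Lm q}
    (h : blk q a' b' g ⊆ blk q a b f) (x y : DV q) :
    cp q p a' b' g x y ≤ cp q p a b f x y := by
  rw [cp_eq p h]
  unfold cp
  refine pr_mono h0 h1 fun ω _ hr => hr.mono (Set.Subset.refl _) ?_
  exact_mod_cast h

theorem cp_trans {p : ℝ} (h0 : 0 ≤ p) (h1 : p ≤ 1) {a b a' b' a'' b'' : ℤ} {f g k : Lm q}
    (hg : blk q a' b' g ⊆ blk q a b f) (hk : blk q a'' b'' k ⊆ blk q a b f) (x y z : DV q) :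
    cp q p a' b' g x y * cp q p a'' b'' k y z ≤ cp q p a b f x z := by
  rw [cp_eq p hg, cp_eq p hk]
  unfold cp
  refine (harris_pr h0 h1 _ ?_ ?_).trans (pr_mono h0 h1 ?_)
  · intro ω ω' h hr
    exact hr.mono (by exact_mod_cast h) (Set.Subset.refl _)
  · intro ω ω' h hr
    exact hr.mono (by exact_mod_cast h) (Set.Subset.refl _)
  · rintro ω _ ⟨h2, h3⟩
    exact (h2.mono (Set.Subset.refl _) (by exact_mod_cast hg)).trans
      (h3.mono (Set.Subset.refl _) (by exact_mod_cast hk))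

theorem cp_up {p : ℝ} (h0 : 0 ≤ p) (h1 : p ≤ 1) (n : ℤ) (k : ℕ) (f : Lm q) {h : Lm q}
    (hh : h ∈ lamps q n (n + k)) :
    p ^ k ≤ cp q p n (n + k) f (n, f) (n + k, f + h) := by
  obtain ⟨A, hA, hAi, hr⟩ := up_path n k f hh
  unfold cp
  rw [← hA, ← pr_contain p hAi, hA]
  refine pr_mono h0 h1 fun ω _ hAω => hr.mono ?_ (Set.Subset.refl _)
  exact_mod_cast hAω

/-- The expected number of vertices above `(0,0)` at the level `j` joined to `(0,0)` in the block
with levels `-N, …, j + N`. -/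
noncomputable def Aj (q : ℕ) [NeZero q] (p : ℝ) (j N : ℕ) : ℝ :=
  ∑ h ∈ lamps q 0 j, cp q p (-N) (j + N) 0 (0, 0) (j, h)

end Pool.Agent.DLP
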