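import Pool.Agent.DLP.BKB
import Pool.Agent.DLP.CpL

/-!
# DLP/AJ: above criticality some `Aj` is larger than `1`

Hypothesis `hθ`: every vertex of every finite set `Λ` exits `Λ` with probability `≥ θ > 0`.

`arm_sum`: let `j ≥ 1`, `s = 2j`, and `L` from `three_small` with `ε = θ³/2`, `N = 4L`,
`D = blk (-N) (s+N) 0`. For `x₁ = (0,0)`, `x₂ = (j, h₁)`, `x₃ = (2j, h₁+h₂)` in `blk 0 s 0`:
`P(Arm x_i) ≥ θ` (`hθ` for `Λ = D`, then `exit_blk`; the event `Arm` depends only on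
`inn D ⊆ touch D`), by Harris twice `P(all three arms) ≥ θ³`, and all three arms imply `Three` or one
of the three connections: `θ³ ≤ θ³/2 + cp(x₁,x₂) + cp(x₁,x₃) + cp(x₂,x₃)` (blocks `D`).

`exists_Aj`: sum over `h₁ ∈ lamps 0 j`, `h₂ ∈ lamps j (2j)` (`q^j` elements each):
`q^{2j} θ³/2 ≤ ∑∑ [cp(x₁,x₂) + cp(x₂,x₃) + cp(x₁,x₃)]`. With `N' = N + j`:
`cp(x₁,x₂)` in `D ⊆ blk (-N') (j+N') 0`: `∑_{h₁} ≤ Aj j N'`;
`cp(x₂,x₃)`: by `cp_tr` (translation of `(j,h₁)` to `(0,0)`) it is the connection of `(0,0)` and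
`(j, sh (-j) h₂)` in `blk (-N-j) (j+N) 0 ⊆ blk (-N') (j+N') 0`: `∑_{h₂} ≤ Aj j N'` for every `h₁`;
`cp(x₁,x₃)`: `∑_{h₁,h₂} = Aj (2j) N` (`sum_lamps_split`).
So `q^{2j} θ³/2 ≤ 2 q^j Aj(j,N') + Aj(2j,N)`. If both were `≤ 1`: `q^{2j} θ³ / 2 ≤ 3 q^j`,
`q^j ≤ 6/θ³`, false for large `j` (`q ≥ 2`).
-/

namespace Pool.Agent.DLP

open Finset

variable (q : ℕ) [NeZero q]

private theorem dep_arm (a b : ℤ) (f : Lm q) (x : DV q) :
    Dep (↑((DL q).inn (blk q a b f)) : Set (DE q)) (fun ω : Finset (DE q) => Arm q a b f ω x) := by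
  intro ω ω' h
  have key : ∀ y : DV q,
      (DL q).Reach (↑ω : Set (DE q)) (↑(blk q a b f) : Set (DV q)) x y =
      (DL q).Reach (↑ω' : Set (DE q)) (↑(blk q a b f) : Set (DV q)) x y :=
    fun y => (DL q).dep_reach (blk q a b f) x y ω ω' h
  unfold Arm
  simp only [key]

private theorem arm_mono {a b : ℤ} {f : Lm q} {x : DV q} {ω ω' : Finset (DE q)} (h : ω ⊆ ω')
    (ha : Arm q a b f ω x) : Arm q a b f ω' x := by
  obtain ⟨y, hy, hr, hyb⟩ := ha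
  exact ⟨y, hy, hr.mono (Finset.coe_subset.2 h) subset_rfl, hyb⟩

private theorem arm_pr {p θ : ℝ} (h0 : 0 < p) (h1 : p ≤ 1)
    (hθ : ∀ (Λ : Finset (DV q)), ∀ x ∈ Λ,
      θ ≤ pr p ((DL q).touch Λ) (fun ω => (DL q).Exit Λ (↑ω : Set (DE q)) Set.univ x))
    {a b : ℤ} {f : Lm q} {x : DV q} (hx : x ∈ blk q a b f) :
    θ ≤ pr p ((DL q).inn (blk q a b f)) (fun ω => Arm q a b f ω x) := by
  have e1 : pr p ((DL q).inn (blk q a b f)) (fun ω => Arm q a b f ω x) =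
      pr p ((DL q).touch (blk q a b f)) (fun ω => Arm q a b f ω x) := by
    refine pr_dep (dep_arm q a b f x) fun e he => ?_
    have he' := (Gr.mem_inn _).1 (Finset.mem_coe.1 he)
    exact ⟨fun _ => (Gr.mem_touch _).2 (Or.inl he'.1), fun _ => Finset.mem_coe.1 he⟩
  rw [e1]
  refine (hθ _ x hx).trans (pr_mono h0.le h1 fun ω _ hω => ?_)
  obtain ⟨y, hy, hr⟩ := hω
  obtain ⟨z, hz, hz1, hr1⟩ := exit_blk hr hx hy
  exact ⟨z, hz1, hr1.mono subset_rfl Set.inter_subset_right, hz⟩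

theorem arm_sum {p θ : ℝ} (h0 : 0 < p) (h1 : p ≤ 1) (hθ0 : 0 < θ)
    (hθ : ∀ (Λ : Finset (DV q)), ∀ x ∈ Λ,
      θ ≤ pr p ((DL q).touch Λ) (fun ω => (DL q).Exit Λ (↑ω : Set (DE q)) Set.univ x))
    (j : ℕ) : ∃ N : ℕ, ∀ h₁ ∈ lamps q 0 j, ∀ h₂ ∈ lamps q j (2 * j),
      θ ^ 3 / 2 ≤ cp q p (-N) (2 * j + N) 0 (0, 0) (j, h₁) +
        cp q p (-N) (2 * j + N) 0 (0, 0) (2 * j, h₁ + h₂) +
        cp q p (-N) (2 * j + N) 0 (j, h₁) (2 * j, h₁ + h₂) := by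
  obtain ⟨L, hL, hthree⟩ := three_small q h0 h1 (2 * j) (ε := θ ^ 3 / 2) (by positivity)
  refine ⟨4 * L, fun h₁ hh₁ h₂ hh₂ => ?_⟩
  have ec1 : ((2 * j : ℕ) : ℤ) = 2 * (j : ℤ) := by push_cast; ring
  have ec2 : ((4 * L : ℕ) : ℤ) = 4 * (L : ℤ) := by push_cast; ring
  rw [ec1] at hthree
  rw [ec2]
  have hh₁' : h₁ ∈ lamps q 0 (2 * j) := lamps_mono le_rfl (by omega) hh₁
  have hh₂' : h₂ ∈ lamps q 0 (2 * j) := lamps_mono (by omega) le_rfl hh₂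
  have hx₁ : ((0, 0) : DV q) ∈ blk q 0 (2 * j) 0 := by
    rw [mem_blk]
    refine ⟨le_rfl, by show (0 : ℤ) ≤ 2 * j; omega, ?_⟩
    rw [sub_zero]
    exact zero_mem_lamps _ _
  have hx₂ : (((j : ℤ), h₁) : DV q) ∈ blk q 0 (2 * j) 0 := by
    rw [mem_blk]
    refine ⟨by show (0 : ℤ) ≤ j; omega, by show (j : ℤ) ≤ 2 * j; omega, ?_⟩
    rw [sub_zero]
    exact hh₁'
  have hx₃ : ((2 * (j : ℤ), h₁ + h₂) : DV q) ∈ blk q 0 (2 * j) 0 := by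
    rw [mem_blk]
    refine ⟨by show (0 : ℤ) ≤ 2 * j; omega, le_rfl, ?_⟩
    rw [sub_zero]
    exact add_mem_lamps hh₁' hh₂'
  have hsub : blk q 0 (2 * j) 0 ⊆ blk q (-(4 * (L : ℤ))) (2 * j + 4 * L) 0 :=
    blk_subset (by omega) (by omega) (by rw [sub_zero]; exact zero_mem_lamps _ _)
  have ht := hthree _ hx₁ _ hx₂ _ hx₃
  have ha₁ := arm_pr q h0 h1 hθ (hsub hx₁)
  have ha₂ := arm_pr q h0 h1 hθ (hsub hx₂)
  have ha₃ := arm_pr q h0 h1 hθ (hsub hx₃)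
  set a : ℤ := -(4 * (L : ℤ)) with ha
  set b : ℤ := 2 * j + 4 * L with hb
  set x₁ : DV q := (0, 0) with hxd₁
  set x₂ : DV q := ((j : ℤ), h₁) with hxd₂
  set x₃ : DV q := (2 * (j : ℤ), h₁ + h₂) with hxd₃
  have hH1 := harris_pr h0.le h1 ((DL q).inn (blk q a b 0))
    (A := fun ω => Arm q a b 0 ω x₁) (B := fun ω => Arm q a b 0 ω x₂)
    (fun ω ω' h => arm_mono q h) (fun ω ω' h => arm_mono q h)
  have hH2 := harris_pr h0.le h1 ((DL q).inn (blk q a b 0))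
    (A := fun ω => Arm q a b 0 ω x₁ ∧ Arm q a b 0 ω x₂) (B := fun ω => Arm q a b 0 ω x₃)
    (fun ω ω' h h' => ⟨arm_mono q h h'.1, arm_mono q h h'.2⟩) (fun ω ω' h => arm_mono q h)
  have hU : pr p ((DL q).inn (blk q a b 0))
      (fun ω => (Arm q a b 0 ω x₁ ∧ Arm q a b 0 ω x₂) ∧ Arm q a b 0 ω x₃) ≤
      pr p ((DL q).inn (blk q a b 0)) (Three q a b 0 x₁ x₂ x₃) +
        (cp q p a b 0 x₁ x₂ + (cp q p a b 0 x₁ x₃ + cp q p a b 0 x₂ x₃)) := by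
    refine le_trans (pr_mono h0.le h1 (B := fun ω => Three q a b 0 x₁ x₂ x₃ ω ∨
      ((DL q).Reach (↑ω : Set (DE q)) (↑(blk q a b 0) : Set (DV q)) x₁ x₂ ∨
        ((DL q).Reach (↑ω : Set (DE q)) (↑(blk q a b 0) : Set (DV q)) x₁ x₃ ∨
          (DL q).Reach (↑ω : Set (DE q)) (↑(blk q a b 0) : Set (DV q)) x₂ x₃)))
      fun ω _ hω => ?_) ?_
    · unfold Three
      tauto
    · refine le_trans (pr_or_le h0.le h1 _ _ _) ?_
      refine add_le_add le_rfl ?_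
      refine le_trans (pr_or_le h0.le h1 _ _ _) ?_
      unfold cp
      refine add_le_add le_rfl ?_
      exact pr_or_le h0.le h1 _ _ _
  have hp12 : θ * θ ≤ pr p ((DL q).inn (blk q a b 0))
      (fun ω => Arm q a b 0 ω x₁ ∧ Arm q a b 0 ω x₂) :=
    le_trans (mul_le_mul ha₁ ha₂ hθ0.le (pr_nonneg h0.le h1 _ _)) hH1
  have hp123 : θ * θ * θ ≤ pr p ((DL q).inn (blk q a b 0))
      (fun ω => (Arm q a b 0 ω x₁ ∧ Arm q a b 0 ω x₂) ∧ Arm q a b 0 ω x₃) :=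
    le_trans (mul_le_mul hp12 ha₃ hθ0.le (pr_nonneg h0.le h1 _ _)) hH2
  have h3 : θ * θ * θ = θ ^ 3 := by ring
  rw [h3] at hp123
  linarith

theorem exists_Aj (hq : 2 ≤ q) {p θ : ℝ} (h0 : 0 < p) (h1 : p ≤ 1) (hθ0 : 0 < θ)
    (hθ : ∀ (Λ : Finset (DV q)), ∀ x ∈ Λ,
      θ ≤ pr p ((DL q).touch Λ) (fun ω => (DL q).Exit Λ (↑ω : Set (DE q)) Set.univ x)) :
    ∃ j N : ℕ, 1 < Aj q p j N := by
  by_contra hcon
  push Not at hcon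
  have hq1 : (1 : ℝ) < q := by exact_mod_cast (by omega : 1 < q)
  obtain ⟨j, hj⟩ := pow_unbounded_of_one_lt (6 / θ ^ 3) hq1
  obtain ⟨N, hN⟩ := arm_sum q h0 h1 hθ0 hθ j
  have hcard1 : (lamps q 0 (j : ℤ)).card = q ^ j := by
    rw [card_lamps]
    congr 1
  have hcard2 : (lamps q (j : ℤ) (2 * j)).card = q ^ j := by
    rw [card_lamps]
    congr 1
    omega
  have hAj1 := hcon j (N + j)
  have hAj2 := hcon (2 * j) N
  -- the first sum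
  have s1 : ∑ h₁ ∈ lamps q 0 (j : ℤ), cp q p (-N) (2 * j + N) 0 (0, 0) (j, h₁) ≤ 1 := by
    refine le_trans (Finset.sum_le_sum fun h₁ hh₁ => ?_) hAj1
    refine cp_mono h0.le h1 (blk_subset ?_ ?_ ?_) _ _
    · push_cast
      omega
    · push_cast
      omega
    · rw [sub_zero]
      exact zero_mem_lamps _ _
  have s2 : ∀ h₁ ∈ lamps q 0 (j : ℤ), ∑ h₂ ∈ lamps q (j : ℤ) (2 * j),
      cp q p (-N) (2 * j + N) 0 (j, h₁) (2 * j, h₁ + h₂) ≤ 1 := by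
    intro h₁ hh₁
    have h2 := sum_cp_up (q := q) p (j : ℤ) h₁ (N + j) (j + (N + j)) j
    have h3 : ∑ h ∈ lamps q 0 (j : ℤ), cp q p (-((N + j : ℕ) : ℤ)) ((j + (N + j) : ℕ) : ℤ) 0 (0, 0)
        ((j : ℤ), h) = Aj q p j (N + j) := by
      unfold Aj
      push_cast
      rfl
    rw [h3] at h2
    rw [← h2] at hAj1
    have h4 : (j : ℤ) + j = 2 * j := by ring
    rw [h4] at hAj1
    refine le_trans (Finset.sum_le_sum fun h₂ hh₂ => ?_) hAj1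
    refine cp_mono h0.le h1 (blk_subset ?_ ?_ ?_) _ _
    · push_cast
      omega
    · push_cast
      omega
    · rw [zero_sub]
      exact neg_mem_lamps (lamps_mono (by push_cast; omega) (by push_cast; omega) hh₁)
  have s3 : ∑ h₁ ∈ lamps q 0 (j : ℤ), ∑ h₂ ∈ lamps q (j : ℤ) (2 * j),
      cp q p (-N) (2 * j + N) 0 (0, 0) (2 * j, h₁ + h₂) ≤ 1 := by
    rw [← sum_lamps_split (by omega : (0 : ℤ) ≤ j) (by omega : (j : ℤ) ≤ 2 * j)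
      (fun h => cp q p (-N) (2 * j + N) 0 (0, 0) (2 * j, h))]
    refine le_trans (le_of_eq ?_) hAj2
    unfold Aj
    push_cast
    rfl
  have hsum : ∑ h₁ ∈ lamps q 0 (j : ℤ), ∑ h₂ ∈ lamps q (j : ℤ) (2 * j), θ ^ 3 / 2 ≤
      ∑ h₁ ∈ lamps q 0 (j : ℤ), ∑ h₂ ∈ lamps q (j : ℤ) (2 * j),
        (cp q p (-N) (2 * j + N) 0 (0, 0) (j, h₁) +
        cp q p (-N) (2 * j + N) 0 (0, 0) (2 * j, h₁ + h₂) +
        cp q p (-N) (2 * j + N) 0 (j, h₁) (2 * j, h₁ + h₂)) :=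
    Finset.sum_le_sum fun h₁ hh₁ => Finset.sum_le_sum fun h₂ hh₂ => hN h₁ hh₁ h₂ hh₂
  simp only [Finset.sum_add_distrib] at hsum
  have t1 : ∑ h₁ ∈ lamps q 0 (j : ℤ), ∑ h₂ ∈ lamps q (j : ℤ) (2 * j),
      cp q p (-N) (2 * j + N) 0 (0, 0) (j, h₁) ≤ (q : ℝ) ^ j := by
    simp only [Finset.sum_const, hcard2, nsmul_eq_mul]
    rw [← Finset.mul_sum]
    push_cast
    have := mul_le_mul_of_nonneg_left s1 (by positivity : (0 : ℝ) ≤ (q : ℝ) ^ j)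
    linarith
  have t2 : ∑ h₁ ∈ lamps q 0 (j : ℤ), ∑ h₂ ∈ lamps q (j : ℤ) (2 * j),
      cp q p (-N) (2 * j + N) 0 (j, h₁) (2 * j, h₁ + h₂) ≤ (q : ℝ) ^ j := by
    refine le_trans (Finset.sum_le_sum s2) ?_
    rw [Finset.sum_const, hcard1, nsmul_eq_mul, mul_one]
    push_cast
    exact le_rfl
  have t3 : ∑ h₁ ∈ lamps q 0 (j : ℤ), ∑ h₂ ∈ lamps q (j : ℤ) (2 * j), θ ^ 3 / 2 =
      (q : ℝ) ^ j * ((q : ℝ) ^ j * (θ ^ 3 / 2)) := by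
    rw [Finset.sum_const, Finset.sum_const, hcard1, hcard2, nsmul_eq_mul, nsmul_eq_mul]
    push_cast
    rfl
  rw [t3] at hsum
  have hqj : (1 : ℝ) ≤ (q : ℝ) ^ j := one_le_pow₀ hq1.le
  have hfin : (q : ℝ) ^ j * ((q : ℝ) ^ j * (θ ^ 3 / 2)) ≤ (q : ℝ) ^ j * 3 := by
    linarith
  have hfin2 : (q : ℝ) ^ j * (θ ^ 3 / 2) ≤ 3 :=
    le_of_mul_le_mul_left hfin (by linarith)
  have hθ3 : 0 < θ ^ 3 := by positivity
  rw [div_lt_iff₀ hθ3] at hj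
  linarith

end Pool.Agent.DLP
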