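import Pool.Agent.DLP.Rch
import Pool.Agent.DLP.ExB

/-!
# DLP/Aut: invariance under graph automorphisms

`Aut G`: a bijection of the vertices and a bijection of the edges compatible with the end points.
* `reach_aut`: `Relation.ReflTransGen.lift` in both directions (the inverse is an automorphism).
* `inn_map`, `touch_map`, `off_map`: extensionality, membership lemmas.
* `pr_inn_aut`: `pr_map` with `inn (B.map v) = (inn B).map e`.
-/

namespace Pool.Agent.DLP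

open Finset

namespace Gr

variable {V E : Type} [DecidableEq V] [DecidableEq E]

/-- Automorphisms. -/
structure Aut (G : Gr V E) where
  v : V ≃ V
  e : E ≃ E
  ha : ∀ x, G.a (e x) = v (G.a x)
  hb : ∀ x, G.b (e x) = v (G.b x)

variable {G : Gr V E}

theorem step_aut (φ : G.Aut) (ω : Set E) (x y : V) :
    G.Step (φ.e '' ω) (φ.v x) (φ.v y) ↔ G.Step ω x y := by
  unfold Step
  constructor
  · rintro ⟨e, ⟨e', he', rfl⟩, h⟩
    refine ⟨e', he', ?_⟩
    rw [φ.ha, φ.hb] at h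
    rcases h with ⟨h1, h2⟩ | ⟨h1, h2⟩
    · exact Or.inl ⟨φ.v.injective h1, φ.v.injective h2⟩
    · exact Or.inr ⟨φ.v.injective h1, φ.v.injective h2⟩
  · rintro ⟨e', he', h⟩
    refine ⟨φ.e e', ⟨e', he', rfl⟩, ?_⟩
    rw [φ.ha, φ.hb]
    rcases h with ⟨rfl, rfl⟩ | ⟨rfl, rfl⟩
    · exact Or.inl ⟨rfl, rfl⟩
    · exact Or.inr ⟨rfl, rfl⟩

theorem reach_aut (φ : G.Aut) (ω : Set E) (U : Set V) (x y : V) :
    G.Reach (φ.e '' ω) (φ.v '' U) (φ.v x) (φ.v y) ↔ G.Reach ω U x y := by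
  unfold Reach
  constructor
  · intro h
    have h2 : Relation.ReflTransGen (fun x y => G.Step ω x y ∧ x ∈ U ∧ y ∈ U)
        (φ.v.symm (φ.v x)) (φ.v.symm (φ.v y)) := by
      refine Relation.ReflTransGen.lift φ.v.symm ?_ _ _ h
      rintro a b ⟨h1, ⟨a', ha', rfl⟩, ⟨b', hb', rfl⟩⟩
      show G.Step ω (φ.v.symm (φ.v a')) (φ.v.symm (φ.v b')) ∧ φ.v.symm (φ.v a') ∈ U ∧
        φ.v.symm (φ.v b') ∈ U
      rw [Equiv.symm_apply_apply, Equiv.symm_apply_apply]
      exact ⟨(step_aut φ ω _ _).1 h1, ha', hb'⟩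
    rwa [Equiv.symm_apply_apply, Equiv.symm_apply_apply] at h2
  · intro h
    refine Relation.ReflTransGen.lift φ.v ?_ _ _ h
    rintro a b ⟨h1, ha, hb⟩
    exact ⟨(step_aut φ ω _ _).2 h1, ⟨a, ha, rfl⟩, ⟨b, hb, rfl⟩⟩

theorem mem_mapv (φ : G.Aut) (B : Finset V) (z : V) :
    φ.v z ∈ B.map φ.v.toEmbedding ↔ z ∈ B :=
  Finset.mem_map' φ.v.toEmbedding

theorem mem_mape (φ : G.Aut) (B : Finset E) (z : E) :
    φ.e z ∈ B.map φ.e.toEmbedding ↔ z ∈ B :=
  Finset.mem_map' φ.e.toEmbedding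

theorem inn_map (φ : G.Aut) (B : Finset V) :
    G.inn (B.map φ.v.toEmbedding) = (G.inn B).map φ.e.toEmbedding := by
  ext e
  obtain ⟨e, rfl⟩ := φ.e.surjective e
  rw [mem_mape, mem_inn, mem_inn, φ.ha, φ.hb, mem_mapv, mem_mapv]

theorem touch_map (φ : G.Aut) (B : Finset V) :
    G.touch (B.map φ.v.toEmbedding) = (G.touch B).map φ.e.toEmbedding := by
  ext e
  obtain ⟨e, rfl⟩ := φ.e.surjective e
  rw [mem_mape, mem_touch, mem_touch, φ.ha, φ.hb, mem_mapv, mem_mapv]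

/-- The law of the configuration in `B.map φ` is the image of the law of the configuration
in `B`. -/
theorem pr_inn_aut (φ : G.Aut) (p : ℝ) (B : Finset V) (A : Finset E → Prop) :
    pr p (G.inn (B.map φ.v.toEmbedding)) A =
      pr p (G.inn B) (fun ω => A (ω.map φ.e.toEmbedding)) := by
  rw [inn_map, pr_map]

theorem coe_mape (φ : G.Aut) (ω : Finset E) :
    (↑(ω.map φ.e.toEmbedding) : Set E) = φ.e '' (↑ω : Set E) :=
  Finset.coe_map _ _

theorem coe_mapv (φ : G.Aut) (B : Finset V) :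
    (↑(B.map φ.v.toEmbedding) : Set V) = φ.v '' (↑B : Set V) :=
  Finset.coe_map _ _

theorem pr_reach_aut (φ : G.Aut) (p : ℝ) (B : Finset V) (x y : V) :
    pr p (G.inn (B.map φ.v.toEmbedding)) (fun ω => G.Reach (↑ω : Set E)
        (↑(B.map φ.v.toEmbedding) : Set V) (φ.v x) (φ.v y)) =
      pr p (G.inn B) (fun ω => G.Reach (↑ω : Set E) (↑B : Set V) x y) := by
  rw [pr_inn_aut]
  refine pr_congr fun ω _ => ?_
  rw [coe_mape, coe_mapv]
  exact reach_aut φ _ _ x y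

theorem pr_exit_aut (φ : G.Aut) (p : ℝ) (Λ : Finset V) (x : V) :
    pr p (G.touch (Λ.map φ.v.toEmbedding)) (fun ω => G.Exit (Λ.map φ.v.toEmbedding)
        (↑ω : Set E) Set.univ (φ.v x)) =
      pr p (G.touch Λ) (fun ω => G.Exit Λ (↑ω : Set E) Set.univ x) := by
  rw [touch_map, pr_map]
  refine pr_congr fun ω _ => ?_
  have hu : (Set.univ : Set V) = φ.v '' Set.univ :=
    (Set.image_univ_of_surjective φ.v.surjective).symm
  unfold Exit
  rw [coe_mape]
  constructor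
  · rintro ⟨y, hy, h⟩
    obtain ⟨y, rfl⟩ := φ.v.surjective y
    refine ⟨y, fun h1 => hy ((mem_mapv φ Λ y).2 h1), ?_⟩
    rw [hu] at h
    exact (reach_aut φ _ _ x y).1 h
  · rintro ⟨y, hy, h⟩
    refine ⟨φ.v y, fun h1 => hy ((mem_mapv φ Λ y).1 h1), ?_⟩
    rw [hu]
    exact (reach_aut φ _ _ x y).2 h

end Gr

end Pool.Agent.DLP
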