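import Pool.Agent.DLP.Shift
import Pool.Agent.DLP.Tri

/-!
# DLP/BKA: three disjoint arms from a block, one translate

`Arm D a b ω x`: `x` is joined inside the block `D = blk a b f` to a vertex of its top or bottom
level. `Three`: `x₁, x₂, x₃` have arms and are pairwise not joined inside the block.

`three_tri`. Fix the base block `B₀ = blk 0 s 0`, `x_i ∈ B₀`, `N`, and
`P_N = pr p (inn (blk (-N) (s+N) 0)) Three`. Let `R = blk (-2L) (2L) 0`, `N = 4L`,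
`s + L ≤ ...` and let `B = blk a (a+s) g ⊆ R` be a translate with `-L ≤ a`, `a + s ≤ L`,
`g ∈ lamps (-2L) (2L)`. Then the event
`TriE B ω` := `inn B ⊆ ω` and there are `u₁ u₂ u₃ ∈ R` at the levels `±2L`, `Att`ached to `B` and
pairwise not `OffR`-joined (relation `r x y` = `an edge of `ω ∩ inn R` joins `x` and `y``)
has probability `≥ p^{|inn B₀|} P_N`.
Proof. The translation `tr a g` (an automorphism, `exists_trAut`) maps `B₀` to `B` and
`blk (-N) (s+N) 0` to `D = blk (a-N) (a+s+N) g ⊇ R` (`blk_subset`/`blk_eq`: `a - 4L ≤ -2L`,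
`a + s + 4L ≥ 2L`, and `D = blk (a-N) (a+s+N) 0` as `g` is supported in `[-2L, 2L)`), so
`P_N = pr p (inn D) (Three for the images y_i ∈ B)` (`pr_inn_aut`, `reach_aut`). Suppose `Three`
holds in `D` for `ω`. (i) `y_i ∈ B ⊆ R` is joined in `D` to a vertex at the level `a - N < -2L` or
`a + s + N > 2L`, hence (`exit_blk` for `R`) joined in `R` to `u_i ∈ R` at a level `±2L`;
`u_i ∉ B`; take the last exit from `B` (`Reach.last_exit`): so `Att B u_i`, via `w_i ∉ B`, an open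
edge to `b_i ∈ B`, with `y_i` joined to `b_i`, `w_i`, `u_i` inside `R`.
(ii) `OffR B u_i u_j` would give `y_i ↔ y_j` inside `R ⊆ D`.
The event `T₃` = `such `u_i` exist` depends only on the edges of `inn R \ inn B` (`OffR` only uses
edges without end point in `B`, and the edges `u — b` have `u ∉ B`); it is independent
of `inn B ⊆ ω`, whose probability is `p^{|inn B|}`, `|inn B| = |inn B₀|` (`inn_map`).
-/

namespace Pool.Agent.DLP

open Finset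

variable (q : ℕ) [NeZero q]

/-- `x` is joined inside the block to its top or bottom level. -/
def Arm (a b : ℤ) (f : Lm q) (ω : Finset (DE q)) (x : DV q) : Prop :=
  ∃ y : DV q, (y.1 = a ∨ y.1 = b) ∧
    (DL q).Reach (↑ω : Set (DE q)) (↑(blk q a b f) : Set (DV q)) x y ∧ y ∈ blk q a b f

def Three (a b : ℤ) (f : Lm q) (x₁ x₂ x₃ : DV q) (ω : Finset (DE q)) : Prop :=
  Arm q a b f ω x₁ ∧ Arm q a b f ω x₂ ∧ Arm q a b f ω x₃ ∧
    ¬ (DL q).Reach (↑ω : Set (DE q)) (↑(blk q a b f) : Set (DV q)) x₁ x₂ ∧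
    ¬ (DL q).Reach (↑ω : Set (DE q)) (↑(blk q a b f) : Set (DV q)) x₁ x₃ ∧
    ¬ (DL q).Reach (↑ω : Set (DE q)) (↑(blk q a b f) : Set (DV q)) x₂ x₃

/-- The relation `joined by an edge of `ω` inside `R``. -/
def rel (R : Finset (DV q)) (ω : Finset (DE q)) (x y : DV q) : Prop :=
  (DL q).Step (↑ω : Set (DE q)) x y ∧ x ∈ R ∧ y ∈ R

/-- `B` is a trifurcation block in `R = blk (-2L) (2L) 0`. -/
def TriE (L : ℕ) (B : Finset (DV q)) (ω : Finset (DE q)) : Prop :=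
  (DL q).inn B ⊆ ω ∧
    ∃ x₁ x₂ x₃ : DV q, (∀ x ∈ ({x₁, x₂, x₃} : Set (DV q)),
        x ∈ blk q (-(2 * L)) (2 * L) 0 ∧ (x.1 = -(2 * L) ∨ x.1 = 2 * L) ∧
          Att (rel q (blk q (-(2 * L)) (2 * L) 0) ω) B x) ∧
      ¬ OffR (rel q (blk q (-(2 * L)) (2 * L) 0) ω) B x₁ x₂ ∧
      ¬ OffR (rel q (blk q (-(2 * L)) (2 * L) 0) ω) B x₁ x₃ ∧
      ¬ OffR (rel q (blk q (-(2 * L)) (2 * L) 0) ω) B x₂ x₃

/-- Joined off `B` inside `R`, as `Reach`. -/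
private theorem offR_iff {R B : Finset (DV q)} {ω : Finset (DE q)} {x y : DV q} :
    OffR (rel q R ω) B x y ↔
      (DL q).Reach (↑ω : Set (DE q)) ((↑R : Set (DV q)) ∩ {z | z ∉ B}) x y := by
  constructor
  · intro h
    exact Relation.ReflTransGen.mono
      (fun a b hab => ⟨hab.1.1, ⟨hab.1.2.1, hab.2.1⟩, ⟨hab.1.2.2, hab.2.2⟩⟩) _ _ h
  · intro h
    exact Relation.ReflTransGen.mono
      (fun a b hab => ⟨⟨hab.1, hab.2.1.1, hab.2.2.1⟩, hab.2.1.2, hab.2.2.2⟩) _ _ h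

private theorem rel_mono {R B : Finset (DV q)} {ω ω' : Finset (DE q)}
    (h : ∀ e, e ∈ (DL q).inn R → e ∉ (DL q).inn B → e ∈ ω → e ∈ ω') {x y : DV q}
    (hx : x ∉ B) (hr : rel q R ω x y) : rel q R ω' x y := by
  obtain ⟨⟨e, he, hab⟩, hxR, hyR⟩ := hr
  refine ⟨⟨e, mem_coe.2 (h e ?_ ?_ (mem_coe.1 he)), hab⟩, hxR, hyR⟩
  · rw [Gr.mem_inn]
    rcases hab with ⟨h1, h2⟩ | ⟨h1, h2⟩
    · rw [h1, h2]; exact ⟨hxR, hyR⟩
    · rw [h1, h2]; exact ⟨hyR, hxR⟩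
  · rw [Gr.mem_inn]
    rintro ⟨h3, h4⟩
    rcases hab with ⟨h1, h2⟩ | ⟨h1, h2⟩
    · exact hx (h1 ▸ h3)
    · exact hx (h2 ▸ h4)

private theorem offR_mono {R B : Finset (DV q)} {ω ω' : Finset (DE q)}
    (h : ∀ e, e ∈ (DL q).inn R → e ∉ (DL q).inn B → e ∈ ω → e ∈ ω') {x y : DV q}
    (hr : OffR (rel q R ω) B x y) : OffR (rel q R ω') B x y :=
  Relation.ReflTransGen.mono (fun _ _ hab => ⟨rel_mono q h hab.2.1 hab.1, hab.2⟩) _ _ hr

private theorem att_mono {R B : Finset (DV q)} {ω ω' : Finset (DE q)}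
    (h : ∀ e, e ∈ (DL q).inn R → e ∉ (DL q).inn B → e ∈ ω → e ∈ ω') {x : DV q}
    (hr : Att (rel q R ω) B x) : Att (rel q R ω') B x := by
  obtain ⟨hx, u, hu, hxu, b, hb, hub⟩ := hr
  exact ⟨hx, u, hu, offR_mono q h hxu, b, hb, rel_mono q h hu hub⟩

/-- The event `TriE` without the condition `inn B ⊆ ω`. -/
private def Tri3 (L : ℕ) (B : Finset (DV q)) (ω : Finset (DE q)) : Prop :=
  ∃ x₁ x₂ x₃ : DV q, (∀ x ∈ ({x₁, x₂, x₃} : Set (DV q)),
      x ∈ blk q (-(2 * L)) (2 * L) 0 ∧ (x.1 = -(2 * L) ∨ x.1 = 2 * L) ∧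
        Att (rel q (blk q (-(2 * L)) (2 * L) 0) ω) B x) ∧
    ¬ OffR (rel q (blk q (-(2 * L)) (2 * L) 0) ω) B x₁ x₂ ∧
    ¬ OffR (rel q (blk q (-(2 * L)) (2 * L) 0) ω) B x₁ x₃ ∧
    ¬ OffR (rel q (blk q (-(2 * L)) (2 * L) 0) ω) B x₂ x₃

private theorem dep_tri3 (L : ℕ) (B : Finset (DV q)) :
    Dep {e : DE q | e ∈ (DL q).inn (blk q (-(2 * L)) (2 * L) 0) ∧ e ∉ (DL q).inn B}
      (fun ω => Tri3 q L B ω) := by
  have key : ∀ ω ω' : Finset (DE q),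
      (∀ i ∈ {e : DE q | e ∈ (DL q).inn (blk q (-(2 * L)) (2 * L) 0) ∧ e ∉ (DL q).inn B},
        (i ∈ ω ↔ i ∈ ω')) → Tri3 q L B ω → Tri3 q L B ω' := by
    rintro ω ω' h ⟨x₁, x₂, x₃, hx, h12, h13, h23⟩
    have hf : ∀ e, e ∈ (DL q).inn (blk q (-(2 * L)) (2 * L) 0) → e ∉ (DL q).inn B →
        e ∈ ω → e ∈ ω' := fun e h1 h2 h3 => (h e ⟨h1, h2⟩).1 h3
    have hb : ∀ e, e ∈ (DL q).inn (blk q (-(2 * L)) (2 * L) 0) → e ∉ (DL q).inn B →
        e ∈ ω' → e ∈ ω := fun e h1 h2 h3 => (h e ⟨h1, h2⟩).2 h3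
    exact ⟨x₁, x₂, x₃, fun x hx' => ⟨(hx x hx').1, (hx x hx').2.1, att_mono q hf (hx x hx').2.2⟩,
      fun h' => h12 (offR_mono q hb h'), fun h' => h13 (offR_mono q hb h'),
      fun h' => h23 (offR_mono q hb h')⟩
  intro ω ω' h
  exact propext ⟨key ω ω' h, key ω' ω fun i hi => (h i hi).symm⟩

/-- An arm of a vertex of `B` in `D ⊇ R` gives an attached vertex at the boundary of `R`. -/
private theorem arm_exit {R D B : Finset (DV q)} {L : ℕ} (hRe : R = blk q (-(2 * L)) (2 * L) 0)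
    (hRD : R ⊆ D) (hBR : B ⊆ R) (hBl : ∀ x ∈ B, -(2 * (L : ℤ)) < x.1 ∧ x.1 < 2 * L)
    {ω : Finset (DE q)} {y z : DV q} (hy : y ∈ B) (hz : z ∉ R)
    (h : (DL q).Reach (↑ω : Set (DE q)) (↑D : Set (DV q)) y z) :
    ∃ u ∈ R, (u.1 = -(2 * L) ∨ u.1 = 2 * L) ∧ Att (rel q R ω) B u ∧
      (DL q).Reach (↑ω : Set (DE q)) (↑D : Set (DV q)) y u := by
  subst hRe
  obtain ⟨u, huR, hul, hu⟩ := exit_blk h (hBR hy) hz
  have huB : u ∉ B := by
    intro huB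
    have := hBl u huB
    rcases hul with h1 | h1
    · rw [h1] at this; exact lt_irrefl _ this.1
    · rw [h1] at this; exact lt_irrefl _ this.2
  refine ⟨u, huR, hul, ⟨huB, ?_⟩, hu.mono subset_rfl Set.inter_subset_left⟩
  obtain ⟨e, he, b, w, hb, hw, hab, hbU, hwU, -, hwu⟩ := hu.last_exit hy huB
  refine ⟨w, hw, ?_, b, hb, ⟨e, he, hab.symm⟩, hwU.2, hbU.2⟩
  rw [offR_iff]
  refine hwu.symm.mono subset_rfl ?_
  rintro v ⟨⟨-, hv1⟩, hv2⟩
  exact ⟨hv1, hv2⟩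

private theorem three_imp {R D B : Finset (DV q)} {L : ℕ} (hRe : R = blk q (-(2 * L)) (2 * L) 0)
    {a' b' : ℤ} {g : Lm q} (hD : D = blk q a' b' g)
    (ha' : a' < -(2 * L)) (hb' : 2 * L < b')
    (hRD : R ⊆ D) (hBR : B ⊆ R) (hBl : ∀ x ∈ B, -(2 * (L : ℤ)) < x.1 ∧ x.1 < 2 * L)
    {ω : Finset (DE q)} {y₁ y₂ y₃ : DV q} (hy₁ : y₁ ∈ B) (hy₂ : y₂ ∈ B) (hy₃ : y₃ ∈ B)
    (h : Three q a' b' g y₁ y₂ y₃ ω) : Tri3 q L B ω := by
  obtain ⟨⟨z₁, hz₁, hr₁, -⟩, ⟨z₂, hz₂, hr₂, -⟩, ⟨z₃, hz₃, hr₃, -⟩, h12, h13, h23⟩ := h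
  rw [← hD] at hr₁ hr₂ hr₃ h12 h13 h23
  have hz : ∀ z : DV q, (z.1 = a' ∨ z.1 = b') → z ∉ R := by
    intro z hz hzR
    rw [hRe, mem_blk] at hzR
    rcases hz with hz | hz <;> omega
  obtain ⟨u₁, hu₁, hl₁, hA₁, hs₁⟩ := arm_exit q hRe hRD hBR hBl hy₁ (hz _ hz₁) hr₁
  obtain ⟨u₂, hu₂, hl₂, hA₂, hs₂⟩ := arm_exit q hRe hRD hBR hBl hy₂ (hz _ hz₂) hr₂
  obtain ⟨u₃, hu₃, hl₃, hA₃, hs₃⟩ := arm_exit q hRe hRD hBR hBl hy₃ (hz _ hz₃) hr₃
  have hoff : ∀ u u' : DV q, OffR (rel q R ω) B u u' →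
      (DL q).Reach (↑ω : Set (DE q)) (↑D : Set (DV q)) u u' := by
    intro u u' h
    rw [offR_iff] at h
    exact h.mono subset_rfl (fun v hv => mem_coe.2 (hRD (mem_coe.1 hv.1)))
  rw [Tri3, ← hRe]
  refine ⟨u₁, u₂, u₃, ?_, ?_, ?_, ?_⟩
  · rintro x (rfl | rfl | rfl)
    · exact ⟨hu₁, hl₁, hA₁⟩
    · exact ⟨hu₂, hl₂, hA₂⟩
    · exact ⟨hu₃, hl₃, hA₃⟩
  · exact fun h => h12 ((hs₁.trans (hoff _ _ h)).trans hs₂.symm)
  · exact fun h => h13 ((hs₁.trans (hoff _ _ h)).trans hs₃.symm)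
  · exact fun h => h23 ((hs₂.trans (hoff _ _ h)).trans hs₃.symm)

private theorem arm_aut {A : (DL q).Aut} {m : ℤ} {φ : Lm q} (hA : ∀ v, A.v v = tr m φ v)
    {a b : ℤ} {f : Lm q} {ω : Finset (DE q)} {x : DV q} (h : Arm q a b f ω x) :
    Arm q (a + m) (b + m) (φ + sh m f) (ω.map A.e.toEmbedding) (A.v x) := by
  obtain ⟨y, hy, hr, hyb⟩ := h
  refine ⟨A.v y, ?_, ?_, ?_⟩
  · rw [hA y]
    rcases hy with hy | hy
    · left; simp [tr, hy]
    · right; simp [tr, hy]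
  · have h2 := (Gr.reach_aut A (↑ω : Set (DE q)) (↑(blk q a b f) : Set (DV q)) x y).2 hr
    rw [← blk_tr A m φ hA]
    simpa using h2
  · rw [← blk_tr A m φ hA]
    exact mem_map_of_mem _ hyb

private theorem three_aut {A : (DL q).Aut} {m : ℤ} {φ : Lm q} (hA : ∀ v, A.v v = tr m φ v)
    {a b : ℤ} {f : Lm q} {ω : Finset (DE q)} {x₁ x₂ x₃ : DV q}
    (h : Three q a b f x₁ x₂ x₃ ω) :
    Three q (a + m) (b + m) (φ + sh m f) (A.v x₁) (A.v x₂) (A.v x₃)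
      (ω.map A.e.toEmbedding) := by
  obtain ⟨h1, h2, h3, h12, h13, h23⟩ := h
  have key : ∀ x y : DV q, (DL q).Reach (↑(ω.map A.e.toEmbedding) : Set (DE q))
      (↑(blk q (a + m) (b + m) (φ + sh m f)) : Set (DV q)) (A.v x) (A.v y) →
      (DL q).Reach (↑ω : Set (DE q)) (↑(blk q a b f) : Set (DV q)) x y := by
    intro x y h
    rw [← blk_tr A m φ hA] at h
    refine (Gr.reach_aut A (↑ω : Set (DE q)) (↑(blk q a b f) : Set (DV q)) x y).1 ?_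
    simpa using h
  exact ⟨arm_aut q hA h1, arm_aut q hA h2, arm_aut q hA h3, fun h => h12 (key _ _ h),
    fun h => h13 (key _ _ h), fun h => h23 (key _ _ h)⟩

theorem three_tri {p : ℝ} (h0 : 0 ≤ p) (h1 : p ≤ 1) {s L : ℕ} (hL : 1 ≤ L) {a : ℤ}
    (ha : -(L : ℤ) ≤ a) (has : a + s ≤ L) {g : Lm q} (hg : g ∈ lamps q (-(2 * L)) (2 * L))
    {x₁ x₂ x₃ : DV q} (hx₁ : x₁ ∈ blk q 0 s 0) (hx₂ : x₂ ∈ blk q 0 s 0)
    (hx₃ : x₃ ∈ blk q 0 s 0) :
    p ^ ((DL q).inn (blk q 0 s 0)).card *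
        pr p ((DL q).inn (blk q (-(4 * L)) (s + 4 * L) 0))
          (Three q (-(4 * L)) (s + 4 * L) 0 x₁ x₂ x₃) ≤
      pr p ((DL q).inn (blk q (-(2 * L)) (2 * L) 0)) (TriE q L (blk q a (a + s) g)) := by
  obtain ⟨A, hA⟩ := exists_trAut a g
  have hsh : g + sh a (0 : Lm q) = g := by
    have : sh a (0 : Lm q) = 0 := by
      ext i
      rw [sh_apply]
      rfl
    rw [this, add_zero]
  have hB : (blk q 0 s 0).map A.v.toEmbedding = blk q a (a + s) g := by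
    rw [blk_tr A a g hA, hsh, zero_add, add_comm (s : ℤ) a]
  have hD : (blk q (-(4 * L)) (s + 4 * L) 0).map A.v.toEmbedding =
      blk q (-(4 * L) + a) (s + 4 * L + a) g := by
    rw [blk_tr A a g hA, hsh]
  have hLZ : (1 : ℤ) ≤ L := by exact_mod_cast hL
  have hs0 : (0 : ℤ) ≤ s := Int.natCast_nonneg s
  have hRD : blk q (-(2 * L)) (2 * L) 0 ⊆ blk q (-(4 * L) + a) (s + 4 * L + a) g := by
    refine blk_subset (by omega) (by omega) ?_
    rw [zero_sub]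
    refine neg_mem_lamps (lamps_mono (by omega) (by omega) hg)
  have hBR : blk q a (a + s) g ⊆ blk q (-(2 * L)) (2 * L) 0 := by
    refine blk_subset (by omega) (by omega) ?_
    rw [sub_zero]
    exact hg
  have hBl : ∀ x ∈ blk q a (a + s) g, -(2 * (L : ℤ)) < x.1 ∧ x.1 < 2 * L := by
    intro x hx
    rw [mem_blk] at hx
    omega
  have hcard : ((DL q).inn (blk q a (a + s) g)).card = ((DL q).inn (blk q 0 s 0)).card := by
    rw [← hB, Gr.inn_map, card_map]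
  have hmem : ∀ x, x ∈ blk q 0 s 0 → A.v x ∈ blk q a (a + s) g := by
    intro x hx
    rw [← hB]
    exact mem_map_of_mem _ hx
  -- the probability of `Tri3`
  have hP : pr p ((DL q).inn (blk q (-(4 * L)) (s + 4 * L) 0))
      (Three q (-(4 * L)) (s + 4 * L) 0 x₁ x₂ x₃) ≤
      pr p ((DL q).inn (blk q (-(2 * L)) (2 * L) 0)) (fun ω => Tri3 q L (blk q a (a + s) g) ω) := by
    have e1 : pr p ((DL q).inn (blk q (-(4 * L) + a) (s + 4 * L + a) g))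
        (fun ω => Tri3 q L (blk q a (a + s) g) ω) =
        pr p ((DL q).inn (blk q (-(2 * L)) (2 * L) 0))
          (fun ω => Tri3 q L (blk q a (a + s) g) ω) := by
      refine pr_dep (dep_tri3 q L (blk q a (a + s) g)) ?_
      rintro e ⟨he1, he2⟩
      exact ⟨fun _ => he1, fun _ => Gr.inn_mono _ hRD he1⟩
    rw [← e1, ← hD, Gr.pr_inn_aut]
    refine pr_mono h0 h1 ?_
    intro ω _ h
    refine three_imp q rfl (a' := -(4 * L) + a) (b' := s + 4 * L + a) (g := g) rfl (by omega)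
      (by omega) hRD hBR hBl (hmem _ hx₁) (hmem _ hx₂) (hmem _ hx₃) ?_
    have := three_aut q hA h
    rw [hsh] at this
    exact this
  have hI : pr p ((DL q).inn (blk q (-(2 * L)) (2 * L) 0)) (TriE q L (blk q a (a + s) g)) =
      p ^ ((DL q).inn (blk q 0 s 0)).card *
        pr p ((DL q).inn (blk q (-(2 * L)) (2 * L) 0))
          (fun ω => Tri3 q L (blk q a (a + s) g) ω) := by
    rw [← hcard, ← pr_contain p (Gr.inn_mono (DL q) hBR)]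
    have hdc : Dep (↑((DL q).inn (blk q a (a + s) g)) : Set (DE q))
        (fun ω : Finset (DE q) => (DL q).inn (blk q a (a + s) g) ⊆ ω) := by
      intro ω ω' h
      refine propext ⟨fun h' e he => (h e (mem_coe.2 he)).1 (h' he),
        fun h' e he => (h e (mem_coe.2 he)).2 (h' he)⟩
    rw [← pr_indep hdc (dep_tri3 q L (blk q a (a + s) g))
      (Set.disjoint_left.2 fun e he he' => he'.2 (mem_coe.1 he))]
    exact pr_congr fun ω _ => Iff.rfl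
  rw [hI]
  exact mul_le_mul_of_nonneg_left hP (pow_nonneg h0 _)

end Pool.Agent.DLP
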