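import Pool.Agent.DLP.BKA

/-!
# DLP/BKB: the probability of three disjoint arms tends to zero

`R = blk (-2L) (2L) 0`, `L ≥ s + 1`. Blocks `B_{j,g} = blk a_j (a_j + s) g`, `a_j = -L + j (s+1)`,
`j = 0, …, J-1` with `J = ⌊L/(s+1)⌋` (so `a_j + s ≤ L`), and for every `j` one `g` in each class
of `lamps (-2L) (2L)` modulo `lamps a_j (a_j+s)`: e.g. the `q^{4L-s}` configurations
`g ∈ lamps (-2L) (2L)` which vanish on `[a_j, a_j + s)`. The blocks are pairwise disjoint (different
`j`: disjoint levels; same `j`, different `g`: `blk_disjoint`), nonempty, contained in `R`.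
For every `ω` the trifurcation blocks among them are at most `|bd| = 2 q^{4L}` (`tri_count` with
`r = rel R ω`; `bd` = the vertices of `R` at the levels `±2L`; the blocks with `inn B ⊆ ω` are
connected: every two vertices of a block are joined inside the block, e.g. through the vertex
`(a, ·)` at the bottom level and back: `blk_path` or directly `up_path`).
Taking expectations, with `three_tri`:
`J q^{4L-s} p^{|inn B₀|} P(Three) ≤ 2 q^{4L}`, so `P(Three) ≤ 2 q^s / (J p^{|inn B₀|})` which tends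
to `0` as `L → ∞` (uniformly in `x₁, x₂, x₃`).
-/

namespace Pool.Agent.DLP

open Finset

variable (q : ℕ) [NeZero q]

private theorem reach_up {a : ℤ} {s : ℕ} {g : Lm q} {ω : Finset (DE q)}
    (hω : (DL q).inn (blk q a (a + s) g) ⊆ ω) {n n' : ℤ} {f h : Lm q} (hn : a ≤ n) (hnn : n ≤ n')
    (hn' : n' ≤ a + s) (hf : f - g ∈ lamps q a (a + s)) (hh : h ∈ lamps q n n') :
    (DL q).Reach (↑ω : Set (DE q)) (↑(blk q a (a + s) g) : Set (DV q)) (n, f) (n', f + h) := by
  obtain ⟨k, hk⟩ : ∃ k : ℕ, n' = n + k := ⟨(n' - n).toNat, by omega⟩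
  subst hk
  obtain ⟨A, _, hA, hr⟩ := up_path n k f hh
  have hsub : blk q n (n + k) f ⊆ blk q a (a + s) g := blk_subset hn hn' hf
  exact hr.mono (coe_subset.2 (hA.trans ((Gr.inn_mono (DL q) hsub).trans hω))) (coe_subset.2 hsub)

/-- If all the edges inside a block are open then the block is connected. -/
theorem blk_connected {a : ℤ} {s : ℕ} {g : Lm q} {ω : Finset (DE q)}
    (hω : (DL q).inn (blk q a (a + s) g) ⊆ ω) {x y : DV q} (hx : x ∈ blk q a (a + s) g)
    (hy : y ∈ blk q a (a + s) g) :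
    (DL q).Reach (↑ω : Set (DE q)) (↑(blk q a (a + s) g) : Set (DV q)) x y := by
  obtain ⟨n, f1⟩ := x
  obtain ⟨m, f2⟩ := y
  obtain ⟨hx1, hx2, hx3⟩ := mem_blk.1 hx
  obtain ⟨hy1, hy2, hy3⟩ := mem_blk.1 hy
  simp only at hx1 hx2 hx3 hy1 hy2 hy3
  have hs : a ≤ a + (s : ℤ) := by
    have : (0 : ℤ) ≤ s := by positivity
    linarith
  have r1 := reach_up q hω hx1 hx2 le_rfl hx3 (zero_mem_lamps n (a + s))
  rw [add_zero] at r1
  have hd : f1 - f2 ∈ lamps q a (a + s) := by
    have : f1 - f2 = (f1 - g) - (f2 - g) := by abel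
    rw [this]
    exact sub_mem_lamps hx3 hy3
  have r2 := reach_up q hω le_rfl hs le_rfl hy3 hd
  rw [add_sub_cancel] at r2
  have r3 := reach_up q hω le_rfl hy1 hy2 hy3 (zero_mem_lamps a m)
  rw [add_zero] at r3
  exact Gr.Reach.trans r1 (Gr.Reach.trans (Gr.Reach.symm r2) r3)

private theorem final_arith {c P3 Q N J Lc ε : ℝ} (hpc : 0 < c) (hP30 : 0 ≤ P3) (hq : 0 ≤ Q)
    (hLam0 : 0 < Lc) (hJ0' : 0 < J) (hcardR : J * Lc ≤ Q * N) (hsum : N * (c * P3) ≤ 2 * Lc)
    (hJ2 : 2 * Q ≤ J * (ε * c)) : P3 ≤ ε := by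
  have hX : 0 ≤ c * P3 := mul_nonneg hpc.le hP30
  have e1 : J * Lc * (c * P3) ≤ Q * (2 * Lc) := by
    calc J * Lc * (c * P3) ≤ (Q * N) * (c * P3) := mul_le_mul_of_nonneg_right hcardR hX
      _ = Q * (N * (c * P3)) := by ring
      _ ≤ _ := mul_le_mul_of_nonneg_left hsum hq
  have e2 : Lc * (J * (c * P3)) ≤ Lc * (J * (ε * c)) := by
    calc Lc * (J * (c * P3)) = J * Lc * (c * P3) := by ring
      _ ≤ Q * (2 * Lc) := e1
      _ = Lc * (2 * Q) := by ring
      _ ≤ _ := mul_le_mul_of_nonneg_left hJ2 hLam0.le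
  have e3 := le_of_mul_le_mul_left e2 hLam0
  have e4 := le_of_mul_le_mul_left e3 hJ0'
  have e5 : c * P3 ≤ c * ε := by linarith
  exact le_of_mul_le_mul_left e5 hpc

theorem three_small {p : ℝ} (h0 : 0 < p) (h1 : p ≤ 1) (s : ℕ) {ε : ℝ} (hε : 0 < ε) :
    ∃ L : ℕ, 1 ≤ L ∧ ∀ x₁ ∈ blk q 0 s 0, ∀ x₂ ∈ blk q 0 s 0, ∀ x₃ ∈ blk q 0 s 0,
      pr p ((DL q).inn (blk q (-(4 * L)) (s + 4 * L) 0))
        (Three q (-(4 * L)) (s + 4 * L) 0 x₁ x₂ x₃) ≤ ε := by
  classical
  set c0 : ℕ := ((DL q).inn (blk q 0 s 0)).card with hc0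
  obtain ⟨J0, hJ0⟩ := exists_nat_gt (2 * (q : ℝ) ^ s / (ε * p ^ c0))
  set J : ℕ := J0 + 1 with hJ
  have hJ1 : 2 * (q : ℝ) ^ s / (ε * p ^ c0) ≤ J := by
    rw [hJ]; push_cast; linarith
  have hpc : 0 < p ^ c0 := pow_pos h0 c0
  have hJ2 : 2 * (q : ℝ) ^ s ≤ J * (ε * p ^ c0) := by
    rwa [div_le_iff₀ (mul_pos hε hpc)] at hJ1
  have hJpos : 1 ≤ J := by omega
  set L : ℕ := J * (s + 1) with hL
  have hL1 : 1 ≤ L := Nat.one_le_iff_ne_zero.2 (by rw [hL]; positivity)
  refine ⟨L, hL1, ?_⟩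
  intro x₁ hx₁ x₂ hx₂ x₃ hx₃
  set P3 := pr p ((DL q).inn (blk q (-(4 * L)) (s + 4 * L) 0))
        (Three q (-(4 * L)) (s + 4 * L) 0 x₁ x₂ x₃) with hP3
  have hP30 : 0 ≤ P3 := pr_nonneg h0.le h1 _ _
  let aa : ℕ → ℤ := fun j => -(L : ℤ) + j * (s + 1)
  set Lam : Finset (Lm q) := lamps q (-(2 * L)) (2 * L) with hLam
  let win : ℕ → ℤ → Prop := fun j i => aa j ≤ i ∧ i < aa j + s
  let idx : Finset (ℕ × Lm q) :=
    (range J ×ˢ Lam).filter (fun x => ∀ i, win x.1 i → x.2 i = 0)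
  let B : ℕ × Lm q → Finset (DV q) := fun x => blk q (aa x.1) (aa x.1 + s) x.2
  set R : Finset (DV q) := blk q (-(2 * L)) (2 * L) 0 with hR
  have haa : ∀ j < J, -(L : ℤ) ≤ aa j ∧ aa j + s ≤ L := by
    intro j hj
    have e1 : (0 : ℤ) ≤ (j : ℤ) * (s + 1) := by positivity
    have e2 : ((j : ℤ) + 1) * (s + 1) ≤ (J : ℤ) * (s + 1) := by
      apply mul_le_mul_of_nonneg_right _ (by positivity)
      exact_mod_cast hj
    have e3 : (L : ℤ) = (J : ℤ) * (s + 1) := by rw [hL]; push_cast; ring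
    constructor
    · show -(L : ℤ) ≤ -(L : ℤ) + j * (s + 1)
      linarith
    · show -(L : ℤ) + j * (s + 1) + s ≤ L
      have e4 : (0 : ℤ) ≤ L := by positivity
      nlinarith
  have hidx : ∀ x ∈ idx, x.1 < J ∧ x.2 ∈ Lam ∧ ∀ i, win x.1 i → x.2 i = 0 := by
    intro x hx
    obtain ⟨hx1, hx2⟩ := mem_filter.1 hx
    obtain ⟨hx3, hx4⟩ := mem_product.1 hx1
    exact ⟨mem_range.1 hx3, hx4, hx2⟩
  have hne : ∀ x : ℕ × Lm q, (B x).Nonempty := by
    intro x
    refine ⟨(aa x.1, x.2), mem_blk.2 ⟨le_rfl, ?_, ?_⟩⟩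
    · have : (0 : ℤ) ≤ s := by positivity
      show aa x.1 ≤ aa x.1 + s
      linarith
    · rw [sub_self]
      exact zero_mem_lamps _ _
  -- disjointness
  have hlev : ∀ j j' : ℕ, j < j' → aa j + s < aa j' := by
    intro j j' hjj
    have e2 : ((j : ℤ) + 1) * (s + 1) ≤ (j' : ℤ) * (s + 1) := by
      apply mul_le_mul_of_nonneg_right _ (by positivity)
      exact_mod_cast hjj
    show -(L : ℤ) + j * (s + 1) + s < -(L : ℤ) + j' * (s + 1)
    nlinarith
  have hdisj : ∀ x ∈ idx, ∀ y ∈ idx, x ≠ y → Disjoint (B x) (B y) := by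
    intro x hx y hy hxy
    obtain ⟨j, g⟩ := x
    obtain ⟨j', g'⟩ := y
    rcases lt_trichotomy j j' with h | h | h
    · rw [disjoint_left]
      intro v hv hv'
      have e1 := (mem_blk.1 hv).2.1
      have e2 := (mem_blk.1 hv').1
      have e3 := hlev j j' h
      simp only at e1 e2
      linarith
    · subst h
      have hgg : g ≠ g' := fun h => hxy (by rw [h])
      obtain ⟨i, hi⟩ : ∃ i, g i ≠ g' i := by
        by_contra hcon
        push Not at hcon
        exact hgg (Finsupp.ext hcon)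
      have hw : ¬ win j i := by
        intro hw
        have e1 : g i = 0 := (hidx _ hx).2.2 i hw
        have e2 : g' i = 0 := (hidx _ hy).2.2 i hw
        exact hi (by rw [e1, e2])
      have hw' : i < aa j ∨ aa j + s ≤ i := by
        by_contra hcon
        push Not at hcon
        exact hw hcon
      exact blk_disjoint hw' hw' hi
    · rw [disjoint_left]
      intro v hv hv'
      have e1 := (mem_blk.1 hv').2.1
      have e2 := (mem_blk.1 hv).1
      have e3 := hlev j' j h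
      simp only at e1 e2
      linarith
  have hBR : ∀ x ∈ idx, B x ⊆ R := by
    intro x hx
    obtain ⟨e1, e2, _⟩ := hidx x hx
    obtain ⟨e3, e4⟩ := haa x.1 e1
    have e5 : (0 : ℤ) ≤ L := by positivity
    refine blk_subset ?_ ?_ ?_
    · show -(2 * (L : ℤ)) ≤ aa x.1
      linarith
    · show aa x.1 + s ≤ 2 * (L : ℤ)
      linarith
    · rw [sub_zero]
      exact e2
  -- counting for each configuration
  set bd : Finset (DV q) := ({-(2 * (L : ℤ)), 2 * (L : ℤ)} : Finset ℤ) ×ˢ Lam with hbd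
  have hbdc : (bd.card : ℝ) ≤ 2 * (Lam.card : ℝ) := by
    have h2 : ((({-(2 * (L : ℤ)), 2 * (L : ℤ)} : Finset ℤ).card : ℕ) : ℝ) ≤ 2 := by
      have h3 : ({-(2 * (L : ℤ)), 2 * (L : ℤ)} : Finset ℤ).card ≤ 2 := card_le_two
      exact_mod_cast h3
    rw [hbd, card_product, Nat.cast_mul]
    exact mul_le_mul_of_nonneg_right h2 (Nat.cast_nonneg _)
  have hcount : ∀ ω : Finset (DE q),
      ((idx.filter (fun x => TriE q L (B x) ω)).card : ℝ) ≤ 2 * (Lam.card : ℝ) := by
    intro ω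
    refine le_trans ?_ hbdc
    set I := idx.filter (fun x => TriE q L (B x) ω) with hI
    have hIsub : ∀ x ∈ I, x ∈ idx := fun x hx => (mem_filter.1 hx).1
    have hinj : Set.InjOn B (↑I : Set (ℕ × Lm q)) := by
      intro x hx y hy hxy
      by_contra hne'
      have hd := hdisj x (hIsub x hx) y (hIsub y hy) hne'
      rw [← hxy, disjoint_self_iff_empty] at hd
      exact (hne x).ne_empty hd
    rw [← card_image_of_injOn hinj]
    have htri := tri_count (rel q R ω)
      (fun x y h => ⟨Gr.Step.symm h.1, h.2.2, h.2.1⟩) R (fun x y h => h.2) (I.image B) bd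
      ?_ ?_ ?_ ?_
    · exact_mod_cast htri
    · intro C hC
      obtain ⟨x, _, rfl⟩ := mem_image.1 hC
      exact hne x
    · intro C hC C' hC' hCC
      obtain ⟨x, hx, rfl⟩ := mem_image.1 hC
      obtain ⟨y, hy, rfl⟩ := mem_image.1 hC'
      exact hdisj x (hIsub x hx) y (hIsub y hy) (fun h => hCC (by rw [h]))
    · intro C hC u hu v hv
      obtain ⟨x, hx, rfl⟩ := mem_image.1 hC
      have hT := (mem_filter.1 hx).2
      have hr : (DL q).Reach (↑ω : Set (DE q)) (↑(B x) : Set (DV q)) u v :=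
        blk_connected q hT.1 hu hv
      refine Relation.ReflTransGen.mono ?_ _ _ hr
      rintro c d ⟨e1, e2, e3⟩
      have hBx := hBR x (hIsub x hx)
      exact ⟨⟨e1, hBx (mem_coe.1 e2), hBx (mem_coe.1 e3)⟩, mem_coe.1 e2, mem_coe.1 e3⟩
    · intro C hC
      obtain ⟨x, hx, rfl⟩ := mem_image.1 hC
      have hT := (mem_filter.1 hx).2
      obtain ⟨_, u₁, u₂, u₃, hu, n12, n13, n23⟩ := hT
      have hmem : ∀ u ∈ ({u₁, u₂, u₃} : Set (DV q)), u ∈ bd := by
        intro u huu
        obtain ⟨e1, e2, _⟩ := hu u huu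
        rw [hbd, mem_product]
        refine ⟨?_, ?_⟩
        · rw [mem_insert, mem_singleton]
          exact e2
        · have := (mem_blk.1 e1).2.2
          rwa [sub_zero] at this
      have m1 : u₁ ∈ ({u₁, u₂, u₃} : Set (DV q)) := by simp
      have m2 : u₂ ∈ ({u₁, u₂, u₃} : Set (DV q)) := by simp
      have m3 : u₃ ∈ ({u₁, u₂, u₃} : Set (DV q)) := by simp
      exact ⟨u₁, hmem _ m1, u₂, hmem _ m2, u₃, hmem _ m3, (hu _ m1).2.2, (hu _ m2).2.2,
        (hu _ m3).2.2, n12, n13, n23⟩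
  -- expectations
  set F : Finset (DE q) := (DL q).inn R with hF
  have hsum : (idx.card : ℝ) * (p ^ c0 * P3) ≤ 2 * (Lam.card : ℝ) := by
    calc (idx.card : ℝ) * (p ^ c0 * P3) = ∑ x ∈ idx, p ^ c0 * P3 := by
          rw [sum_const, nsmul_eq_mul]
      _ ≤ ∑ x ∈ idx, pr p F (TriE q L (B x)) := by
          refine sum_le_sum fun x hx => ?_
          obtain ⟨e1, e2, _⟩ := hidx x hx
          obtain ⟨e3, e4⟩ := haa x.1 e1
          exact three_tri q h0.le h1 hL1 e3 e4 e2 hx₁ hx₂ hx₃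
      _ = ex p F (fun ω => ∑ x ∈ idx, if TriE q L (B x) ω then (1 : ℝ) else 0) := by
          rw [ex_sum p F idx (fun x ω => if TriE q L (B x) ω then (1 : ℝ) else 0)]
          refine sum_congr rfl fun x _ => ?_
          unfold pr
          congr 1
      _ ≤ ex p F (fun _ => 2 * (Lam.card : ℝ)) := by
          refine ex_mono h0.le h1 fun ω _ => ?_
          rw [sum_boole]
          exact hcount ω
      _ = 2 * (Lam.card : ℝ) := ex_const _ _ _
  -- the number of blocks
  have hcard : J * Lam.card ≤ q ^ s * idx.card := by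
    have e1 : (range J ×ˢ Lam).card = J * Lam.card := by rw [card_product, card_range]
    rw [← e1]
    let φ : ℕ × Lm q → ℕ × Lm q := fun x => (x.1, x.2.filter (fun i => ¬ win x.1 i))
    refine card_le_mul_card_image_of_maps_to (f := φ) ?_ (q ^ s) ?_
    · rintro ⟨j, g⟩ hx
      obtain ⟨hx1, hx2⟩ := mem_product.1 hx
      refine mem_filter.2 ⟨mem_product.2 ⟨hx1, ?_⟩, ?_⟩
      · show g.filter (fun i => ¬ win j i) ∈ Lam
        rw [hLam, mem_lamps]
        intro i hi
        have := mem_lamps.1 hx2 i hi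
        simp only at this
        rw [Finsupp.filter_apply]
        split_ifs
        · rfl
        · exact this
      · intro i hi
        show (g.filter (fun i => ¬ win j i)) i = 0
        rw [Finsupp.filter_apply, if_neg (fun h => h hi)]
    · rintro ⟨j, g0⟩ _
      have hc2 : (lamps q (aa j) (aa j + s)).card = q ^ s := by
        rw [card_lamps]
        simp
      rw [← hc2]
      refine card_le_card_of_injOn (fun x => x.2 - g0) ?_ ?_
      · rintro ⟨j', g⟩ hx
        obtain ⟨_, hx2⟩ := mem_filter.1 (mem_coe.1 hx)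
        have hj : j' = j := congrArg Prod.fst hx2
        have hg : g.filter (fun i => ¬ win j' i) = g0 := congrArg Prod.snd hx2
        subst hj
        show g - g0 ∈ (↑(lamps q (aa j') (aa j' + s)) : Set (Lm q))
        rw [mem_coe, mem_lamps]
        intro i hi
        have hw : ¬ win j' i := by
          rintro ⟨w1, w2⟩
          rcases hi with hi | hi <;> omega
        rw [← hg, Finsupp.sub_apply, Finsupp.filter_apply, if_pos hw, sub_self]
      · rintro ⟨j1, g1⟩ hx1 ⟨j2, g2⟩ hx2 h12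
        have e1 : j1 = j := congrArg Prod.fst (mem_filter.1 (mem_coe.1 hx1)).2
        have e2 : j2 = j := congrArg Prod.fst (mem_filter.1 (mem_coe.1 hx2)).2
        have e3 : g1 - g0 = g2 - g0 := h12
        rw [e1, e2, sub_left_inj.1 e3]
  have hLam0 : 0 < (Lam.card : ℝ) := by
    have : 0 < Lam.card := card_pos.2 ⟨0, zero_mem_lamps _ _⟩
    exact_mod_cast this
  have hcardR : (J : ℝ) * Lam.card ≤ (q : ℝ) ^ s * idx.card := by
    have h := (Nat.cast_le (α := ℝ)).2 hcard
    rw [Nat.cast_mul, Nat.cast_mul, Nat.cast_pow] at h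
    exact h
  exact final_arith hpc hP30 (pow_nonneg (Nat.cast_nonneg q) s) hLam0
    (Nat.cast_pos.2 (Nat.lt_of_lt_of_le Nat.zero_lt_one hJpos)) hcardR hsum hJ2

end Pool.Agent.DLP
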