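import Pool.Agent.DLP.Crit
import Pool.Agent.DLP.Inf1

/-!
# DLP/Core: the criterion in infinite volume and Borel–Cantelli (general graphs)

`Bad ω n x` := there is a finite `H ∋ v`, `n ≤ |H|`, connected by open edges inside `H`, with at most
`x` open edges in `cut H`.

* `bad_prob`: let `v : V`, `V` countable; suppose for all finite `Λ ∋ v` and `H ⊆ Λ` with `v ∈ H`,
  `n ≤ |H|`: `P_{p₀}(Disc Λ H) ≤ exp(-L)`. Then `perc p {Bad ω n (ε L)} ≤ C exp(-ε L)` with the
  constants of `criterion`. Proof: the events for `H ⊆ Λ_m` (exhaustion `Λ_m ∋ v`, increasing) are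
  cylinder events (they only depend on `touch Λ_m`: `Reach.restrict`, `cut H ⊆ touch Λ_m`)
  with probability `≤ C exp(-ε L)` (`perc_cyl`, `criterion`), increasing in `m` with union
  `Bad`; continuity from below (`measure_iUnion_eq_iSup` for directed unions, or
  `tendsto_measure_iUnion_atTop`).
* `bad_ae`: Borel–Cantelli (`measure_setOf_frequently_eq_zero` or `ae_eventually_not_mem`) for
  `Bad ω n (ε L n)`, `∑ exp(-ε L n) < ∞`: almost surely for all large `n` not `Bad ω n (ε L n)`;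
  for a set `H` take `n = |H|`.
-/

namespace Pool.Agent.DLP

open Finset MeasureTheory

namespace Gr

variable {V E : Type} [DecidableEq V] [DecidableEq E] (G : Gr V E)

/-- A connected open set with at least `n` vertices and a small open boundary. -/
def Bad (v : V) (ω : E → Bool) (n : ℕ) (x : ℝ) : Prop :=
  ∃ H : Finset V, v ∈ H ∧ n ≤ H.card ∧ (∀ y ∈ H, G.Reach (opn ω) (↑H : Set V) v y) ∧
    (((G.cut H).filter (fun e => ω e = true)).card : ℝ) ≤ x

private theorem mem_touch' {H : Finset V} {e : E} (h : G.a e ∈ H) : e ∈ G.touch H := by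
  unfold touch
  rw [Finset.mem_biUnion]
  exact ⟨G.a e, h, (G.mem_inc _ _).2 (Or.inl rfl)⟩

theorem bad_prob {p₀ : ℝ} {p : unitInterval} (h0 : 0 < p₀) (h01 : p₀ < p) (hp : (p : ℝ) < 1) :
    ∃ ε : ℝ, 0 < ε ∧ ∃ C : ℝ, 0 < C ∧
      ∀ (V E : Type) [DecidableEq V] [DecidableEq E] [Countable V] (G : Gr V E) (v : V) (n : ℕ)
        (L : ℝ), (∀ Λ H : Finset V, H ⊆ Λ → v ∈ H → n ≤ H.card →
          pr p₀ (G.touch Λ) (fun ω => G.Disc Λ H ω) ≤ Real.exp (-L)) →
        perc E p {ω | G.Bad v ω n (ε * L)} ≤ ENNReal.ofReal (C * Real.exp (-(ε * L))) := by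
  obtain ⟨ε, hε, C, hC, hcrit⟩ := criterion h0 h01 hp
  refine ⟨ε, hε, C, hC, ?_⟩
  intro V E _ _ _ G v n L hL
  obtain ⟨f, hf⟩ := Countable.exists_injective_nat V
  obtain ⟨Λ, hΛ⟩ : ∃ Λ : ℕ → Finset V, ∀ m x, x ∈ Λ m ↔ f x ≤ m := by
    refine ⟨fun m => ((Set.finite_Iic m).preimage hf.injOn).toFinset, fun m x => ?_⟩
    simp
  obtain ⟨Ev, hEv⟩ : ∃ Ev : ℕ → Finset E → Prop, Ev = fun (m : ℕ) (ω : Finset E) => ∃ H : Finset V, H ⊆ Λ m ∧
      v ∈ H ∧ n ≤ H.card ∧ (∀ x ∈ H, G.Reach (↑ω : Set E) (↑H : Set V) v x) ∧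
      ((G.cut H ∩ ω).card : ℝ) ≤ ε * L := ⟨_, rfl⟩
  obtain ⟨S, hS⟩ : ∃ S : ℕ → Set (E → Bool), S = fun m =>
      {ω | ∃ H : Finset V, H ⊆ Λ m ∧ v ∈ H ∧ n ≤ H.card ∧
        (∀ y ∈ H, G.Reach (opn ω) (↑H : Set V) v y) ∧
        (((G.cut H).filter (fun e => ω e = true)).card : ℝ) ≤ ε * L} := ⟨_, rfl⟩
  have hcyl : ∀ m, S m = {ω : E → Bool | Ev m ((G.touch (Λ m)).filter (fun e => ω e = true))} := by
    intro m
    rw [hS, hEv]
    ext ω
    simp only [Set.mem_ofPred_eq]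
    refine exists_congr fun H => and_congr_right fun hH => and_congr_right fun _ =>
      and_congr_right fun _ => ?_
    have h1 : (G.cut H).filter (fun e => ω e = true) =
        G.cut H ∩ (G.touch (Λ m)).filter (fun e => ω e = true) := by
      ext e
      simp only [Finset.mem_filter, Finset.mem_inter]
      constructor
      · rintro ⟨h2, h3⟩
        exact ⟨h2, G.touch_mono hH (G.cut_subset_touch H h2), h3⟩
      · rintro ⟨h2, _, h3⟩
        exact ⟨h2, h3⟩
    rw [h1]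
    refine and_congr_left fun _ => forall₂_congr fun y _ => ⟨fun h => ?_, fun h => ?_⟩
    · refine h.restrict fun e ha _ he => ?_
      rw [Finset.mem_coe, Finset.mem_filter]
      exact ⟨G.touch_mono hH (G.mem_touch' ha), he⟩
    · refine h.mono ?_ le_rfl
      intro e he
      rw [Finset.mem_coe, Finset.mem_filter] at he
      exact he.2
  have hbd : ∀ m, perc E p (S m) ≤ ENNReal.ofReal (C * Real.exp (-(ε * L))) := by
    intro m
    rw [hcyl m, perc_cyl]
    apply ENNReal.ofReal_le_ofReal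
    rw [hEv]
    exact hcrit V E G (Λ m) v n L (fun H hH hv hn => hL (Λ m) H hH hv hn)
  have hmono : Monotone S := by
    intro m m' hm
    rw [hS]
    rintro ω ⟨H, hH, h⟩
    refine ⟨H, fun x hx => ?_, h⟩
    have := (hΛ m x).1 (hH hx)
    exact (hΛ m' x).2 (this.trans hm)
  have hun : {ω : E → Bool | G.Bad v ω n (ε * L)} ⊆ ⋃ m, S m := by
    rintro ω ⟨H, hv, hn, hr, hc⟩
    rw [Set.mem_iUnion]
    refine ⟨H.sup f, ?_⟩
    rw [hS]
    refine ⟨H, fun x hx => (hΛ _ x).2 (Finset.le_sup (f := f) hx), hv, hn, hr, hc⟩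
  refine (measure_mono hun).trans ?_
  rw [hmono.measure_iUnion]
  exact iSup_le hbd

theorem bad_ae {V E : Type} [DecidableEq V] [DecidableEq E] (G : Gr V E) (v : V)
    (p : unitInterval) (x : ℕ → ℝ) (y : ℕ → ℝ) (hy : Summable y) (hy0 : ∀ n, 0 ≤ y n)
    (h : ∀ n, perc E p {ω | G.Bad v ω n (x n)} ≤ ENNReal.ofReal (y n)) :
    ∀ᵐ ω ∂(perc E p), ∃ n₀ : ℕ, ∀ H : Finset V, v ∈ H → n₀ ≤ H.card →
      (∀ z ∈ H, G.Reach (Gr.opn ω) (↑H : Set V) v z) →
      x H.card < (((G.cut H).filter (fun e => ω e = true)).card : ℝ) := by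
  have hsum : ∑' n, perc E p {ω | G.Bad v ω n (x n)} ≠ ⊤ := by
    refine ne_top_of_le_ne_top ?_ (ENNReal.tsum_le_tsum h)
    rw [← ENNReal.ofReal_tsum_of_nonneg hy0 hy]
    exact ENNReal.ofReal_ne_top
  filter_upwards [ae_eventually_notMem hsum] with ω hω
  obtain ⟨n₀, hn₀⟩ := Filter.eventually_atTop.1 hω
  refine ⟨n₀, fun H hv hn hr => ?_⟩
  by_contra hcon
  rw [not_lt] at hcon
  exact hn₀ H.card hn ⟨H, hv, le_rfl, hr, hcon⟩

end Gr

end Pool.Agent.DLP
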