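import Pool.Agent.DLP.Rank
import Pool.Agent.DLP.ExC

/-!
# DLP/CritDisc: small rank makes a disconnection cheap

`F = touch Λ`, `H ⊆ Λ`. By `dep_rk` and `pr_dep` the first probability is the same with `off Λ H`
replaced by `F` (`off Λ H ⊆ F`). Write the configuration with density `p₁ s` as `ω ∩ η` (`pr_thin`).
Suppose `rk Λ H ω < m`. By `rk_minmax` there is `W ⊆ Λ \ H` such that the set
`A = {e ∈ cut H : e does not enter W} ∪ {e ∈ cut W ∩ ω : e does not touch H}` has `rk < m` elements.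
If `η ∩ A = ∅` then the cut of `B = H ∪ W ⊆ Λ` is disjoint from `ω ∩ η` (an edge of `cut (H ∪ W)` is
either in `cut H` and does not enter `W`, or in `cut W` and does not touch `H`), i.e.
`Disc Λ H (ω ∩ η)`. `A ⊆ F`, so the probability over `η` is at least
`(1-s)^{|A|} ≥ (1-s)^m` (`pr_avoid`, `pr_mono`).
So `P_{p₁ s}(Disc) = E_ω P_η(Disc Λ H (ω ∩ η)) ≥ E_ω 1[rk < m] (1-s)^m`.
-/

namespace Pool.Agent.DLP

open Finset

namespace Gr

variable {V E : Type} [DecidableEq V] [DecidableEq E] (G : Gr V E)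

theorem crit_disc {p₁ s : ℝ} (h0 : 0 ≤ p₁) (h1 : p₁ ≤ 1) (hs0 : 0 ≤ s) (hs1 : s ≤ 1)
    {Λ H : Finset V} (hH : H ⊆ Λ) (m : ℕ) :
    (1 - s) ^ m * pr p₁ (G.off Λ H) (fun O => G.rk Λ H O < m) ≤
      pr (p₁ * s) (G.touch Λ) (fun ω => G.Disc Λ H ω) := by
  classical
  have hdep : Dep (↑(G.off Λ H) : Set E) (fun O : Finset E => G.rk Λ H O < m) :=
    (G.dep_rk Λ H).comp (fun n => n < m)
  have e1 : pr p₁ (G.off Λ H) (fun O => G.rk Λ H O < m) =
      pr p₁ (G.touch Λ) (fun O => G.rk Λ H O < m) := by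
    refine pr_dep hdep fun e he => ?_
    have he' : e ∈ G.off Λ H := by simpa using he
    refine ⟨fun _ => ?_, fun _ => he'⟩
    unfold off at he'
    exact (Finset.mem_sdiff.1 he').1
  rw [e1, ← pr_thin]
  have e2 : (1 - s) ^ m * pr p₁ (G.touch Λ) (fun O => G.rk Λ H O < m) =
      ex p₁ (G.touch Λ) (fun O => (1 - s) ^ m * (if G.rk Λ H O < m then 1 else 0)) := by
    rw [ex_mul_left]
    unfold pr
    congr 1
    refine ex_congr fun ω _ => ?_
    by_cases h : G.rk Λ H ω < m
    · rw [if_pos h, if_pos h]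
    · rw [if_neg h, if_neg h]
  rw [e2]
  refine ex_mono h0 h1 fun ω _ => ?_
  by_cases hr : G.rk Λ H ω < m
  · rw [if_pos hr, mul_one]
    obtain ⟨W, hW, hWe⟩ := G.rk_minmax Λ H ω
    set A₁ := (G.cut H).filter (fun e => G.a e ∉ W ∧ G.b e ∉ W) with hA₁
    set A₂ := (G.cut W ∩ ω).filter (fun e => G.a e ∉ H ∧ G.b e ∉ H) with hA₂
    have hd : G.d H ω W = A₂.card := by
      unfold d
      rw [hA₂]
    have hcard : (A₁ ∪ A₂).card ≤ m := by
      refine le_trans (Finset.card_union_le _ _) ?_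
      rw [← hd, ← hWe]
      exact hr.le
    have hWΛ : W ⊆ Λ := fun x hx => (Finset.mem_sdiff.1 (hW hx)).1
    have hAF : A₁ ∪ A₂ ⊆ G.touch Λ := by
      intro e he
      rcases Finset.mem_union.1 he with h | h
      · rw [hA₁, Finset.mem_filter] at h
        exact G.touch_mono hH (G.cut_subset_touch H h.1)
      · rw [hA₂, Finset.mem_filter, Finset.mem_inter] at h
        exact G.touch_mono hWΛ (G.cut_subset_touch W h.1.1)
    have hs2 : 0 ≤ 1 - s := by linarith
    have hs3 : 1 - s ≤ 1 := by linarith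
    calc (1 - s) ^ m ≤ (1 - s) ^ (A₁ ∪ A₂).card := pow_le_pow_of_le_one hs2 hs3 hcard
      _ = pr s (G.touch Λ) (fun η => Disjoint (A₁ ∪ A₂) η) := (pr_avoid s hAF).symm
      _ ≤ pr s (G.touch Λ) (fun η => G.Disc Λ H (ω ∩ η)) := by
        refine pr_mono hs0 hs1 fun η _ hη => ?_
        refine ⟨H ∪ W, Finset.subset_union_left, Finset.union_subset hH hWΛ, ?_⟩
        rw [Finset.disjoint_left]
        intro e he heω
        rw [Finset.mem_inter] at heω
        refine (Finset.disjoint_left.1 hη) ?_ heω.2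
        rw [mem_cut] at he
        rw [Finset.mem_union, hA₁, hA₂, Finset.mem_filter, Finset.mem_filter, Finset.mem_inter,
          mem_cut, mem_cut]
        simp only [Finset.mem_union, not_or] at he
        have hx := heω.1
        have ha : G.a e ∈ W → G.a e ∉ H := fun h => (Finset.mem_sdiff.1 (hW h)).2
        have hb : G.b e ∈ W → G.b e ∉ H := fun h => (Finset.mem_sdiff.1 (hW h)).2
        tauto
  · rw [if_neg hr, mul_zero]
    exact pr_nonneg hs0 hs1 _ _

end Gr

end Pool.Agent.DLP
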