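import Pool.Agent.DLP.Rch

/-!
# DLP/ImpExt: opening an independent set of boundary edges keeps `H` important

`ω` = open edges, `η` = unmarked edges; capacities `cap ω η e = [e ∈ ω] + [e ∈ ω ∩ η]`.
`S` = set of closed, marked boundary edges of `H`, `Ind` for `O = ω ∩ η`.

Put `c = cap (ω ∪ S) η`. As `S` and `cut H ∩ ω` are disjoint from `η`, every edge of
`cut H ∩ (ω ∪ S)` has capacity `1` and all other edges of `cut H` have capacity `0`, so
`D c H = |cut H ∩ ω| + |S|`. `H` is connected: `ω ⊆ {0 < c}` (`Reach.mono`; the positive edges of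
`cap ω ∅` are exactly those of `ω`).
Importance: let `H ⊆ B ⊆ Λ`, `W = B \ H ⊆ Λ \ H`, with an edge `e ∈ cut H`, `0 < c e`, both end
points in `B`: so `e ∈ ω ∪ S` enters `W`. By `D_union` (`B = H ∪ W`)
`D c B = |{e ∈ cut H ∩ (ω ∪ S) : e does not enter W}| + ∑ e ∈ cut W off H, c e`, and
(edges off `H` are not in `S`) the last sum is `d H ω W + d H (ω ∩ η) W`. So
`D c B - D c H = d H ω W + d H (ω ∩ η) W - |into W (cut H ∩ ω)| - |into W S|`.
We have `|into W S| ≤ d H (ω ∩ η) W` by `Ind`.
If some edge of `cut H ∩ ω` enters `W`, then by importance of `H` for `cap ω ∅` (and `D_union`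
again) `|into W (cut H ∩ ω)| < d H ω W`, and we are done. Otherwise
`into W (cut H ∩ ω) = ∅`, `|into W S| ≥ 1` and `d H ω W ≥ d H (ω ∩ η) W ≥ |into W S| ≥ 1`, done.
-/

namespace Pool.Agent.DLP

open Finset

namespace Gr

variable {V E : Type} [DecidableEq V] [DecidableEq E] (G : Gr V E)

private theorem impext_cap {ω η S : Finset E} {H : Finset V} (hm : Disjoint (G.cut H ∩ ω) η)
    (hS : S ⊆ G.cut H \ ω) (hSη : Disjoint S η) {e : E} (he : e ∈ G.cut H) :
    cap (ω ∪ S) η e = (if e ∈ ω then 1 else 0) + (if e ∈ S then 1 else 0) := by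
  unfold cap
  by_cases h1 : e ∈ ω
  · have h2 : e ∉ S := fun h => (mem_sdiff.1 (hS h)).2 h1
    have h3 : e ∉ η := fun h => disjoint_left.1 hm (mem_inter.2 ⟨he, h1⟩) h
    simp [h1, h2, h3]
  · by_cases h2 : e ∈ S
    · have h3 : e ∉ η := fun h => disjoint_left.1 hSη h2 h
      simp [h1, h2, h3]
    · simp [h1, h2]

private theorem impext_sum (X A : Finset E) : ∑ e ∈ X, (if e ∈ A then 1 else 0) = (X ∩ A).card := by
  rw [Finset.sum_ite_mem, Finset.sum_const, smul_eq_mul, mul_one]

theorem D_cap_cut {ω η S : Finset E} {H : Finset V} (hm : Disjoint (G.cut H ∩ ω) η)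
    (hS : S ⊆ G.cut H \ ω) (hSη : Disjoint S η) :
    G.D (cap (ω ∪ S) η) H = (G.cut H ∩ ω).card + S.card := by
  unfold D
  rw [Finset.sum_congr rfl (fun e he => impext_cap G hm hS hSη he), Finset.sum_add_distrib,
    impext_sum, impext_sum]
  congr 2
  exact inter_eq_right.2 (fun e he => (mem_sdiff.1 (hS he)).1)

/-- the counting identity -/
private theorem impext_count {ω η S : Finset E} {H W : Finset V}
    (hm : Disjoint (G.cut H ∩ ω) η) (hS : S ⊆ G.cut H \ ω) (hSη : Disjoint S η)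
    (hW : Disjoint H W) :
    G.D (cap (ω ∪ S) η) (H ∪ W) + (G.into W (G.cut H ∩ ω)).card + (G.into W S).card =
      G.D (cap (ω ∪ S) η) H + G.d H ω W + G.d H (ω ∩ η) W := by
  have e1 : ∑ e ∈ (G.cut H).filter (fun e => G.a e ∉ W ∧ G.b e ∉ W), cap (ω ∪ S) η e +
      ((G.into W (G.cut H ∩ ω)).card + (G.into W S).card) = G.D (cap (ω ∪ S) η) H := by
    have h1 : (G.into W (G.cut H ∩ ω)).card + (G.into W S).card =
        ∑ e ∈ (G.cut H).filter (fun e => ¬ (G.a e ∉ W ∧ G.b e ∉ W)), cap (ω ∪ S) η e := by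
      rw [Finset.sum_congr rfl (fun e he => impext_cap G hm hS hSη (mem_filter.1 he).1),
        Finset.sum_add_distrib, impext_sum, impext_sum]
      congr 2
      · ext e
        simp only [into, mem_filter, mem_inter]
        tauto
      · ext e
        simp only [into, mem_filter, mem_inter]
        constructor
        · rintro ⟨h, h'⟩
          exact ⟨⟨(mem_sdiff.1 (hS h)).1, by tauto⟩, h⟩
        · rintro ⟨⟨_, h'⟩, h⟩
          exact ⟨h, by tauto⟩
    rw [h1, D]
    exact Finset.sum_filter_add_sum_filter_not _ _ _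
  have e2 : ∑ e ∈ (G.cut W).filter (fun e => G.a e ∉ H ∧ G.b e ∉ H), cap (ω ∪ S) η e =
      G.d H ω W + G.d H (ω ∩ η) W := by
    have h1 : ∀ e ∈ (G.cut W).filter (fun e => G.a e ∉ H ∧ G.b e ∉ H), cap (ω ∪ S) η e =
        (if e ∈ ω then 1 else 0) + (if e ∈ ω ∩ η then 1 else 0) := by
      intro e he
      have he' := (mem_filter.1 he).2
      have hS' : e ∉ S := by
        intro h
        have := (G.mem_cut).1 (mem_sdiff.1 (hS h)).1
        tauto
      unfold cap
      simp [hS']
    rw [Finset.sum_congr rfl h1, Finset.sum_add_distrib, impext_sum, impext_sum]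
    unfold d
    congr 2
    · ext e
      simp only [mem_filter, mem_inter]
      tauto
    · ext e
      simp only [mem_filter, mem_inter]
      tauto
  rw [G.D_union hW, e2]
  omega

private theorem impext_count0 {ω : Finset E} {H W : Finset V} (hW : Disjoint H W) :
    G.D (cap ω ∅) (H ∪ W) + (G.into W (G.cut H ∩ ω)).card = G.D (cap ω ∅) H + G.d H ω W := by
  have h := impext_count G (ω := ω) (η := ∅) (S := ∅) (H := H) (W := W) (disjoint_empty_right _)
    (empty_subset _) (disjoint_empty_right _) hW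
  have h1 : (G.into W (∅ : Finset E)).card = 0 := by simp [into]
  have h2 : G.d H (ω ∩ ∅) W = 0 := by simp [d]
  rw [union_empty] at h
  omega

/-- an edge of the boundary with both end points in `H ∪ W` enters `W` -/
private theorem impext_into {ω : Finset E} {H W : Finset V} (hW : Disjoint H W) {e : E}
    (he : e ∈ G.cut H) (hω : e ∈ ω) : (G.a e ∈ H ∪ W ∧ G.b e ∈ H ∪ W) ↔ e ∈ G.into W (G.cut H ∩ ω) := by
  have h := (G.mem_cut).1 he
  simp only [into, mem_filter, mem_inter, mem_union]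
  constructor
  · rintro ⟨h1, h2⟩
    exact ⟨⟨he, hω⟩, by tauto⟩
  · rintro ⟨_, h1⟩
    rcases h with ⟨ha, hb⟩ | ⟨ha, hb⟩
    · exact ⟨Or.inl ha, by
        rcases h1 with h1 | h1
        · exact absurd h1 (disjoint_left.1 hW ha)
        · exact Or.inr h1⟩
    · exact ⟨by
        rcases h1 with h1 | h1
        · exact Or.inr h1
        · exact absurd h1 (disjoint_left.1 hW hb), Or.inl hb⟩

private theorem impext_pos {ω η : Finset E} {e : E} : 0 < cap ω η e ↔ e ∈ ω := by
  unfold cap
  by_cases h : e ∈ ω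
  · simp [h]
  · simp [h]

theorem imp_extend {ω η S : Finset E} {Λ H : Finset V} {v : V}
    (hI : G.Imp (cap ω ∅) Λ v H) (hm : Disjoint (G.cut H ∩ ω) η) (hS : S ⊆ G.cut H \ ω)
    (hSη : Disjoint S η) (hInd : G.Ind Λ H (ω ∩ η) S) :
    G.Imp (cap (ω ∪ S) η) Λ v H := by
  obtain ⟨hΛ, ⟨hv, hcon⟩, himp⟩ := hI
  refine ⟨hΛ, ⟨hv, fun x hx => ?_⟩, fun B hHB hBΛ hex => ?_⟩
  · refine (hcon x hx).mono (fun e he => ?_) (Set.Subset.refl _)
    have h1 : e ∈ ω := impext_pos.1 he
    exact impext_pos.2 (mem_union_left _ h1)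
  · have hW : Disjoint H (B \ H) := disjoint_sdiff
    have hB : H ∪ (B \ H) = B := union_sdiff_of_subset hHB
    have hWΛ : B \ H ⊆ Λ \ H := sdiff_subset_sdiff hBΛ (Subset.refl _)
    obtain ⟨e, he, hpos, hea, heb⟩ := hex
    have heω : e ∈ ω ∪ S := impext_pos.1 hpos
    have hcount := impext_count G hm hS hSη hW
    have hcount0 := impext_count0 G (ω := ω) hW
    rw [hB] at hcount hcount0
    have hind := hInd.2 (B \ H) hWΛ
    have hdm := G.d_mono (H := H) (inter_subset_left : ω ∩ η ⊆ ω) (B \ H)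
    have hent : e ∈ G.into (B \ H) (G.cut H ∩ (ω ∪ S)) := by
      rw [← impext_into G hW he heω, hB]
      exact ⟨hea, heb⟩
    by_cases hne : (G.into (B \ H) (G.cut H ∩ ω)).Nonempty
    · obtain ⟨e', he'⟩ := hne
      have h1 : e' ∈ G.cut H ∩ ω := (mem_filter.1 he').1
      have h2 := (impext_into G hW (mem_inter.1 h1).1 (mem_inter.1 h1).2).2 he'
      rw [hB] at h2
      have h3 := himp B hHB hBΛ ⟨e', (mem_inter.1 h1).1, impext_pos.2 (mem_inter.1 h1).2, h2.1, h2.2⟩
      omega
    · rw [not_nonempty_iff_eq_empty] at hne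
      have h1 : e ∈ G.into (B \ H) S := by
        rcases mem_union.1 heω with h | h
        · exfalso
          have : e ∈ G.into (B \ H) (G.cut H ∩ ω) :=
            mem_filter.2 ⟨mem_inter.2 ⟨he, h⟩, (mem_filter.1 hent).2⟩
          rw [hne] at this
          exact notMem_empty _ this
        · exact mem_filter.2 ⟨h, (mem_filter.1 hent).2⟩
      have h2 : 0 < (G.into (B \ H) S).card := card_pos.2 ⟨e, h1⟩
      rw [hne, card_empty] at hcount
      omega

/-- The condition on the edges off `H` for the importance of `H` (plain configurations): `S` is the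
set of the open boundary edges of `H`. -/
def Off (Λ H : Finset V) (S O : Finset E) : Prop :=
  ∀ W : Finset V, W ⊆ Λ \ H → (G.into W S).Nonempty → (G.into W S).card < G.d H O W

/-- Importance of `H` for a plain configuration, in terms of the edges inside `H`, the open boundary
edges and the edges off `H`. -/
theorem imp_iff {ω : Finset E} {Λ H : Finset V} {v : V} :
    G.Imp (cap ω ∅) Λ v H ↔ H ⊆ Λ ∧ (v ∈ H ∧ ∀ x ∈ H, G.Reach (↑ω : Set E) (↑H : Set V) v x) ∧
      G.Off Λ H (G.cut H ∩ ω) ω := by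
  have hset : {e : E | 0 < cap ω ∅ e} = (↑ω : Set E) := by
    ext e
    simp only [Set.mem_setOf_eq, impext_pos, mem_coe]
  unfold Imp Con
  rw [hset]
  refine and_congr_right fun hHΛ => and_congr Iff.rfl ?_
  constructor
  · intro h W hW hne
    have hd : Disjoint H W := by
      rw [disjoint_left]
      intro x hx hx'
      exact (mem_sdiff.1 (hW hx')).2 hx
    obtain ⟨e, he⟩ := hne
    have h1 : e ∈ G.cut H ∩ ω := (mem_filter.1 he).1
    have h2 := (impext_into G hd (mem_inter.1 h1).1 (mem_inter.1 h1).2).2 he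
    have h3 := h (H ∪ W) subset_union_left
      (union_subset hHΛ (hW.trans sdiff_subset))
      ⟨e, (mem_inter.1 h1).1, impext_pos.2 (mem_inter.1 h1).2, h2.1, h2.2⟩
    have h4 := impext_count0 G (ω := ω) hd
    omega
  · intro h B hHB hBΛ hex
    have hW : Disjoint H (B \ H) := disjoint_sdiff
    have hB : H ∪ (B \ H) = B := union_sdiff_of_subset hHB
    have hWΛ : B \ H ⊆ Λ \ H := sdiff_subset_sdiff hBΛ (Subset.refl _)
    obtain ⟨e, he, hpos, hea, heb⟩ := hex
    have heω : e ∈ ω := impext_pos.1 hpos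
    have h1 : e ∈ G.into (B \ H) (G.cut H ∩ ω) := by
      rw [← impext_into G hW he heω, hB]
      exact ⟨hea, heb⟩
    have h2 := h (B \ H) hWΛ ⟨e, h1⟩
    have h3 := impext_count0 G (ω := ω) hW
    rw [hB] at h3
    omega

theorem off_mono {Λ H : Finset V} {S O O' : Finset E} (h : O ⊆ O') (hO : G.Off Λ H S O) :
    G.Off Λ H S O' := by
  intro W hW hne
  exact (hO W hW hne).trans_le (G.d_mono h W)

theorem dep_off (Λ H : Finset V) (S : Finset E) :
    Dep (↑(G.off Λ H) : Set E) (fun O : Finset E => G.Off Λ H S O) := by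
  intro ω ω' h
  have key : ∀ W : Finset V, W ⊆ Λ \ H → G.d H ω W = G.d H ω' W := by
    intro W hW
    unfold d
    congr 1
    ext e
    simp only [mem_filter, mem_inter]
    constructor
    · rintro ⟨⟨h1, h2⟩, h3⟩
      refine ⟨⟨h1, (h e ?_).1 h2⟩, h3⟩
      rw [mem_coe, mem_off]
      refine ⟨?_, h3⟩
      rcases (G.mem_cut).1 h1 with ⟨h4, _⟩ | ⟨_, h4⟩
      · exact Or.inl (mem_sdiff.1 (hW h4)).1
      · exact Or.inr (mem_sdiff.1 (hW h4)).1
    · rintro ⟨⟨h1, h2⟩, h3⟩
      refine ⟨⟨h1, (h e ?_).2 h2⟩, h3⟩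
      rw [mem_coe, mem_off]
      refine ⟨?_, h3⟩
      rcases (G.mem_cut).1 h1 with ⟨h4, _⟩ | ⟨_, h4⟩
      · exact Or.inl (mem_sdiff.1 (hW h4)).1
      · exact Or.inr (mem_sdiff.1 (hW h4)).1
  refine propext ⟨fun hO W hW hne => ?_, fun hO W hW hne => ?_⟩
  · rw [← key W hW]
    exact hO W hW hne
  · rw [key W hW]
    exact hO W hW hne

end Gr

end Pool.Agent.DLP
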