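import Pool.Agent.DLP.Rank
import Pool.Agent.DLP.ImpExt
import Pool.Agent.DLP.ExC

/-!
# DLP/CritLow: the lower bound for one set `H`

`H ⊆ Λ`, `F = touch Λ = (inn H ∪ cut H) ∪ off Λ H` (disjoint unions: `touch_split`,
`disjoint_touch_off`, `disjoint_inn_cut`).

Let `σ = ω ∩ (inn H ∪ cut H)`, `O = ω ∩ off Λ H`, and similarly `η = ηi ∪ ηc ∪ ηo`
(`ηc = η ∩ cut H`, `ηo = η ∩ off Λ H`). By `imp_iff`, `Imp (cap ω ∅) Λ v H` holds iff `H ⊆ Λ`, `H` is
connected by the edges of `ω` inside `H` (depends on `σ` only: `Reach.restrict`) and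
`Off Λ H S ω` with `S₀ = cut H ∩ ω = cut H ∩ σ` (depends on `O` only: `dep_off`).
With `ex_union`/`ex_indep` the right side is
`∑_σ weight(σ) 1[H connected in σ, |S₀| = b] · R(S₀)`, where
`R(S₀) = E_O E_η 1[Off Λ H S₀ O] 1[ηc ∩ S₀ = ∅] #{S ⊆ cut H \ (S₀ ∪ ηc), |S| = k, Ind Λ H (O ∩ ηo) S}`.
For fixed `S ⊆ cut H \ S₀`, `|S| = k`: `P(ηc ∩ (S₀ ∪ S) = ∅) = (1-t)^{b+k}` (`pr_avoid`),
independent of `ηo`. So
`R(S₀) = (1-t)^{b+k} E_O E_{ηo} 1[Off Λ H S₀ O] #{S ⊆ cut H \ S₀, |S| = k, Ind Λ H (O ∩ ηo) S}`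
`≥ (1-t)^{b+k} C(m-b, k) E_O 1[Off Λ H S₀ O] P_{ηo}(m ≤ rk Λ H (O ∩ ηo))`
by `card_ind` (`R = S₀`, `|S₀| = b`). Both `O ↦ 1[Off ..]` and `O ↦ P_{ηo}(m ≤ rk Λ H (O ∩ ηo))` are
increasing (`off_mono`, `rk_mono`), so by `harris` and `pr_thin`
`≥ (1-t)^{b+k} C(m-b, k) P_O(Off Λ H S₀ O) · P_{pt}(m ≤ rk)` and the last factor is `≥ 1/2`.
Summing over `σ` gives `(1/2) (1-t)^{b+k} C(m-b,k) P(Imp, |cut H ∩ ω| = b)`.
-/

namespace Pool.Agent.DLP

open Finset

namespace Gr

variable {V E : Type} [DecidableEq V] [DecidableEq E] (G : Gr V E)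

private theorem dep_disj (T : Finset E) : Dep (↑T : Set E) (fun η : Finset E => Disjoint T η) := by
  intro η η' h
  have key : ∀ η η' : Finset E, (∀ i ∈ (↑T : Set E), (i ∈ η ↔ i ∈ η')) → Disjoint T η →
      Disjoint T η' := by
    intro η η' h hd
    rw [disjoint_left] at hd ⊢
    exact fun e he he' => hd he ((h e (mem_coe.2 he)).2 he')
  exact propext ⟨key η η' h, key η' η fun i hi => (h i hi).symm⟩

private theorem dep_inter {β : Type*} {S : Set E} {f : Finset E → β} (hf : Dep S f) (O : Finset E) :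
    Dep S (fun η => f (O ∩ η)) := by
  intro η η' h
  refine hf _ _ fun i hi => ?_
  rw [mem_inter, mem_inter, h i hi]

open Classical in
private theorem crit_low_aux {t : ℝ} (ht0 : 0 ≤ t) (ht1 : t ≤ 1) {Λ H : Finset V} (hH : H ⊆ Λ)
    (k m : ℕ) {S0 : Finset E} (hS0 : S0 ⊆ G.cut H) (O : Finset E) :
    (1 - t) ^ (S0.card + k) * (Nat.choose (m - S0.card) k : ℝ) *
        pr t (G.off Λ H) (fun η => m ≤ G.rk Λ H (O ∩ η)) ≤
      ex t (G.touch Λ) (fun η => if Disjoint S0 η then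
        ((((G.cut H \ (S0 ∪ η)).powersetCard k).filter
            (fun S => G.Ind Λ H (O ∩ η) S)).card : ℝ) else 0) := by
  have e1 : ∀ η : Finset E, (if Disjoint S0 η then
        ((((G.cut H \ (S0 ∪ η)).powersetCard k).filter
            (fun S => G.Ind Λ H (O ∩ η) S)).card : ℝ) else 0) =
      ∑ S ∈ (G.cut H \ S0).powersetCard k, (if Disjoint (S0 ∪ S) η then (1 : ℝ) else 0) *
        (if G.Ind Λ H (O ∩ η) S then (1 : ℝ) else 0) := by
    intro η
    by_cases hd : Disjoint S0 η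
    · rw [if_pos hd]
      have h1 : ((G.cut H \ (S0 ∪ η)).powersetCard k).filter (fun S => G.Ind Λ H (O ∩ η) S) =
          ((G.cut H \ S0).powersetCard k).filter
            (fun S => Disjoint (S0 ∪ S) η ∧ G.Ind Λ H (O ∩ η) S) := by
        ext S
        simp only [mem_filter, mem_powersetCard, subset_sdiff, disjoint_union_left,
          disjoint_union_right]
        tauto
      rw [h1, card_filter]
      push_cast
      refine sum_congr rfl fun S _ => ?_
      by_cases h2 : Disjoint (S0 ∪ S) η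
      · by_cases h3 : G.Ind Λ H (O ∩ η) S
        · simp [h2, h3]
        · simp [h3]
      · simp [h2]
    · rw [if_neg hd]
      symm
      refine sum_eq_zero fun S _ => ?_
      have h2 : ¬ Disjoint (S0 ∪ S) η := fun h => hd (disjoint_of_subset_left subset_union_left h)
      rw [if_neg h2, zero_mul]
  have hcut : G.cut H ⊆ G.touch Λ := (G.cut_subset_touch H).trans (G.touch_mono hH)
  have hdj : ∀ S, S ⊆ G.cut H → Disjoint (↑(S0 ∪ S) : Set E) (↑(G.off Λ H) : Set E) := by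
    intro S hS
    rw [Finset.disjoint_coe]
    refine disjoint_of_subset_left (union_subset hS0 hS) ?_
    exact disjoint_of_subset_left subset_union_right (G.disjoint_touch_off H Λ)
  have e2 : ex t (G.touch Λ) (fun η => if Disjoint S0 η then
        ((((G.cut H \ (S0 ∪ η)).powersetCard k).filter
            (fun S => G.Ind Λ H (O ∩ η) S)).card : ℝ) else 0) =
      (1 - t) ^ (S0.card + k) * ex t (G.touch Λ) (fun η =>
        ((((G.cut H \ S0).powersetCard k).filter
            (fun S => G.Ind Λ H (O ∩ η) S)).card : ℝ)) := by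
    simp only [e1]
    rw [ex_sum]
    have e3 : ∀ S ∈ (G.cut H \ S0).powersetCard k, ex t (G.touch Λ) (fun η =>
        (if Disjoint (S0 ∪ S) η then (1 : ℝ) else 0) *
        (if G.Ind Λ H (O ∩ η) S then (1 : ℝ) else 0)) =
        (1 - t) ^ (S0.card + k) * ex t (G.touch Λ) (fun η =>
          if G.Ind Λ H (O ∩ η) S then (1 : ℝ) else 0) := by
      intro S hS
      obtain ⟨hS1, hS2⟩ := mem_powersetCard.1 hS
      have hS3 : S ⊆ G.cut H := hS1.trans sdiff_subset
      have h10 := ex_indep (p := t) (F := G.touch Λ)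
        ((dep_disj (S0 ∪ S)).comp (fun P : Prop => if P then (1 : ℝ) else 0))
        ((dep_inter (G.dep_ind Λ H S) O).comp (fun P : Prop => if P then (1 : ℝ) else 0))
        (hdj S hS3)
      refine Eq.trans (ex_congr fun η _ => ?_) (h10.trans ?_)
      · by_cases h11 : Disjoint (S0 ∪ S) η
        · simp [h11]
        · simp [h11]
      congr 1
      have h4 := pr_avoid t (A := S0 ∪ S) (F := G.touch Λ)
        ((union_subset hS0 hS3).trans hcut)
      have h5 : (S0 ∪ S).card = S0.card + k := by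
        rw [card_union_of_disjoint, hS2]
        exact disjoint_of_subset_right hS1 disjoint_sdiff
      rw [h5] at h4
      rw [← h4]
      rfl
    rw [sum_congr rfl e3, ← mul_sum, ← ex_sum]
    congr 1
    refine ex_congr fun η _ => ?_
    rw [card_filter]
    push_cast
    rfl
  rw [e2, mul_assoc]
  refine mul_le_mul_of_nonneg_left ?_ (pow_nonneg (by linarith) _)
  have e4 : pr t (G.off Λ H) (fun η => m ≤ G.rk Λ H (O ∩ η)) =
      pr t (G.touch Λ) (fun η => m ≤ G.rk Λ H (O ∩ η)) := by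
    refine pr_dep ((dep_inter (G.dep_rk Λ H) O).comp (fun n => m ≤ n)) ?_
    intro i hi
    refine ⟨fun _ => ?_, fun _ => mem_coe.1 hi⟩
    have h6 := (G.mem_off).1 (mem_coe.1 hi)
    exact (G.mem_touch).2 h6.1
  rw [e4]
  unfold pr
  rw [← ex_mul_left]
  refine ex_mono ht0 ht1 fun η _ => ?_
  have h7 := G.card_ind Λ H (O ∩ η) S0 k
  by_cases h8 : m ≤ G.rk Λ H (O ∩ η)
  · rw [if_pos h8, mul_one]
    have h9 : Nat.choose (m - S0.card) k ≤ Nat.choose (G.rk Λ H (O ∩ η) - S0.card) k :=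
      Nat.choose_le_choose k (by omega)
    exact_mod_cast h9.trans h7
  · rw [if_neg h8, mul_zero]
    positivity

open Classical in
theorem crit_low {p t : ℝ} (h0 : 0 ≤ p) (h1 : p ≤ 1) (ht0 : 0 ≤ t) (ht1 : t ≤ 1)
    {Λ H : Finset V} (hH : H ⊆ Λ) (v : V) (b k m : ℕ)
    (hm : 1 / 2 ≤ pr (p * t) (G.off Λ H) (fun O => m ≤ G.rk Λ H O)) :
    1 / 2 * (1 - t) ^ (b + k) * (Nat.choose (m - b) k : ℝ) *
        pr p (G.touch Λ) (fun ω => G.Imp (cap ω ∅) Λ v H ∧ (G.cut H ∩ ω).card = b) ≤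
      ex p (G.touch Λ) (fun ω => ex t (G.touch Λ) (fun η =>
        if G.Imp (cap ω ∅) Λ v H ∧ (G.cut H ∩ ω).card = b ∧ Disjoint (G.cut H ∩ ω) η then
          ((((G.cut H \ (ω ∪ η)).powersetCard k).filter
            (fun S => G.Ind Λ H (ω ∩ η) S)).card : ℝ) else 0)) := by
  set A := G.inn H ∪ G.cut H with hA
  set B := G.off Λ H with hB
  have hF : G.touch Λ = A ∪ B := G.touch_split hH
  have hAB : Disjoint A B := G.disjoint_touch_off H Λ
  have hU : ∀ f : Finset E → ℝ, ex p (G.touch Λ) f =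
      ex p A (fun σ => ex p B (fun O => f (σ ∪ O))) := by
    intro f
    rw [hF]
    exact ex_union p hAB f
  have hL : pr p (G.touch Λ) (fun ω => G.Imp (cap ω ∅) Λ v H ∧ (G.cut H ∩ ω).card = b) =
      ex p A (fun σ => pr p B (fun O => G.Imp (cap (σ ∪ O) ∅) Λ v H ∧
        (G.cut H ∩ (σ ∪ O)).card = b)) := by
    unfold pr
    rw [hU]
  rw [hL, hU, ← ex_mul_left]
  refine ex_mono h0 h1 fun σ hσ => ?_
  have hcutB : Disjoint (G.cut H) B := disjoint_of_subset_left subset_union_right hAB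
  -- reductions for `ω = σ ∪ O`
  have hS0 : ∀ O, O ⊆ B → G.cut H ∩ (σ ∪ O) = G.cut H ∩ σ := by
    intro O hO
    rw [inter_union_distrib_left]
    have : G.cut H ∩ O = ∅ := disjoint_iff_inter_eq_empty.1 (disjoint_of_subset_right hO hcutB)
    rw [this, union_empty]
  have hiff : ∀ O, O ⊆ B → (G.Imp (cap (σ ∪ O) ∅) Λ v H ↔
      (v ∈ H ∧ ∀ x ∈ H, G.Reach (↑σ : Set E) (↑H : Set V) v x) ∧
        G.Off Λ H (G.cut H ∩ σ) O) := by
    intro O hO
    rw [imp_iff, hS0 O hO]
    have h2 : ∀ x, G.Reach (↑(σ ∪ O) : Set E) (↑H : Set V) v x =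
        G.Reach (↑σ : Set E) (↑H : Set V) v x := by
      intro x
      refine G.dep_reach H v x (σ ∪ O) σ fun i hi => ?_
      rw [mem_union]
      refine ⟨fun h => h.resolve_right fun hi' => ?_, Or.inl⟩
      exact disjoint_left.1 hAB (mem_union_left _ (mem_coe.1 hi)) (hO hi')
    have h3 : G.Off Λ H (G.cut H ∩ σ) (σ ∪ O) = G.Off Λ H (G.cut H ∩ σ) O := by
      refine G.dep_off Λ H (G.cut H ∩ σ) (σ ∪ O) O fun i hi => ?_
      rw [mem_union]
      refine ⟨fun h => h.resolve_left fun hi' => ?_, Or.inr⟩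
      exact disjoint_left.1 hAB (hσ hi') (mem_coe.1 hi)
    rw [h3]
    simp only [h2]
    exact and_iff_right hH
  by_cases hC : (v ∈ H ∧ ∀ x ∈ H, G.Reach (↑σ : Set E) (↑H : Set V) v x) ∧
      (G.cut H ∩ σ).card = b
  swap
  · have hz : pr p B (fun O => G.Imp (cap (σ ∪ O) ∅) Λ v H ∧
        (G.cut H ∩ (σ ∪ O)).card = b) = 0 := by
      unfold pr
      refine Eq.trans (ex_congr fun O hO => ?_) (ex_const p B 0)
      rw [if_neg]
      rintro ⟨h2, h3⟩
      rw [hS0 O hO] at h3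
      exact hC ⟨((hiff O hO).1 h2).1, h3⟩
    rw [hz, mul_zero]
    refine ex_nonneg h0 h1 fun O _ => ex_nonneg ht0 ht1 fun η _ => ?_
    split_ifs
    · positivity
    · exact le_rfl
  obtain ⟨hC1, hC2⟩ := hC
  set S0 := G.cut H ∩ σ with hS0def
  have hS0c : S0 ⊆ G.cut H := inter_subset_left
  have hPr : pr p B (fun O => G.Imp (cap (σ ∪ O) ∅) Λ v H ∧
        (G.cut H ∩ (σ ∪ O)).card = b) = pr p B (fun O => G.Off Λ H S0 O) := by
    refine pr_congr fun O hO => ?_
    rw [hiff O hO, hS0 O hO]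
    exact ⟨fun h => h.1.2, fun h => ⟨⟨hC1, h⟩, hC2⟩⟩
  rw [hPr]
  set h : Finset E → ℝ := fun O => pr t B (fun η => m ≤ G.rk Λ H (O ∩ η)) with hh
  have hrhs : ex p B (fun O => (1 - t) ^ (b + k) * (Nat.choose (m - b) k : ℝ) *
      ((if G.Off Λ H S0 O then (1 : ℝ) else 0) * h O)) ≤
      ex p B (fun O => ex t (G.touch Λ) (fun η =>
        if G.Imp (cap (σ ∪ O) ∅) Λ v H ∧ (G.cut H ∩ (σ ∪ O)).card = b ∧
          Disjoint (G.cut H ∩ (σ ∪ O)) η then
          ((((G.cut H \ (σ ∪ O ∪ η)).powersetCard k).filter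
            (fun S => G.Ind Λ H ((σ ∪ O) ∩ η) S)).card : ℝ) else 0)) := by
    refine ex_mono h0 h1 fun O hO => ?_
    by_cases hOff : G.Off Λ H S0 O
    · rw [if_pos hOff, one_mul]
      have h2 := G.crit_low_aux ht0 ht1 hH k m hS0c O
      rw [hC2] at h2
      refine h2.trans (le_of_eq (ex_congr fun η _ => ?_))
      rw [hS0 O hO]
      have h3 : G.Imp (cap (σ ∪ O) ∅) Λ v H := (hiff O hO).2 ⟨hC1, hOff⟩
      by_cases h4 : Disjoint S0 η
      · rw [if_pos h4, if_pos ⟨h3, hC2, h4⟩]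
        have h5 : G.cut H \ (σ ∪ O ∪ η) = G.cut H \ (S0 ∪ η) := by
          ext e
          have h6 : e ∈ G.cut H → e ∉ O := fun he heO => disjoint_left.1 hcutB he (hO heO)
          simp only [hS0def, mem_sdiff, mem_union, mem_inter]
          tauto
        have h7 : ∀ S, G.Ind Λ H ((σ ∪ O) ∩ η) S = G.Ind Λ H (O ∩ η) S := by
          intro S
          refine G.dep_ind Λ H S _ _ fun i hi => ?_
          have h8 : i ∉ σ := fun hi' => disjoint_left.1 hAB (hσ hi') (mem_coe.1 hi)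
          simp only [mem_inter, mem_union, h8, false_or]
        rw [h5]
        simp only [h7]
      · rw [if_neg h4, if_neg fun hx => h4 hx.2.2]
    · rw [if_neg hOff, zero_mul, mul_zero]
      refine ex_nonneg ht0 ht1 fun η _ => ?_
      split_ifs
      · positivity
      · exact le_rfl
  refine le_trans ?_ hrhs
  rw [ex_mul_left]
  have hHar := harris h0 h1 B (f := fun O => if G.Off Λ H S0 O then (1 : ℝ) else 0) (g := h)
    (by
      intro O O' hOO
      by_cases h2 : G.Off Λ H S0 O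
      · simp only [if_pos h2, if_pos (G.off_mono hOO h2), le_refl]
      · simp only [if_neg h2]
        split_ifs
        · exact zero_le_one
        · exact le_rfl)
    (by
      intro O O' hOO
      refine pr_mono ht0 ht1 fun η _ h2 => h2.trans ?_
      exact G.rk_mono Λ H (inter_subset_inter_right hOO))
  have hthin : 1 / 2 ≤ ex p B h := by
    rw [hh]
    rw [pr_thin p t B (fun O => m ≤ G.rk Λ H O)]
    exact hm
  have hoff0 : 0 ≤ pr p B (fun O => G.Off Λ H S0 O) := pr_nonneg h0 h1 B _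
  have hcpos : 0 ≤ (1 - t) ^ (b + k) * (Nat.choose (m - b) k : ℝ) :=
    mul_nonneg (pow_nonneg (by linarith) _) (Nat.cast_nonneg _)
  have hfin : 1 / 2 * pr p B (fun O => G.Off Λ H S0 O) ≤
      ex p B (fun O => (if G.Off Λ H S0 O then (1 : ℝ) else 0) * h O) := by
    refine le_trans ?_ hHar
    have h9 : pr p B (fun O => G.Off Λ H S0 O) =
      ex p B (fun O => if G.Off Λ H S0 O then (1 : ℝ) else 0) := rfl
    rw [← h9]
    calc 1 / 2 * pr p B (fun O => G.Off Λ H S0 O) ≤ ex p B h * pr p B (fun O => G.Off Λ H S0 O) :=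
          mul_le_mul_of_nonneg_right hthin hoff0
      _ = pr p B (fun O => G.Off Λ H S0 O) * ex p B h := mul_comm _ _
  calc 1 / 2 * (1 - t) ^ (b + k) * (Nat.choose (m - b) k : ℝ) *
        pr p B (fun O => G.Off Λ H S0 O)
      = (1 - t) ^ (b + k) * (Nat.choose (m - b) k : ℝ) *
        (1 / 2 * pr p B (fun O => G.Off Λ H S0 O)) := by ring
    _ ≤ _ := mul_le_mul_of_nonneg_left hfin hcpos

end Gr

end Pool.Agent.DLP
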