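import Pool.Agent.DLP.MinCut

/-!
# DLP/ImpEx: every connected set lies in an important set with no larger boundary

Let `M` be the largest minimiser above `H₀` and `H = comp c v M`. Then `H₀ ⊆ H ⊆ M`, `H` is
connected, `D H ≤ D M ≤ D H₀`, hence `D H = D M` is the minimum. Importance: let `B ⊇ H`, `B ⊆ Λ`,
with a positive edge `e` between `H` and `B \ H`, with end point `y ∈ B \ H`. By `comp_cut`
`e ∈ cut M`, and its end point in `H` is in `M`, so `y ∉ M`. By `lam_succ`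
`D B ≥ D M + 1 > D H`.
-/

namespace Pool.Agent.DLP

open Finset

namespace Gr

variable {V E : Type} [DecidableEq V] [DecidableEq E] (G : Gr V E)

theorem exists_imp {c : E → ℕ} {Λ H₀ : Finset V} {v : V} (h : H₀ ⊆ Λ) (hc : G.Con c v H₀) :
    ∃ H, G.Imp c Λ v H ∧ H₀ ⊆ H ∧ G.D c H ≤ G.D c H₀ := by
  obtain ⟨M, hM⟩ := G.exists_maxmin c h
  have hvM : v ∈ M := hM.1 hc.1
  have h1 : H₀ ⊆ G.comp c v M := G.subset_comp hc hM.1
  have h2 : G.D c (G.comp c v M) ≤ G.D c M := G.D_comp_le hvM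
  refine ⟨G.comp c v M, ⟨(G.comp_subset c v M).trans hM.2.1, G.con_comp hvM, ?_⟩, h1,
    h2.trans (hM.2.2.1 H₀ (Finset.Subset.refl _) h)⟩
  rintro B hB hBΛ ⟨e, he, hpos, haB, hbB⟩
  have h3 := G.comp_cut hvM he hpos
  rw [mem_cut] at h3
  have h4 : G.D c M + 1 ≤ G.D c B := by
    rcases h3 with ⟨_, h5⟩ | ⟨h5, _⟩
    · exact G.lam_succ hM (h1.trans hB) hBΛ h5 hbB
    · exact G.lam_succ hM (h1.trans hB) hBΛ h5 haB
  omega

end Gr

end Pool.Agent.DLP
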