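import Pool.Agent.DLP.CritSum
import Pool.Agent.DLP.CritLow
import Pool.Agent.DLP.CritDisc
import Pool.Agent.DLP.ImpEx

/-!
# DLP/Crit: the criterion, finite volume

`0 < p₀ < p < 1`; put `p₁ = (p₀ + p)/2`, `s = p₀/p₁`, `t = p₁/p`, `z = p/(1-p)`; `0 < s, t < 1`.

Step 1 (`crit_step`). Suppose `m, b₀, k` are natural numbers with `b₀ ≤ k`, `2k ≤ m` and
`pr p₁ (off Λ H) (rk < m) ≤ 1/2` for all `H ⊆ Λ` with `v ∈ H`, `n ≤ |H|`. Then
`P(∃ H₀ ...) ≤ ∑_{b ≤ b₀} ∑_{H} P(Imp (cap ω ∅) Λ v H, |cut H ∩ ω| = b)` over the `H ⊆ Λ` with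
`v ∈ H`, `n ≤ |H|` (by `exists_imp` with `c = cap ω ∅`, whose positive edges are `ω`; `D c H₀ =
|cut H₀ ∩ ω|`; union bound `pr_exists_le`), and by `crit_low`, `crit_sum`
`∑_H P(Imp, = b) ≤ 2 · 8^{b+k} / ((1-t)^{b+k} C(m-b,k) z^k)`.
With `b ≤ k`: `8^{b+k} ≤ 64^k`, `(1-t)^{b+k} ≥ (1-t)^{2k}`, `C(m-b,k) ≥ ((m-b)/k)^k ≥ (m/(2k))^k`
(`Nat.choose` lower bound: `Nat.pow_le_choose`-type lemma; for `k = 0` both sides are `1`).
So `P(∃ H₀ ...) ≤ 2 (k+1) (A k / m)^k`, `A = 128/((1-t)^2 z)` (for `k ≥ 1`).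

Step 2 (choice of constants). Let `a = 1/(2 log(1/(1-s))) > 0`. Given `L`, `m = ⌊a L⌋`:
`(1-s)^m ≥ exp(-L/2)`, so by `crit_disc` and the hypothesis
`pr p₁ (off Λ H) (rk < m) ≤ exp(L/2) exp(-L) = exp(-L/2) ≤ 1/2` if `L ≥ 2 log 2`.
Choose `ε > 0` with `ε ≤ a/8` and `2 A ε ≤ a exp(-2)`; `k = ⌊ε L⌋ = b₀`. For `L ≥ L₀` (depending on
`a, ε`): `m ≥ a L / 2`, `k ≥ 1`, `2k ≤ m`, `A k / m ≤ 2 A ε/a ≤ exp(-2)`; so the
probability is `≤ 2 (k+1) exp(-2k) ≤ 2 exp(-k) ≤ 2 e exp(-ε L)`. So `c' = ε`. For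
`L < L₀` the bound holds with `C ≥ exp(ε L₀)` because probabilities are `≤ 1`.
(The sets `H₀` with `|cut H₀ ∩ ω| ≤ ε L` have `|cut H₀ ∩ ω| ≤ k = b₀`.)
-/

namespace Pool.Agent.DLP

open Finset

namespace Gr

variable {V E : Type} [DecidableEq V] [DecidableEq E] (G : Gr V E)

private theorem pow_le_choose' (k : ℕ) : ∀ N : ℕ, k ≤ N → N ^ k ≤ k ^ k * N.choose k := by
  induction k with
  | zero => intro N _; simp
  | succ k ih =>
    intro N hN
    obtain ⟨M, rfl⟩ : ∃ M, N = M + 1 := ⟨N - 1, by omega⟩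
    have hkM : k ≤ M := by omega
    have h1 := ih M hkM
    have h2 : (M + 1) * M.choose k = (M + 1).choose (k + 1) * (k + 1) := Nat.add_one_mul_choose_eq M k
    have h3 : (M + 1) ^ k ≤ (k + 1) ^ k * M.choose k := by
      rcases Nat.eq_zero_or_pos k with hk | hk
      · subst hk; simp
      · have h4 : ((M + 1) * k) ^ k ≤ (M * (k + 1)) ^ k := by
          apply Nat.pow_le_pow_left
          nlinarith
        have h5 : (M + 1) ^ k * k ^ k ≤ ((k + 1) ^ k * M.choose k) * k ^ k := by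
          calc (M + 1) ^ k * k ^ k = ((M + 1) * k) ^ k := (mul_pow _ _ _).symm
            _ ≤ (M * (k + 1)) ^ k := h4
            _ = M ^ k * (k + 1) ^ k := mul_pow _ _ _
            _ ≤ (k ^ k * M.choose k) * (k + 1) ^ k := Nat.mul_le_mul_right _ h1
            _ = ((k + 1) ^ k * M.choose k) * k ^ k := by ring
        exact Nat.le_of_mul_le_mul_right h5 (Nat.pow_pos hk)
    calc (M + 1) ^ (k + 1) = (M + 1) ^ k * (M + 1) := pow_succ _ _
      _ ≤ ((k + 1) ^ k * M.choose k) * (M + 1) := Nat.mul_le_mul_right _ h3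
      _ = (k + 1) ^ k * ((M + 1) * M.choose k) := by ring
      _ = (k + 1) ^ (k + 1) * (M + 1).choose (k + 1) := by rw [h2]; ring

private theorem cap_empty_pos (ω : Finset E) : {e : E | 0 < cap ω ∅ e} = (↑ω : Set E) := by
  ext e
  simp only [cap, Set.mem_ofPred_eq, Finset.inter_empty, Finset.notMem_empty, if_false, add_zero,
    Finset.mem_coe]
  split_ifs with h <;> simp [h]

private theorem D_cap_empty (ω : Finset E) (H : Finset V) : G.D (cap ω ∅) H = (G.cut H ∩ ω).card := by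
  unfold D
  have h1 : ∀ e ∈ G.cut H, cap ω ∅ e = if e ∈ ω then 1 else 0 := by
    intro e _
    simp [cap]
  rw [Finset.sum_congr rfl h1, ← Finset.card_filter, Finset.filter_mem_eq_inter]

theorem crit_step {p₀ p₁ p t : ℝ} (h0 : 0 < p₁) (ht0 : 0 < t) (ht1 : t < 1) (hp0 : 0 < p)
    (hp1 : p < 1) (hpt : p * t = p₁) {Λ : Finset V} {v : V} {n m b₀ k : ℕ} (hk : 1 ≤ k)
    (hb : b₀ ≤ k) (hm : 2 * k ≤ m)
    (hH : ∀ H : Finset V, H ⊆ Λ → v ∈ H → n ≤ H.card →
      pr p₁ (G.off Λ H) (fun O => G.rk Λ H O < m) ≤ 1 / 2) :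
    pr p (G.touch Λ) (fun ω => ∃ H : Finset V, H ⊆ Λ ∧ v ∈ H ∧ n ≤ H.card ∧
        (∀ x ∈ H, G.Reach (↑ω : Set E) (↑H : Set V) v x) ∧ (G.cut H ∩ ω).card ≤ b₀) ≤
      2 * (k + 1) * (128 / ((1 - t) ^ 2 * (p / (1 - p))) * k / m) ^ k := by
  classical
  have hz : 0 < p / (1 - p) := div_pos hp0 (by linarith)
  set SH : Finset (Finset V) := Λ.powerset.filter (fun H => v ∈ H ∧ n ≤ H.card) with hSH
  have hinc : ∀ ω, ω ⊆ G.touch Λ → (∃ H : Finset V, H ⊆ Λ ∧ v ∈ H ∧ n ≤ H.card ∧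
        (∀ x ∈ H, G.Reach (↑ω : Set E) (↑H : Set V) v x) ∧ (G.cut H ∩ ω).card ≤ b₀) →
      ∃ b ∈ Finset.range (b₀ + 1), ∃ H ∈ SH,
        (G.Imp (cap ω ∅) Λ v H ∧ (G.cut H ∩ ω).card = b) := by
    rintro ω - ⟨H₀, hH₀, hv, hn, hcon, hcut⟩
    have hC : G.Con (cap ω ∅) v H₀ := by
      refine ⟨hv, fun x hx => ?_⟩
      rw [cap_empty_pos]
      exact hcon x hx
    obtain ⟨H, hI, hsub, hD⟩ := G.exists_imp hH₀ hC
    rw [D_cap_empty, D_cap_empty] at hD
    refine ⟨(G.cut H ∩ ω).card, Finset.mem_range.2 (by omega), H, ?_, hI, rfl⟩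
    rw [hSH, Finset.mem_filter, Finset.mem_powerset]
    exact ⟨hI.1, hsub hv, hn.trans (Finset.card_le_card hsub)⟩
  -- the bound for one value of `b`
  set A : ℝ := 128 / ((1 - t) ^ 2 * (p / (1 - p))) with hA
  have h1t : 0 < 1 - t := by linarith
  have hmpos : (0 : ℝ) < m := by
    have : 0 < m := by omega
    exact_mod_cast this
  have hkpos : (0 : ℝ) < k := by exact_mod_cast hk
  have hone : ∀ b ∈ Finset.range (b₀ + 1),
      ∑ H ∈ SH, pr p (G.touch Λ) (fun ω => G.Imp (cap ω ∅) Λ v H ∧ (G.cut H ∩ ω).card = b) ≤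
        2 * (A * k / m) ^ k := by
    intro b hb'
    have hbk : b ≤ k := by
      have := Finset.mem_range.1 hb'
      omega
    have hlow : ∀ H ∈ SH, _ := fun H hHm => by
      rw [hSH, Finset.mem_filter, Finset.mem_powerset] at hHm
      have h2 : 1 / 2 ≤ pr (p * t) (G.off Λ H) (fun O => m ≤ G.rk Λ H O) := by
        have h3 := pr_not p₁ (G.off Λ H) (fun O => G.rk Λ H O < m)
        have h4 := hH H hHm.1 hHm.2.1 hHm.2.2
        have h5 : pr p₁ (G.off Λ H) (fun O => ¬ G.rk Λ H O < m) =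
            pr p₁ (G.off Λ H) (fun O => m ≤ G.rk Λ H O) :=
          pr_congr fun ω _ => not_lt
        rw [hpt, ← h5, h3]
        linarith
      exact G.crit_low hp0.le hp1.le ht0.le ht1.le hHm.1 v b k m h2
    have hsum := G.crit_sum hp0.le hp1 ht0.le ht1.le Λ v b k
    have h6 := Finset.sum_le_sum hlow
    rw [← Finset.mul_sum] at h6
    have h7 := h6.trans (Finset.sum_le_sum_of_subset_of_nonneg (Finset.filter_subset _ _)
      (fun H _ _ => ex_nonneg hp0.le hp1.le fun ω _ => ex_nonneg ht0.le ht1.le fun η _ => by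
        split_ifs
        · exact Nat.cast_nonneg _
        · exact le_refl _))
    have h8 := (mul_le_mul_of_nonneg_right h7 (pow_nonneg hz.le k)).trans hsum
    -- numerical part
    set Q : ℝ := ∑ H ∈ SH, pr p (G.touch Λ)
      (fun ω => G.Imp (cap ω ∅) Λ v H ∧ (G.cut H ∩ ω).card = b) with hQ
    have hQ0 : 0 ≤ Q := Finset.sum_nonneg fun H _ => pr_nonneg hp0.le hp1.le _ _
    have hch : ((m : ℝ) / (2 * k)) ^ k ≤ (Nat.choose (m - b) k : ℝ) := by
      have h9 := pow_le_choose' k (m - b) (by omega)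
      have h10 : ((m - b : ℕ) : ℝ) ^ k ≤ (k : ℝ) ^ k * (Nat.choose (m - b) k : ℝ) := by
        exact_mod_cast h9
      have h11 : (m : ℝ) / 2 ≤ ((m - b : ℕ) : ℝ) := by
        have h12 : m ≤ 2 * (m - b) := by omega
        have h13 : (m : ℝ) ≤ 2 * ((m - b : ℕ) : ℝ) := by exact_mod_cast h12
        linarith
      have h14 : ((m : ℝ) / (2 * k)) ^ k = ((m : ℝ) / 2) ^ k / (k : ℝ) ^ k := by
        rw [← div_pow]
        congr 1
        field_simp
      rw [h14, div_le_iff₀ (pow_pos hkpos k), mul_comm]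
      exact (pow_le_pow_left₀ (by positivity) h11 k).trans h10
    have hpow : (1 - t) ^ (2 * k) ≤ (1 - t) ^ (b + k) :=
      pow_le_pow_of_le_one h1t.le (by linarith) (by omega)
    have h8k : (8 : ℝ) ^ (b + k) ≤ 64 ^ k := by
      calc (8 : ℝ) ^ (b + k) ≤ 8 ^ (2 * k) := pow_le_pow_right₀ (by norm_num) (by omega)
        _ = 64 ^ k := by rw [pow_mul]; norm_num
    have h15 : 1 / 2 * ((1 - t) ^ (2 * k) * ((m : ℝ) / (2 * k)) ^ k) * Q * (p / (1 - p)) ^ k ≤
        64 ^ k := by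
      refine le_trans ?_ (h8.trans h8k)
      refine mul_le_mul_of_nonneg_right ?_ (pow_nonneg hz.le k)
      refine mul_le_mul_of_nonneg_right ?_ hQ0
      rw [mul_assoc]
      refine mul_le_mul_of_nonneg_left ?_ (by norm_num)
      exact mul_le_mul hpow hch (by positivity) (by positivity)
    have h16 : (A * k / m) ^ k * ((1 - t) ^ (2 * k) * ((m : ℝ) / (2 * k)) ^ k * (p / (1 - p)) ^ k) =
        64 ^ k := by
      rw [pow_mul, ← mul_pow, ← mul_pow, ← mul_pow]
      congr 1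
      rw [hA]
      have e1 : (1 - t) ^ 2 * (p / (1 - p)) ≠ 0 := by positivity
      have e2 : (128 / ((1 - t) ^ 2 * (p / (1 - p))) * k / m) * ((1 - t) ^ 2 * ((m : ℝ) / (2 * k)) *
          (p / (1 - p))) = (128 / ((1 - t) ^ 2 * (p / (1 - p))) * ((1 - t) ^ 2 * (p / (1 - p)))) *
          ((k / m) * ((m : ℝ) / (2 * k))) := by ring
      rw [e2, div_mul_cancel₀ _ e1]
      field_simp
      norm_num
    have hpos : 0 < (1 - t) ^ (2 * k) * ((m : ℝ) / (2 * k)) ^ k * (p / (1 - p)) ^ k := by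
      positivity
    rw [← h16] at h15
    have h17 : Q * ((1 - t) ^ (2 * k) * ((m : ℝ) / (2 * k)) ^ k * (p / (1 - p)) ^ k) ≤
        2 * (A * k / m) ^ k * ((1 - t) ^ (2 * k) * ((m : ℝ) / (2 * k)) ^ k * (p / (1 - p)) ^ k) := by
      linarith
    exact le_of_mul_le_mul_right h17 hpos
  calc _ ≤ pr p (G.touch Λ) (fun ω => ∃ b ∈ Finset.range (b₀ + 1), ∃ H ∈ SH,
        (G.Imp (cap ω ∅) Λ v H ∧ (G.cut H ∩ ω).card = b)) := pr_mono hp0.le hp1.le hinc
    _ ≤ ∑ b ∈ Finset.range (b₀ + 1), pr p (G.touch Λ) (fun ω => ∃ H ∈ SH,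
        (G.Imp (cap ω ∅) Λ v H ∧ (G.cut H ∩ ω).card = b)) := pr_exists_le hp0.le hp1.le _ _ _
    _ ≤ ∑ b ∈ Finset.range (b₀ + 1), ∑ H ∈ SH, pr p (G.touch Λ) (fun ω =>
        (G.Imp (cap ω ∅) Λ v H ∧ (G.cut H ∩ ω).card = b)) :=
        Finset.sum_le_sum fun b _ => pr_exists_le hp0.le hp1.le _ _ _
    _ ≤ ∑ b ∈ Finset.range (b₀ + 1), 2 * (A * k / m) ^ k := Finset.sum_le_sum hone
    _ = ((b₀ : ℝ) + 1) * (2 * (A * k / m) ^ k) := by
        rw [Finset.sum_const, Finset.card_range, nsmul_eq_mul]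
        push_cast
        ring
    _ ≤ ((k : ℝ) + 1) * (2 * (A * k / m) ^ k) := by
        have hA0 : 0 ≤ A := by
          rw [hA]
          positivity
        refine mul_le_mul_of_nonneg_right ?_ (by positivity)
        have : (b₀ : ℝ) ≤ k := by exact_mod_cast hb
        linarith
    _ = _ := by ring

end Gr

/-- The criterion in finite volume. -/
theorem criterion {p₀ p : ℝ} (h0 : 0 < p₀) (h01 : p₀ < p) (hp : p < 1) :
    ∃ ε : ℝ, 0 < ε ∧ ∃ C : ℝ, 0 < C ∧
      ∀ (V E : Type) [DecidableEq V] [DecidableEq E] (G : Gr V E) (Λ : Finset V) (v : V) (n : ℕ)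
        (L : ℝ), (∀ H : Finset V, H ⊆ Λ → v ∈ H → n ≤ H.card →
          pr p₀ (G.touch Λ) (fun ω => G.Disc Λ H ω) ≤ Real.exp (-L)) →
        pr p (G.touch Λ) (fun ω => ∃ H : Finset V, H ⊆ Λ ∧ v ∈ H ∧ n ≤ H.card ∧
          (∀ x ∈ H, G.Reach (↑ω : Set E) (↑H : Set V) v x) ∧
          ((G.cut H ∩ ω).card : ℝ) ≤ ε * L) ≤ C * Real.exp (-(ε * L)) := by
  set p₁ : ℝ := (p₀ + p) / 2 with hp₁
  have h1a : p₀ < p₁ := by rw [hp₁]; linarith
  have h1b : p₁ < p := by rw [hp₁]; linarith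
  have h1pos : 0 < p₁ := by linarith
  have hppos : 0 < p := by linarith
  set s : ℝ := p₀ / p₁ with hs
  set t : ℝ := p₁ / p with ht
  have hs0 : 0 < s := div_pos h0 h1pos
  have hs1 : s < 1 := by rw [hs, div_lt_one h1pos]; exact h1a
  have ht0 : 0 < t := div_pos h1pos hppos
  have ht1 : t < 1 := by rw [ht, div_lt_one hppos]; exact h1b
  have hp1s : p₁ * s = p₀ := by rw [hs]; field_simp
  have hpt : p * t = p₁ := by rw [ht]; field_simp
  have hz : 0 < p / (1 - p) := div_pos hppos (by linarith)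
  set A : ℝ := 128 / ((1 - t) ^ 2 * (p / (1 - p))) with hA
  have h1t : 0 < 1 - t := by linarith
  have hApos : 0 < A := by rw [hA]; positivity
  set lam : ℝ := - Real.log (1 - s) with hlam
  have hlampos : 0 < lam := by
    rw [hlam]
    have := Real.log_neg (show 0 < 1 - s by linarith) (show 1 - s < 1 by linarith)
    linarith
  set a : ℝ := 1 / (2 * lam) with ha
  have hapos : 0 < a := by rw [ha]; positivity
  set ε : ℝ := min (a / 8) (a * Real.exp (-2) / (2 * A)) with hε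
  have hεpos : 0 < ε := by
    rw [hε]
    have := Real.exp_pos (-2)
    exact lt_min (by positivity) (by positivity)
  have hε1 : ε ≤ a / 8 := min_le_left _ _
  have hε2 : 2 * A * ε ≤ a * Real.exp (-2) := by
    have : ε ≤ a * Real.exp (-2) / (2 * A) := min_le_right _ _
    rw [le_div_iff₀ (by positivity)] at this
    linarith
  set L₀ : ℝ := 2 / a + 1 / ε + 2 with hL₀
  have hL₀pos : 0 < L₀ := by rw [hL₀]; positivity
  refine ⟨ε, hεpos, 2 * Real.exp 1 + Real.exp (ε * L₀), by positivity, ?_⟩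
  intro V E _ _ G Λ v n L hyp
  by_cases hL : L₀ ≤ L
  · have hLpos : 0 < L := by linarith
    have haL : 2 ≤ a * L := by
      have h2 : 2 / a ≤ L := by
        have : 0 < 1 / ε := by positivity
        linarith
      rw [div_le_iff₀ hapos] at h2
      linarith
    have hεL : 1 ≤ ε * L := by
      have h2 : 1 / ε ≤ L := by
        have : 0 < 2 / a := by positivity
        linarith
      rw [div_le_iff₀ hεpos] at h2
      linarith
    have hL2 : 2 ≤ L := by
      have h2 : 0 < 2 / a := by positivity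
      have h3 : 0 < 1 / ε := by positivity
      linarith
    set m : ℕ := ⌊a * L⌋₊ with hm
    set k : ℕ := ⌊ε * L⌋₊ with hk
    have hm1 : (m : ℝ) ≤ a * L := Nat.floor_le (by linarith)
    have hm2 : a * L < m + 1 := Nat.lt_floor_add_one _
    have hk1 : (k : ℝ) ≤ ε * L := Nat.floor_le (by linarith)
    have hk2 : ε * L < k + 1 := Nat.lt_floor_add_one _
    have hk3 : 1 ≤ k := Nat.le_floor (by exact_mod_cast hεL)
    have hm3 : a * L / 2 ≤ m := by linarith
    have hkm : 2 * k ≤ m := by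
      have h4 : (2 * k : ℝ) ≤ m := by
        have h5 : ε * L ≤ a / 8 * L := mul_le_mul_of_nonneg_right hε1 hLpos.le
        linarith
      exact_mod_cast h4
    have hmpos : (0 : ℝ) < m := by linarith
    have hstep := G.crit_step (p₀ := p₀) h1pos ht0 ht1 hppos hp hpt (Λ := Λ) (v := v) (n := n)
      (m := m) (b₀ := k) (k := k) hk3 le_rfl hkm (by
        intro H hHΛ hv hn
        have h6 := G.crit_disc h1pos.le (by linarith : p₁ ≤ 1) hs0.le hs1.le hHΛ m
        rw [hp1s] at h6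
        have h7 := h6.trans (hyp H hHΛ hv hn)
        have h8 : Real.exp (-L / 2) ≤ (1 - s) ^ m := by
          have h9 : (1 - s) ^ m = Real.exp (-(m * lam)) := by
            rw [hlam, mul_neg, neg_neg, mul_comm, Real.exp_mul, Real.exp_log (by linarith),
              Real.rpow_natCast]
          rw [h9]
          apply Real.exp_le_exp.2
          have h10 : (m : ℝ) * lam ≤ a * L * lam := mul_le_mul_of_nonneg_right hm1 hlampos.le
          have h11 : a * L * lam = L / 2 := by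
            rw [ha]
            field_simp
          linarith
        have h12 : 0 ≤ pr p₁ (G.off Λ H) (fun O => G.rk Λ H O < m) :=
          pr_nonneg h1pos.le (by linarith) _ _
        have h13 : Real.exp (-L / 2) * pr p₁ (G.off Λ H) (fun O => G.rk Λ H O < m) ≤
            Real.exp (-L) := (mul_le_mul_of_nonneg_right h8 h12).trans h7
        have h14 : Real.exp (-L) = Real.exp (-L / 2) * Real.exp (-L / 2) := by
          rw [← Real.exp_add]
          congr 1
          ring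
        rw [h14] at h13
        have h15 : pr p₁ (G.off Λ H) (fun O => G.rk Λ H O < m) ≤ Real.exp (-L / 2) :=
          le_of_mul_le_mul_left h13 (Real.exp_pos _)
        refine h15.trans ?_
        have h16 : Real.exp (-L / 2) ≤ Real.exp (-1) := Real.exp_le_exp.2 (by linarith)
        refine h16.trans ?_
        rw [Real.exp_neg]
        have h17 : (2 : ℝ) ≤ Real.exp 1 := by
          have := Real.add_one_le_exp (1 : ℝ)
          linarith
        rw [inv_eq_one_div]
        exact one_div_le_one_div_of_le (by norm_num) h17)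
    have hmono : pr p (G.touch Λ) (fun ω => ∃ H : Finset V, H ⊆ Λ ∧ v ∈ H ∧ n ≤ H.card ∧
          (∀ x ∈ H, G.Reach (↑ω : Set E) (↑H : Set V) v x) ∧
          ((G.cut H ∩ ω).card : ℝ) ≤ ε * L) ≤
        pr p (G.touch Λ) (fun ω => ∃ H : Finset V, H ⊆ Λ ∧ v ∈ H ∧ n ≤ H.card ∧
          (∀ x ∈ H, G.Reach (↑ω : Set E) (↑H : Set V) v x) ∧ (G.cut H ∩ ω).card ≤ k) := by
      refine pr_mono hppos.le hp.le ?_
      rintro ω - ⟨H, a1, a2, a3, a4, a5⟩
      exact ⟨H, a1, a2, a3, a4, Nat.le_floor a5⟩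
    refine (hmono.trans hstep).trans ?_
    have hr : A * k / m ≤ Real.exp (-2) := by
      rw [div_le_iff₀ hmpos]
      have h5 : A * k ≤ A * (ε * L) := mul_le_mul_of_nonneg_left hk1 hApos.le
      have h6 : A * (ε * L) ≤ Real.exp (-2) * (a * L / 2) := by
        have h7 : 2 * A * ε * L ≤ a * Real.exp (-2) * L := mul_le_mul_of_nonneg_right hε2 hLpos.le
        linarith
      have h8 : Real.exp (-2) * (a * L / 2) ≤ Real.exp (-2) * m :=
        mul_le_mul_of_nonneg_left hm3 (Real.exp_pos _).le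
      linarith
    have hr0 : 0 ≤ A * k / m := by positivity
    have h20 : (A * k / m) ^ k ≤ Real.exp (-(2 * k)) := by
      refine (pow_le_pow_left₀ hr0 hr k).trans (le_of_eq ?_)
      rw [← Real.exp_nat_mul]
      congr 1
      ring
    have h21 : (k : ℝ) + 1 ≤ Real.exp k := Real.add_one_le_exp _
    calc 2 * ((k : ℝ) + 1) * (A * k / m) ^ k ≤ 2 * Real.exp k * Real.exp (-(2 * k)) := by
          refine mul_le_mul (by linarith) h20 (by positivity) (by positivity)
      _ = 2 * Real.exp (-k) := by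
          rw [mul_assoc, ← Real.exp_add]
          congr 2
          ring
      _ ≤ 2 * Real.exp (1 - ε * L) := by
          have : Real.exp (-(k : ℝ)) ≤ Real.exp (1 - ε * L) := Real.exp_le_exp.2 (by linarith)
          linarith
      _ = 2 * Real.exp 1 * Real.exp (-(ε * L)) := by
          rw [mul_assoc, ← Real.exp_add]
          congr 2
      _ ≤ (2 * Real.exp 1 + Real.exp (ε * L₀)) * Real.exp (-(ε * L)) := by
          refine mul_le_mul_of_nonneg_right ?_ (Real.exp_pos _).le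
          have := Real.exp_pos (ε * L₀)
          linarith
  · push Not at hL
    refine (pr_le_one hppos.le hp.le _ _).trans ?_
    have h1 : (1 : ℝ) ≤ Real.exp (ε * L₀) * Real.exp (-(ε * L)) := by
      rw [← Real.exp_add]
      apply Real.one_le_exp
      have : ε * L ≤ ε * L₀ := mul_le_mul_of_nonneg_left hL.le hεpos.le
      linarith
    have h2 : 0 < 2 * Real.exp 1 * Real.exp (-(ε * L)) := by positivity
    linarith

end Pool.Agent.DLP
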