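import Pool.Agent.DLP.ImpSum
import Pool.Agent.DLP.ImpExt
import Pool.Agent.DLP.ExB

/-!
# DLP/CritSum: the double counting inequality

Notation: `F = touch Λ`, `P(H, ω, η)` := `Imp (cap ω ∅) Λ v H ∧ |cut H ∩ ω| = b ∧
Disjoint (cut H ∩ ω) η`, and `count H ω η` = number of `S ⊆ cut H \ (ω ∪ η)`, `|S| = k`, with
`Ind Λ H (ω ∩ η) S`.

`∑_H E_ω E_η [1_P count] (p/(1-p))^k ≤ 8^{b+k}`.

Proof. Write `count` as a sum of indicators over the `k`-subsets `S` of `cut H` (`S ⊆ F` as
`H ⊆ Λ`). For fixed `H` and `S` only the `ω` with `S ∩ ω = ∅` contribute, and for them (`S ⊆ F`)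
`p^|ω| (1-p)^|F \ ω| (p/(1-p))^k = p^|ω ∪ S| (1-p)^|F \ (ω ∪ S)|`. The map `ω ↦ ω' = ω ∪ S` is a
bijection from `{ω ⊆ F : ω ∩ S = ∅}` onto `{ω' ⊆ F : S ⊆ ω'}`, inverse `ω' \ S`. By `imp_extend` and
`D_cap_cut` (for `ω' = ω ∪ S`): `H` is important for `cap ω' η` and `D (cap ω' η) H = b + k`. Hence the
left side is at most
`E_{ω'} E_η ∑_{H} ∑_{S ⊆ cut H ∩ ω', |S| = k} 1[Imp (cap ω' η) Λ v H, D (cap ω' η) H = b + k]`
`≤ E E ∑_{H : Imp, D = b + k} 2^{|cut H ∩ ω'|} ≤ E E [4^{b+k} 2^{b+k}] = 8^{b+k}`,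
using `|cut H ∩ ω'| ≤ D (cap ω' η) H = b + k` (capacities on `ω'` are `≥ 1`) and `imp_card`.
Suggestion: prove first the change of variables
`change_var : p < 1 → S ⊆ F → (p/(1-p))^S.card * ex p F (fun ω => if Disjoint S ω then f ω else 0)
   = ex p F (fun ω => if S ⊆ ω then f (ω \ S) else 0)`.
-/

namespace Pool.Agent.DLP

open Finset

theorem change_var {ι : Type} [DecidableEq ι] {p : ℝ} (h1 : p < 1) {F S : Finset ι}
    (hS : S ⊆ F) (f : Finset ι → ℝ) :
    (p / (1 - p)) ^ S.card * ex p F (fun ω => if Disjoint S ω then f ω else 0) =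
      ex p F (fun ω => if S ⊆ ω then f (ω \ S) else 0) := by
  have h2 : 0 < 1 - p := by linarith
  unfold ex
  have e1 : ∑ ω ∈ F.powerset, p ^ ω.card * (1 - p) ^ (F \ ω).card *
      (fun ω => if Disjoint S ω then f ω else 0) ω =
      ∑ ω ∈ F.powerset.filter (fun ω => Disjoint S ω),
        p ^ ω.card * (1 - p) ^ (F \ ω).card * f ω := by
    rw [Finset.sum_filter]
    refine Finset.sum_congr rfl fun ω _ => ?_
    by_cases h3 : Disjoint S ω
    · simp only [if_pos h3]
    · simp only [if_neg h3, mul_zero]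
  have e2 : ∑ ω ∈ F.powerset, p ^ ω.card * (1 - p) ^ (F \ ω).card *
      (fun ω => if S ⊆ ω then f (ω \ S) else 0) ω =
      ∑ ω ∈ F.powerset.filter (fun ω => S ⊆ ω),
        p ^ ω.card * (1 - p) ^ (F \ ω).card * f (ω \ S) := by
    rw [Finset.sum_filter]
    refine Finset.sum_congr rfl fun ω _ => ?_
    by_cases h3 : S ⊆ ω
    · simp only [if_pos h3]
    · simp only [if_neg h3, mul_zero]
  rw [e1, e2, Finset.mul_sum]
  refine Finset.sum_nbij' (fun ω => ω ∪ S) (fun ω => ω \ S) ?_ ?_ ?_ ?_ ?_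
  · intro ω hω
    rw [Finset.mem_filter, Finset.mem_powerset] at hω ⊢
    exact ⟨Finset.union_subset hω.1 hS, Finset.subset_union_right⟩
  · intro ω hω
    rw [Finset.mem_filter, Finset.mem_powerset] at hω ⊢
    exact ⟨Finset.sdiff_subset.trans hω.1, Finset.disjoint_sdiff⟩
  · intro ω hω
    rw [Finset.mem_filter] at hω
    exact Finset.union_sdiff_cancel_right hω.2.symm
  · intro ω hω
    rw [Finset.mem_filter] at hω
    exact Finset.sdiff_union_of_subset hω.2
  · intro ω hω
    rw [Finset.mem_filter, Finset.mem_powerset] at hω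
    have a1 : (ω ∪ S).card = ω.card + S.card := Finset.card_union_of_disjoint hω.2.symm
    have a2 : (F \ ω).card = (F \ (ω ∪ S)).card + S.card := by
      rw [← Finset.card_union_of_disjoint]
      · congr 1
        ext x
        simp only [Finset.mem_sdiff, Finset.mem_union]
        constructor
        · rintro ⟨h3, h4⟩
          by_cases h5 : x ∈ S
          · exact Or.inr h5
          · exact Or.inl ⟨h3, fun h6 => h6.elim h4 h5⟩
        · rintro (⟨h3, h4⟩ | h3)
          · exact ⟨h3, fun h5 => h4 (Or.inl h5)⟩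
          · exact ⟨hS h3, fun h5 => (Finset.disjoint_left.1 hω.2 h3) h5⟩
      · refine Finset.disjoint_left.2 fun x hx hx2 => ?_
        exact (Finset.mem_sdiff.1 hx).2 (Finset.mem_union_right _ hx2)
    have a3 : (ω ∪ S) \ S = ω := Finset.union_sdiff_cancel_right hω.2.symm
    rw [a1, a2, a3, pow_add, pow_add, div_pow]
    have h3 : (1 - p) ^ S.card ≠ 0 := (pow_pos h2 _).ne'
    field_simp

namespace Gr

variable {V E : Type} [DecidableEq V] [DecidableEq E] (G : Gr V E)

open Classical in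
theorem crit_sum {p t : ℝ} (h0 : 0 ≤ p) (h1 : p < 1) (ht0 : 0 ≤ t) (ht1 : t ≤ 1)
    (Λ : Finset V) (v : V) (b k : ℕ) :
    (∑ H ∈ Λ.powerset, ex p (G.touch Λ) (fun ω => ex t (G.touch Λ) (fun η =>
      if G.Imp (cap ω ∅) Λ v H ∧ (G.cut H ∩ ω).card = b ∧ Disjoint (G.cut H ∩ ω) η then
        ((((G.cut H \ (ω ∪ η)).powersetCard k).filter
          (fun S => G.Ind Λ H (ω ∩ η) S)).card : ℝ) else 0))) * (p / (1 - p)) ^ k ≤
      8 ^ (b + k) := by
  have h2 : 0 < 1 - p := by linarith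
  have hz0 : 0 ≤ p / (1 - p) := div_nonneg h0 h2.le
  obtain ⟨J, hJ⟩ : ∃ J : Finset V → Finset E → Finset E → ℝ, ∀ H ω η, J H ω η =
      if G.Imp (cap ω η) Λ v H ∧ G.D (cap ω η) H = b + k then 1 else 0 := ⟨_, fun _ _ _ => rfl⟩
  obtain ⟨g, hg⟩ : ∃ g : Finset V → Finset E → Finset E → Finset E → ℝ, ∀ H S ω η, g H S ω η =
      if (G.Imp (cap ω ∅) Λ v H ∧ (G.cut H ∩ ω).card = b ∧ Disjoint (G.cut H ∩ ω) η) ∧
        Disjoint S η ∧ G.Ind Λ H (ω ∩ η) S then 1 else 0 := ⟨_, fun _ _ _ _ => rfl⟩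
  have hJ0 : ∀ H ω η, 0 ≤ J H ω η := by
    intro H ω η
    rw [hJ]
    split_ifs
    · exact zero_le_one
    · exact le_rfl
  -- the count as a sum
  have sA : ∀ (H : Finset V) (ω η : Finset E),
      (if G.Imp (cap ω ∅) Λ v H ∧ (G.cut H ∩ ω).card = b ∧ Disjoint (G.cut H ∩ ω) η then
        ((((G.cut H \ (ω ∪ η)).powersetCard k).filter
          (fun S => G.Ind Λ H (ω ∩ η) S)).card : ℝ) else 0) =
      ∑ S ∈ (G.cut H).powersetCard k, if Disjoint S ω then g H S ω η else 0 := by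
    intro H ω η
    by_cases hP : G.Imp (cap ω ∅) Λ v H ∧ (G.cut H ∩ ω).card = b ∧ Disjoint (G.cut H ∩ ω) η
    · rw [if_pos hP]
      have e1 : ((G.cut H \ (ω ∪ η)).powersetCard k).filter (fun S => G.Ind Λ H (ω ∩ η) S) =
          ((G.cut H).powersetCard k).filter
            (fun S => Disjoint S ω ∧ Disjoint S η ∧ G.Ind Λ H (ω ∩ η) S) := by
        ext S
        simp only [Finset.mem_filter, Finset.mem_powersetCard]
        constructor
        · rintro ⟨⟨a1, a2⟩, a3⟩
          refine ⟨⟨a1.trans Finset.sdiff_subset, a2⟩, ?_, ?_, a3⟩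
          · refine Finset.disjoint_left.2 fun x hx hx2 => ?_
            exact (Finset.mem_sdiff.1 (a1 hx)).2 (Finset.mem_union_left _ hx2)
          · refine Finset.disjoint_left.2 fun x hx hx2 => ?_
            exact (Finset.mem_sdiff.1 (a1 hx)).2 (Finset.mem_union_right _ hx2)
        · rintro ⟨⟨a1, a2⟩, a3, a4, a5⟩
          refine ⟨⟨fun x hx => Finset.mem_sdiff.2 ⟨a1 hx, fun hx2 => ?_⟩, a2⟩, a5⟩
          rcases Finset.mem_union.1 hx2 with hx2 | hx2
          · exact Finset.disjoint_left.1 a3 hx hx2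
          · exact Finset.disjoint_left.1 a4 hx hx2
      rw [e1, Finset.card_filter]
      push_cast
      refine Finset.sum_congr rfl fun S _ => ?_
      rw [hg]
      by_cases b1 : Disjoint S ω
      · rw [if_pos b1]
        by_cases b2 : Disjoint S η ∧ G.Ind Λ H (ω ∩ η) S
        · rw [if_pos ⟨b1, b2⟩, if_pos ⟨hP, b2⟩]
        · rw [if_neg fun h => b2 h.2, if_neg fun h => b2 h.2]
      · rw [if_neg b1, if_neg fun h => b1 h.1]
    · rw [if_neg hP]
      symm
      refine Finset.sum_eq_zero fun S _ => ?_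
      rw [hg]
      by_cases b1 : Disjoint S ω
      · rw [if_pos b1, if_neg fun h => hP h.1]
      · rw [if_neg b1]
  -- change of variables
  have sB : ∀ H ∈ Λ.powerset, (ex p (G.touch Λ) (fun ω => ex t (G.touch Λ) (fun η =>
      if G.Imp (cap ω ∅) Λ v H ∧ (G.cut H ∩ ω).card = b ∧ Disjoint (G.cut H ∩ ω) η then
        ((((G.cut H \ (ω ∪ η)).powersetCard k).filter
          (fun S => G.Ind Λ H (ω ∩ η) S)).card : ℝ) else 0))) * (p / (1 - p)) ^ k =
      ∑ S ∈ (G.cut H).powersetCard k, ex p (G.touch Λ) (fun ω => if S ⊆ ω then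
        ex t (G.touch Λ) (fun η => g H S (ω \ S) η) else 0) := by
    intro H hH
    have hHΛ := Finset.mem_powerset.1 hH
    have e1 : ex p (G.touch Λ) (fun ω => ex t (G.touch Λ) (fun η =>
      if G.Imp (cap ω ∅) Λ v H ∧ (G.cut H ∩ ω).card = b ∧ Disjoint (G.cut H ∩ ω) η then
        ((((G.cut H \ (ω ∪ η)).powersetCard k).filter
          (fun S => G.Ind Λ H (ω ∩ η) S)).card : ℝ) else 0)) =
        ex p (G.touch Λ) (fun ω => ∑ S ∈ (G.cut H).powersetCard k,
          if Disjoint S ω then ex t (G.touch Λ) (fun η => g H S ω η) else 0) := by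
      refine ex_congr fun ω _ => ?_
      rw [ex_congr fun η _ => sA H ω η, ex_sum]
      refine Finset.sum_congr rfl fun S _ => ?_
      by_cases b1 : Disjoint S ω
      · simp only [if_pos b1]
      · simp only [if_neg b1]
        exact ex_const _ _ _
    rw [e1, ex_sum, Finset.sum_mul]
    refine Finset.sum_congr rfl fun S hS => ?_
    rw [Finset.mem_powersetCard] at hS
    have hSF : S ⊆ G.touch Λ := hS.1.trans ((G.cut_subset_touch H).trans (G.touch_mono hHΛ))
    rw [mul_comm, ← hS.2]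
    exact change_var h1 hSF (fun ω => ex t (G.touch Λ) (fun η => g H S ω η))
  -- the comparison
  have sC : ∀ H ∈ Λ.powerset, ∀ S ∈ (G.cut H).powersetCard k,
      ex p (G.touch Λ) (fun ω => if S ⊆ ω then
        ex t (G.touch Λ) (fun η => g H S (ω \ S) η) else 0) ≤
      ex p (G.touch Λ) (fun ω => ex t (G.touch Λ) (fun η => if S ⊆ ω then J H ω η else 0)) := by
    intro H _ S hS
    rw [Finset.mem_powersetCard] at hS
    refine ex_mono h0 h1.le fun ω _ => ?_
    by_cases b1 : S ⊆ ω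
    · simp only [if_pos b1]
      refine ex_mono ht0 ht1 fun η _ => ?_
      rw [hg]
      by_cases b2 : (G.Imp (cap (ω \ S) ∅) Λ v H ∧ (G.cut H ∩ (ω \ S)).card = b ∧
        Disjoint (G.cut H ∩ (ω \ S)) η) ∧ Disjoint S η ∧ G.Ind Λ H ((ω \ S) ∩ η) S
      · rw [if_pos b2]
        obtain ⟨⟨c1, c2, c3⟩, c4, c5⟩ := b2
        have d1 : S ⊆ G.cut H \ (ω \ S) := fun x hx => Finset.mem_sdiff.2
          ⟨hS.1 hx, fun h => (Finset.mem_sdiff.1 h).2 hx⟩
        have d2 := G.imp_extend c1 c3 d1 c4 c5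
        have d3 := G.D_cap_cut c3 d1 c4
        rw [Finset.sdiff_union_of_subset b1] at d2 d3
        rw [c2, hS.2] at d3
        rw [hJ, if_pos ⟨d2, d3⟩]
      · rw [if_neg b2]
        exact hJ0 _ _ _
    · simp only [if_neg b1]
      exact (ex_const t (G.touch Λ) 0).ge
  -- the pointwise bound
  have sD : ∀ ω η : Finset E, ∑ H ∈ Λ.powerset, ∑ S ∈ (G.cut H).powersetCard k,
      (if S ⊆ ω then J H ω η else 0) ≤ 8 ^ (b + k) := by
    intro ω η
    have f1 : ∀ H ∈ Λ.powerset, ∑ S ∈ (G.cut H).powersetCard k,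
        (if S ⊆ ω then J H ω η else 0) ≤ J H ω η * 2 ^ (b + k) := by
      intro H _
      rw [← Finset.sum_filter, Finset.sum_const, nsmul_eq_mul, mul_comm]
      by_cases b1 : G.Imp (cap ω η) Λ v H ∧ G.D (cap ω η) H = b + k
      · refine mul_le_mul_of_nonneg_left ?_ (hJ0 _ _ _)
        have c1 : ((G.cut H).powersetCard k).filter (fun S => S ⊆ ω) ⊆ (G.cut H ∩ ω).powerset := by
          intro S hS
          rw [Finset.mem_filter, Finset.mem_powersetCard] at hS
          exact Finset.mem_powerset.2 (Finset.subset_inter hS.1.1 hS.2)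
        have c2 := Finset.card_le_card c1
        rw [Finset.card_powerset] at c2
        have c3 : (G.cut H ∩ ω).card ≤ b + k := by
          rw [← b1.2, Finset.card_eq_sum_ones]
          unfold D
          refine (Finset.sum_le_sum fun e he => ?_).trans
            (Finset.sum_le_sum_of_subset Finset.inter_subset_left)
          unfold cap
          rw [if_pos (Finset.mem_inter.1 he).2]
          omega
        have c4 : (((G.cut H).powersetCard k).filter (fun S => S ⊆ ω)).card ≤ 2 ^ (b + k) :=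
          c2.trans (Nat.pow_le_pow_right (by norm_num) c3)
        exact_mod_cast c4
      · rw [hJ, if_neg b1, zero_mul, zero_mul]
    refine (Finset.sum_le_sum f1).trans ?_
    rw [← Finset.sum_mul]
    have f2 : ∑ H ∈ Λ.powerset, J H ω η ≤ 4 ^ (b + k) := by
      have c1 := G.imp_card (cap ω η) Λ v (b + k)
      rw [Finset.card_filter] at c1
      push_cast at c1
      refine le_trans (le_of_eq ?_) c1
      exact Finset.sum_congr rfl fun H _ => hJ H ω η
    calc (∑ H ∈ Λ.powerset, J H ω η) * 2 ^ (b + k) ≤ 4 ^ (b + k) * 2 ^ (b + k) :=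
          mul_le_mul_of_nonneg_right f2 (by positivity)
      _ = 8 ^ (b + k) := by rw [← mul_pow]; norm_num
  rw [Finset.sum_mul, Finset.sum_congr rfl sB]
  refine (Finset.sum_le_sum fun H hH => Finset.sum_le_sum fun S hS => sC H hH S hS).trans ?_
  have e3 : ∑ H ∈ Λ.powerset, ∑ S ∈ (G.cut H).powersetCard k,
      ex p (G.touch Λ) (fun ω => ex t (G.touch Λ) (fun η => if S ⊆ ω then J H ω η else 0)) =
      ex p (G.touch Λ) (fun ω => ex t (G.touch Λ) (fun η =>
        ∑ H ∈ Λ.powerset, ∑ S ∈ (G.cut H).powersetCard k, if S ⊆ ω then J H ω η else 0)) := by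
    simp only [ex_sum]
  rw [e3]
  refine (ex_mono h0 h1.le fun ω _ => (ex_mono ht0 ht1 fun η _ => sD ω η).trans
    (ex_const t _ _).le).trans (ex_const p _ _).le

end Gr

end Pool.Agent.DLP
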