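import Pool.Agent.DLP.ExA

/-!
# DLP/Cut: elementary facts on cuts, submodularity

* membership lemmas: unfold; `e ∈ touch B ↔ a e ∈ B ∨ b e ∈ B` from `mem_inc`.
* `D_submod`: edge by edge: for an edge `e` of the (finite) set `touch (A ∪ B)`,
  `[e ∈ cut (A ∪ B)] + [e ∈ cut (A ∩ B)] ≤ [e ∈ cut A] + [e ∈ cut B]` (four memberships:
  `a e ∈ A`, `b e ∈ A`, `a e ∈ B`, `b e ∈ B`: 16 cases, `by_cases` + `simp`); all four cuts are
  subsets of `touch (A ∪ B)`; write every `D` as `∑ e ∈ touch (A ∪ B), if e ∈ cut _ then c e else 0`.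
* `d_submod`: `d H O W` is `D` of the capacity `[e ∈ O, a e ∉ H, b e ∉ H]`.
* `into_*`: cardinalities of filters.
-/

namespace Pool.Agent.DLP

open Finset

namespace Gr

variable {V E : Type} [DecidableEq V] [DecidableEq E] (G : Gr V E)

theorem mem_touch {B : Finset V} {e : E} : e ∈ G.touch B ↔ G.a e ∈ B ∨ G.b e ∈ B := by
  unfold touch
  rw [Finset.mem_biUnion]
  constructor
  · rintro ⟨v, hv, he⟩
    rcases (G.mem_inc v e).1 he with h | h
    · exact Or.inl (h ▸ hv)
    · exact Or.inr (h ▸ hv)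
  · rintro (h | h)
    · exact ⟨G.a e, h, (G.mem_inc _ e).2 (Or.inl rfl)⟩
    · exact ⟨G.b e, h, (G.mem_inc _ e).2 (Or.inr rfl)⟩

theorem mem_cut {B : Finset V} {e : E} :
    e ∈ G.cut B ↔ (G.a e ∈ B ∧ G.b e ∉ B) ∨ (G.a e ∉ B ∧ G.b e ∈ B) := by
  unfold cut
  rw [Finset.mem_filter, mem_touch]
  tauto

theorem mem_inn {B : Finset V} {e : E} : e ∈ G.inn B ↔ G.a e ∈ B ∧ G.b e ∈ B := by
  unfold inn
  rw [Finset.mem_filter, mem_touch]
  tauto

theorem mem_off {Λ H : Finset V} {e : E} :
    e ∈ G.off Λ H ↔ (G.a e ∈ Λ ∨ G.b e ∈ Λ) ∧ G.a e ∉ H ∧ G.b e ∉ H := by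
  unfold off
  rw [Finset.mem_sdiff, mem_touch, mem_touch]
  tauto

theorem touch_mono {A B : Finset V} (h : A ⊆ B) : G.touch A ⊆ G.touch B := by
  intro e he
  rw [mem_touch] at he ⊢
  exact he.imp (fun x => h x) (fun x => h x)

theorem cut_subset_touch (B : Finset V) : G.cut B ⊆ G.touch B := by
  exact Finset.filter_subset _ _

theorem inn_mono {A B : Finset V} (h : A ⊆ B) : G.inn A ⊆ G.inn B := by
  intro e he
  rw [mem_inn] at he ⊢
  exact ⟨h he.1, h he.2⟩

theorem touch_eq (B : Finset V) : G.touch B = G.inn B ∪ G.cut B := by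
  ext e
  rw [Finset.mem_union, mem_touch, mem_inn, mem_cut]
  tauto

theorem disjoint_inn_cut (B : Finset V) : Disjoint (G.inn B) (G.cut B) := by
  rw [Finset.disjoint_left]
  intro e he hc
  rw [mem_inn] at he
  rw [mem_cut] at hc
  tauto

/-- For `H ⊆ Λ` the edges touching `Λ` are those inside `H`, the boundary edges of `H`, and those
off `H`. -/
theorem touch_split {H Λ : Finset V} (h : H ⊆ Λ) :
    G.touch Λ = (G.inn H ∪ G.cut H) ∪ G.off Λ H := by
  rw [← touch_eq]
  unfold off
  exact (Finset.union_sdiff_of_subset (G.touch_mono h)).symm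

theorem disjoint_touch_off (H Λ : Finset V) : Disjoint (G.inn H ∪ G.cut H) (G.off Λ H) := by
  rw [← touch_eq]
  exact Finset.disjoint_sdiff

theorem D_mono {c c' : E → ℕ} (h : ∀ e, c e ≤ c' e) (B : Finset V) : G.D c B ≤ G.D c' B := by
  exact Finset.sum_le_sum fun e _ => h e

theorem D_eq_ite (c : E → ℕ) {B : Finset V} {T : Finset E} (h : G.cut B ⊆ T) :
    G.D c B = ∑ e ∈ T, if e ∈ G.cut B then c e else 0 := by
  rw [Finset.sum_ite_mem, Finset.inter_eq_right.2 h]
  rfl

theorem D_submod (c : E → ℕ) (A B : Finset V) :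
    G.D c (A ∪ B) + G.D c (A ∩ B) ≤ G.D c A + G.D c B := by
  have hA : G.cut A ⊆ G.touch (A ∪ B) :=
    (G.cut_subset_touch A).trans (G.touch_mono Finset.subset_union_left)
  have hB : G.cut B ⊆ G.touch (A ∪ B) :=
    (G.cut_subset_touch B).trans (G.touch_mono Finset.subset_union_right)
  have hI : G.cut (A ∩ B) ⊆ G.touch (A ∪ B) :=
    (G.cut_subset_touch _).trans (G.touch_mono
      (Finset.inter_subset_left.trans Finset.subset_union_left))
  rw [G.D_eq_ite c hA, G.D_eq_ite c hB, G.D_eq_ite c hI,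
    G.D_eq_ite c (G.cut_subset_touch (A ∪ B)), ← Finset.sum_add_distrib,
    ← Finset.sum_add_distrib]
  refine Finset.sum_le_sum fun e _ => ?_
  simp only [mem_cut, Finset.mem_union, Finset.mem_inter]
  by_cases h1 : G.a e ∈ A <;> by_cases h2 : G.a e ∈ B <;> by_cases h3 : G.b e ∈ A <;>
    by_cases h4 : G.b e ∈ B <;> simp [h1, h2, h3, h4]

theorem D_eq_zero {c : E → ℕ} {B : Finset V} : G.D c B = 0 ↔ ∀ e ∈ G.cut B, c e = 0 := by
  unfold D
  exact Finset.sum_eq_zero_iff

/-- Capacity of the boundary of `H ∪ W`, for disjoint `H` and `W`: the boundary edges of `H` which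
do not enter `W`, and the edges off `H` which leave `W`. -/
theorem D_union {c : E → ℕ} {H W : Finset V} (h : Disjoint H W) :
    G.D c (H ∪ W) = ∑ e ∈ (G.cut H).filter (fun e => G.a e ∉ W ∧ G.b e ∉ W), c e +
      ∑ e ∈ (G.cut W).filter (fun e => G.a e ∉ H ∧ G.b e ∉ H), c e := by
  have hd : ∀ x, x ∈ H → x ∉ W := fun x hx hw => Finset.disjoint_left.1 h hx hw
  rw [← Finset.sum_union]
  · unfold D
    refine Finset.sum_congr ?_ fun _ _ => rfl
    ext e
    have ha := hd (G.a e)
    have hb := hd (G.b e)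
    simp only [mem_cut, Finset.mem_union, Finset.mem_filter]
    tauto
  · rw [Finset.disjoint_left]
    intro e he hf
    have ha := hd (G.a e)
    have hb := hd (G.b e)
    simp only [mem_cut, Finset.mem_filter] at he hf
    tauto

theorem d_empty (H : Finset V) (O : Finset E) : G.d H O ∅ = 0 := by
  simp [d, cut, touch]

theorem d_mono {H : Finset V} {O O' : Finset E} (h : O ⊆ O') (W : Finset V) :
    G.d H O W ≤ G.d H O' W := by
  unfold d
  exact Finset.card_le_card (Finset.filter_subset_filter _ (Finset.inter_subset_inter_left h))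

theorem d_eq_D (H : Finset V) (O : Finset E) (W : Finset V) :
    G.d H O W = G.D (fun e => if e ∈ O ∧ G.a e ∉ H ∧ G.b e ∉ H then 1 else 0) W := by
  unfold d D
  rw [Finset.card_filter, Finset.sum_boole, Finset.sum_boole]
  simp only [Nat.cast_id]
  congr 1
  ext e
  simp only [Finset.mem_filter, Finset.mem_inter]
  tauto

theorem d_submod (H : Finset V) (O : Finset E) (A B : Finset V) :
    G.d H O (A ∪ B) + G.d H O (A ∩ B) ≤ G.d H O A + G.d H O B := by
  simp only [d_eq_D]
  exact G.D_submod _ A B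

theorem into_mono {W : Finset V} {S S' : Finset E} (h : S ⊆ S') : G.into W S ⊆ G.into W S' := by
  exact Finset.filter_subset_filter _ h

/-- A boundary edge of `H` has exactly one end point off `H`, hence the entering numbers are
modular on subsets of the complement of `H`. -/
theorem into_modular {H A B : Finset V} {S : Finset E} (hS : S ⊆ G.cut H) (hA : Disjoint H A)
    (hB : Disjoint H B) : (G.into (A ∪ B) S).card + (G.into (A ∩ B) S).card =
      (G.into A S).card + (G.into B S).card := by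
  have hdA : ∀ x, x ∈ H → x ∉ A := fun x hx hw => Finset.disjoint_left.1 hA hx hw
  have hdB : ∀ x, x ∈ H → x ∉ B := fun x hx hw => Finset.disjoint_left.1 hB hx hw
  have h1 : G.into (A ∪ B) S = G.into A S ∪ G.into B S := by
    ext e
    simp only [into, Finset.mem_filter, Finset.mem_union]
    tauto
  have h2 : G.into (A ∩ B) S = G.into A S ∩ G.into B S := by
    ext e
    simp only [into, Finset.mem_filter, Finset.mem_inter]
    constructor
    · tauto
    · rintro ⟨⟨he, h3⟩, -, h4⟩
      have h5 := (G.mem_cut).1 (hS he)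
      have hAa := hdA (G.a e)
      have hAb := hdA (G.b e)
      have hBa := hdB (G.a e)
      have hBb := hdB (G.b e)
      tauto
  rw [h1, h2]
  exact Finset.card_union_add_card_inter _ _

end Gr

end Pool.Agent.DLP
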