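import Pool.Agent.DLP.Defs

/-!
# DLP/DL: the Diestel–Leader graph `DL(q,q)`: definitions

COMPLETE FILE (no stubs).

Vertices: pairs `(n, f)`, `n : ℤ`, `f : ℤ →₀ ZMod q` (elements of the lamplighter group
`ℤ_q ≀ ℤ`); for every `x : ZMod q` the edge `((n, f), x)` joins `(n, f)` to
`(n + 1, f + x δ_n)`.

`lamps q a b`: the configurations supported in `[a, b)` (`q ^ (b - a)` elements if `a ≤ b`).
`blk q a b f`: the block: all `(m, g)` with `a ≤ m ≤ b` and `g = f` off `[a, b)`.
-/

namespace Pool.Agent.DLP

open Finset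

/-- Lamp configurations. -/
abbrev Lm (q : ℕ) : Type := ℤ →₀ ZMod q

/-- Vertices of `DL(q,q)`. -/
abbrev DV (q : ℕ) : Type := ℤ × (ℤ →₀ ZMod q)

/-- Edges of `DL(q,q)`. -/
abbrev DE (q : ℕ) : Type := (ℤ × (ℤ →₀ ZMod q)) × ZMod q

/-- The Diestel–Leader graph `DL(q,q)`: the Cayley graph of the lamplighter group `ℤ_q ≀ ℤ` for the
generators `change the lamp at the current position, then move one step up`. -/
noncomputable def DL (q : ℕ) [NeZero q] : Gr (DV q) (DE q) where
  a e := e.1
  b e := (e.1.1 + 1, e.1.2 + Finsupp.single e.1.1 e.2)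
  inc v := (Finset.univ.image fun x : ZMod q => (v, x)) ∪
    (Finset.univ.image fun x : ZMod q => ((v.1 - 1, v.2 - Finsupp.single (v.1 - 1) x), x))
  mem_inc := by
    rintro v ⟨e, x⟩
    simp only [mem_union, mem_image, mem_univ, true_and]
    constructor
    · rintro (⟨y, hy⟩ | ⟨y, hy⟩)
      · left
        exact (congrArg Prod.fst hy).symm
      · right
        have h1 : e = (v.1 - 1, v.2 - Finsupp.single (v.1 - 1) y) := (congrArg Prod.fst hy).symm
        have h2 : y = x := congrArg Prod.snd hy
        subst h1 h2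
        simp
    · rintro (h | h)
      · left
        exact ⟨x, by rw [← h]⟩
      · right
        refine ⟨x, ?_⟩
        subst h
        simp

/-- The lamp configurations supported in `[a, b)`. -/
noncomputable def lamps (q : ℕ) [NeZero q] (a b : ℤ) : Finset (Lm q) :=
  (Finset.Ico a b).finsupp (fun _ => Finset.univ)

/-- The block with levels `a, …, b` which contains `(a, f)`. -/
noncomputable def blk (q : ℕ) [NeZero q] (a b : ℤ) (f : Lm q) : Finset (DV q) :=
  Finset.Icc a b ×ˢ (lamps q a b).image (fun h => f + h)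

/-- The probability that `x` and `y` are connected inside the block. -/
noncomputable def cp (q : ℕ) [NeZero q] (p : ℝ) (a b : ℤ) (f : Lm q) (x y : DV q) : ℝ :=
  pr p ((DL q).inn (blk q a b f))
    (fun ω => (DL q).Reach (↑ω : Set (DE q)) (↑(blk q a b f) : Set (DV q)) x y)

/-- The expected number of top vertices of the block with levels `0, …, H` connected to the bottom
vertex `(0, 0)` inside the block. -/
noncomputable def Msum (q : ℕ) [NeZero q] (p : ℝ) (H : ℕ) : ℝ :=
  ∑ h ∈ lamps q 0 H, cp q p 0 H 0 (0, 0) ((H : ℤ), h)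

end Pool.Agent.DLP
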