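import Mathlib

/-!
# Percolation on Diestel–Leader graphs: definitions (MP_799d92_pr)

COMPLETE FILE, definitions only (no stubs here).

* `ex p F f`: expectation of `f ω`, where the random set `ω ⊆ F` contains every `i ∈ F` with
  probability `p`, independently;  `pr p F A`: probability of `A ω`.
* `Dep S f`: `f ω` depends only on which elements of `S` belong to `ω`.
* `Gr V E`: locally finite graph with edge set `E`; `cut`, `touch`, `inn`, `off`.
* `Reach G ω U x y`: open path from `x` to `y` inside the vertex set `U`.
* `Exit`, `Disc`, `acc`; capacities `D`, `cap`, important sets `Imp`; `Ind`, `rk`.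
-/

namespace Pool.Agent.DLP

open Finset

section Prob

variable {ι : Type} [DecidableEq ι]

/-- Expectation of `f ω`: the random set `ω ⊆ F` contains each `i ∈ F` with probability `p`,
independently. -/
noncomputable def ex (p : ℝ) (F : Finset ι) (f : Finset ι → ℝ) : ℝ :=
  ∑ ω ∈ F.powerset, p ^ ω.card * (1 - p) ^ (F \ ω).card * f ω

open Classical in
/-- Probability of the event `A`. -/
noncomputable def pr (p : ℝ) (F : Finset ι) (A : Finset ι → Prop) : ℝ :=
  ex p F (fun ω => if A ω then 1 else 0)

/-- `f ω` depends only on `ω ∩ S`. -/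
def Dep {β : Type*} (S : Set ι) (f : Finset ι → β) : Prop :=
  ∀ ω ω' : Finset ι, (∀ i ∈ S, (i ∈ ω ↔ i ∈ ω')) → f ω = f ω'

end Prob

/-- A locally finite graph with vertex set `V` and edge set `E`: the edge `e` joins `a e` and
`b e`; `inc v` is the finite set of the edges at `v`. -/
structure Gr (V E : Type) where
  a : E → V
  b : E → V
  inc : V → Finset E
  mem_inc : ∀ v e, e ∈ inc v ↔ a e = v ∨ b e = v

namespace Gr

variable {V E : Type} [DecidableEq V] [DecidableEq E] (G : Gr V E)

/-- The edges with at least one end point in `B`. -/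
def touch (B : Finset V) : Finset E := B.biUnion G.inc

/-- The edges with exactly one end point in `B`. -/
def cut (B : Finset V) : Finset E := (G.touch B).filter (fun e => ¬ (G.a e ∈ B ∧ G.b e ∈ B))

/-- The edges with both end points in `B`. -/
def inn (B : Finset V) : Finset E := (G.touch B).filter (fun e => G.a e ∈ B ∧ G.b e ∈ B)

/-- The edges which touch `Λ` and do not touch `H`. -/
def off (Λ H : Finset V) : Finset E := G.touch Λ \ G.touch H

/-- `x` and `y` are the two end points of an edge of `ω`. -/
def Step (ω : Set E) (x y : V) : Prop :=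
  ∃ e ∈ ω, (G.a e = x ∧ G.b e = y) ∨ (G.a e = y ∧ G.b e = x)

/-- `x` and `y` are joined by a path with edges in `ω` and vertices in `U`
(the trivial path from `x` to `x` is always allowed). -/
def Reach (ω : Set E) (U : Set V) (x y : V) : Prop :=
  Relation.ReflTransGen (fun x y => G.Step ω x y ∧ x ∈ U ∧ y ∈ U) x y

/-- `x` is joined to a vertex outside `Λ` by a path with edges in `ω` and vertices in `U`. -/
def Exit (Λ : Finset V) (ω : Set E) (U : Set V) (x : V) : Prop :=
  ∃ y, y ∉ Λ ∧ G.Reach ω U x y

/-- `H` is disconnected from the complement of `Λ`. -/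
def Disc (Λ H : Finset V) (ω : Finset E) : Prop :=
  ∃ B : Finset V, H ⊆ B ∧ B ⊆ Λ ∧ Disjoint (G.cut B) ω

/-- For `e ∈ cut H`: the probability that the end point of `e` outside `H` is joined to the
complement of `Λ` by an open path off `H`. -/
noncomputable def acc (p : ℝ) (Λ H : Finset V) (e : E) : ℝ :=
  pr p (G.off Λ H) (fun O => ∃ x, x ∉ H ∧ (G.a e = x ∨ G.b e = x) ∧
    G.Exit Λ (↑O : Set E) {y | y ∉ H} x)

/-- Total capacity of the boundary of `B`. -/
def D (c : E → ℕ) (B : Finset V) : ℕ := ∑ e ∈ G.cut B, c e

/-- The capacities of a pair of configurations: `0` off `ω`, `2` on `ω ∩ η` and `1` on `ω \ η`. -/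
def cap (ω η : Finset E) (e : E) : ℕ :=
  (if e ∈ ω then 1 else 0) + (if e ∈ ω ∩ η then 1 else 0)

/-- `H ∋ v` is connected by edges of positive capacity. -/
def Con (c : E → ℕ) (v : V) (H : Finset V) : Prop :=
  v ∈ H ∧ ∀ x ∈ H, G.Reach {e | 0 < c e} (↑H : Set V) v x

/-- Important sets: `H ∋ v` is connected by edges of positive capacity, and every larger set
`B ⊆ Λ` such that an edge of positive capacity joins `H` to `B \ H` has a boundary of strictly
larger capacity. -/
def Imp (c : E → ℕ) (Λ : Finset V) (v : V) (H : Finset V) : Prop :=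
  H ⊆ Λ ∧ G.Con c v H ∧ ∀ B : Finset V, H ⊆ B → B ⊆ Λ →
    (∃ e ∈ G.cut H, 0 < c e ∧ G.a e ∈ B ∧ G.b e ∈ B) → G.D c H < G.D c B

/-- The edges of `S` with an end point in `W`. -/
def into (W : Finset V) (S : Finset E) : Finset E := S.filter (fun e => G.a e ∈ W ∨ G.b e ∈ W)

/-- The number of edges of `O` which do not touch `H` and have exactly one end point in `W`. -/
def d (H : Finset V) (O : Finset E) (W : Finset V) : ℕ :=
  ((G.cut W ∩ O).filter (fun e => G.a e ∉ H ∧ G.b e ∉ H)).card

/-- `S` is a set of boundary edges of `H` such that for every `W ⊆ Λ \ H` at most as many edges of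
`S` enter `W` as edges of `O` off `H` leave `W`. -/
def Ind (Λ H : Finset V) (O S : Finset E) : Prop :=
  S ⊆ G.cut H ∧ ∀ W : Finset V, W ⊆ Λ \ H → (G.into W S).card ≤ G.d H O W

open Classical in
/-- The largest number of elements of a set `S` with `Ind Λ H O S`. -/
noncomputable def rk (Λ H : Finset V) (O : Finset E) : ℕ :=
  ((G.cut H).powerset.filter (fun S => G.Ind Λ H O S)).sup Finset.card

end Gr

end Pool.Agent.DLP
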