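import Pool.Agent.DLP.MainB

/-!
Anchored isoperimetry of the infinite clusters of supercritical Bernoulli bond percolation on the
Diestel–Leader graphs `DL(q,q)`, the Cayley graphs of the lamplighter groups `ℤ_q ≀ ℤ` (amenable
groups of exponential growth): question Q1 for all these graphs and all `p > p_c`.
-/

namespace Pool.Agent.DLP.DiestelLeader

open Pool.Agent.DLP MeasureTheory Filter

/-- `q ≥ 2`, `G = DL(q,q)`. The critical probability is at most `1/q`. For every `p ∈ (p_c, 1]` and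
every vertex `v`:
(i) for every `c > 0` there is a constant `δ > 0` such that almost surely on `|K_v| = ∞` one has
`I_n(c) ≥ δ` for all large `n`;
(ii) the probability that some finite connected subgraph `H ∋ v` of `K_v` has `|E(H)| ≥ n` and
`|∂_ω H| ≤ a ψ(G, n)` is at most `C exp(-a ψ(G, n))`. -/
theorem result (q : ℕ) [NeZero q] (hq : 2 ≤ q) :
    pc q ≤ 1 / q ∧ ∀ p : unitInterval, pc q < p → ∀ v : DV q,
      (∀ c : ℝ, 0 < c → ∃ δ : ℝ, 0 < δ ∧ ∀ᵐ ω ∂(perc (DE q) p),
        ((DL q).cluster ω v).Infinite → ∀ᶠ n : ℕ in atTop, δ ≤ (DL q).In ω v c n) ∧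
      ∃ a : ℝ, 0 < a ∧ ∃ C : ℝ, 0 < C ∧ ∀ n : ℕ,
        perc (DE q) p {ω | ∃ (U : Finset (DV q)) (A : Finset (DE q)), (DL q).IsSub ω v U A ∧
            n ≤ A.card ∧ (((DL q).bdry ω U A).card : ℝ) ≤ a * (DL q).psi n} ≤
          ENNReal.ofReal (C * Real.exp (-(a * (DL q).psi n))) :=
  ⟨pc_le q hq, fun _ hp v => ⟨fun _ hc => final_ae q hq hp v hc, final_tail q hq hp v⟩⟩

end Pool.Agent.DLP.DiestelLeader
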