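import Pool.Agent.DLP.Defs

/-!
# DLP/ExA: basic properties of the expectation `ex`

Everything is elementary; the proofs are inductions over the finite set `F`, or manipulations of
finite sums. Model for most of the proofs: `Pool/Agent/H95/Perc/Prob.lean` (the case `p = 1/2`).

Proof of `ex_insert`: `powerset_insert`, split the sum; for `ω ⊆ F` (with `i ∉ F`):
`(insert i F) \ ω = insert i (F \ ω)` and `(insert i F) \ (insert i ω) = F \ ω`.
All other statements by `Finset.induction_on F` with `ex_insert`, or directly.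
-/

namespace Pool.Agent.DLP

open Finset

variable {ι : Type} [DecidableEq ι]

theorem ex_empty (p : ℝ) (f : Finset ι → ℝ) : ex p ∅ f = f ∅ := by
  simp [ex]

theorem ex_insert (p : ℝ) {i : ι} {F : Finset ι} (hi : i ∉ F) (f : Finset ι → ℝ) :
    ex p (insert i F) f = p * ex p F (fun ω => f (insert i ω)) + (1 - p) * ex p F f := by
  unfold ex
  rw [Finset.sum_powerset_insert hi, Finset.mul_sum, Finset.mul_sum, add_comm]
  congr 1
  · refine Finset.sum_congr rfl fun ω hω => ?_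
    rw [Finset.mem_powerset] at hω
    have h1 : i ∉ ω := fun h => hi (hω h)
    have h2 : insert i F \ insert i ω = F \ ω := by
      rw [Finset.insert_sdiff_insert]
      refine Finset.sdiff_insert_of_notMem hi ω
    rw [h2, Finset.card_insert_of_notMem h1, pow_succ]
    ring
  · refine Finset.sum_congr rfl fun ω hω => ?_
    rw [Finset.mem_powerset] at hω
    have h1 : i ∉ ω := fun h => hi (hω h)
    have h2 : insert i F \ ω = insert i (F \ ω) := Finset.insert_sdiff_of_notMem F h1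
    have h3 : i ∉ F \ ω := fun h => hi (Finset.mem_sdiff.1 h).1
    rw [h2, Finset.card_insert_of_notMem h3, pow_succ]
    ring

theorem ex_congr {p : ℝ} {F : Finset ι} {f g : Finset ι → ℝ} (h : ∀ ω, ω ⊆ F → f ω = g ω) :
    ex p F f = ex p F g := by
  unfold ex
  refine Finset.sum_congr rfl fun ω hω => ?_
  rw [h ω (Finset.mem_powerset.1 hω)]

theorem ex_const (p : ℝ) (F : Finset ι) (c : ℝ) : ex p F (fun _ => c) = c := by
  induction F using Finset.induction_on with
  | empty => rw [ex_empty]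
  | insert i F hi ih => rw [ex_insert p hi, ih]; ring

theorem ex_add (p : ℝ) (F : Finset ι) (f g : Finset ι → ℝ) :
    ex p F (fun ω => f ω + g ω) = ex p F f + ex p F g := by
  unfold ex
  rw [← Finset.sum_add_distrib]
  exact Finset.sum_congr rfl fun ω _ => by ring

theorem ex_sub (p : ℝ) (F : Finset ι) (f g : Finset ι → ℝ) :
    ex p F (fun ω => f ω - g ω) = ex p F f - ex p F g := by
  unfold ex
  rw [← Finset.sum_sub_distrib]
  exact Finset.sum_congr rfl fun ω _ => by ring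

theorem ex_mul_left (p : ℝ) (F : Finset ι) (c : ℝ) (f : Finset ι → ℝ) :
    ex p F (fun ω => c * f ω) = c * ex p F f := by
  unfold ex
  rw [Finset.mul_sum]
  exact Finset.sum_congr rfl fun ω _ => by ring

theorem ex_mul_right (p : ℝ) (F : Finset ι) (c : ℝ) (f : Finset ι → ℝ) :
    ex p F (fun ω => f ω * c) = ex p F f * c := by
  unfold ex
  rw [Finset.sum_mul]
  exact Finset.sum_congr rfl fun ω _ => by ring

theorem ex_sum (p : ℝ) (F : Finset ι) {κ : Type*} (s : Finset κ) (f : κ → Finset ι → ℝ) :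
    ex p F (fun ω => ∑ x ∈ s, f x ω) = ∑ x ∈ s, ex p F (f x) := by
  unfold ex
  rw [Finset.sum_comm]
  exact Finset.sum_congr rfl fun ω _ => by rw [Finset.mul_sum]

theorem ex_mono {p : ℝ} (h0 : 0 ≤ p) (h1 : p ≤ 1) {F : Finset ι} {f g : Finset ι → ℝ}
    (h : ∀ ω, ω ⊆ F → f ω ≤ g ω) : ex p F f ≤ ex p F g := by
  unfold ex
  refine Finset.sum_le_sum fun ω hω => ?_
  have h2 : 0 ≤ 1 - p := by linarith
  exact mul_le_mul_of_nonneg_left (h ω (Finset.mem_powerset.1 hω)) (by positivity)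

theorem ex_nonneg {p : ℝ} (h0 : 0 ≤ p) (h1 : p ≤ 1) {F : Finset ι} {f : Finset ι → ℝ}
    (h : ∀ ω, ω ⊆ F → 0 ≤ f ω) : 0 ≤ ex p F f := by
  have h2 := ex_mono h0 h1 (F := F) (f := fun _ => 0) (g := f) h
  rwa [ex_const] at h2

/-- `E f² · P(f > 0) ≥ (E f)²` for `f ≥ 0` (Cauchy–Schwarz for the weights). -/
theorem ex_sq_le {p : ℝ} (h0 : 0 ≤ p) (h1 : p ≤ 1) {F : Finset ι} {f : Finset ι → ℝ}
    (h : ∀ ω, ω ⊆ F → 0 ≤ f ω) :
    (ex p F f) ^ 2 ≤ ex p F (fun ω => f ω ^ 2) * pr p F (fun ω => 0 < f ω) := by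
  classical
  have h2 : 0 ≤ 1 - p := by linarith
  set w : Finset ι → ℝ := fun ω => p ^ ω.card * (1 - p) ^ (F \ ω).card with hw
  have hw0 : ∀ ω, 0 ≤ w ω := fun ω => by rw [hw]; positivity
  have e1 : ex p F f = ∑ ω ∈ F.powerset,
      (Real.sqrt (w ω) * f ω) * (Real.sqrt (w ω) * (if 0 < f ω then 1 else 0)) := by
    unfold ex
    refine Finset.sum_congr rfl fun ω hω => ?_
    have h3 := Real.mul_self_sqrt (hw0 ω)
    have h4 := h ω (Finset.mem_powerset.1 hω)
    by_cases h5 : 0 < f ω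
    · rw [if_pos h5, mul_one]
      show w ω * f ω = _
      nth_rewrite 1 [← h3]
      ring
    · have h6 : f ω = 0 := le_antisymm (not_lt.1 h5) h4
      rw [h6]
      ring
  have e2 : ex p F (fun ω => f ω ^ 2) = ∑ ω ∈ F.powerset, (Real.sqrt (w ω) * f ω) ^ 2 := by
    unfold ex
    refine Finset.sum_congr rfl fun ω _ => ?_
    rw [mul_pow, Real.sq_sqrt (hw0 ω)]
  have e3 : pr p F (fun ω => 0 < f ω) =
      ∑ ω ∈ F.powerset, (Real.sqrt (w ω) * (if 0 < f ω then 1 else 0)) ^ 2 := by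
    unfold pr ex
    refine Finset.sum_congr rfl fun ω _ => ?_
    rw [mul_pow, Real.sq_sqrt (hw0 ω)]
    by_cases h5 : 0 < f ω
    · simp [h5, hw]
    · simp [h5]
  rw [e1, e2, e3]
  exact Finset.sum_mul_sq_le_sq_mul_sq _ _ _

/-- Jensen: `κ ^ (E N) ≤ E κ ^ N`. -/
theorem ex_jensen {p : ℝ} (h0 : 0 ≤ p) (h1 : p ≤ 1) {κ : ℝ} (hκ : 0 < κ) {F : Finset ι}
    (N : Finset ι → ℝ) : κ ^ (ex p F N) ≤ ex p F (fun ω => κ ^ N ω) := by
  set m := ex p F N with hm
  have h2 : ∀ ω, ω ⊆ F → κ ^ m * (1 - m * Real.log κ) + (κ ^ m * Real.log κ) * N ω ≤ κ ^ N ω := by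
    intro ω _
    have h3 : κ ^ N ω = κ ^ m * Real.exp (Real.log κ * (N ω - m)) := by
      rw [Real.rpow_def_of_pos hκ, Real.rpow_def_of_pos hκ, ← Real.exp_add]
      congr 1
      ring
    have h4 := Real.add_one_le_exp (Real.log κ * (N ω - m))
    have h5 : 0 < κ ^ m := Real.rpow_pos_of_pos hκ _
    rw [h3]
    calc κ ^ m * (1 - m * Real.log κ) + (κ ^ m * Real.log κ) * N ω
        = κ ^ m * (Real.log κ * (N ω - m) + 1) := by ring
      _ ≤ κ ^ m * Real.exp (Real.log κ * (N ω - m)) := mul_le_mul_of_nonneg_left h4 h5.le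
  have h3 := ex_mono h0 h1 h2
  rw [ex_add, ex_const, ex_mul_left, ← hm] at h3
  refine le_trans (le_of_eq ?_) h3
  ring

theorem pr_congr {p : ℝ} {F : Finset ι} {A B : Finset ι → Prop} (h : ∀ ω, ω ⊆ F → (A ω ↔ B ω)) :
    pr p F A = pr p F B := by
  classical
  unfold pr
  refine ex_congr fun ω hω => ?_
  by_cases h1 : A ω
  · rw [if_pos h1, if_pos ((h ω hω).1 h1)]
  · rw [if_neg h1, if_neg fun h2 => h1 ((h ω hω).2 h2)]

theorem pr_mono {p : ℝ} (h0 : 0 ≤ p) (h1 : p ≤ 1) {F : Finset ι} {A B : Finset ι → Prop}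
    (h : ∀ ω, ω ⊆ F → A ω → B ω) : pr p F A ≤ pr p F B := by
  classical
  unfold pr
  refine ex_mono h0 h1 fun ω hω => ?_
  by_cases h2 : A ω
  · rw [if_pos h2, if_pos (h ω hω h2)]
  · rw [if_neg h2]
    split_ifs
    · exact zero_le_one
    · exact le_rfl

theorem pr_nonneg {p : ℝ} (h0 : 0 ≤ p) (h1 : p ≤ 1) (F : Finset ι) (A : Finset ι → Prop) :
    0 ≤ pr p F A := by
  classical
  unfold pr
  refine ex_nonneg h0 h1 fun ω _ => ?_
  split_ifs
  · exact zero_le_one
  · exact le_rfl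

theorem pr_le_one {p : ℝ} (h0 : 0 ≤ p) (h1 : p ≤ 1) (F : Finset ι) (A : Finset ι → Prop) :
    pr p F A ≤ 1 := by
  classical
  rw [← ex_const p F 1]
  unfold pr
  refine ex_mono h0 h1 fun ω _ => ?_
  split_ifs
  · exact le_rfl
  · exact zero_le_one

theorem pr_true (p : ℝ) (F : Finset ι) : pr p F (fun _ => True) = 1 := by
  classical
  unfold pr
  simp only [if_true]
  exact ex_const p F 1

theorem pr_not (p : ℝ) (F : Finset ι) (A : Finset ι → Prop) :
    pr p F (fun ω => ¬ A ω) = 1 - pr p F A := by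
  classical
  rw [← pr_true p F]
  unfold pr
  rw [← ex_sub]
  refine ex_congr fun ω _ => ?_
  by_cases h2 : A ω
  · simp [h2]
  · simp [h2]

theorem pr_or_le {p : ℝ} (h0 : 0 ≤ p) (h1 : p ≤ 1) (F : Finset ι) (A B : Finset ι → Prop) :
    pr p F (fun ω => A ω ∨ B ω) ≤ pr p F A + pr p F B := by
  classical
  unfold pr
  rw [← ex_add]
  refine ex_mono h0 h1 fun ω _ => ?_
  by_cases h2 : A ω
  · by_cases h3 : B ω
    · simp [h2, h3]
    · simp [h2, h3]
  · by_cases h3 : B ω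
    · simp [h2, h3]
    · simp [h2, h3]

/-- Union bound. -/
theorem pr_exists_le {p : ℝ} (h0 : 0 ≤ p) (h1 : p ≤ 1) (F : Finset ι) {κ : Type*} (s : Finset κ)
    (A : κ → Finset ι → Prop) :
    pr p F (fun ω => ∃ x ∈ s, A x ω) ≤ ∑ x ∈ s, pr p F (A x) := by
  classical
  unfold pr
  rw [← ex_sum]
  refine ex_mono h0 h1 fun ω _ => ?_
  by_cases h2 : ∃ x ∈ s, A x ω
  · rw [if_pos h2]
    obtain ⟨x, hx, hA⟩ := h2
    have h3 : (if A x ω then (1 : ℝ) else 0) ≤ ∑ x ∈ s, if A x ω then (1 : ℝ) else 0 := by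
      refine Finset.single_le_sum (f := fun x => if A x ω then (1 : ℝ) else 0) (fun y _ => ?_) hx
      split_ifs
      · exact zero_le_one
      · exact le_rfl
    rwa [if_pos hA] at h3
  · rw [if_neg h2]
    refine Finset.sum_nonneg fun y _ => ?_
    split_ifs
    · exact zero_le_one
    · exact le_rfl

/-- Disjoint events: the sum of the probabilities is at most `1`. -/
theorem sum_pr_le_one {p : ℝ} (h0 : 0 ≤ p) (h1 : p ≤ 1) (F : Finset ι) {κ : Type*}
    (s : Finset κ) (A : κ → Finset ι → Prop)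
    (h : ∀ ω, ω ⊆ F → ∀ x ∈ s, ∀ y ∈ s, A x ω → A y ω → x = y) :
    ∑ x ∈ s, pr p F (A x) ≤ 1 := by
  classical
  have h2 : ∑ x ∈ s, pr p F (A x) = ex p F (fun ω => ∑ x ∈ s, if A x ω then (1 : ℝ) else 0) := by
    unfold pr
    rw [← ex_sum]
  have h4 := ex_const p F 1
  rw [h2]
  refine le_trans (ex_mono h0 h1 fun ω hω => ?_) h4.le
  rw [← Finset.sum_filter, Finset.sum_const, nsmul_eq_mul, mul_one]
  have h3 : (s.filter fun x => A x ω).card ≤ 1 := by
    rw [Finset.card_le_one]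
    intro x hx y hy
    rw [Finset.mem_filter] at hx hy
    exact h ω hω x hx.1 y hy.1 hx.2 hy.2
  exact_mod_cast h3

end Pool.Agent.DLP
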