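import Pool.Agent.DLP.LineA

/-!
# DLP/FlowA: the transition probabilities of the random line

`lam k x y` = probability that the random line of blocks (transition `z → mv z h` with probability
`tau z h / M`) goes from `x` to `y` in `k` steps.

* `lam_level`: if `lam k x y ≠ 0` then `y.1 = x.1 + k H` and `y.2 - x.2 ∈ lamps x.1 (x.1 + k H)`
  (induction on `k`).
* `lam_le`: induction: in `∑_h tau x h / M * lam k (mv x h) y` at most one `h` gives a nonzero
  term: `y.2 - x.2 - h ∈ lamps (x.1 + H) (x.1 + (k+1) H)` determines `h` on `[x.1, x.1 + H)`; and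
  `tau ≤ 1`.
* `lam_succ'`: decomposition at the last step; induction on `k` generalizing `x`:
  `lam (k+1) x y = ∑_{h ∈ lamps (y.1-H) y.1} lam k x (y.1 - H, y.2 - h) * (tau (y.1-H, y.2-h) h / M)`.
  For `k = 0`: both sides are `tau x h₀ / M` if `y = mv x h₀` (with `h₀ = y.2 - x.2` in
  `lamps x.1 (x.1+H)`) and `0` otherwise.
* `lam_sum`: induction on `k` with `lam_succ'`: `∑_{x ∈ X} lam (k+1) x y ≤
  ∑_h (tau (y.1-H, y.2-h) h / M) * 1 = 1` by `sum_cp_down` (the block of `(y.1-H, y.2-h)` is
  `blk (y.1-H) y.1 (y.2 - h) = blk (y.1-H) y.1 y.2`, `blk_eq`).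
-/

namespace Pool.Agent.DLP

open Finset

variable {q : ℕ} [NeZero q]

open Classical in
/-- Transition probabilities in `k` steps. -/
noncomputable def lam (q : ℕ) [NeZero q] (p : ℝ) (H : ℕ) : ℕ → DV q → DV q → ℝ
  | 0, x, y => if x = y then 1 else 0
  | k + 1, x, y => ∑ h ∈ lamps q x.1 (x.1 + H), tau q p H x h / Msum q p H *
      lam q p H k (mv q H x h) y

open Classical in
private theorem lam_zero (p : ℝ) (H : ℕ) (x y : DV q) :
    lam q p H 0 x y = if x = y then 1 else 0 := rfl

private theorem lam_succ (p : ℝ) (H : ℕ) (k : ℕ) (x y : DV q) :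
    lam q p H (k + 1) x y = ∑ h ∈ lamps q x.1 (x.1 + H), tau q p H x h / Msum q p H *
      lam q p H k (mv q H x h) y := rfl

theorem lam_nonneg {p : ℝ} (h0 : 0 ≤ p) (h1 : p ≤ 1) {H : ℕ} (hM : 0 < Msum q p H) (k : ℕ)
    (x y : DV q) : 0 ≤ lam q p H k x y := by
  classical
  induction k generalizing x with
  | zero =>
    rw [lam_zero]
    split_ifs <;> norm_num
  | succ k ih =>
    rw [lam_succ]
    exact sum_nonneg fun h _ => mul_nonneg (div_nonneg (tau_nonneg h0 h1 H x h) hM.le) (ih _)

theorem lam_level {p : ℝ} {H k : ℕ} {x y : DV q} (h : lam q p H k x y ≠ 0) :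
    y.1 = x.1 + k * H ∧ y.2 - x.2 ∈ lamps q x.1 (x.1 + k * H) := by
  classical
  induction k generalizing x with
  | zero =>
    rw [lam_zero] at h
    by_cases hxy : x = y
    · subst hxy
      refine ⟨by simp, ?_⟩
      rw [sub_self]
      exact zero_mem_lamps _ _
    · rw [if_neg hxy] at h
      exact absurd rfl h
  | succ k ih =>
    rw [lam_succ] at h
    obtain ⟨g, hg, hne⟩ := exists_ne_zero_of_sum_ne_zero h
    obtain ⟨e1, e2⟩ := ih (right_ne_zero_of_mul hne)
    have hz1 : (mv q H x g).1 = x.1 + H := rfl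
    have hz2 : (mv q H x g).2 = x.2 + g := rfl
    rw [hz1] at e1 e2
    rw [hz2] at e2
    have hH : (0 : ℤ) ≤ H := by positivity
    have hK : (0 : ℤ) ≤ (k : ℤ) * H := by positivity
    refine ⟨?_, ?_⟩
    · rw [e1]
      push_cast
      ring
    · have e3 : y.2 - x.2 = (y.2 - (x.2 + g)) + g := by abel
      rw [e3]
      refine add_mem_lamps (lamps_mono ?_ ?_ e2) (lamps_mono le_rfl ?_ hg)
      · linarith
      · push_cast
        linarith
      · push_cast
        linarith

theorem lam_le {p : ℝ} (h0 : 0 ≤ p) (h1 : p ≤ 1) {H : ℕ} (hM : 0 < Msum q p H) (k : ℕ)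
    (x y : DV q) : lam q p H k x y ≤ (Msum q p H)⁻¹ ^ k := by
  classical
  induction k generalizing x with
  | zero =>
    rw [lam_zero, pow_zero]
    split_ifs <;> norm_num
  | succ k ih =>
    rw [lam_succ]
    have hMi : 0 ≤ (Msum q p H)⁻¹ := inv_nonneg.2 hM.le
    by_cases hall : ∀ h ∈ lamps q x.1 (x.1 + H), lam q p H k (mv q H x h) y = 0
    · rw [sum_eq_zero fun h hh => by rw [hall h hh, mul_zero]]
      exact pow_nonneg hMi _
    · push Not at hall
      obtain ⟨g, hg, hne⟩ := hall
      have huniq : ∀ g' ∈ lamps q x.1 (x.1 + H), g' ≠ g →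
          tau q p H x g' / Msum q p H * lam q p H k (mv q H x g') y = 0 := by
        intro g' hg' hgg
        by_contra hcon
        have hne' := right_ne_zero_of_mul hcon
        apply hgg
        have e1 := mem_lamps.1 (lam_level hne).2
        have e2 := mem_lamps.1 (lam_level hne').2
        ext i
        by_cases hi : i < x.1 ∨ x.1 + H ≤ i
        · rw [mem_lamps.1 hg i hi, mem_lamps.1 hg' i hi]
        · push Not at hi
          have hz2 : (mv q H x g).2 = x.2 + g := rfl
          have hz2' : (mv q H x g').2 = x.2 + g' := rfl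
          have f1 := e1 i (Or.inl hi.2)
          have f2 := e2 i (Or.inl hi.2)
          rw [hz2] at f1
          rw [hz2'] at f2
          simp only [Finsupp.coe_sub, Finsupp.coe_add, Pi.sub_apply, Pi.add_apply] at f1 f2
          rw [sub_eq_zero] at f1 f2
          have f3 : x.2 i + g' i = x.2 i + g i := by rw [← f1, ← f2]
          exact add_left_cancel f3
      rw [sum_eq_single g huniq (fun h => absurd hg h)]
      have e3 : tau q p H x g / Msum q p H ≤ (Msum q p H)⁻¹ := by
        rw [div_eq_mul_inv]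
        exact mul_le_of_le_one_left hMi (tau_le_one h0 h1 H x g)
      rw [pow_succ, mul_comm ((Msum q p H)⁻¹ ^ k)]
      exact mul_le_mul e3 (ih _) (lam_nonneg h0 h1 hM k _ _) hMi

theorem lam_succ' (p : ℝ) (H : ℕ) (k : ℕ) (x y : DV q) :
    lam q p H (k + 1) x y = ∑ h ∈ lamps q (y.1 - H) y.1,
      lam q p H k x (y.1 - H, y.2 - h) *
        (tau q p H (y.1 - H, y.2 - h) h / Msum q p H) := by
  classical
  induction k generalizing x with
  | zero =>
    rw [lam_succ]
    by_cases hy : y.1 = x.1 + H
    · have e1 : y.1 - H = x.1 := by rw [hy]; ring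
      rw [e1, ← hy]
      refine sum_congr rfl fun h _ => ?_
      rw [lam_zero, lam_zero]
      by_cases hyy : y.2 = x.2 + h
      · have e2 : mv q H x h = y := Prod.ext hy.symm hyy.symm
        have e3 : y.2 - h = x.2 := by rw [hyy]; abel
        rw [if_pos e2, e3, if_pos rfl, mul_one, one_mul]
      · have e2 : mv q H x h ≠ y := fun he => hyy (by rw [← he]; rfl)
        have e3 : x ≠ (x.1, y.2 - h) := by
          intro he
          apply hyy
          have : x.2 = y.2 - h := congrArg Prod.snd he
          rw [this]; abel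
        rw [if_neg e2, if_neg e3, mul_zero, zero_mul]
    · rw [sum_eq_zero, sum_eq_zero]
      · intro h _
        rw [lam_zero, if_neg, zero_mul]
        intro he
        apply hy
        have : x.1 = y.1 - H := congrArg Prod.fst he
        rw [this]; ring
      · intro h _
        rw [lam_zero, if_neg, mul_zero]
        intro he
        apply hy
        rw [← he]; rfl
  | succ k ih =>
    rw [lam_succ]
    simp_rw [ih, mul_sum]
    rw [sum_comm]
    refine sum_congr rfl fun h _ => ?_
    rw [lam_succ, sum_mul]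
    refine sum_congr rfl fun h' _ => ?_
    ring

theorem lam_sum {p : ℝ} (h0 : 0 ≤ p) (h1 : p ≤ 1) {H : ℕ} (hM : 0 < Msum q p H) (k : ℕ)
    (X : Finset (DV q)) (y : DV q) : ∑ x ∈ X, lam q p H k x y ≤ 1 := by
  classical
  have htau : ∀ (y : DV q), ∀ h ∈ lamps q (y.1 - H) y.1,
      tau q p H (y.1 - H, y.2 - h) h = cp q p (y.1 - H) y.1 y.2 (y.1 - H, y.2 - h) (y.1, y.2) := by
    intro y h hh
    have e1 : blk q (y.1 - H) y.1 (y.2 - h) = blk q (y.1 - H) y.1 y.2 := by
      apply blk_eq
      have : y.2 - h - y.2 = -h := by abel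
      rw [this]
      exact neg_mem_lamps hh
    have e2 : mv q H (y.1 - H, y.2 - h) h = (y.1, y.2) := by
      unfold mv
      simp only [sub_add_cancel]
    unfold tau
    rw [e2]
    show cp q p (y.1 - H) (y.1 - H + H) (y.2 - h) (y.1 - H, y.2 - h) (y.1, y.2) = _
    rw [sub_add_cancel]
    unfold cp
    rw [e1]
  induction k generalizing y with
  | zero =>
    simp_rw [lam_zero]
    rw [sum_ite_eq']
    split_ifs <;> norm_num
  | succ k ih =>
    simp_rw [lam_succ']
    rw [sum_comm]
    calc ∑ h ∈ lamps q (y.1 - H) y.1, ∑ x ∈ X, lam q p H k x (y.1 - H, y.2 - h) *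
          (tau q p H (y.1 - H, y.2 - h) h / Msum q p H)
        ≤ ∑ h ∈ lamps q (y.1 - H) y.1, 1 * (tau q p H (y.1 - H, y.2 - h) h / Msum q p H) := by
          refine sum_le_sum fun h _ => ?_
          rw [← sum_mul]
          exact mul_le_mul_of_nonneg_right (ih _)
            (div_nonneg (tau_nonneg h0 h1 H _ h) hM.le)
      _ = 1 := by
          simp_rw [one_mul]
          rw [← sum_div, sum_congr rfl (htau y), sum_cp_down, div_self hM.ne']

end Pool.Agent.DLP
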