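import Pool.Agent.DLP.MinCut

/-!
# DLP/ImpSum: the weighted number of important sets

`imp_sum_aux`: for `X ⊆ Λ` connected (`Con c v X`) and every lower bound `l` of the numbers
`D c B`, `X ⊆ B ⊆ Λ`:
`∑ (1/4)^{D c H} ≤ (1/2)^l`, the sum over the important sets `H ⊇ X`.

Proof by strong induction on `n = ∑ e ∈ touch Λ, c e + |Λ \ X|`. Let `M` be the largest minimiser
above `X` (`exists_maxmin`), `M₀ = comp c v M ⊇ X`. Every important `H ⊇ X` contains `M₀`
(`comp_subset_imp`), and `D M₀ = D M ≥ l` (`D_comp_le` and minimality).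

Case `D c M₀ = 0` (then `l = 0`): no positive edge leaves `M₀`; an important `H ⊇ M₀` is connected
and contains `v ∈ M₀`, so `H = M₀` (a positive path in `H` from `v` to `x ∉ M₀` would use a positive
edge of `cut M₀`). So the sum has at most one term, which is `≤ 1 = (1/2)^0`.

Case `D c M₀ > 0`: take `e ∈ cut M₀` with `c e > 0`, and `y` its end point outside `M₀`;
`e ∈ cut M` by `comp_cut`, so `y ∉ M`. W.l.o.g. `l = D c M` (the bound for this `l` is the
strongest). Split the important `H ⊇ M₀` according to `y ∈ H`.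
 (a) `y ∉ H`: then `e ∈ cut H`. Let `c' e = c e - 1`, `c' = c` elsewhere. `D c' H = D c H - 1`, and
   `H` is important for `c'`: connected since `e` is not inside `H` (both end points in `H`)
   so the positive edges inside `H` are the same; for `B ⊇ H` with a positive (for `c'`, hence for
   `c`) edge to `B \ H`: `D c' B ≥ D c B - 1 ≥ D c H = D c' H + 1`. Moreover `D c' B ≥ l - 1` for
   all `B ⊇ M₀`, `M₀` is connected for `c'`, and the total capacity has decreased. By
   induction (for `c'`, `X = M₀`, `l - 1`) the sum of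
   `(1/4)^{D c H} = (1/4) (1/4)^{D c' H}` is at most `(1/4) (1/2)^{l-1} = (1/2) (1/2)^l`.
 (b) `y ∈ H` (so `y ∈ Λ`): `X' = insert y M₀` is connected (the edge `e`), `D c B ≥ l + 1` for all
   `B ⊇ X'` (`lam_succ`), and `|Λ \ X'| < |Λ \ X|`. By induction the sum is at most
   `(1/2)^{l+1}`.
Total: `(1/2) (1/2)^l + (1/2) (1/2)^l = (1/2)^l`.

`imp_sum` is the case `X = {v}`, `l = 0` (if `v ∉ Λ` the sum is empty).
-/

namespace Pool.Agent.DLP

open Finset

namespace Gr

variable {V E : Type} [DecidableEq V] [DecidableEq E] (G : Gr V E)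

private theorem is_upd {c : E → ℕ} {e : E} (hc : 0 < c e) (S : Finset E) (he : e ∈ S) :
    ∑ f ∈ S, c f = ∑ f ∈ S, Function.update c e (c e - 1) f + 1 := by
  have h1 : ∑ f ∈ S.erase e, Function.update c e (c e - 1) f = ∑ f ∈ S.erase e, c f :=
    Finset.sum_congr rfl fun f hf => Function.update_of_ne (Finset.ne_of_mem_erase hf) _ _
  rw [← Finset.add_sum_erase S c he, ← Finset.add_sum_erase S (Function.update c e (c e - 1)) he,
    Function.update_self, h1]
  omega

private theorem is_upd_not {c : E → ℕ} {e : E} (S : Finset E) (he : e ∉ S) :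
    ∑ f ∈ S, Function.update c e (c e - 1) f = ∑ f ∈ S, c f :=
  Finset.sum_congr rfl fun f hf => Function.update_of_ne (fun h : f = e => he (h ▸ hf)) _ _

private theorem is_D_le {c : E → ℕ} {e : E} (hc : 0 < c e) (B : Finset V) :
    G.D c B ≤ G.D (Function.update c e (c e - 1)) B + 1 := by
  unfold D
  by_cases he : e ∈ G.cut B
  · rw [is_upd hc _ he]
  · rw [is_upd_not _ he]
    omega

private theorem is_pos {c : E → ℕ} {e f : E} (h : 0 < Function.update c e (c e - 1) f) :
    0 < c f := by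
  by_cases hf : f = e
  · rw [hf, Function.update_self] at h
    rw [hf]
    omega
  · rwa [Function.update_of_ne hf] at h

private theorem is_con {c : E → ℕ} {e : E} {v : V} {H : Finset V} (he : e ∈ G.cut H)
    (hH : G.Con c v H) : G.Con (Function.update c e (c e - 1)) v H := by
  refine ⟨hH.1, fun x hx => Reach.restrict ?_ (hH.2 x hx)⟩
  intro f ha hb hf
  have hne : f ≠ e := by
    rintro rfl
    rw [mem_cut] at he
    rcases he with h | h
    · exact h.2 hb
    · exact h.1 ha
  change 0 < Function.update c e (c e - 1) f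
  rw [Function.update_of_ne hne]
  exact hf

open Classical in
theorem imp_sum_aux (n : ℕ) : ∀ (c : E → ℕ) (Λ X : Finset V) (v : V) (l : ℕ), X ⊆ Λ →
    G.Con c v X → ∑ e ∈ G.touch Λ, c e + (Λ \ X).card ≤ n →
    (∀ B : Finset V, X ⊆ B → B ⊆ Λ → l ≤ G.D c B) →
    ∑ H ∈ Λ.powerset.filter (fun H => G.Imp c Λ v H ∧ X ⊆ H), ((1 : ℝ) / 4) ^ (G.D c H) ≤
      ((1 : ℝ) / 2) ^ l := by
  induction n using Nat.strong_induction_on with
  | _ n ih =>
  intro c Λ X v l hXΛ hX hn hl
  obtain ⟨M, hM⟩ := G.exists_maxmin c hXΛ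
  have hvM : v ∈ M := hM.1 hX.1
  obtain ⟨M₀, hM₀⟩ : ∃ M₀, M₀ = G.comp c v M := ⟨_, rfl⟩
  have hXM₀ : X ⊆ M₀ := by rw [hM₀]; exact G.subset_comp hX hM.1
  have hM₀M : M₀ ⊆ M := by rw [hM₀]; exact G.comp_subset c v M
  have hM₀Λ : M₀ ⊆ Λ := hM₀M.trans hM.2.1
  have hcon : G.Con c v M₀ := by rw [hM₀]; exact G.con_comp hvM
  have hD1 : G.D c M₀ ≤ G.D c M := by rw [hM₀]; exact G.D_comp_le hvM
  have hD2 : G.D c M ≤ G.D c M₀ := hM.2.2.1 M₀ hXM₀ hM₀Λ
  have hlM : l ≤ G.D c M := hl M hM.1 hM.2.1
  have hsub : ∀ H, G.Imp c Λ v H → X ⊆ H → M₀ ⊆ H := fun H hH hXH => by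
    rw [hM₀]
    exact G.comp_subset_imp hM hH hXH
  refine le_trans ?_ (pow_le_pow_of_le_one (by norm_num) (by norm_num) hlM :
    ((1 : ℝ) / 2) ^ (G.D c M) ≤ ((1 : ℝ) / 2) ^ l)
  rcases Nat.eq_zero_or_pos (G.D c M₀) with h0 | hpos
  · -- nothing leaves `M₀`
    have hS : Λ.powerset.filter (fun H => G.Imp c Λ v H ∧ X ⊆ H) ⊆ {M₀} := by
      intro H hH
      rw [Finset.mem_filter] at hH
      have h1 := hsub H hH.2.1 hH.2.2
      rw [Finset.mem_singleton]
      refine Finset.Subset.antisymm ?_ h1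
      intro x hx
      by_contra hxM
      obtain ⟨e, he, hce, _, _⟩ := (hH.2.1.2.1.2 x hx).exists_cut_edge hcon.1 hxM
      have h2 := (G.D_eq_zero.1 h0) e he
      have h3 : 0 < c e := hce
      omega
    refine (Finset.sum_le_sum_of_subset_of_nonneg hS fun _ _ _ => by positivity).trans ?_
    rw [Finset.sum_singleton, h0]
    have : G.D c M = 0 := by omega
    rw [this]
    norm_num
  · -- an edge `e` leaves `M₀`
    obtain ⟨e, he, hce⟩ : ∃ e ∈ G.cut M₀, 0 < c e := by
      by_contra hcon2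
      push Not at hcon2
      have : G.D c M₀ = 0 := G.D_eq_zero.2 fun e he => by
        have := hcon2 e he
        omega
      omega
    have heM : e ∈ G.cut M := by
      rw [hM₀] at he
      exact G.comp_cut hvM he hce
    obtain ⟨x, y, hxy, hx, hy⟩ : ∃ x y, ((G.a e = x ∧ G.b e = y) ∨ (G.a e = y ∧ G.b e = x)) ∧
        x ∈ M₀ ∧ y ∉ M := by
      rw [mem_cut] at he heM
      rcases he with ⟨h1, h2⟩ | ⟨h1, h2⟩
      · refine ⟨G.a e, G.b e, Or.inl ⟨rfl, rfl⟩, h1, fun h3 => ?_⟩
        rcases heM with h4 | h4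
        · exact h4.2 h3
        · exact h4.1 (hM₀M h1)
      · refine ⟨G.b e, G.a e, Or.inr ⟨rfl, rfl⟩, h2, fun h3 => ?_⟩
        rcases heM with h4 | h4
        · exact h4.2 (hM₀M h2)
        · exact h4.1 h3
    have hcut : ∀ H : Finset V, x ∈ H → y ∉ H → e ∈ G.cut H := by
      intro H h1 h2
      rw [mem_cut]
      rcases hxy with ⟨h3, h4⟩ | ⟨h3, h4⟩
      · left; rw [h3, h4]; exact ⟨h1, h2⟩
      · right; rw [h3, h4]; exact ⟨h2, h1⟩
    have hyM₀ : y ∉ M₀ := fun h => hy (hM₀M h)
    obtain ⟨m, hm⟩ : ∃ m, G.D c M = m + 1 := ⟨G.D c M - 1, by omega⟩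
    obtain ⟨c', hc'⟩ : ∃ c', c' = Function.update c e (c e - 1) := ⟨_, rfl⟩
    -- split the sum
    rw [← Finset.sum_filter_add_sum_filter_not
      (Λ.powerset.filter (fun H => G.Imp c Λ v H ∧ X ⊆ H)) (fun H => y ∈ H)]
    have hb : ∑ H ∈ (Λ.powerset.filter (fun H => G.Imp c Λ v H ∧ X ⊆ H)).filter
        (fun H => y ∈ H), ((1 : ℝ) / 4) ^ (G.D c H) ≤ ((1 : ℝ) / 2) ^ (m + 2) := by
      by_cases hyΛ : y ∈ Λ
      · have hX' : insert y M₀ ⊆ Λ := Finset.insert_subset hyΛ hM₀Λ
        have hreachx : G.Reach {e | 0 < c e} (↑(insert y M₀) : Set V) v x :=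
          (hcon.2 x hx).mono (fun _ h => h) (by
            rw [Finset.coe_insert]
            exact Set.subset_insert _ _)
        have hmx : x ∈ (↑(insert y M₀) : Set V) := by
          rw [Finset.mem_coe]
          exact Finset.mem_insert_of_mem hx
        have hmy : y ∈ (↑(insert y M₀) : Set V) := by
          rw [Finset.mem_coe]
          exact Finset.mem_insert_self _ _
        have hedge : G.Reach {e | 0 < c e} (↑(insert y M₀) : Set V) x y := by
          rcases hxy with ⟨h3, h4⟩ | ⟨h3, h4⟩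
          · have h5 := Reach.edge (G := G) (ω := {e | 0 < c e})
              (U := (↑(insert y M₀) : Set V)) (e := e) hce (by rw [h3]; exact hmx)
              (by rw [h4]; exact hmy)
            rwa [h3, h4] at h5
          · have h5 := Reach.edge (G := G) (ω := {e | 0 < c e})
              (U := (↑(insert y M₀) : Set V)) (e := e) hce (by rw [h3]; exact hmy)
              (by rw [h4]; exact hmx)
            rw [h3, h4] at h5
            exact h5.symm
        have hcon' : G.Con c v (insert y M₀) := by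
          refine ⟨Finset.mem_insert_of_mem hcon.1, fun z hz => ?_⟩
          rcases Finset.mem_insert.1 hz with rfl | hz
          · exact hreachx.trans hedge
          · exact (hcon.2 z hz).mono (fun _ h => h) (by
              rw [Finset.coe_insert]
              exact Set.subset_insert _ _)
        have hcard : (Λ \ insert y M₀).card < (Λ \ X).card := by
          refine Finset.card_lt_card ?_
          refine ⟨Finset.sdiff_subset_sdiff (le_refl _)
            (hXM₀.trans (Finset.subset_insert _ _)), fun h => ?_⟩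
          have h1 : y ∈ Λ \ X := Finset.mem_sdiff.2 ⟨hyΛ, fun h2 => hyM₀ (hXM₀ h2)⟩
          have h2 := h h1
          rw [Finset.mem_sdiff] at h2
          exact h2.2 (Finset.mem_insert_self _ _)
        have h1 := ih (∑ e ∈ G.touch Λ, c e + (Λ \ insert y M₀).card) (by omega) c Λ
          (insert y M₀) v (m + 2) hX' hcon' (le_refl _) (by
            intro B hB1 hB2
            have h2 := G.lam_succ hM (hXM₀.trans ((Finset.subset_insert _ _).trans hB1)) hB2 hy
              (hB1 (Finset.mem_insert_self _ _))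
            omega)
        refine le_trans (Finset.sum_le_sum_of_subset_of_nonneg ?_ fun _ _ _ => by positivity) h1
        intro H hH
        rw [Finset.mem_filter, Finset.mem_filter] at hH
        rw [Finset.mem_filter]
        exact ⟨hH.1.1, hH.1.2.1, Finset.insert_subset hH.2 (hsub H hH.1.2.1 hH.1.2.2)⟩
      · have h1 : (Λ.powerset.filter (fun H => G.Imp c Λ v H ∧ X ⊆ H)).filter
            (fun H => y ∈ H) = ∅ := by
          rw [Finset.filter_eq_empty_iff]
          intro H hH hyH
          rw [Finset.mem_filter, Finset.mem_powerset] at hH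
          exact hyΛ (hH.1 hyH)
        rw [h1, Finset.sum_empty]
        positivity
    have ha : ∑ H ∈ (Λ.powerset.filter (fun H => G.Imp c Λ v H ∧ X ⊆ H)).filter
        (fun H => ¬ y ∈ H), ((1 : ℝ) / 4) ^ (G.D c H) ≤ ((1 : ℝ) / 2) ^ (m + 2) := by
      have hxΛ : x ∈ Λ := hM₀Λ hx
      have heΛ : e ∈ G.touch Λ := by
        rw [mem_touch]
        rcases hxy with ⟨h3, h4⟩ | ⟨h3, h4⟩
        · left; rw [h3]; exact hxΛ
        · right; rw [h4]; exact hxΛ
      have hsum := is_upd hce (G.touch Λ) heΛ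
      rw [← hc'] at hsum
      have hcard : (Λ \ M₀).card ≤ (Λ \ X).card :=
        Finset.card_le_card (Finset.sdiff_subset_sdiff (le_refl _) hXM₀)
      have h1 := ih (∑ e ∈ G.touch Λ, c' e + (Λ \ M₀).card) (by omega) c' Λ
        M₀ v m hM₀Λ (by rw [hc']; exact G.is_con he hcon) (le_refl _) (by
          intro B hB1 hB2
          have h2 := hM.2.2.1 B (hXM₀.trans hB1) hB2
          have h3 := G.is_D_le hce B
          rw [← hc'] at h3
          omega)
      have h2 : ∑ H ∈ (Λ.powerset.filter (fun H => G.Imp c Λ v H ∧ X ⊆ H)).filter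
          (fun H => ¬ y ∈ H), ((1 : ℝ) / 4) ^ (G.D c H) =
          (1 / 4) * ∑ H ∈ (Λ.powerset.filter (fun H => G.Imp c Λ v H ∧ X ⊆ H)).filter
          (fun H => ¬ y ∈ H), ((1 : ℝ) / 4) ^ (G.D c' H) := by
        rw [Finset.mul_sum]
        refine Finset.sum_congr rfl fun H hH => ?_
        rw [Finset.mem_filter, Finset.mem_filter] at hH
        have h3 : e ∈ G.cut H := hcut H (hsub H hH.1.2.1 hH.1.2.2 hx) hH.2
        have h4 : G.D c H = G.D c' H + 1 := by
          rw [hc']
          exact is_upd hce _ h3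
        rw [h4, pow_succ, mul_comm]
      rw [h2]
      have h3 : ∑ H ∈ (Λ.powerset.filter (fun H => G.Imp c Λ v H ∧ X ⊆ H)).filter
          (fun H => ¬ y ∈ H), ((1 : ℝ) / 4) ^ (G.D c' H) ≤
          ∑ H ∈ Λ.powerset.filter (fun H => G.Imp c' Λ v H ∧ M₀ ⊆ H),
            ((1 : ℝ) / 4) ^ (G.D c' H) := by
        refine Finset.sum_le_sum_of_subset_of_nonneg ?_ fun _ _ _ => by positivity
        intro H hH
        rw [Finset.mem_filter, Finset.mem_filter] at hH
        rw [Finset.mem_filter]
        obtain ⟨⟨hHΛ, hImp, hXH⟩, hyH⟩ := hH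
        have h4 := hsub H hImp hXH
        have h5 : e ∈ G.cut H := hcut H (h4 hx) hyH
        refine ⟨hHΛ, ⟨hImp.1, ?_, ?_⟩, h4⟩
        · rw [hc']
          exact G.is_con h5 hImp.2.1
        · rintro B hB1 hB2 ⟨f, hf1, hf2, hf3, hf4⟩
          have h6 := hImp.2.2 B hB1 hB2 ⟨f, hf1, by rw [hc'] at hf2; exact is_pos hf2, hf3, hf4⟩
          have h7 := G.is_D_le hce B
          have h8 : G.D c H = G.D c' H + 1 := by
            rw [hc']
            exact is_upd hce _ h5
          rw [← hc'] at h7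
          omega
      refine le_trans (mul_le_mul_of_nonneg_left (h3.trans h1) (by norm_num)) (le_of_eq ?_)
      rw [pow_add]
      norm_num
      ring
    rw [hm]
    calc _ ≤ ((1 : ℝ) / 2) ^ (m + 2) + ((1 : ℝ) / 2) ^ (m + 2) := add_le_add hb ha
      _ = ((1 : ℝ) / 2) ^ (m + 1) := by
          rw [pow_succ ((1 : ℝ) / 2) (m + 1)]
          ring

open Classical in
/-- The important cut lemma. -/
theorem imp_sum (c : E → ℕ) (Λ : Finset V) (v : V) :
    ∑ H ∈ Λ.powerset.filter (fun H => G.Imp c Λ v H), ((1 : ℝ) / 4) ^ (G.D c H) ≤ 1 := by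
  by_cases hv : v ∈ Λ
  · have hcon : G.Con c v {v} := by
      refine ⟨Finset.mem_singleton_self v, fun x hx => ?_⟩
      rw [Finset.mem_singleton] at hx
      rw [hx]
      exact Reach.refl G _ _ _
    have h1 := G.imp_sum_aux _ c Λ {v} v 0 (Finset.singleton_subset_iff.2 hv) hcon (le_refl _)
      (fun _ _ _ => Nat.zero_le _)
    rw [pow_zero] at h1
    refine le_trans (Finset.sum_le_sum_of_subset_of_nonneg ?_ fun _ _ _ => by positivity) h1
    intro H hH
    rw [Finset.mem_filter] at hH ⊢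
    exact ⟨hH.1, hH.2, Finset.singleton_subset_iff.2 hH.2.2.1.1⟩
  · have h1 : Λ.powerset.filter (fun H => G.Imp c Λ v H) = ∅ := by
      rw [Finset.filter_eq_empty_iff]
      intro H _ hH
      exact hv (hH.1 hH.2.1.1)
    rw [h1, Finset.sum_empty]
    norm_num

open Classical in
/-- The number of important sets with boundary capacity `r` is at most `4 ^ r`. -/
theorem imp_card (c : E → ℕ) (Λ : Finset V) (v : V) (r : ℕ) :
    ((Λ.powerset.filter (fun H => G.Imp c Λ v H ∧ G.D c H = r)).card : ℝ) ≤ 4 ^ r := by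
  have h1 := G.imp_sum c Λ v
  have h2 : ∑ H ∈ Λ.powerset.filter (fun H => G.Imp c Λ v H ∧ G.D c H = r),
      ((1 : ℝ) / 4) ^ (G.D c H) ≤ 1 := by
    refine le_trans (Finset.sum_le_sum_of_subset_of_nonneg ?_ fun _ _ _ => by positivity) h1
    intro H hH
    rw [Finset.mem_filter] at hH ⊢
    exact ⟨hH.1, hH.2.1⟩
  have h3 : ∑ H ∈ Λ.powerset.filter (fun H => G.Imp c Λ v H ∧ G.D c H = r),
      ((1 : ℝ) / 4) ^ (G.D c H) =
      ((Λ.powerset.filter (fun H => G.Imp c Λ v H ∧ G.D c H = r)).card : ℝ) * (1 / 4) ^ r := by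
    rw [Finset.sum_congr rfl (g := fun _ => ((1 : ℝ) / 4) ^ r), Finset.sum_const, nsmul_eq_mul]
    intro H hH
    rw [Finset.mem_filter] at hH
    rw [hH.2.2]
  rw [h3, one_div_pow, mul_one_div, div_le_one (by positivity)] at h2
  exact h2

end Gr

end Pool.Agent.DLP
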