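import Pool.Agent.DLP.LineDefs
import Pool.Agent.DLP.ExC

/-!
# DLP/LineA: second moment for the lines of blocks

Let `z = (n, f)` and let `bigE K z = inn (blk n (n + K H) f)`: all the edges used by the lines of `K`
blocks from `z`.

* `tau_nonneg`, `tau_le_one`, `sum_tau` (`∑_h tau z h = Msum`, from `sum_cp_up` with
  `N = 0`, `M = j = H`).
* `dep_Ln`: `Ln T K ω z` depends only on `ω ∩ bigE K z`. Induction on `K`: the blocks of
  `mv z h` and the later ones have their levels in `[n + H, n + (K+1) H]` and their lamps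
  equal to `f` off `[n, n + (K+1)H)`.
  For two different `h, h' ∈ lamps n (n + H)` the sets `bigE K (mv z h)` and `bigE K (mv z h')` are
  disjoint (`blk_disjoint`: a lamp `i ∈ [n, n+H)` differs), and both are disjoint from
  `inn (bl z)` (levels: an edge of `inn (bl z)` has lower end point at a level `< n + H`).
* `ex_Ln`: `E Ln = M^K wt` for every `F ⊇ bigE K z`: induction, `ex_sum`, independence (`ex_indep`)
  of the indicator (depends on `inn (bl z)`) and of `Ln T K ω (mv z h)`,
  `E indicator = tau z h` (`pr_dep`).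
* `ex_Ln_sq`: with `Q = q^H = |lamps|`, `M = Msum > 0`:
  `E Ln² ≤ E Ln · (1 + Q ∑_{j<K} M^j)`. Induction: for `K + 1`, if the block is disjoint from `T`:
  `Ln² = ∑_{h,h'} 1_h 1_{h'} Ln(h) Ln(h')`, the expectation of the terms with `h = h'` is
  `tau(h) E Ln(h)²`, and for `h ≠ h'` it is (three disjoint sets of edges)
  `P(1_h 1_{h'}) E Ln(h) E Ln(h') ≤ tau(h) E Ln(h) E Ln(h')` with `E Ln(h') ≤ M^K` (`wt ≤ 1`).
  So `E Ln² ≤ (1 + Q ∑_{j<K} M^j) ∑_h tau(h) E Ln(h) + Q M^K ∑_h tau(h) E Ln(h)`.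
* `line_prob`: `ex_sq_le`: `P(Ln > 0) ≥ (E Ln)²/E Ln² ≥ M^K wt / (1 + Q ∑_{j<K} M^j)` and
  `1 + Q ∑_{j<K} M^j ≤ M^K (1 + Q/(M-1))` for `M > 1` (geometric sum; `1 ≤ M^K`). (If `E Ln = 0`
  then `wt = 0` and the claim is trivial.)
-/

namespace Pool.Agent.DLP

open Finset

variable {q : ℕ} [NeZero q]

private theorem reach_dep (H : ℕ) (z : DV q) (h : Lm q) :
    Dep (↑((DL q).inn (bl q H z)) : Set (DE q)) (fun ω : Finset (DE q) =>
      (DL q).Reach (↑ω : Set (DE q)) (↑(bl q H z) : Set (DV q)) z (mv q H z h)) :=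
  Gr.dep_reach (DL q) (bl q H z) z (mv q H z h)

theorem tau_nonneg {p : ℝ} (h0 : 0 ≤ p) (h1 : p ≤ 1) (H : ℕ) (z : DV q) (h : Lm q) :
    0 ≤ tau q p H z h :=
  pr_nonneg h0 h1 _ _

theorem tau_le_one {p : ℝ} (h0 : 0 ≤ p) (h1 : p ≤ 1) (H : ℕ) (z : DV q) (h : Lm q) :
    tau q p H z h ≤ 1 :=
  pr_le_one h0 h1 _ _

theorem sum_tau (p : ℝ) (H : ℕ) (z : DV q) :
    ∑ h ∈ lamps q z.1 (z.1 + H), tau q p H z h = Msum q p H := by
  have h1 := sum_cp_up (q := q) p z.1 z.2 0 H H
  simp only [Nat.cast_zero, sub_zero, neg_zero] at h1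
  exact h1

open Classical in
private theorem Ln_succ (H : ℕ) (T : Finset (DV q)) (K : ℕ) (ω : Finset (DE q)) (z : DV q) :
    Ln q H T (K + 1) ω z =
      if Disjoint (bl q H z) T then
        ∑ h ∈ lamps q z.1 (z.1 + H),
          (if (DL q).Reach (↑ω : Set (DE q)) (↑(bl q H z) : Set (DV q)) z (mv q H z h) then
            Ln q H T K ω (mv q H z h) else 0)
      else 0 := rfl

open Classical in
private theorem wt_succ (p : ℝ) (H : ℕ) (T : Finset (DV q)) (K : ℕ) (z : DV q) :
    wt q p H T (K + 1) z =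
      if Disjoint (bl q H z) T then
        ∑ h ∈ lamps q z.1 (z.1 + H), tau q p H z h / Msum q p H * wt q p H T K (mv q H z h)
      else 0 := rfl

theorem wt_nonneg {p : ℝ} (h0 : 0 ≤ p) (h1 : p ≤ 1) {H : ℕ} (hM : 0 < Msum q p H)
    (T : Finset (DV q)) (K : ℕ) (z : DV q) : 0 ≤ wt q p H T K z := by
  induction K generalizing z with
  | zero => exact zero_le_one
  | succ K ih =>
    rw [wt_succ]
    split_ifs with hd
    · exact sum_nonneg fun h _ => mul_nonneg (div_nonneg (tau_nonneg h0 h1 H z h) hM.le) (ih _)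
    · exact le_rfl

private theorem sum_tau_div (p : ℝ) {H : ℕ} (hM : 0 < Msum q p H) (z : DV q) :
    ∑ h ∈ lamps q z.1 (z.1 + H), tau q p H z h / Msum q p H = 1 := by
  rw [← sum_div, sum_tau, div_self hM.ne']

theorem wt_le_one {p : ℝ} (h0 : 0 ≤ p) (h1 : p ≤ 1) {H : ℕ} (hM : 0 < Msum q p H)
    (T : Finset (DV q)) (K : ℕ) (z : DV q) : wt q p H T K z ≤ 1 := by
  induction K generalizing z with
  | zero => exact le_rfl
  | succ K ih =>
    rw [wt_succ]
    split_ifs with hd
    · calc ∑ h ∈ lamps q z.1 (z.1 + H), tau q p H z h / Msum q p H * wt q p H T K (mv q H z h)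
          ≤ ∑ h ∈ lamps q z.1 (z.1 + H), tau q p H z h / Msum q p H * 1 :=
            sum_le_sum fun h _ => mul_le_mul_of_nonneg_left (ih _)
              (div_nonneg (tau_nonneg h0 h1 H z h) hM.le)
        _ = 1 := by simp only [mul_one]; exact sum_tau_div p hM z
    · exact zero_le_one

theorem wt_anti {p : ℝ} (h0 : 0 ≤ p) (h1 : p ≤ 1) {H : ℕ} (hM : 0 < Msum q p H)
    (T : Finset (DV q)) {K K' : ℕ} (hK : K ≤ K') (z : DV q) :
    wt q p H T K' z ≤ wt q p H T K z := by
  have hstep : ∀ (K : ℕ) (z : DV q), wt q p H T (K + 1) z ≤ wt q p H T K z := by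
    intro K
    induction K with
    | zero => intro z; exact wt_le_one h0 h1 hM T 1 z
    | succ K ih =>
      intro z
      rw [wt_succ, wt_succ (K := K)]
      split_ifs with hd
      · exact sum_le_sum fun h _ => mul_le_mul_of_nonneg_left (ih _)
          (div_nonneg (tau_nonneg h0 h1 H z h) hM.le)
      · exact le_rfl
  exact antitone_nat_of_succ_le (f := fun K => wt q p H T K z) (fun K => hstep K z) hK

/-! the sets of edges -/

private theorem inn_mv_subset {H K : ℕ} {z : DV q} {h : Lm q} (hh : h ∈ lamps q z.1 (z.1 + H)) :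
    (DL q).inn (blk q (mv q H z h).1 ((mv q H z h).1 + K * H) (mv q H z h).2) ⊆
      (DL q).inn (blk q z.1 (z.1 + (K + 1 : ℕ) * H) z.2) := by
  apply Gr.inn_mono
  have hz1 : (mv q H z h).1 = z.1 + H := rfl
  have hz2 : (mv q H z h).2 = z.2 + h := rfl
  rw [hz1, hz2]
  have hK : (0 : ℤ) ≤ (K : ℤ) * H := by positivity
  apply blk_subset
  · have : (0 : ℤ) ≤ H := by positivity
    linarith
  · push_cast
    linarith
  · have : z.2 + h - z.2 = h := by abel
    rw [this]
    refine lamps_mono le_rfl ?_ hh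
    push_cast
    linarith

private theorem inn_bl_subset {H K : ℕ} {z : DV q} :
    (DL q).inn (bl q H z) ⊆ (DL q).inn (blk q z.1 (z.1 + (K + 1 : ℕ) * H) z.2) := by
  apply Gr.inn_mono
  have hK : (0 : ℤ) ≤ (K : ℤ) * H := by positivity
  apply blk_subset
  · exact le_rfl
  · push_cast
    linarith
  · rw [sub_self]
    exact zero_mem_lamps _ _

private theorem disj_bl_mv {H K : ℕ} {z : DV q} {h : Lm q} :
    Disjoint (↑((DL q).inn (bl q H z)) : Set (DE q))
      (↑((DL q).inn (blk q (mv q H z h).1 ((mv q H z h).1 + K * H) (mv q H z h).2)) :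
        Set (DE q)) := by
  rw [Set.disjoint_left]
  intro e he he'
  rw [mem_coe] at he he'
  have h1 := (mem_inn_blk.1 he).2.1
  have h2 := (mem_inn_blk.1 he').1
  have hz1 : (mv q H z h).1 = z.1 + H := rfl
  rw [hz1] at h2
  omega

private theorem disj_mv_mv {H K : ℕ} {z : DV q} {h h' : Lm q} (hh : h ∈ lamps q z.1 (z.1 + H))
    (hh' : h' ∈ lamps q z.1 (z.1 + H)) (hne : h ≠ h') :
    Disjoint (↑((DL q).inn (blk q (mv q H z h).1 ((mv q H z h).1 + K * H) (mv q H z h).2)) :
        Set (DE q))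
      (↑((DL q).inn (blk q (mv q H z h').1 ((mv q H z h').1 + K * H) (mv q H z h').2)) :
        Set (DE q)) := by
  rw [Set.disjoint_left]
  intro e he he'
  rw [mem_coe] at he he'
  have h1 := mem_lamps.1 (mem_inn_blk.1 he).2.2
  have h2 := mem_lamps.1 (mem_inn_blk.1 he').2.2
  apply hne
  ext i
  by_cases hi : i < z.1 ∨ z.1 + H ≤ i
  · rw [mem_lamps.1 hh i hi, mem_lamps.1 hh' i hi]
  · push Not at hi
    have hz1 : (mv q H z h).1 = z.1 + H := rfl
    have hz2 : (mv q H z h).2 = z.2 + h := rfl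
    have hz1' : (mv q H z h').1 = z.1 + H := rfl
    have hz2' : (mv q H z h').2 = z.2 + h' := rfl
    have e1 := h1 i (Or.inl (by rw [hz1]; exact hi.2))
    have e2 := h2 i (Or.inl (by rw [hz1']; exact hi.2))
    rw [hz2] at e1
    rw [hz2'] at e2
    simp only [Finsupp.coe_sub, Finsupp.coe_add, Pi.sub_apply, Pi.add_apply] at e1 e2
    have e3 : z.2 i + h i = z.2 i + h' i := by
      rw [sub_eq_zero] at e1 e2
      rw [← e1, ← e2]
    exact add_left_cancel e3

theorem dep_Ln (H : ℕ) (T : Finset (DV q)) (K : ℕ) (z : DV q) :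
    Dep (↑((DL q).inn (blk q z.1 (z.1 + K * H) z.2)) : Set (DE q))
      (fun ω : Finset (DE q) => Ln q H T K ω z) := by
  classical
  induction K generalizing z with
  | zero => intro ω ω' _; rfl
  | succ K ih =>
    intro ω ω' hω
    show Ln q H T (K + 1) ω z = Ln q H T (K + 1) ω' z
    rw [Ln_succ, Ln_succ]
    split_ifs with hd
    · refine sum_congr rfl fun h hh => ?_
      have e1 : (DL q).Reach (↑ω : Set (DE q)) (↑(bl q H z) : Set (DV q)) z (mv q H z h) =
          (DL q).Reach (↑ω' : Set (DE q)) (↑(bl q H z) : Set (DV q)) z (mv q H z h) :=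
        reach_dep H z h ω ω' (fun i hi => hω i (inn_bl_subset (K := K) hi))
      have e2 : Ln q H T K ω (mv q H z h) = Ln q H T K ω' (mv q H z h) :=
        ih (mv q H z h) ω ω' (fun i hi => hω i (inn_mv_subset (K := K) hh hi))
      simp only [e1, e2]
    · rfl

/-- the indicator of a connection in the block -/
private noncomputable def ind (H : ℕ) (z : DV q) (h : Lm q) (ω : Finset (DE q)) : ℝ :=
  open Classical in
  if (DL q).Reach (↑ω : Set (DE q)) (↑(bl q H z) : Set (DV q)) z (mv q H z h) then 1 else 0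

private theorem ind_nonneg (H : ℕ) (z : DV q) (h : Lm q) (ω : Finset (DE q)) :
    0 ≤ ind H z h ω := by
  unfold ind; split_ifs <;> norm_num

private theorem ind_le_one (H : ℕ) (z : DV q) (h : Lm q) (ω : Finset (DE q)) :
    ind H z h ω ≤ 1 := by
  unfold ind; split_ifs <;> norm_num

private theorem ind_sq (H : ℕ) (z : DV q) (h : Lm q) (ω : Finset (DE q)) :
    ind H z h ω * ind H z h ω = ind H z h ω := by
  unfold ind; split_ifs <;> norm_num

private theorem ind_dep (H : ℕ) (z : DV q) (h : Lm q) :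
    Dep (↑((DL q).inn (bl q H z)) : Set (DE q)) (ind H z h) := by
  intro ω ω' hω
  have e1 : (DL q).Reach (↑ω : Set (DE q)) (↑(bl q H z) : Set (DV q)) z (mv q H z h) =
      (DL q).Reach (↑ω' : Set (DE q)) (↑(bl q H z) : Set (DV q)) z (mv q H z h) :=
    reach_dep H z h ω ω' hω
  unfold ind
  by_cases hr : (DL q).Reach (↑ω : Set (DE q)) (↑(bl q H z) : Set (DV q)) z (mv q H z h)
  · rw [if_pos hr, if_pos (e1.mp hr)]
  · rw [if_neg hr, if_neg (fun h' => hr (e1.mpr h'))]

private theorem ex_ind {p : ℝ} {H : ℕ} {z : DV q} {h : Lm q} {F : Finset (DE q)}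
    (hF : (DL q).inn (bl q H z) ⊆ F) : ex p F (ind H z h) = tau q p H z h := by
  have h1 : ex p F (ind H z h) = ex p ((DL q).inn (bl q H z)) (ind H z h) :=
    ex_dep (ind_dep H z h) (fun i hi => ⟨fun _ => hi, fun _ => hF hi⟩)
  rw [h1]
  rfl

private theorem Ln_disj {H : ℕ} {T : Finset (DV q)} {K : ℕ} {ω : Finset (DE q)} {z : DV q}
    (hd : Disjoint (bl q H z) T) : Ln q H T (K + 1) ω z =
      ∑ h ∈ lamps q z.1 (z.1 + H), ind H z h ω * Ln q H T K ω (mv q H z h) := by
  rw [Ln_succ, if_pos hd]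
  refine sum_congr rfl fun h _ => ?_
  unfold ind
  split_ifs <;> simp

private theorem Ln_nonneg (H : ℕ) (T : Finset (DV q)) (K : ℕ) (ω : Finset (DE q)) (z : DV q) :
    0 ≤ Ln q H T K ω z := by
  induction K generalizing z with
  | zero => exact zero_le_one
  | succ K ih =>
    by_cases hd : Disjoint (bl q H z) T
    · rw [Ln_disj hd]
      exact sum_nonneg fun h _ => mul_nonneg (ind_nonneg H z h ω) (ih _)
    · rw [Ln_succ, if_neg hd]

/-- the expectation of one term -/
private theorem ex_term {p : ℝ} {H : ℕ} {T : Finset (DV q)} {K : ℕ} {z : DV q} {h : Lm q}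
    {F : Finset (DE q)} (hF : (DL q).inn (bl q H z) ⊆ F) :
    ex p F (fun ω => ind H z h ω * Ln q H T K ω (mv q H z h)) =
      tau q p H z h * ex p F (fun ω => Ln q H T K ω (mv q H z h)) := by
  rw [ex_indep (ind_dep H z h) (dep_Ln H T K (mv q H z h)) disj_bl_mv, ex_ind hF]

private theorem ex_Ln_succ {p : ℝ} {H : ℕ} {T : Finset (DV q)} {K : ℕ} {z : DV q}
    {F : Finset (DE q)} (hF : (DL q).inn (bl q H z) ⊆ F) (hd : Disjoint (bl q H z) T) :
    ex p F (fun ω => Ln q H T (K + 1) ω z) = ∑ h ∈ lamps q z.1 (z.1 + H),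
      tau q p H z h * ex p F (fun ω => Ln q H T K ω (mv q H z h)) := by
  have h1 : (fun ω => Ln q H T (K + 1) ω z) = fun ω => ∑ h ∈ lamps q z.1 (z.1 + H),
      ind H z h ω * Ln q H T K ω (mv q H z h) := by
    funext ω
    exact Ln_disj hd
  rw [h1, ex_sum p F (lamps q z.1 (z.1 + H))
    (fun h ω => ind H z h ω * Ln q H T K ω (mv q H z h))]
  exact sum_congr rfl fun h _ => ex_term hF

theorem ex_Ln {p : ℝ} {H : ℕ} (hM : 0 < Msum q p H) (T : Finset (DV q)) (K : ℕ) (z : DV q)
    {F : Finset (DE q)} (hF : (DL q).inn (blk q z.1 (z.1 + K * H) z.2) ⊆ F) :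
    ex p F (fun ω => Ln q H T K ω z) = Msum q p H ^ K * wt q p H T K z := by
  induction K generalizing z with
  | zero =>
    have h1 : (fun ω => Ln q H T 0 ω z) = fun _ => (1 : ℝ) := rfl
    have h2 : wt q p H T 0 z = 1 := rfl
    rw [h1, ex_const, h2, pow_zero, mul_one]
  | succ K ih =>
    by_cases hd : Disjoint (bl q H z) T
    · rw [ex_Ln_succ (inn_bl_subset.trans hF) hd, wt_succ, if_pos hd, mul_sum]
      refine sum_congr rfl fun h hh => ?_
      rw [ih (mv q H z h) ((inn_mv_subset (K := K) hh).trans hF)]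
      rw [pow_succ]
      field_simp
    · have h1 : (fun ω => Ln q H T (K + 1) ω z) = fun _ => (0 : ℝ) := by
        funext ω
        rw [Ln_succ, if_neg hd]
      rw [h1, ex_const, wt_succ, if_neg hd, mul_zero]

theorem ex_Ln_sq {p : ℝ} (h0 : 0 ≤ p) (h1 : p ≤ 1) {H : ℕ} (hM : 0 < Msum q p H)
    (T : Finset (DV q)) (K : ℕ) (z : DV q) {F : Finset (DE q)}
    (hF : (DL q).inn (blk q z.1 (z.1 + K * H) z.2) ⊆ F) :
    ex p F (fun ω => Ln q H T K ω z ^ 2) ≤
      ex p F (fun ω => Ln q H T K ω z) *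
        (1 + (q : ℝ) ^ H * ∑ j ∈ range K, Msum q p H ^ j) := by
  induction K generalizing z with
  | zero =>
    have e1 : (fun ω => Ln q H T 0 ω z) = fun _ => (1 : ℝ) := rfl
    have e2 : (fun ω => Ln q H T 0 ω z ^ 2) = fun _ => (1 : ℝ) ^ 2 := rfl
    rw [e1, e2, ex_const, ex_const]
    simp
  | succ K ih =>
    by_cases hd : Disjoint (bl q H z) T
    · have hbl : (DL q).inn (bl q H z) ⊆ F := inn_bl_subset.trans hF
      set L := lamps q z.1 (z.1 + H) with hL
      set c : ℝ := 1 + (q : ℝ) ^ H * ∑ j ∈ range K, Msum q p H ^ j with hc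
      have hcard : (L.card : ℝ) = (q : ℝ) ^ H := by
        rw [hL, card_lamps]
        simp
      have e1 : (fun ω => Ln q H T (K + 1) ω z ^ 2) = fun ω => ∑ h ∈ L, ∑ h' ∈ L,
          (ind H z h ω * Ln q H T K ω (mv q H z h)) *
            (ind H z h' ω * Ln q H T K ω (mv q H z h')) := by
        funext ω
        rw [Ln_disj hd, sq, sum_mul_sum]
      rw [e1, ex_sum p F L (fun h ω => ∑ h' ∈ L,
          (ind H z h ω * Ln q H T K ω (mv q H z h)) *
            (ind H z h' ω * Ln q H T K ω (mv q H z h')))]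
      rw [ex_Ln_succ hbl hd, sum_mul]
      refine sum_le_sum fun h hh => ?_
      rw [ex_sum p F L (fun h' ω => (ind H z h ω * Ln q H T K ω (mv q H z h)) *
            (ind H z h' ω * Ln q H T K ω (mv q H z h')))]
      set eh : ℝ := ex p F (fun ω => Ln q H T K ω (mv q H z h)) with heh
      have heh0 : 0 ≤ eh := ex_nonneg h0 h1 fun ω _ => Ln_nonneg H T K ω _
      have hth : 0 ≤ tau q p H z h := tau_nonneg h0 h1 H z h
      have hc0 : 0 ≤ c := by
        have : 0 ≤ ∑ j ∈ range K, Msum q p H ^ j := sum_nonneg fun j _ => pow_nonneg hM.le j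
        positivity
      have hbound : ∀ h' ∈ L, ex p F (fun ω => (ind H z h ω * Ln q H T K ω (mv q H z h)) *
            (ind H z h' ω * Ln q H T K ω (mv q H z h'))) ≤
          (if h' = h then tau q p H z h * eh * c else 0) +
            tau q p H z h * eh * Msum q p H ^ K := by
        intro h' hh'
        have hMK : 0 ≤ Msum q p H ^ K := pow_nonneg hM.le K
        by_cases hne : h' = h
        · subst hne
          rw [if_pos rfl]
          have e2 : (fun ω => (ind H z h' ω * Ln q H T K ω (mv q H z h')) *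
              (ind H z h' ω * Ln q H T K ω (mv q H z h'))) = fun ω =>
                ind H z h' ω * Ln q H T K ω (mv q H z h') ^ 2 := by
            funext ω
            have := ind_sq H z h' ω
            calc _ = (ind H z h' ω * ind H z h' ω) * Ln q H T K ω (mv q H z h') ^ 2 := by ring
              _ = _ := by rw [this]
          rw [e2, ex_indep (ind_dep H z h')
            ((dep_Ln H T K (mv q H z h')).comp (fun x => x ^ 2)) disj_bl_mv, ex_ind hbl]
          have e3 := ih (mv q H z h') ((inn_mv_subset (K := K) hh').trans hF)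
          have e4 : tau q p H z h' * ex p F (fun ω => Ln q H T K ω (mv q H z h') ^ 2) ≤
              tau q p H z h' * (eh * c) := mul_le_mul_of_nonneg_left e3 hth
          have e5 : 0 ≤ tau q p H z h' * eh * Msum q p H ^ K := by positivity
          linarith
        · rw [if_neg hne, zero_add]
          have e2 : (fun ω => (ind H z h ω * Ln q H T K ω (mv q H z h)) *
              (ind H z h' ω * Ln q H T K ω (mv q H z h'))) = fun ω =>
                (ind H z h ω * ind H z h' ω) *
                  (Ln q H T K ω (mv q H z h) * Ln q H T K ω (mv q H z h')) := by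
            funext ω
            ring
          have hdep1 : Dep (↑((DL q).inn (bl q H z)) : Set (DE q))
              (fun ω => ind H z h ω * ind H z h' ω) :=
            Dep.comp₂ (ind_dep H z h) (ind_dep H z h') (fun x y => x * y)
          have hdep2 : Dep ((↑((DL q).inn (blk q (mv q H z h).1 ((mv q H z h).1 + K * H)
              (mv q H z h).2)) : Set (DE q)) ∪
              (↑((DL q).inn (blk q (mv q H z h').1 ((mv q H z h').1 + K * H)
              (mv q H z h').2)) : Set (DE q)))
              (fun ω => Ln q H T K ω (mv q H z h) * Ln q H T K ω (mv q H z h')) :=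
            Dep.comp₂ ((dep_Ln H T K (mv q H z h)).mono Set.subset_union_left)
              ((dep_Ln H T K (mv q H z h')).mono Set.subset_union_right) (fun x y => x * y)
          have hdisj : Disjoint (↑((DL q).inn (bl q H z)) : Set (DE q))
              ((↑((DL q).inn (blk q (mv q H z h).1 ((mv q H z h).1 + K * H)
              (mv q H z h).2)) : Set (DE q)) ∪
              (↑((DL q).inn (blk q (mv q H z h').1 ((mv q H z h').1 + K * H)
              (mv q H z h').2)) : Set (DE q))) :=
            Set.disjoint_union_right.2 ⟨disj_bl_mv, disj_bl_mv⟩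
          rw [e2, ex_indep hdep1 hdep2 hdisj,
            ex_indep (dep_Ln H T K (mv q H z h)) (dep_Ln H T K (mv q H z h'))
              (disj_mv_mv hh hh' (Ne.symm hne))]
          have e3 : ex p F (fun ω => ind H z h ω * ind H z h' ω) ≤ tau q p H z h := by
            rw [← ex_ind (p := p) (h := h) hbl]
            refine ex_mono h0 h1 fun ω _ => ?_
            exact mul_le_of_le_one_right (ind_nonneg H z h ω) (ind_le_one H z h' ω)
          have e4 : ex p F (fun ω => Ln q H T K ω (mv q H z h')) ≤ Msum q p H ^ K := by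
            rw [ex_Ln hM T K (mv q H z h') ((inn_mv_subset (K := K) hh').trans hF)]
            exact mul_le_of_le_one_right hMK (wt_le_one h0 h1 hM T K _)
          have e5 : 0 ≤ ex p F (fun ω => Ln q H T K ω (mv q H z h')) :=
            ex_nonneg h0 h1 fun ω _ => Ln_nonneg H T K ω _
          calc ex p F (fun ω => ind H z h ω * ind H z h' ω) *
                (eh * ex p F (fun ω => Ln q H T K ω (mv q H z h')))
              ≤ tau q p H z h * (eh * Msum q p H ^ K) := by
                refine mul_le_mul e3 (mul_le_mul_of_nonneg_left e4 heh0) (by positivity) hth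
            _ = tau q p H z h * eh * Msum q p H ^ K := by ring
      refine (sum_le_sum hbound).trans (le_of_eq ?_)
      rw [sum_add_distrib, sum_ite_eq' L h, if_pos hh, sum_const, nsmul_eq_mul, hcard,
        sum_range_succ, hc]
      ring
    · have e1 : (fun ω => Ln q H T (K + 1) ω z) = fun _ => (0 : ℝ) := by
        funext ω
        rw [Ln_succ, if_neg hd]
      have e2 : (fun ω => Ln q H T (K + 1) ω z ^ 2) = fun _ => (0 : ℝ) := by
        funext ω
        rw [Ln_succ, if_neg hd]
        norm_num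
      rw [e1, e2, ex_const, zero_mul]

theorem line_prob {p : ℝ} (h0 : 0 ≤ p) (h1 : p ≤ 1) {H : ℕ} (hM : 1 < Msum q p H)
    (T : Finset (DV q)) (K : ℕ) (z : DV q) {F : Finset (DE q)}
    (hF : (DL q).inn (blk q z.1 (z.1 + K * H) z.2) ⊆ F) :
    wt q p H T K z ≤
      (1 + (q : ℝ) ^ H / (Msum q p H - 1)) * pr p F (fun ω => 0 < Ln q H T K ω z) := by
  have hM0 : 0 < Msum q p H := lt_trans zero_lt_one hM
  have hP0 : 0 ≤ pr p F (fun ω => 0 < Ln q H T K ω z) := pr_nonneg h0 h1 _ _
  have hQ0 : 0 ≤ (q : ℝ) ^ H := by positivity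
  have hM1 : 0 < Msum q p H - 1 := sub_pos.2 hM
  have hf0 : 0 ≤ 1 + (q : ℝ) ^ H / (Msum q p H - 1) := by positivity
  rcases (wt_nonneg h0 h1 hM0 T K z).eq_or_lt with hw | hw
  · rw [← hw]
    exact mul_nonneg hf0 hP0
  · have e1 := ex_sq_le h0 h1 (F := F) (f := fun ω => Ln q H T K ω z)
      (fun ω _ => Ln_nonneg H T K ω z)
    have e2 := ex_Ln_sq h0 h1 hM0 T K z hF
    have e3 := ex_Ln hM0 T K z hF
    set e : ℝ := ex p F (fun ω => Ln q H T K ω z) with he
    have hMK : 0 < Msum q p H ^ K := pow_pos hM0 K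
    have he0 : 0 < e := by rw [e3]; positivity
    set P := pr p F (fun ω => 0 < Ln q H T K ω z) with hP
    set c : ℝ := 1 + (q : ℝ) ^ H * ∑ j ∈ range K, Msum q p H ^ j with hc
    have e4 : e * e ≤ e * (c * P) := by
      calc e * e = e ^ 2 := by ring
        _ ≤ ex p F (fun ω => Ln q H T K ω z ^ 2) * P := e1
        _ ≤ (e * c) * P := mul_le_mul_of_nonneg_right e2 hP0
        _ = e * (c * P) := by ring
    have e5 : e ≤ c * P := le_of_mul_le_mul_left e4 he0
    have hMK1 : 1 ≤ Msum q p H ^ K := one_le_pow₀ hM.le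
    have e6 : c ≤ Msum q p H ^ K * (1 + (q : ℝ) ^ H / (Msum q p H - 1)) := by
      have hg : ∑ j ∈ range K, Msum q p H ^ j ≤ Msum q p H ^ K / (Msum q p H - 1) := by
        rw [geom_sum_eq hM.ne']
        exact div_le_div_of_nonneg_right (by linarith) hM1.le
      have hg2 := mul_le_mul_of_nonneg_left hg hQ0
      rw [hc, mul_add, mul_one]
      have : Msum q p H ^ K * ((q : ℝ) ^ H / (Msum q p H - 1)) =
          (q : ℝ) ^ H * (Msum q p H ^ K / (Msum q p H - 1)) := by ring
      rw [this]
      linarith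
    have e7 : Msum q p H ^ K * wt q p H T K z ≤
        Msum q p H ^ K * ((1 + (q : ℝ) ^ H / (Msum q p H - 1)) * P) := by
      rw [← e3]
      calc e ≤ c * P := e5
        _ ≤ (Msum q p H ^ K * (1 + (q : ℝ) ^ H / (Msum q p H - 1))) * P :=
          mul_le_mul_of_nonneg_right e6 hP0
        _ = _ := by ring
    exact le_of_mul_le_mul_left e7 hMK

end Pool.Agent.DLP
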