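import Pool.Agent.DLP.Shift

/-!
# DLP/LineDefs: lines of blocks (definitions only, COMPLETE FILE)

`H` = height of the blocks, `T` = forbidden finite vertex set.
`up z` = the `q ^ H` vertices `(n + H, f + h)` above `z = (n, f)`; `bl z` = the block of `z`.
`Ln T K ω z`: the number of open lines of `K` blocks which start at `z` and avoid `T`.
`wt T K z`: the same, averaged: the mass of the lines of `K` blocks avoiding `T` for the random
walk with the transition probabilities `cp / M`.
-/

namespace Pool.Agent.DLP

open Finset

variable (q : ℕ) [NeZero q]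

/-- The block of height `H` with `z` at its bottom level. -/
noncomputable def bl (H : ℕ) (z : DV q) : Finset (DV q) := blk q z.1 (z.1 + H) z.2

/-- The vertex above `z` with the lamp change `h`. -/
noncomputable def mv (H : ℕ) (z : DV q) (h : Lm q) : DV q := (z.1 + H, z.2 + h)

open Classical in
noncomputable def Ln (H : ℕ) (T : Finset (DV q)) : ℕ → Finset (DE q) → DV q → ℝ
  | 0, _, _ => 1
  | K + 1, ω, z =>
      if Disjoint (bl q H z) T then
        ∑ h ∈ lamps q z.1 (z.1 + H),
          (if (DL q).Reach (↑ω : Set (DE q)) (↑(bl q H z) : Set (DV q)) z (mv q H z h) then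
            Ln H T K ω (mv q H z h) else 0)
      else 0

/-- Probability that `z` and `mv z h` are connected inside the block of `z`. -/
noncomputable def tau (p : ℝ) (H : ℕ) (z : DV q) (h : Lm q) : ℝ :=
  cp q p z.1 (z.1 + H) z.2 z (mv q H z h)

open Classical in
noncomputable def wt (p : ℝ) (H : ℕ) (T : Finset (DV q)) : ℕ → DV q → ℝ
  | 0, _ => 1
  | K + 1, z =>
      if Disjoint (bl q H z) T then
        ∑ h ∈ lamps q z.1 (z.1 + H), tau q p H z h / Msum q p H * wt p H T K (mv q H z h)
      else 0

/-- The tops of the blocks of height `H` which contain `t`. -/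
noncomputable def tops (H : ℕ) (t : DV q) : Finset (DV q) :=
  (Finset.Icc t.1 (t.1 + H)).biUnion
    (fun m => (lamps q (m - H) m).image (fun h => (m, t.2 + h)))

end Pool.Agent.DLP
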