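import Pool.Agent.DLP.Inf1
import Pool.Agent.DLP.LineB
import Pool.Agent.DLP.Chain

/-!
# DLP/Theta: consequences of `p > pc`, and `pc ≤ 1/q`

* `exit_ge_of_Msum`: `Msum q p H > 1` implies that `(0,0)` exits every finite `Λ` with probability
  `≥ c > 0`: `line_prob` with `T = ∅` (`wt ∅ K z = 1` for all `K`, by induction with `sum_tau`), `K` so
  large that all levels of `Λ` are `< K H` (`H ≥ 1` because `Msum p 0 = 1`), and `Ln_reach`: the end
  point `z'` is not in `Λ`; `F = touch Λ ∪ inn (blk 0 (K H) 0)`, `pr_mono`, and `pr_dep` with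
  `Exit` depending on `touch Λ` only.
* `pc_le`: for `1/q < p ≤ 1`: `Msum q p 1 ≥ q p > 1` (`Msum_one`), so
  `perc {infinite} ≥ ofReal c > 0` (`perc_infinite_ge`), so `pc ≤ p` for all `p > 1/q`
  (`csInf_le`, bounded below by `0`).
* `theta_of_pc`: let `pc < p`. The set in the definition of `pc` is nonempty (it contains `p' = 1`
  because `1 > 1/q`), so there is `p' < p` in it (`exists_lt_of_csInf_lt`). `θ := perc {infinite}
  (toReal) > 0`. For `x ∈ Λ`: translate `x` to `(0,0)` (`exists_tr`, `exists_trAut`, `pr_exit_aut`),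
  and `perc {infinite} ≤ perc {Exit Λ' (0,0)} = ofReal (pr ..)` (`infinite_iff`, `perc_exit`).
  `p' > 0`: for `p' = 0` the exit probability from `Λ = {(0,0)}` is `0` (no open edges).
-/

namespace Pool.Agent.DLP

open Finset MeasureTheory

variable (q : ℕ) [NeZero q]

private theorem wt_empty {p : ℝ} {H : ℕ} (hM : 0 < Msum q p H) (K : ℕ) (z : DV q) :
    wt q p H ∅ K z = 1 := by
  classical
  induction K generalizing z with
  | zero => rfl
  | succ K ih =>
    have e1 : wt q p H ∅ (K + 1) z =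
        if Disjoint (bl q H z) (∅ : Finset (DV q)) then
          ∑ h ∈ lamps q z.1 (z.1 + H), tau q p H z h / Msum q p H * wt q p H ∅ K (mv q H z h)
        else 0 := rfl
    rw [e1, if_pos (Finset.disjoint_empty_right _)]
    have e2 : ∑ h ∈ lamps q z.1 (z.1 + H), tau q p H z h / Msum q p H * wt q p H ∅ K (mv q H z h) =
        ∑ h ∈ lamps q z.1 (z.1 + H), tau q p H z h / Msum q p H :=
      sum_congr rfl fun h _ => by rw [ih, mul_one]
    rw [e2, ← sum_div, sum_tau, div_self hM.ne']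

theorem exit_ge_of_Msum {p : ℝ} (h0 : 0 ≤ p) (h1 : p ≤ 1) {H : ℕ} (hM : 1 < Msum q p H) :
    ∃ c : ℝ, 0 < c ∧ ∀ Λ : Finset (DV q), (0, 0) ∈ Λ →
      c ≤ pr p ((DL q).touch Λ) (fun ω => (DL q).Exit Λ (↑ω : Set (DE q)) Set.univ (0, 0)) := by
  classical
  have hM0 : 0 < Msum q p H := lt_trans zero_lt_one hM
  have hH : 1 ≤ H := by
    by_contra h
    have hH0 : H = 0 := by omega
    subst hH0
    have h2 : Msum q p 0 ≤ 1 := by
      unfold Msum
      calc ∑ h ∈ lamps q 0 ((0 : ℕ) : ℤ), cp q p 0 ((0 : ℕ) : ℤ) 0 (0, 0) (((0 : ℕ) : ℤ), h)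
          ≤ ∑ h ∈ lamps q 0 ((0 : ℕ) : ℤ), (1 : ℝ) :=
            sum_le_sum fun h _ => pr_le_one h0 h1 _ _
        _ = 1 := by rw [sum_const, card_lamps]; simp
    linarith
  set c : ℝ := 1 + (q : ℝ) ^ H / (Msum q p H - 1) with hc
  have hM1 : 0 < Msum q p H - 1 := sub_pos.2 hM
  have hc0 : 0 < c := by positivity
  refine ⟨c⁻¹, inv_pos.2 hc0, fun Λ _ => ?_⟩
  obtain ⟨K, hK⟩ : ∃ K : ℕ, ∀ v ∈ Λ, v.1 < (K : ℤ) * H := by
    refine ⟨Λ.sup (fun v => v.1.toNat) + 1, fun v hv => ?_⟩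
    have e1 : v.1.toNat ≤ Λ.sup (fun v => v.1.toNat) := Finset.le_sup (f := fun v : DV q => v.1.toNat) hv
    have e2 : v.1 ≤ (v.1.toNat : ℤ) := Int.self_le_toNat _
    have e3 : ((v.1.toNat : ℕ) : ℤ) ≤ ((Λ.sup (fun v => v.1.toNat) : ℕ) : ℤ) := by exact_mod_cast e1
    have e4 : (1 : ℤ) ≤ (H : ℤ) := by exact_mod_cast hH
    have e5 : (0 : ℤ) ≤ ((Λ.sup (fun v => v.1.toNat) : ℕ) : ℤ) := Int.natCast_nonneg _
    push_cast
    nlinarith
  set U : Finset (DE q) := (DL q).inn (blk q (0 : ℤ) (0 + K * H) (0 : Lm q)) with hU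
  set F : Finset (DE q) := (DL q).touch Λ ∪ U with hF
  have s1 := line_prob h0 h1 hM (∅ : Finset (DV q)) K ((0, 0) : DV q) (F := F)
    subset_union_right
  rw [wt_empty q hM0] at s1
  have s2 : pr p F (fun ω => 0 < Ln q H ∅ K ω ((0, 0) : DV q)) ≤
      pr p F (fun ω : Finset (DE q) => (DL q).Exit Λ (↑ω : Set (DE q)) Set.univ (0, 0)) := by
    refine pr_mono h0 h1 fun ω _ hω => ?_
    obtain ⟨z', hz', hr⟩ := Ln_reach hω
    refine ⟨z', ?_, hr.mono (Set.Subset.refl _) (Set.subset_univ _)⟩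
    intro hzΛ
    have := hK z' hzΛ
    rw [hz'] at this
    simp at this
  have hdep : Dep {e : DE q | e ∈ (DL q).touch Λ ∧ (DL q).a e ∉ (∅ : Finset (DV q)) ∧
      (DL q).b e ∉ (∅ : Finset (DV q))}
      (fun ω : Finset (DE q) => (DL q).Exit Λ (↑ω : Set (DE q)) Set.univ (0, 0)) := by
    have h := Gr.dep_exit (DL q) Λ ∅ (0, 0)
    have hu : {y : DV q | y ∉ (∅ : Finset (DV q))} = Set.univ := by
      ext y
      simp
    rw [hu] at h
    exact h
  have s3 : pr p F (fun ω : Finset (DE q) => (DL q).Exit Λ (↑ω : Set (DE q)) Set.univ (0, 0)) =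
      pr p ((DL q).touch Λ)
        (fun ω : Finset (DE q) => (DL q).Exit Λ (↑ω : Set (DE q)) Set.univ (0, 0)) := by
    refine pr_dep hdep fun i hi => ?_
    exact ⟨fun _ => hi.1, fun h => subset_union_left h⟩
  rw [← s3]
  rw [inv_eq_one_div, div_le_iff₀ hc0]
  calc (1 : ℝ) ≤ c * pr p F (fun ω => 0 < Ln q H ∅ K ω ((0, 0) : DV q)) := s1
    _ ≤ c * pr p F (fun ω : Finset (DE q) =>
        (DL q).Exit Λ (↑ω : Set (DE q)) Set.univ (0, 0)) :=
        mul_le_mul_of_nonneg_left s2 hc0.le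
    _ = _ := mul_comm _ _

private theorem mem_pcSet (hq : 2 ≤ q) {p : unitInterval} (hp : 1 / (q : ℝ) < p) :
    0 < perc (DE q) p {ω | ((DL q).cluster ω (0, 0)).Infinite} := by
  have hq0 : (0 : ℝ) < q := by
    have : 0 < q := by omega
    exact_mod_cast this
  have h0 : (0 : ℝ) ≤ p := p.2.1
  have h1 : (p : ℝ) ≤ 1 := p.2.2
  have hM : 1 < Msum q (p : ℝ) 1 := by
    refine lt_of_lt_of_le ?_ (Msum_one q h0 h1)
    rw [div_lt_iff₀ hq0] at hp
    linarith
  obtain ⟨c, hc, hΛ⟩ := exit_ge_of_Msum q h0 h1 hM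
  refine lt_of_lt_of_le ?_ (Gr.perc_infinite_ge (DL q) p (0, 0) hΛ)
  exact ENNReal.ofReal_pos.2 hc

private theorem bdd_pcSet : BddBelow {r : ℝ | ∃ p : unitInterval, (p : ℝ) = r ∧
    0 < perc (DE q) p {ω | ((DL q).cluster ω (0, 0)).Infinite}} := by
  refine ⟨0, ?_⟩
  rintro r ⟨p, rfl, _⟩
  exact p.2.1

theorem pc_le (hq : 2 ≤ q) : pc q ≤ 1 / q := by
  have hq2 : (2 : ℝ) ≤ q := by exact_mod_cast hq
  have hq0 : (0 : ℝ) < q := by linarith
  have hinv : 1 / (q : ℝ) < 1 := by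
    rw [div_lt_one hq0]
    linarith
  have hinv0 : 0 < 1 / (q : ℝ) := by positivity
  by_contra hcon
  rw [not_le] at hcon
  set r : ℝ := min 1 ((1 / (q : ℝ) + pc q) / 2) with hr
  have hr1 : 1 / (q : ℝ) < r := by
    rw [hr, lt_min_iff]
    exact ⟨hinv, by linarith⟩
  have hr2 : r ≤ 1 := min_le_left _ _
  have hr3 : r < pc q := lt_of_le_of_lt (min_le_right _ _) (by linarith)
  have h2 : pc q ≤ r := csInf_le (bdd_pcSet q)
    ⟨⟨r, by linarith, hr2⟩, rfl, mem_pcSet q hq hr1⟩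
  linarith

/-- With `p = 0` no edge is open. -/
private theorem ex_zero {ι : Type} [DecidableEq ι] (F : Finset ι) (f : Finset ι → ℝ) :
    ex 0 F f = f ∅ := by
  induction F using Finset.induction_on with
  | empty => exact ex_empty 0 f
  | insert i F hi ih => rw [ex_insert 0 hi f, ih]; ring

theorem theta_of_pc (hq : 2 ≤ q) {p : unitInterval} (hp : pc q < p) :
    ∃ p' θ : ℝ, 0 < p' ∧ p' < p ∧ 0 < θ ∧ ∀ (Λ : Finset (DV q)), ∀ x ∈ Λ,
      θ ≤ pr p' ((DL q).touch Λ) (fun ω => (DL q).Exit Λ (↑ω : Set (DE q)) Set.univ x) := by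
  classical
  have hq2 : (2 : ℝ) ≤ q := by exact_mod_cast hq
  have hq0 : (0 : ℝ) < q := by linarith
  have hinv : 1 / (q : ℝ) < 1 := by
    rw [div_lt_one hq0]
    linarith
  have hne : {r : ℝ | ∃ p : unitInterval, (p : ℝ) = r ∧
      0 < perc (DE q) p {ω | ((DL q).cluster ω (0, 0)).Infinite}}.Nonempty :=
    ⟨1, 1, rfl, mem_pcSet q hq (p := 1) hinv⟩
  obtain ⟨r, ⟨p', rfl, hpos⟩, hlt⟩ := exists_lt_of_csInf_lt hne hp
  set S : Set (DE q → Bool) := {ω | ((DL q).cluster ω (0, 0)).Infinite} with hS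
  have : IsProbabilityMeasure (perc (DE q) p') := by
    unfold perc
    infer_instance
  have hfin : perc (DE q) p' S ≠ ⊤ := measure_ne_top _ _
  set θ : ℝ := (perc (DE q) p' S).toReal with hθ
  have hθ0 : 0 < θ := ENNReal.toReal_pos hpos.ne' hfin
  have h0' : (0 : ℝ) ≤ p' := p'.2.1
  have h1' : (p' : ℝ) ≤ 1 := p'.2.2
  have hbase : ∀ Λ : Finset (DV q), (0, 0) ∈ Λ → θ ≤ pr (p' : ℝ) ((DL q).touch Λ)
      (fun ω => (DL q).Exit Λ (↑ω : Set (DE q)) Set.univ (0, 0)) := by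
    intro Λ hΛ
    have e1 : perc (DE q) p' S ≤
        perc (DE q) p' {ω | (DL q).Exit Λ (Gr.opn ω) Set.univ (0, 0)} := by
      refine measure_mono fun ω hω => ?_
      exact (Gr.infinite_iff (DL q) ω (0, 0)).1 hω Λ hΛ
    rw [Gr.perc_exit] at e1
    exact ENNReal.toReal_le_of_le_ofReal (pr_nonneg h0' h1' _ _) e1
  have hall : ∀ (Λ : Finset (DV q)), ∀ x ∈ Λ,
      θ ≤ pr (p' : ℝ) ((DL q).touch Λ)
        (fun ω => (DL q).Exit Λ (↑ω : Set (DE q)) Set.univ x) := by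
    intro Λ x hx
    obtain ⟨m, φ, htr⟩ := exists_tr x ((0, 0) : DV q)
    obtain ⟨A, hA⟩ := exists_trAut m φ
    have h := Gr.pr_exit_aut A (p' : ℝ) Λ x
    have hAx : A.v x = (0, 0) := by rw [hA, htr]
    rw [hAx] at h
    rw [← h]
    refine hbase _ ?_
    rw [← hAx]
    exact Finset.mem_map_of_mem A.v.toEmbedding hx
  refine ⟨p', θ, ?_, hlt, hθ0, hall⟩
  rcases h0'.eq_or_lt with h | h
  · exfalso
    have e1 := hall {(0, 0)} (0, 0) (mem_singleton_self _)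
    rw [← h] at e1
    have e2 : pr (0 : ℝ) ((DL q).touch {((0, 0) : DV q)})
        (fun ω => (DL q).Exit {((0, 0) : DV q)} (↑ω : Set (DE q)) Set.univ (0, 0)) = 0 := by
      unfold pr
      rw [ex_zero]
      rw [if_neg]
      rintro ⟨y, hy, hr⟩
      obtain ⟨e, he, _⟩ := hr.first_exit (B := {((0, 0) : DV q)}) (mem_singleton_self _) hy
      simp at he
    rw [e2] at e1
    linarith
  · exact h

end Pool.Agent.DLP
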