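import Pool.Agent.DLP.Iso
import Pool.Agent.DLP.Core
import Pool.Agent.DLP.Theta
import Pool.Agent.DLP.AJ

/-!
# DLP/MainA: anchored isoperimetry for vertex sets

Case `p < 1`. `theta_of_pc` gives `0 < p' < p` and `θ`; `exists_Aj`, `exists_Msum` (at `p'`) give `H₀`
with `Msum q p' H₀ > 1`; let `p₀ = (p' + p)/2`; `disc_bound` (`p₁ = p'`, `p = p₀`) gives `c`:
`P_{p₀}(Disc Λ T) ≤ exp(-c |T|/log(|T|+1))`. `bad_prob` (`p₀ < p < 1`) gives `ε₁, C`. For
`L = c n / log (n+1)` the hypothesis of `bad_prob` holds (`div_log_mono` for `n ≥ 1`; for `n = 0`,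
`L = 0` and probabilities are `≤ 1`). So with `ε = ε₁ c`:
`perc {Bad v ω n (ε n/log(n+1))} ≤ C exp(-ε n/log(n+1))`. Then `bad_ae` with
`y n = C exp(-ε n / log(n+1))` (`summable_log`).

Case `p = 1`: let `c` be from `iso_lower`, `ε = c/2`. If all the edges are open (`perc_one`) then
`Bad v ω n (ε n/log(n+1))` is impossible: `H ∋ v` is nonempty, `|cut H| ≥ c |H| / log(|H|+1) >
ε |H|/log(|H|+1) ≥ ε n / log (n+1)` (for `n = 0` the right side is `0 < |cut H|`).
So the probability is `0`.
-/

namespace Pool.Agent.DLP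

open Finset MeasureTheory

variable (q : ℕ) [NeZero q]

private theorem div_log_le {n k : ℕ} (h : n ≤ k) :
    (n : ℝ) / Real.log (n + 1) ≤ (k : ℝ) / Real.log (k + 1) := by
  rcases Nat.eq_zero_or_pos n with hn | hn
  · rw [hn]
    simp only [Nat.cast_zero, zero_div]
    have : 0 ≤ Real.log ((k : ℝ) + 1) := Real.log_nonneg (by
      have := Nat.cast_nonneg (α := ℝ) k
      linarith)
    positivity
  · exact div_log_mono hn h

theorem core_sets (hq : 2 ≤ q) {p : unitInterval} (hp : pc q < p) :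
    ∃ ε : ℝ, 0 < ε ∧ ∃ C : ℝ, 0 < C ∧ ∀ v : DV q,
      (∀ n : ℕ, perc (DE q) p {ω | (DL q).Bad v ω n (ε * n / Real.log (n + 1))} ≤
        ENNReal.ofReal (C * Real.exp (-(ε * n / Real.log (n + 1))))) ∧
      ∀ᵐ ω ∂(perc (DE q) p), ∃ n₀ : ℕ, ∀ H : Finset (DV q), v ∈ H → n₀ ≤ H.card →
        (∀ z ∈ H, (DL q).Reach (Gr.opn ω) (↑H : Set (DV q)) v z) →
        ε * H.card / Real.log (H.card + 1) <
          ((((DL q).cut H).filter (fun e => ω e = true)).card : ℝ) := by
  -- it is enough to have the first part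
  suffices hmain : ∃ ε : ℝ, 0 < ε ∧ ∃ C : ℝ, 0 < C ∧ ∀ v : DV q,
      ∀ n : ℕ, perc (DE q) p {ω | (DL q).Bad v ω n (ε * n / Real.log (n + 1))} ≤
        ENNReal.ofReal (C * Real.exp (-(ε * n / Real.log (n + 1)))) by
    obtain ⟨ε, hε, C, hC, h⟩ := hmain
    refine ⟨ε, hε, C, hC, fun v => ⟨h v, ?_⟩⟩
    exact (DL q).bad_ae v p (fun n => ε * n / Real.log (n + 1))
      (fun n => C * Real.exp (-(ε * n / Real.log (n + 1))))
      ((summable_log hε).mul_left C) (fun n => by positivity) (h v)
  have hple : (p : ℝ) ≤ 1 := p.2.2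
  rcases hple.eq_or_lt with hp1 | hp1
  · obtain ⟨c, hc, hiso⟩ := iso_lower q hq
    refine ⟨c / 2, by positivity, 1, one_pos, fun v n => ?_⟩
    have hpe : p = 1 := Subtype.ext hp1
    have hone := perc_one (E := DE q)
    rw [← hpe] at hone
    have hzero : perc (DE q) p
        {ω | (DL q).Bad v ω n (c / 2 * n / Real.log (n + 1))} = 0 := by
      have hae : ∀ᵐ ω ∂(perc (DE q) p),
          ¬ (DL q).Bad v ω n (c / 2 * n / Real.log (n + 1)) := by
        filter_upwards [hone] with ω hω
        rintro ⟨H, hvH, hnH, _, hcut⟩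
        have h1 : ((DL q).cut H).filter (fun e => ω e = true) = (DL q).cut H :=
          Finset.filter_true_of_mem fun e _ => hω e
        rw [h1] at hcut
        have h2 := hiso H ⟨v, hvH⟩
        have h3 := div_log_le hnH
        have hH1 : (1 : ℝ) ≤ H.card := by
          exact_mod_cast Finset.card_pos.2 ⟨v, hvH⟩
        have h4 : 0 < (H.card : ℝ) / Real.log (H.card + 1) :=
          div_pos (by linarith) (Real.log_pos (by linarith))
        have h5 : c * H.card / Real.log (H.card + 1) =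
            c * (H.card / Real.log (H.card + 1)) := by ring
        have h6 : c / 2 * n / Real.log (n + 1) = c / 2 * (n / Real.log (n + 1)) := by ring
        rw [h5] at h2
        rw [h6] at hcut
        have h7 : c / 2 * (n / Real.log (n + 1)) ≤ c / 2 * (H.card / Real.log (H.card + 1)) :=
          mul_le_mul_of_nonneg_left h3 (by positivity)
        have h8 : 0 < c * (H.card / Real.log (H.card + 1)) := by positivity
        linarith
      rw [ae_iff] at hae
      simpa using hae
    rw [hzero]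
    exact bot_le
  · obtain ⟨p', θ, hp'0, hp'p, hθ, hexit⟩ := theta_of_pc q hq hp
    obtain ⟨j, N, hAj⟩ := exists_Aj q hq hp'0 (by linarith) hθ hexit
    obtain ⟨H₀, hH₀⟩ := exists_Msum q hp'0 (by linarith) hAj
    obtain ⟨c, hc, hdisc⟩ := disc_bound (q := q) (p₁ := p') (p := (p' + p) / 2) hp'0
      (by linarith) (by linarith) hH₀
    obtain ⟨ε₁, hε₁, C, hC, hbad⟩ := Gr.bad_prob (p₀ := (p' + p) / 2) (p := p)
      (by linarith) (by linarith) hp1
    refine ⟨ε₁ * c, by positivity, C, hC, fun v n => ?_⟩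
    have e : ε₁ * c * n / Real.log (n + 1) = ε₁ * (c * n / Real.log (n + 1)) := by ring
    rw [e]
    refine hbad (DV q) (DE q) (DL q) v n (c * n / Real.log (n + 1)) ?_
    intro Λ H _ hvH hnH
    refine (hdisc Λ H ⟨v, hvH⟩).trans (Real.exp_le_exp.2 ?_)
    have h3 := div_log_le hnH
    have h5 : c * H.card / Real.log (H.card + 1) =
        c * (H.card / Real.log (H.card + 1)) := by ring
    have h6 : c * n / Real.log (n + 1) = c * (n / Real.log (n + 1)) := by ring
    rw [h5, h6]
    have := mul_le_mul_of_nonneg_left h3 hc.le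
    linarith

end Pool.Agent.DLP
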