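import Pool.Agent.DLP.FlowB
import Pool.Agent.DLP.Trick

/-!
# DLP/Phi: accessible boundary of every finite set; disconnection probability

`phi_lower`. `Msum > 1` forces `H ≥ 1` (`Msum p 0 = 1`: `lamps 0 0 = {0}`, one term
`P((0,0) ↔ (0,0)) = 1`). Choose a residue `r ∈ {0..H-1}` with
`|{x ∈ T : x.1 ≡ r}| ≥ |T| / H` (pigeonhole: the `H` classes partition `T`). Choose `K₀ ≥ 1` such that
`v.1 < y.1 + K₀ H` for all `v ∈ Λ`, `y ∈ Y = T.biUnion (tops H)`. For `y ∈ Y`, `y.1 ≡ r`, with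
`wt T K₀ y > 0`: the block `bl y` is disjoint from `T`, so `y ∉ T`; by `mem_tops` some `t ∈ T` is in
the block below `y`; `acc_line` gives `e(y) ∈ cut T ∩ inn (blk (y.1-H) y.1 y.2)` with
`p^{2H} P(0 < Ln) ≤ acc e(y)` and `line_prob` (`F` = the edge set itself)
`wt T K₀ y ≤ (1 + q^H/(M-1)) P(0 < Ln)`.
For a given edge `e` there are at most `q^H` such `y` with `e(y) = e`: `e ∈ inn (blk (y.1-H) y.1 y.2)`
and `y.1 ≡ r` determine `y.1` (`y.1 - H ≤ e.1.1 < y.1`), and `y.2 ∈ e.1.2 - lamps (y.1-H) y.1`.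
So `∑_y wt y ≤ (1 + q^H/(M-1)) p^{-2H} q^H ∑_{e ∈ cut T} acc e`, and
with `flow_bound`: `|T|/H ≤ C log(|T|+1) ∑_y wt y`.

`disc_bound`: `trick` with `Φ = c |T| / log (|T| + 1)`: for `T ⊆ S ⊆ Λ` nonempty,
`|S| / log(|S|+1) ≥ |T|/log(|T|+1)` (`x / log (x+1)` is increasing on `x > 0`), so
`P_{p}(Disc Λ T) ≤ ((1-p)/(1-p₁))^Φ = exp(-c' |T| / log(|T|+1))`,
`c' = c log((1-p₁)/(1-p)) > 0`. (If `T ⊄ Λ` or `T = ∅`: `T = ∅` gives `exp 0 = 1`.)
-/

namespace Pool.Agent.DLP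

open Finset

variable {q : ℕ} [NeZero q]

private theorem ph_H {p : ℝ} (h0 : 0 ≤ p) (h1 : p ≤ 1) {H : ℕ} (hM : 1 < Msum q p H) :
    1 ≤ H := by
  by_contra hcon
  have hH : H = 0 := by omega
  subst hH
  have h2 : Msum q p 0 ≤ ∑ _h ∈ lamps q 0 ((0 : ℕ) : ℤ), (1 : ℝ) :=
    sum_le_sum fun h _ => pr_le_one h0 h1 _ _
  rw [sum_const, nsmul_eq_mul, mul_one, card_lamps] at h2
  simp at h2
  linarith

private theorem ph_level {H : ℕ} {r a b m : ℤ} (ha : (H : ℤ) ∣ a - r) (hb : (H : ℤ) ∣ b - r)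
    (h1 : a - H ≤ m) (h2 : m + 1 ≤ a) (h3 : b - H ≤ m) (h4 : m + 1 ≤ b) : a = b := by
  have h5 : (H : ℤ) ∣ a - b := by
    have := dvd_sub ha hb
    rwa [sub_sub_sub_cancel_right] at this
  have h6 : a - b = 0 := by
    refine Int.eq_zero_of_abs_lt_dvd h5 ?_
    rw [abs_lt]
    constructor <;> linarith
  linarith

private theorem ph_count {H : ℕ} (Y : Finset (DV q)) (r : ℤ)
    (hY : ∀ y ∈ Y, (H : ℤ) ∣ y.1 - r) (e : DE q) :
    ((Y.filter (fun y => e ∈ (DL q).inn (blk q (y.1 - H) y.1 y.2))).card : ℝ) ≤ (q : ℝ) ^ H := by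
  classical
  rcases (Y.filter (fun y => e ∈ (DL q).inn (blk q (y.1 - H) y.1 y.2))).eq_empty_or_nonempty
    with h | ⟨y0, hy0⟩
  · rw [h, card_empty, Nat.cast_zero]
    positivity
  · rw [mem_filter, mem_inn_blk] at hy0
    have h1 : (Y.filter (fun y => e ∈ (DL q).inn (blk q (y.1 - H) y.1 y.2))).card ≤
        (lamps q (y0.1 - H) y0.1).card := by
      refine card_le_card_of_injOn (fun y => e.1.2 - y.2) ?_ ?_
      · intro y hy
        rw [mem_coe, mem_filter, mem_inn_blk] at hy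
        have h2 : y.1 = y0.1 := ph_level (hY y hy.1) (hY y0 hy0.1) hy.2.1 hy.2.2.1 hy0.2.1
          hy0.2.2.1
        rw [mem_coe, ← h2]
        exact hy.2.2.2
      · intro y hy y' hy' hyy
        rw [mem_coe, mem_filter, mem_inn_blk] at hy hy'
        have h2 : y.1 = y'.1 := ph_level (hY y hy.1) (hY y' hy'.1) hy.2.1 hy.2.2.1 hy'.2.1
          hy'.2.2.1
        have h3 : e.1.2 - y.2 = e.1.2 - y'.2 := hyy
        exact Prod.ext h2 (sub_right_injective h3)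
    rw [card_lamps] at h1
    have h4 : (y0.1 - (y0.1 - (H : ℤ))).toNat = H := by
      rw [sub_sub_cancel, Int.toNat_natCast]
    rw [h4] at h1
    exact_mod_cast h1

omit [NeZero q] in
private theorem ph_K (A B : Finset (DV q)) {H : ℕ} (hH : 1 ≤ H) :
    ∃ K : ℕ, 1 ≤ K ∧ ∀ v ∈ A, ∀ y ∈ B, v.1 < y.1 + K * H := by
  obtain ⟨N, hN⟩ : ∃ N : ℕ, ∀ v ∈ A ∪ B, v.1.natAbs ≤ N :=
    ⟨(A ∪ B).sup (fun v => v.1.natAbs), fun v hv => le_sup (f := fun v : DV q => v.1.natAbs) hv⟩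
  refine ⟨2 * N + 1, by omega, fun v hv y hy => ?_⟩
  have h1 := hN v (mem_union_left _ hv)
  have h2 := hN y (mem_union_right _ hy)
  have h3 : ((2 * N + 1 : ℕ) : ℤ) * 1 ≤ ((2 * N + 1 : ℕ) : ℤ) * (H : ℤ) :=
    mul_le_mul_of_nonneg_left (by exact_mod_cast hH) (by positivity)
  push_cast at h3 ⊢
  omega

private theorem ph_wt {p : ℝ} (h0 : 0 < p) (h1 : p ≤ 1) {H : ℕ} (hH : 1 ≤ H)
    (hM : 1 < Msum q p H) {Λ T : Finset (DV q)} {K : ℕ} (hK : 1 ≤ K) {y : DV q}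
    (hy : y ∈ T.biUnion (tops q H)) (hΛ : ∀ v ∈ Λ, v.1 < y.1 + K * H) :
    wt q p H T K y ≤ (1 + (q : ℝ) ^ H / (Msum q p H - 1)) / p ^ (2 * H) *
      ∑ e ∈ ((DL q).cut T).filter (fun e => e ∈ (DL q).inn (blk q (y.1 - H) y.1 y.2)),
        (DL q).acc p Λ T e := by
  classical
  have hM1 : 0 < Msum q p H - 1 := sub_pos.2 hM
  have hp : 0 < p ^ (2 * H) := pow_pos h0 _
  have hc : 0 < 1 + (q : ℝ) ^ H / (Msum q p H - 1) := by positivity
  have hacc : ∀ e, 0 ≤ (DL q).acc p Λ T e := fun e => pr_nonneg h0.le h1 _ _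
  by_cases hw : wt q p H T K y = 0
  · rw [hw]
    exact mul_nonneg (div_nonneg hc.le hp.le) (sum_nonneg fun e _ => hacc e)
  · have hyT : y ∉ T := by
      intro hyT
      apply hw
      obtain ⟨k, rfl⟩ : ∃ k, K = k + 1 := ⟨K - 1, by omega⟩
      show (if Disjoint (bl q H y) T then
        ∑ h ∈ lamps q y.1 (y.1 + H), tau q p H y h / Msum q p H * wt q p H T k (mv q H y h)
        else 0) = 0
      rw [if_neg]
      intro hd
      refine disjoint_left.1 hd ?_ hyT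
      unfold bl
      rw [mem_blk]
      refine ⟨le_rfl, by linarith [(Nat.cast_nonneg H : (0 : ℤ) ≤ H)], ?_⟩
      rw [sub_self]
      exact zero_mem_lamps _ _
    rw [mem_biUnion] at hy
    obtain ⟨t, ht, hyt⟩ := hy
    rw [mem_tops] at hyt
    obtain ⟨e, he1, he2, he3⟩ := acc_line h0.le h1 hH hK ht hyt hΛ hyT
    have h3 := line_prob h0.le h1 hM T K y (F := (DL q).inn (blk q y.1 (y.1 + K * H) y.2))
      subset_rfl
    refine h3.trans ?_
    rw [div_mul_eq_mul_div, le_div_iff₀ hp, mul_assoc]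
    refine mul_le_mul_of_nonneg_left ?_ hc.le
    rw [mul_comm]
    refine he3.trans ?_
    exact single_le_sum (f := fun e => (DL q).acc p Λ T e) (fun e _ => hacc e)
      (mem_filter.2 ⟨he1, he2⟩)

private theorem ph_log {n : ℕ} (hn : 1 ≤ n) : 0 < Real.log ((n : ℝ) + 1) := by
  apply Real.log_pos
  have : (1 : ℝ) ≤ n := by exact_mod_cast hn
  linarith

theorem phi_lower {p : ℝ} (h0 : 0 < p) (h1 : p ≤ 1) {H : ℕ} (hM : 1 < Msum q p H) :
    ∃ c : ℝ, 0 < c ∧ ∀ Λ T : Finset (DV q), T ⊆ Λ → T.Nonempty →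
      c * T.card / Real.log (T.card + 1) ≤ ∑ e ∈ (DL q).cut T, (DL q).acc p Λ T e := by
  classical
  have hH := ph_H h0.le h1 hM
  have hHr : (0 : ℝ) < H := by exact_mod_cast hH
  obtain ⟨C, hC, hflow⟩ := flow_bound h0.le h1 hH hM
  have hM1 : 0 < Msum q p H - 1 := sub_pos.2 hM
  have hq : (0 : ℝ) < q := by exact_mod_cast Nat.pos_of_ne_zero (NeZero.ne q)
  obtain ⟨c1, hc1⟩ : ∃ c1 : ℝ, c1 = (1 + (q : ℝ) ^ H / (Msum q p H - 1)) / p ^ (2 * H) :=
    ⟨_, rfl⟩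
  have hc1pos : 0 < c1 := by
    rw [hc1]
    positivity
  refine ⟨1 / (H * C * c1 * (q : ℝ) ^ H), by positivity, ?_⟩
  intro Λ T hT hTne
  have hcard : 1 ≤ T.card := hTne.card_pos
  have hlog := ph_log hcard
  have hacc : ∀ e, 0 ≤ (DL q).acc p Λ T e := fun e => pr_nonneg h0.le h1 _ _
  -- the residue
  obtain ⟨r, _, hr⟩ := exists_le_card_fiber_of_nsmul_le_card_of_maps_to (s := T)
    (t := Ico (0 : ℤ) H) (f := fun x : DV q => x.1 % (H : ℤ)) (b := (T.card : ℝ) / H)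
    (by
      intro x _
      rw [mem_Ico]
      have : (0 : ℤ) < H := by exact_mod_cast hH
      exact ⟨Int.emod_nonneg _ this.ne', Int.emod_lt_of_pos _ this⟩)
    (by
      rw [nonempty_Ico]
      exact_mod_cast hH)
    (by
      rw [Int.card_Ico, sub_zero, Int.toNat_natCast, nsmul_eq_mul]
      rw [mul_div_cancel₀ _ hHr.ne'])
  have hr2 : (T.card : ℝ) / H ≤ ((T.filter (fun x => (H : ℤ) ∣ x.1 - r)).card : ℝ) := by
    refine hr.trans ?_
    have : (T.filter (fun x : DV q => x.1 % (H : ℤ) = r)) ⊆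
        T.filter (fun x => (H : ℤ) ∣ x.1 - r) := by
      intro x hx
      rw [mem_filter] at hx ⊢
      refine ⟨hx.1, ?_⟩
      rw [← hx.2]
      exact Int.dvd_self_sub_emod
    exact_mod_cast card_le_card this
  obtain ⟨K, hK, hKlev⟩ := ph_K Λ (T.biUnion (tops q H)) hH
  have h2 := hflow T hTne r K
  obtain ⟨Y, hY⟩ : ∃ Y, Y = (T.biUnion (tops q H)).filter (fun y => (H : ℤ) ∣ y.1 - r) := ⟨_, rfl⟩
  rw [← hY] at h2
  have hYr : ∀ y ∈ Y, (H : ℤ) ∣ y.1 - r := fun y hy => by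
    rw [hY, mem_filter] at hy
    exact hy.2
  have h3 : ∑ y ∈ Y, wt q p H T K y ≤ c1 * ((q : ℝ) ^ H *
      ∑ e ∈ (DL q).cut T, (DL q).acc p Λ T e) := by
    have h4 : ∑ y ∈ Y, wt q p H T K y ≤ ∑ y ∈ Y, c1 *
        ∑ e ∈ ((DL q).cut T).filter (fun e => e ∈ (DL q).inn (blk q (y.1 - H) y.1 y.2)),
          (DL q).acc p Λ T e := by
      refine sum_le_sum fun y hy => ?_
      rw [hc1]
      rw [hY, mem_filter] at hy
      exact ph_wt h0 h1 hH hM hK hy.1 (fun v hv => hKlev v hv y hy.1)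
    refine h4.trans ?_
    rw [← mul_sum]
    refine mul_le_mul_of_nonneg_left ?_ hc1pos.le
    have h5 : ∑ y ∈ Y, ∑ e ∈ ((DL q).cut T).filter
          (fun e => e ∈ (DL q).inn (blk q (y.1 - H) y.1 y.2)), (DL q).acc p Λ T e =
        ∑ e ∈ (DL q).cut T, ((Y.filter
          (fun y => e ∈ (DL q).inn (blk q (y.1 - H) y.1 y.2))).card : ℝ) *
            (DL q).acc p Λ T e := by
      have h6 : ∀ y ∈ Y, ∑ e ∈ ((DL q).cut T).filter
          (fun e => e ∈ (DL q).inn (blk q (y.1 - H) y.1 y.2)), (DL q).acc p Λ T e =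
          ∑ e ∈ (DL q).cut T, if e ∈ (DL q).inn (blk q (y.1 - H) y.1 y.2) then
            (DL q).acc p Λ T e else 0 := fun y _ => sum_filter _ _
      rw [sum_congr rfl h6, sum_comm]
      refine sum_congr rfl fun e _ => ?_
      rw [← sum_filter, sum_const, nsmul_eq_mul]
    rw [h5, mul_sum]
    refine sum_le_sum fun e _ => ?_
    exact mul_le_mul_of_nonneg_right (ph_count Y r hYr e) (hacc e)
  have hS : 0 ≤ ∑ e ∈ (DL q).cut T, (DL q).acc p Λ T e := sum_nonneg fun e _ => hacc e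
  have h7 : (T.card : ℝ) / H ≤ C * Real.log (T.card + 1) * (c1 * ((q : ℝ) ^ H *
      ∑ e ∈ (DL q).cut T, (DL q).acc p Λ T e)) :=
    hr2.trans (h2.trans (mul_le_mul_of_nonneg_left h3 (by positivity)))
  rw [div_le_iff₀ hHr] at h7
  rw [div_le_iff₀ hlog, one_div_mul_eq_div, div_le_iff₀ (by positivity)]
  refine h7.trans (le_of_eq ?_)
  ring

theorem div_log_mono {m n : ℕ} (hm : 1 ≤ m) (hmn : m ≤ n) :
    (m : ℝ) / Real.log (m + 1) ≤ (n : ℝ) / Real.log (n + 1) := by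
  have hm0 : (0 : ℝ) < m := by exact_mod_cast hm
  have hn0 : (0 : ℝ) < n := by exact_mod_cast (hm.trans hmn)
  rw [div_le_div_iff₀ (ph_log hm) (ph_log (hm.trans hmn))]
  have h1 : 1 ≤ (n : ℝ) / m := by
    rw [le_div_iff₀ hm0, one_mul]
    exact_mod_cast hmn
  have h2 := one_add_mul_self_le_rpow_one_add (s := (m : ℝ)) (by linarith) h1
  rw [div_mul_cancel₀ _ hm0.ne'] at h2
  have h3 := Real.log_le_log (by linarith) h2
  rw [Real.log_rpow (by linarith)] at h3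
  rw [add_comm 1 (n : ℝ), add_comm 1 (m : ℝ)] at h3
  calc (m : ℝ) * Real.log (n + 1) ≤ m * ((n : ℝ) / m * Real.log (m + 1)) :=
        mul_le_mul_of_nonneg_left h3 hm0.le
    _ = n * Real.log (m + 1) := by
        rw [← mul_assoc, mul_div_cancel₀ _ hm0.ne']

theorem disc_bound {p₁ p : ℝ} (h0 : 0 < p₁) (h01 : p₁ < p) (h1 : p < 1) {H : ℕ}
    (hM : 1 < Msum q p₁ H) :
    ∃ c : ℝ, 0 < c ∧ ∀ Λ T : Finset (DV q), T.Nonempty →
      pr p ((DL q).touch Λ) (fun ω => (DL q).Disc Λ T ω) ≤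
        Real.exp (-(c * T.card / Real.log (T.card + 1))) := by
  obtain ⟨c0, hc0, hphi⟩ := phi_lower h0 (h01.le.trans h1.le) hM
  have h2 : 0 < 1 - p := by linarith
  have h3 : 0 < 1 - p₁ := by linarith
  have hκ : 0 < (1 - p) / (1 - p₁) := div_pos h2 h3
  have hκ1 : (1 - p) / (1 - p₁) < 1 := by
    rw [div_lt_one h3]
    linarith
  have hlogκ : 0 < -Real.log ((1 - p) / (1 - p₁)) := by
    have := Real.log_neg hκ hκ1
    linarith
  refine ⟨c0 * (-Real.log ((1 - p) / (1 - p₁))), mul_pos hc0 hlogκ, ?_⟩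
  intro Λ T hT
  have hcard : 1 ≤ T.card := hT.card_pos
  have h4 := (DL q).trick h0.le h01 h1 (Λ := Λ) (T := T)
    (Φ := c0 * T.card / Real.log (T.card + 1)) (by
      intro S hTS hSΛ
      refine le_trans ?_ (hphi Λ S hSΛ (hT.mono hTS))
      rw [mul_div_assoc, mul_div_assoc]
      exact mul_le_mul_of_nonneg_left (div_log_mono hcard (card_le_card hTS)) hc0.le)
  refine h4.trans (le_of_eq ?_)
  rw [Real.rpow_def_of_pos hκ]
  congr 1
  ring

end Pool.Agent.DLP
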