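import Pool.Agent.DLP.Official
import Pool.Agent.DLP.Phi

/-!
# DLP/PsiUp: the isoperimetric profile of `DL(q,q)`

* `cut_blk_card`: the boundary edges of the block `blk 0 k 0` (`k ≥ 1`; also for `k = 0`): `q` edges
  upwards from each of the `q^k` top vertices and `q` edges downwards from each of the
  `q^k` bottom vertices: at most `2 q · q^k` edges. (`inc_interior` for the other
  vertices; each vertex has `2q` edges, `card_inc`; so `|cut| ≤ ∑` over the top and bottom vertices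
  of the edges at them not inside the block.) It is enough to prove `|cut| ≤ 4 q^{k+1}` (all the
  `2q` edges at the `2 q^k` extreme vertices).
* `psi_le`: for `t ≥ 1` let `k` be minimal with `2 q (k+1) q^k ≥ t` (`card_blk`, `card_inc`: the volume
  of the block). `psi t ≤ |cut| ≤ 4 q^{k+1}` (`csInf_le`). If `k = 0`: `psi t ≤ 4 q`,
  and `t / log (t+1) ≥ 1`... (`log (t+1) ≤ t`). If `k ≥ 1`: `2 q k q^{k-1} < t`, so
  `q^k < t/(2k)`, `4 q^{k+1} ≤ 2 q t / k`, and `t ≤ 2 q (k+1) q^k ≤ q^{3k+3}`... gives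
  `log (t+1) ≤ C₀ k`, hence `psi t ≤ C t / log (t+1)`.
* `psi_pos`: the edge upwards from a vertex of `K` of the highest level is in `cut K`.
-/

namespace Pool.Agent.DLP

open Finset

variable (q : ℕ) [NeZero q]

theorem psi_nonneg (t : ℝ) : 0 ≤ (DL q).psi t := by
  refine Real.sInf_nonneg ?_
  rintro m ⟨K, _, rfl⟩
  exact Nat.cast_nonneg _

private theorem vol_eq (K : Finset (DV q)) :
    ∑ u ∈ K, (((DL q).inc u).card : ℝ) = 2 * q * K.card := by
  have h : ∀ u ∈ K, (((DL q).inc u).card : ℝ) = 2 * q := by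
    intro u _
    rw [card_inc]
    push_cast
    ring
  rw [Finset.sum_congr rfl h, Finset.sum_const, nsmul_eq_mul]
  ring

private theorem card_blk0 (k : ℕ) : (blk q 0 k 0).card = (k + 1) * q ^ k := by
  rw [card_blk (by positivity)]
  simp

private theorem q_pos : 1 ≤ q := Nat.one_le_iff_ne_zero.2 (NeZero.ne q)

private theorem vol_blk_ge (k : ℕ) : ((k : ℝ) + 1) ≤ 2 * q * (blk q 0 k 0).card := by
  have hq := q_pos q
  have h1 : k + 1 ≤ 2 * q * (blk q 0 k 0).card := by
    rw [card_blk0]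
    have h2 : 1 ≤ q ^ k := Nat.one_le_pow _ _ hq
    calc k + 1 = 1 * ((k + 1) * 1) := by ring
      _ ≤ (2 * q) * ((k + 1) * q ^ k) := by
        apply Nat.mul_le_mul (by omega)
        exact Nat.mul_le_mul_left _ h2
  exact_mod_cast h1

private theorem exists_vol (t : ℝ) : ∃ k : ℕ, t ≤ 2 * q * (blk q 0 k 0).card := by
  obtain ⟨k, hk⟩ := exists_nat_ge t
  exact ⟨k, by have := vol_blk_ge q k; linarith⟩

private theorem psi_set_nonempty (t : ℝ) : {m : ℝ | ∃ K : Finset (DV q),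
    t ≤ ∑ u ∈ K, (((DL q).inc u).card : ℝ) ∧ m = (((DL q).cut K).card : ℝ)}.Nonempty := by
  obtain ⟨k, hk⟩ := exists_vol q t
  exact ⟨_, blk q 0 k 0, by rw [vol_eq]; exact hk, rfl⟩

private theorem psi_bdd (t : ℝ) : BddBelow {m : ℝ | ∃ K : Finset (DV q),
    t ≤ ∑ u ∈ K, (((DL q).inc u).card : ℝ) ∧ m = (((DL q).cut K).card : ℝ)} := by
  refine ⟨0, ?_⟩
  rintro m ⟨K, _, rfl⟩
  exact Nat.cast_nonneg _

theorem psi_mono {s t : ℝ} (h : s ≤ t) : (DL q).psi s ≤ (DL q).psi t := by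
  refine csInf_le_csInf (psi_bdd q s) (psi_set_nonempty q t) ?_
  rintro m ⟨K, hK, rfl⟩
  exact ⟨K, h.trans hK, rfl⟩

private theorem cut_blk_card (k : ℕ) : ((DL q).cut (blk q 0 k 0)).card ≤ 4 * q ^ (k + 1) := by
  have hsub : (DL q).cut (blk q 0 k 0) ⊆
      ((lamps q 0 k).image (fun h => (((0 : ℤ), h) : DV q)) ∪
        (lamps q 0 k).image (fun h => (((k : ℤ), h) : DV q))).biUnion (DL q).inc := by
    intro e he
    rw [Gr.mem_cut] at he
    obtain ⟨v, hv, hve, hout⟩ : ∃ v ∈ blk q 0 k 0, ((DL q).a e = v ∨ (DL q).b e = v) ∧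
        ¬ ((DL q).a e ∈ blk q 0 k 0 ∧ (DL q).b e ∈ blk q 0 k 0) := by
      rcases he with ⟨h1, h2⟩ | ⟨h1, h2⟩
      · exact ⟨_, h1, Or.inl rfl, fun h => h2 h.2⟩
      · exact ⟨_, h2, Or.inr rfl, fun h => h1 h.1⟩
    have hm := mem_blk.1 hv
    have hlev : v.1 = 0 ∨ v.1 = k := by
      by_contra hcon
      rw [not_or] at hcon
      exact hout (inc_interior hv (by omega) (by omega) hve)
    rw [Finset.mem_biUnion]
    refine ⟨v, ?_, ((DL q).mem_inc v e).2 hve⟩
    rw [sub_zero] at hm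
    rcases hlev with h | h
    · exact Finset.mem_union_left _ (Finset.mem_image.2 ⟨v.2, hm.2.2, by rw [← h]⟩)
    · exact Finset.mem_union_right _ (Finset.mem_image.2 ⟨v.2, hm.2.2, by rw [← h]⟩)
  have hl : (lamps q 0 k).card = q ^ k := by
    rw [card_lamps]; simp
  refine (Finset.card_le_card hsub).trans (Finset.card_biUnion_le.trans ?_)
  rw [Finset.sum_congr rfl fun u _ => card_inc u, Finset.sum_const, smul_eq_mul]
  have h1 : ((lamps q 0 k).image (fun h => (((0 : ℤ), h) : DV q)) ∪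
        (lamps q 0 k).image (fun h => (((k : ℤ), h) : DV q))).card ≤ q ^ k + q ^ k := by
    refine (Finset.card_union_le _ _).trans ?_
    exact Nat.add_le_add (Finset.card_image_le.trans hl.le) (Finset.card_image_le.trans hl.le)
  refine (Nat.mul_le_mul_right _ h1).trans (le_of_eq ?_)
  ring

theorem psi_le (hq : 2 ≤ q) : ∃ C : ℝ, 0 < C ∧ ∀ t : ℝ, 1 ≤ t →
    (DL q).psi t ≤ C * t / Real.log (t + 1) := by
  have hq2 : (2 : ℝ) ≤ q := by exact_mod_cast hq
  have hq0 : (0 : ℝ) < q := by linarith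
  refine ⟨2 * q * (3 + 2 * q), by positivity, fun t ht => ?_⟩
  have hlt : 0 < Real.log (t + 1) := Real.log_pos (by linarith)
  classical
  obtain ⟨k, hk, hmin⟩ : ∃ k : ℕ, t ≤ 2 * q * (blk q 0 k 0).card ∧
      ∀ j < k, 2 * q * ((blk q 0 j 0).card : ℝ) < t := by
    refine ⟨Nat.find (exists_vol q t), Nat.find_spec (exists_vol q t), fun j hj => ?_⟩
    exact not_le.1 (Nat.find_min (exists_vol q t) hj)
  have hpsi : (DL q).psi t ≤ 4 * (q : ℝ) ^ (k + 1) := by
    have h1 : (DL q).psi t ≤ (((DL q).cut (blk q 0 k 0)).card : ℝ) :=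
      csInf_le (psi_bdd q t) ⟨blk q 0 k 0, by rw [vol_eq]; exact hk, rfl⟩
    refine h1.trans ?_
    exact_mod_cast cut_blk_card q k
  refine hpsi.trans ?_
  rw [le_div_iff₀ hlt]
  rcases Nat.eq_zero_or_pos k with h0 | hpos
  · rw [h0, zero_add, pow_one]
    have h2 : Real.log (t + 1) ≤ t := by
      have := Real.log_le_sub_one_of_pos (show 0 < t + 1 by linarith)
      linarith
    have h3 : 4 * (q : ℝ) * Real.log (t + 1) ≤ 4 * q * t :=
      mul_le_mul_of_nonneg_left h2 (by positivity)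
    have h4 : 4 * (q : ℝ) * t ≤ 2 * q * (3 + 2 * q) * t := by
      apply mul_le_mul_of_nonneg_right _ (by linarith)
      nlinarith
    linarith
  · have hk1 : (1 : ℝ) ≤ k := by exact_mod_cast hpos
    obtain ⟨j, rfl⟩ : ∃ j, k = j + 1 := ⟨k - 1, by omega⟩
    have hj := hmin j (by omega)
    rw [card_blk0] at hj hk
    push_cast at hj hk hk1
    have hj' : 2 * ((j : ℝ) + 1) * (q : ℝ) ^ (j + 1) < t := by
      have e : 2 * (q : ℝ) * (((j : ℝ) + 1) * (q : ℝ) ^ j) =
          2 * ((j : ℝ) + 1) * (q : ℝ) ^ (j + 1) := by ring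
      linarith
    have hqp : (1 : ℝ) ≤ (q : ℝ) ^ (j + 1 + 1) := one_le_pow₀ (by linarith)
    have hlog : Real.log (t + 1) ≤ (3 + 2 * q) * ((j : ℝ) + 1) := by
      have h5 : t + 1 ≤ 4 * (((j : ℝ) + 1) + 1) * (q : ℝ) ^ (j + 1 + 1) := by
        have e : 2 * (q : ℝ) * (((j : ℝ) + 1 + 1) * (q : ℝ) ^ (j + 1)) =
            2 * (((j : ℝ) + 1) + 1) * (q : ℝ) ^ (j + 1 + 1) := by ring
        rw [e] at hk
        have h6 : 1 ≤ 2 * (((j : ℝ) + 1) + 1) * (q : ℝ) ^ (j + 1 + 1) := by nlinarith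
        linarith
      have h7 : Real.log (t + 1) ≤ Real.log (4 * (((j : ℝ) + 1) + 1) * (q : ℝ) ^ (j + 1 + 1)) :=
        Real.log_le_log (by linarith) h5
      rw [Real.log_mul (by positivity) (by positivity), Real.log_mul (by norm_num) (by positivity),
        Real.log_pow] at h7
      have h8 : Real.log 4 ≤ 3 - 1 := by
        have h9 : Real.log 4 = 2 * Real.log 2 := by
          rw [show (4 : ℝ) = 2 ^ 2 by norm_num, Real.log_pow]; norm_num
        have h10 := Real.log_le_sub_one_of_pos (show (0 : ℝ) < 2 by norm_num)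
        linarith
      have h11 : Real.log (((j : ℝ) + 1) + 1) ≤ (j : ℝ) + 1 := by
        have := Real.log_le_sub_one_of_pos (show (0 : ℝ) < ((j : ℝ) + 1) + 1 by positivity)
        linarith
      have h12 : Real.log q ≤ q := by
        have := Real.log_le_sub_one_of_pos hq0
        linarith
      have h13 : 0 ≤ Real.log q := Real.log_nonneg (by linarith)
      push_cast at h7
      have h14 : ((j : ℝ) + 1 + 1) * Real.log q ≤ 2 * ((j : ℝ) + 1) * q := by
        calc ((j : ℝ) + 1 + 1) * Real.log q ≤ ((j : ℝ) + 1 + 1) * q :=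
              mul_le_mul_of_nonneg_left h12 (by positivity)
          _ ≤ 2 * ((j : ℝ) + 1) * q := by
              apply mul_le_mul_of_nonneg_right _ hq0.le
              linarith
      nlinarith
    have h15 : 4 * (q : ℝ) ^ (j + 1 + 1) * Real.log (t + 1) ≤
        4 * (q : ℝ) ^ (j + 1 + 1) * ((3 + 2 * q) * ((j : ℝ) + 1)) :=
      mul_le_mul_of_nonneg_left hlog (by positivity)
    have h16 : 4 * (q : ℝ) ^ (j + 1 + 1) * ((3 + 2 * q) * ((j : ℝ) + 1)) =
        2 * q * (3 + 2 * q) * (2 * ((j : ℝ) + 1) * (q : ℝ) ^ (j + 1)) := by ring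
    have h17 : 2 * q * (3 + 2 * q) * (2 * ((j : ℝ) + 1) * (q : ℝ) ^ (j + 1)) ≤
        2 * q * (3 + 2 * q) * t := mul_le_mul_of_nonneg_left hj'.le (by positivity)
    linarith

/-- Every set of positive volume has a nonempty boundary. -/
theorem psi_pos (hq : 2 ≤ q) {t : ℝ} (ht : 0 < t) : 1 ≤ (DL q).psi t := by
  refine le_csInf (psi_set_nonempty q t) ?_
  rintro m ⟨K, hK, rfl⟩
  have hne : K.Nonempty := by
    rw [Finset.nonempty_iff_ne_empty]
    intro h
    rw [h, Finset.sum_empty] at hK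
    linarith
  obtain ⟨v, hv, hmax⟩ := Finset.exists_max_image K (fun u => u.1) hne
  have hcut : ((v, (0 : ZMod q)) : DE q) ∈ (DL q).cut K := by
    rw [Gr.mem_cut]
    left
    rw [DL_a, DL_b]
    refine ⟨hv, fun h => ?_⟩
    have := hmax _ h
    simp only at this
    omega
  have : 1 ≤ ((DL q).cut K).card := Finset.card_pos.2 ⟨_, hcut⟩
  exact_mod_cast this

end Pool.Agent.DLP
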