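import Pool.Agent.DLP.MainA
import Pool.Agent.DLP.ConvA
import Pool.Agent.DLP.PsiUp

/-!
# DLP/MainB: the main theorem in the form of the problem

From `core_sets` (`ε`, `C`), `psi_le` (`C₁`), `sub_reach`, `cut_subset_bdry`, `sub_card`.

`final_ae`. Let `c > 0`. Almost surely there is `n₀` as in `core_sets`. Let `(U, A)` be a
subgraph (`IsSub`) with `|A| ≥ n` and `n ≥ q n₀`, `n ≥ 1`, `c n ≥ 1`. Then `|U| ≥ |A|/q ≥ n₀`, and
`|bdry| ≥ |open edges of cut U| > ε |U|/log(|U|+1) ≥ (ε/q) n / log (n+1)`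
(`x / log (x+1)` is increasing), and `psi (c n) ≤ C₁ c n / log (c n + 1) ≤ C₂ n / log (n + 1)`
(`log (n+1) ≤ C₃ log (c n + 1)` for `n ≥ 1`, `c n ≥ 1`), `psi (c n) ≥ 1 > 0` (`psi_pos`). So
`|bdry| / psi (c n) ≥ δ := ε / (q C₂)`. As the set in the definition of `In` is nonempty
(`exists_sub`), `In ≥ δ` (`le_csInf`).

`final_tail`: for `n ≥ 1` let `m = ⌈n/q⌉ ≥ 1`. If `(U, A)` is a subgraph with `n ≤ |A|` and
`|bdry| ≤ a psi n`, then `H = U` shows `Bad v ω m (ε m/log(m+1))` as soon as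
`a psi n ≤ a C₁ n / log (n+1) ≤ ε m / log (m+1)`, true for `a ≤ ε/(q C₁)`; and
`exp(-ε m/log(m+1)) ≤ exp(-a psi n)`. For `n = 0`: `psi 0 = 0` (the empty set), the bound is `C`;
take `C ≥ 1`, the measure is `≤ 1`.
-/

namespace Pool.Agent.DLP

open Finset MeasureTheory

variable (q : ℕ) [NeZero q]

/-- `x / log (x + 1)` up to the factor `q`. -/
private theorem ratio_le {q n u : ℕ} (hq : 1 ≤ q) (hn : 1 ≤ n) (hu : n ≤ q * u) :
    (n : ℝ) / q / Real.log (n + 1) ≤ (u : ℝ) / Real.log (u + 1) := by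
  have hq0 : (0 : ℝ) < q := by exact_mod_cast hq
  have hn0 : (1 : ℝ) ≤ n := by exact_mod_cast hn
  have hu1 : 1 ≤ u := by
    rcases Nat.eq_zero_or_pos u with h | h
    · rw [h, mul_zero] at hu; omega
    · exact h
  have hu0 : (1 : ℝ) ≤ u := by exact_mod_cast hu1
  have hnu : (n : ℝ) ≤ q * u := by exact_mod_cast hu
  have h1 : (n : ℝ) / q ≤ u := by
    rw [div_le_iff₀ hq0]; linarith
  have hlogn : 0 < Real.log (n + 1) := Real.log_pos (by linarith)
  have hlogu : 0 < Real.log (u + 1) := Real.log_pos (by linarith)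
  rcases le_total n u with h | h
  · have h2 := div_log_mono hn h
    have h3 : (n : ℝ) / q / Real.log (n + 1) ≤ (n : ℝ) / Real.log (n + 1) := by
      apply div_le_div_of_nonneg_right _ hlogn.le
      apply div_le_self (by linarith)
      exact_mod_cast hq
    exact h3.trans h2
  · have h4 : Real.log (u + 1) ≤ Real.log (n + 1) := by
      apply Real.log_le_log (by linarith)
      have : (u : ℝ) ≤ n := by exact_mod_cast h
      linarith
    calc (n : ℝ) / q / Real.log (n + 1) ≤ (u : ℝ) / Real.log (n + 1) :=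
          div_le_div_of_nonneg_right h1 hlogn.le
      _ ≤ (u : ℝ) / Real.log (u + 1) :=
          div_le_div_of_nonneg_left (by linarith) hlogu h4

/-- `log (n + 1) ≤ C log (c n + 1)`. -/
private theorem log_cmp {c : ℝ} (hc : 0 < c) : ∃ C : ℝ, 0 < C ∧ ∀ x : ℝ, 0 ≤ x → 1 ≤ c * x →
    Real.log (x + 1) ≤ C * Real.log (c * x + 1) := by
  have hm : 1 ≤ max 1 (1 / c) := le_max_left _ _
  have hlm : 0 ≤ Real.log (max 1 (1 / c)) := Real.log_nonneg hm
  have hl2 : 0 < Real.log 2 := Real.log_pos (by norm_num)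
  refine ⟨Real.log (max 1 (1 / c)) / Real.log 2 + 1, by positivity, fun x hx hcx => ?_⟩
  have h1 : x + 1 ≤ max 1 (1 / c) * (c * x + 1) := by
    have h2 : x ≤ max 1 (1 / c) * (c * x) := by
      calc x = 1 / c * (c * x) := by field_simp
        _ ≤ max 1 (1 / c) * (c * x) :=
          mul_le_mul_of_nonneg_right (le_max_right _ _) (by linarith)
    nlinarith
  have h3 : Real.log 2 ≤ Real.log (c * x + 1) :=
    Real.log_le_log (by norm_num) (by linarith)
  calc Real.log (x + 1) ≤ Real.log (max 1 (1 / c) * (c * x + 1)) :=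
        Real.log_le_log (by linarith) h1
    _ = Real.log (max 1 (1 / c)) + Real.log (c * x + 1) := by
        rw [Real.log_mul (by positivity) (by linarith)]
    _ ≤ Real.log (max 1 (1 / c)) / Real.log 2 * Real.log (c * x + 1) +
          Real.log (c * x + 1) := by
        have h4 : Real.log (max 1 (1 / c)) / Real.log 2 * Real.log 2 ≤
            Real.log (max 1 (1 / c)) / Real.log 2 * Real.log (c * x + 1) :=
          mul_le_mul_of_nonneg_left h3 (by positivity)
        rw [div_mul_cancel₀ _ hl2.ne'] at h4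
        linarith
    _ = (Real.log (max 1 (1 / c)) / Real.log 2 + 1) * Real.log (c * x + 1) := by ring

theorem final_ae (hq : 2 ≤ q) {p : unitInterval} (hp : pc q < p) (v : DV q) {c : ℝ}
    (hc : 0 < c) : ∃ δ : ℝ, 0 < δ ∧ ∀ᵐ ω ∂(perc (DE q) p), ((DL q).cluster ω v).Infinite →
      ∀ᶠ n : ℕ in Filter.atTop, δ ≤ (DL q).In ω v c n := by
  obtain ⟨ε, hε, C, hC, hcore⟩ := core_sets q hq hp
  obtain ⟨C₁, hC₁, hpsi⟩ := psi_le q hq
  obtain ⟨C₃, hC₃, hlog⟩ := log_cmp hc
  have hq0 : (0 : ℝ) < q := by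
    have : (2 : ℝ) ≤ q := by exact_mod_cast hq
    linarith
  refine ⟨ε / (q * (C₁ * c * C₃)), by positivity, ?_⟩
  filter_upwards [(hcore v).2] with ω hω hinf
  obtain ⟨n₀, hn₀⟩ := hω
  filter_upwards [Filter.eventually_ge_atTop (q * n₀ + 1),
    Filter.eventually_ge_atTop ⌈1 / c⌉₊] with n hn hnc
  have hn1 : 1 ≤ n := by omega
  have hn1' : (1 : ℝ) ≤ n := by exact_mod_cast hn1
  have hcn : 1 ≤ c * n := by
    have h1 : 1 / c ≤ n := (Nat.le_ceil _).trans (by exact_mod_cast hnc)
    rw [div_le_iff₀ hc] at h1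
    linarith
  have hlogn : 0 < Real.log (n + 1) := Real.log_pos (by linarith)
  have hlogcn : 0 < Real.log (c * n + 1) := Real.log_pos (by linarith)
  have hpos : 0 < (DL q).psi (c * n) := by
    have := psi_pos q hq (show 0 < c * (n : ℝ) by linarith)
    linarith
  have hup : (DL q).psi (c * n) ≤ C₁ * c * C₃ * (n / Real.log (n + 1)) := by
    refine (hpsi _ hcn).trans ?_
    have h2 := hlog n (by linarith) hcn
    have h3 : C₁ * (c * n) / Real.log (c * n + 1) ≤
        C₁ * (c * n) * C₃ / Real.log (n + 1) := by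
      rw [div_le_div_iff₀ hlogcn hlogn]
      have h4 : 0 ≤ C₁ * (c * n) := by positivity
      calc C₁ * (c * n) * Real.log (n + 1) ≤ C₁ * (c * n) * (C₃ * Real.log (c * n + 1)) :=
            mul_le_mul_of_nonneg_left h2 h4
        _ = C₁ * (c * n) * C₃ * Real.log (c * n + 1) := by ring
    refine h3.trans_eq ?_
    ring
  obtain ⟨U₀, A₀, hUA₀, hA₀⟩ := (DL q).exists_sub hinf n
  refine le_csInf ⟨_, U₀, A₀, hUA₀, hA₀, rfl⟩ ?_
  rintro r ⟨U, A, hUA, hA, rfl⟩
  rw [le_div_iff₀ hpos]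
  have hcard := sub_card hUA
  have hnU : n ≤ q * U.card := hA.trans hcard
  have hU₀ : n₀ ≤ U.card := by
    by_contra hcon
    rw [not_le] at hcon
    have : q * U.card ≤ q * n₀ := Nat.mul_le_mul_left _ hcon.le
    omega
  have h5 := hn₀ U hUA.1 hU₀ ((DL q).sub_reach hUA)
  have h6 : ((((DL q).cut U).filter (fun e => ω e = true)).card : ℝ) ≤
      ((DL q).bdry ω U A).card := by
    exact_mod_cast Finset.card_le_card ((DL q).cut_subset_bdry hUA)
  have h7 := ratio_le (q := q) (by omega) hn1 hnU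
  have h8 : ε * (n / q / Real.log (n + 1)) ≤ ε * (U.card / Real.log (U.card + 1)) :=
    mul_le_mul_of_nonneg_left h7 hε.le
  have h9 : ε / (q * (C₁ * c * C₃)) * (DL q).psi (c * n) ≤
      ε / (q * (C₁ * c * C₃)) * (C₁ * c * C₃ * (n / Real.log (n + 1))) :=
    mul_le_mul_of_nonneg_left hup (by positivity)
  have h10 : ε / (q * (C₁ * c * C₃)) * (C₁ * c * C₃ * (n / Real.log (n + 1))) =
      ε * (n / q / Real.log (n + 1)) := by
    field_simp
  have h11 : ε * (U.card / Real.log (U.card + 1)) = ε * U.card / Real.log (U.card + 1) := by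
    ring
  linarith

theorem final_tail (hq : 2 ≤ q) {p : unitInterval} (hp : pc q < p) (v : DV q) :
    ∃ a : ℝ, 0 < a ∧ ∃ C : ℝ, 0 < C ∧ ∀ n : ℕ,
      perc (DE q) p {ω | ∃ (U : Finset (DV q)) (A : Finset (DE q)), (DL q).IsSub ω v U A ∧
          n ≤ A.card ∧ (((DL q).bdry ω U A).card : ℝ) ≤ a * (DL q).psi n} ≤
        ENNReal.ofReal (C * Real.exp (-(a * (DL q).psi n))) := by
  obtain ⟨ε, hε, C, hC, hcore⟩ := core_sets q hq hp
  obtain ⟨C₁, hC₁, hpsi⟩ := psi_le q hq
  have hq0 : (0 : ℝ) < q := by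
    have : (2 : ℝ) ≤ q := by exact_mod_cast hq
    linarith
  refine ⟨ε / (q * C₁), by positivity, max C 1, by positivity, fun n => ?_⟩
  rcases Nat.eq_zero_or_pos n with hn | hn
  · have h0 : (DL q).psi 0 = 0 := by
      refine le_antisymm ?_ (psi_nonneg q 0)
      refine csInf_le ⟨0, ?_⟩ ⟨∅, by simp, by simp [Gr.cut, Gr.touch]⟩
      rintro m ⟨K, _, rfl⟩
      exact Nat.cast_nonneg _
    haveI : IsProbabilityMeasure (perc (DE q) p) := by unfold perc; infer_instance
    rw [hn, Nat.cast_zero, h0, mul_zero, neg_zero, Real.exp_zero, mul_one]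
    refine prob_le_one.trans ?_
    rw [← ENNReal.ofReal_one]
    exact ENNReal.ofReal_le_ofReal (le_max_right _ _)
  · obtain ⟨m, hm⟩ : ∃ m, m = (n + q - 1) / q := ⟨_, rfl⟩
    have hqm : n ≤ q * m := by
      have h1 := Nat.div_add_mod (n + q - 1) q
      have h2 := Nat.mod_lt (n + q - 1) (show 0 < q by omega)
      rw [← hm] at h1
      omega
    have hmU : ∀ u : ℕ, n ≤ q * u → m ≤ u := by
      intro u hu
      rw [hm]
      apply Nat.le_of_lt_succ
      rw [Nat.div_lt_iff_lt_mul (by omega)]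
      have : q * (u + 1) = q * u + q := by ring
      rw [Nat.succ_eq_add_one, mul_comm]
      omega
    have hn1' : (1 : ℝ) ≤ n := by exact_mod_cast hn
    have hr := ratio_le (q := q) (by omega) hn hqm
    have hkey : ε / (q * C₁) * (DL q).psi n ≤ ε * m / Real.log (m + 1) := by
      have h1 := hpsi n hn1'
      calc ε / (q * C₁) * (DL q).psi n ≤ ε / (q * C₁) * (C₁ * n / Real.log (n + 1)) :=
            mul_le_mul_of_nonneg_left h1 (by positivity)
        _ = ε * (n / q / Real.log (n + 1)) := by field_simp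
        _ ≤ ε * (m / Real.log (m + 1)) := mul_le_mul_of_nonneg_left hr hε.le
        _ = ε * m / Real.log (m + 1) := by ring
    have hsub : {ω : DE q → Bool | ∃ (U : Finset (DV q)) (A : Finset (DE q)),
        (DL q).IsSub ω v U A ∧ n ≤ A.card ∧
          (((DL q).bdry ω U A).card : ℝ) ≤ ε / (q * C₁) * (DL q).psi n} ⊆
        {ω | (DL q).Bad v ω m (ε * m / Real.log (m + 1))} := by
      rintro ω ⟨U, A, hUA, hA, hb⟩
      refine ⟨U, hUA.1, hmU _ (hA.trans (sub_card hUA)), (DL q).sub_reach hUA, ?_⟩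
      have h6 : ((((DL q).cut U).filter (fun e => ω e = true)).card : ℝ) ≤
          ((DL q).bdry ω U A).card := by
        exact_mod_cast Finset.card_le_card ((DL q).cut_subset_bdry hUA)
      linarith
    refine (measure_mono hsub).trans (((hcore v).1 m).trans ?_)
    apply ENNReal.ofReal_le_ofReal
    have h1 : Real.exp (-(ε * m / Real.log (m + 1))) ≤
        Real.exp (-(ε / (q * C₁) * (DL q).psi n)) :=
      Real.exp_le_exp.2 (by linarith)
    exact mul_le_mul (le_max_left _ _) h1 (Real.exp_pos _).le (by positivity)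

end Pool.Agent.DLP
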