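import Pool.Agent.DLP.Rch

/-!
# DLP/MinCut: the largest minimal cut above `X`

`Λ`, `c : E → ℕ`, `X ⊆ Λ`.

* `exists_maxmin`: the sets `B` with `X ⊆ B ⊆ Λ` form a finite nonempty family (`X` itself); let
  `m` be the minimum of `D c B`. The minimisers are closed under unions by `D_submod`
  (`A ∪ B`, `A ∩ B` are again between `X` and `Λ`, so `D (A ∩ B) ≥ m`, hence `D (A ∪ B) ≤ m`).
  `M` = union of all minimisers (or: a minimiser of maximal cardinality).
* `comp c v M` = the set of the `x ∈ M` joined to `v` by positive edges inside `M`.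
  If `X` is connected (`Con c v X`) then `X ⊆ comp c v M ⊆ M` and `comp` is connected (`Con`).
  No positive edge joins `comp` to `M \ comp`, hence
  every positive edge of `cut (comp)` is an (positive) edge of `cut M`, so `D comp ≤ D M`
  (`D_comp_le`).
* `comp_subset_imp` (the key fact): if `Imp c Λ v H`, `X ⊆ H`, `M` the largest minimiser
  above `X`, then `comp c v M ⊆ H`. Proof: by submodularity
  `D (H ∪ M) + D (H ∩ M) ≤ D H + D M` and `D (H ∩ M) ≥ D M` (as `X ⊆ H ∩ M ⊆ Λ`), so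
  `D (H ∪ M) ≤ D H`. By importance of `H` (with `B = H ∪ M`) no positive edge of `cut H` has both
  end points in `H ∪ M`. If some `x ∈ comp` were not in `H`, a positive path inside `M` from
  `v ∈ H` to `x ∉ H` would contain a positive edge of `cut H` with both end points in `M`
  (`Reach.exists_cut_edge`): contradiction.
* `lam_succ`: if `y ∉ M`, `y ∈ B`, `X ⊆ B ⊆ Λ`, then `D c B ≥ D c M + 1`: indeed
  `D (B ∪ M) + D (B ∩ M) ≤ D B + D M`, `D (B ∩ M) ≥ D M` so `D (B ∪ M) ≤ D B`; if `D B ≤ D M` then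
  `D (B ∪ M) ≤ D M`, hence `B ∪ M ⊆ M` by maximality, contradiction with `y ∈ B`.
-/

namespace Pool.Agent.DLP

open Finset

namespace Gr

variable {V E : Type} [DecidableEq V] [DecidableEq E] (G : Gr V E)

/-- `M` is the largest minimiser of `D c` among the sets between `X` and `Λ`. -/
def IsMaxMin (c : E → ℕ) (Λ X M : Finset V) : Prop :=
  X ⊆ M ∧ M ⊆ Λ ∧ (∀ B : Finset V, X ⊆ B → B ⊆ Λ → G.D c M ≤ G.D c B) ∧
    ∀ B : Finset V, X ⊆ B → B ⊆ Λ → G.D c B ≤ G.D c M → B ⊆ M

open Classical in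
/-- The component of `v` in `M`. -/
noncomputable def comp (c : E → ℕ) (v : V) (M : Finset V) : Finset V :=
  M.filter (fun x => G.Reach {e | 0 < c e} (↑M : Set V) v x)

theorem exists_maxmin (c : E → ℕ) {Λ X : Finset V} (hX : X ⊆ Λ) :
    ∃ M, G.IsMaxMin c Λ X M := by
  classical
  set S : Finset (Finset V) := Λ.powerset.filter (fun B => X ⊆ B) with hS
  have hXS : X ∈ S := Finset.mem_filter.2 ⟨Finset.mem_powerset.2 hX, Finset.Subset.refl X⟩
  obtain ⟨B0, hB0, hmin⟩ := Finset.exists_min_image S (G.D c) ⟨X, hXS⟩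
  set S' : Finset (Finset V) := S.filter (fun B => G.D c B ≤ G.D c B0) with hS'
  have hB0' : B0 ∈ S' := Finset.mem_filter.2 ⟨hB0, le_rfl⟩
  obtain ⟨M, hM, hmax⟩ := Finset.exists_max_image S' Finset.card ⟨B0, hB0'⟩
  have hM1 := Finset.mem_filter.1 hM
  have hM2 := Finset.mem_filter.1 hM1.1
  have hMΛ := Finset.mem_powerset.1 hM2.1
  have key : ∀ B : Finset V, X ⊆ B → B ⊆ Λ → G.D c B0 ≤ G.D c B := fun B h1 h2 =>
    hmin B (Finset.mem_filter.2 ⟨Finset.mem_powerset.2 h2, h1⟩)
  refine ⟨M, hM2.2, hMΛ, fun B h1 h2 => hM1.2.trans (key B h1 h2), ?_⟩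
  intro B h1 h2 h3
  have h4 := G.D_submod c B M
  have h5 := key (B ∩ M) (Finset.subset_inter h1 hM2.2) (Finset.inter_subset_left.trans h2)
  have h6 := hM1.2
  have h7 : B ∪ M ∈ S' := by
    refine Finset.mem_filter.2 ⟨Finset.mem_filter.2 ⟨Finset.mem_powerset.2
      (Finset.union_subset h2 hMΛ), h1.trans Finset.subset_union_left⟩, ?_⟩
    omega
  have h8 := hmax _ h7
  have h9 : M = B ∪ M := Finset.eq_of_subset_of_card_le Finset.subset_union_right h8
  rw [h9]
  exact Finset.subset_union_left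

theorem subset_comp {c : E → ℕ} {v : V} {X M : Finset V} (hX : G.Con c v X) (h : X ⊆ M) :
    X ⊆ G.comp c v M := by
  classical
  intro x hx
  refine Finset.mem_filter.2 ⟨h hx, ?_⟩
  exact (hX.2 x hx).mono (Set.Subset.refl _) (by exact_mod_cast h)

theorem comp_subset (c : E → ℕ) (v : V) (M : Finset V) : G.comp c v M ⊆ M := by
  classical
  unfold comp
  exact Finset.filter_subset _ _

theorem con_comp {c : E → ℕ} {v : V} {M : Finset V} (hv : v ∈ M) :
    G.Con c v (G.comp c v M) := by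
  classical
  have h0 : v ∈ G.comp c v M := Finset.mem_filter.2 ⟨hv, Reach.refl G _ _ _⟩
  refine ⟨h0, fun x hx => ?_⟩
  have h1 := (Finset.mem_filter.1 hx).2
  unfold Reach at h1 ⊢
  induction h1 with
  | refl => exact Relation.ReflTransGen.refl
  | tail hab hbc ih =>
    rename_i b d
    obtain ⟨hs, hb, hd⟩ := hbc
    have hb2 : b ∈ G.comp c v M := Finset.mem_filter.2 ⟨by exact_mod_cast hb, hab⟩
    exact (ih hb2).tail ⟨hs, by exact_mod_cast hb2, by exact_mod_cast hx⟩

private theorem comp_cut0 {c : E → ℕ} {v : V} {M : Finset V} (hv : v ∈ M) {e : E}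
    (he : e ∈ G.cut (G.comp c v M)) (hc : 0 < c e) : e ∈ G.cut M := by
  classical
  rw [mem_cut] at he ⊢
  rcases he with ⟨h1, h2⟩ | ⟨h1, h2⟩
  · have h3 := Finset.mem_filter.1 h1
    refine Or.inl ⟨h3.1, fun h4 => h2 ?_⟩
    refine Finset.mem_filter.2 ⟨h4, h3.2.trans ?_⟩
    exact Reach.edge (ω := {e | 0 < c e}) hc (by exact_mod_cast h3.1) (by exact_mod_cast h4)
  · have h3 := Finset.mem_filter.1 h2
    refine Or.inr ⟨fun h4 => h1 ?_, h3.1⟩
    refine Finset.mem_filter.2 ⟨h4, h3.2.trans ?_⟩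
    exact (Reach.edge (ω := {e | 0 < c e}) hc (by exact_mod_cast h4)
      (by exact_mod_cast h3.1)).symm

theorem D_comp_le {c : E → ℕ} {v : V} {M : Finset V} (hv : v ∈ M) :
    G.D c (G.comp c v M) ≤ G.D c M := by
  unfold D
  refine Finset.sum_le_sum_of_ne_zero fun e he hc => ?_
  exact comp_cut0 G hv he (Nat.pos_of_ne_zero hc)

/-- A positive edge of the boundary of the component is a boundary edge of `M`. -/
theorem comp_cut {c : E → ℕ} {v : V} {M : Finset V} (hv : v ∈ M) {e : E}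
    (he : e ∈ G.cut (G.comp c v M)) (hc : 0 < c e) : e ∈ G.cut M :=
  comp_cut0 G hv he hc

theorem comp_subset_imp {c : E → ℕ} {Λ X M H : Finset V} {v : V} (hM : G.IsMaxMin c Λ X M)
    (hH : G.Imp c Λ v H) (hXH : X ⊆ H) : G.comp c v M ⊆ H := by
  classical
  intro x hx
  by_contra hxH
  have h1 := Finset.mem_filter.1 hx
  obtain ⟨e, he, hc, ha, hb⟩ := h1.2.exists_cut_edge hH.2.1.1 hxH
  have h2 := hH.2.2 (H ∪ M) Finset.subset_union_left (Finset.union_subset hH.1 hM.2.1)
    ⟨e, he, hc, Finset.mem_union_right _ (by exact_mod_cast ha),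
      Finset.mem_union_right _ (by exact_mod_cast hb)⟩
  have h3 := G.D_submod c H M
  have h4 := hM.2.2.1 (H ∩ M) (Finset.subset_inter hXH hM.1)
    (Finset.inter_subset_left.trans hH.1)
  omega

theorem lam_succ {c : E → ℕ} {Λ X M B : Finset V} (hM : G.IsMaxMin c Λ X M) (hXB : X ⊆ B)
    (hB : B ⊆ Λ) {y : V} (hyM : y ∉ M) (hyB : y ∈ B) : G.D c M + 1 ≤ G.D c B := by
  by_contra h
  exact hyM (hM.2.2.2 B hXB hB (by omega) hyB)

end Gr

end Pool.Agent.DLP
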