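import Pool.Agent.DLP.DL

/-!
# DLP/Official: the objects of the problem (definitions only, COMPLETE FILE)
-/

namespace Pool.Agent.DLP

open Finset MeasureTheory

/-- The law of one edge: open (`true`) with probability `p`. -/
noncomputable def bern (p : unitInterval) : Measure Bool :=
  ENNReal.ofReal p • Measure.dirac true + ENNReal.ofReal (1 - p) • Measure.dirac false

instance (p : unitInterval) : IsProbabilityMeasure (bern p) := by
  constructor
  have h0 : (0 : ℝ) ≤ p := p.2.1
  have h1 : (0 : ℝ) ≤ 1 - p := sub_nonneg.mpr p.2.2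
  simp only [bern, Measure.coe_add, Pi.add_apply, Measure.coe_smul, Pi.smul_apply,
    measure_univ, smul_eq_mul, mul_one]
  rw [← ENNReal.ofReal_add h0 h1]
  simp

/-- Bernoulli bond percolation with parameter `p`: every edge is open with probability `p`,
independently. -/
noncomputable def perc (E : Type) (p : unitInterval) : Measure (E → Bool) :=
  Measure.infinitePi (fun _ : E => bern p)

namespace Gr

variable {V E : Type} [DecidableEq V] [DecidableEq E] (G : Gr V E)

/-- The set of the open edges. -/
def opn (ω : E → Bool) : Set E := {e | ω e = true}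

/-- The open cluster of `v`. -/
def cluster (ω : E → Bool) (v : V) : Set V := {x | G.Reach (opn ω) Set.univ v x}

/-- `(U, A)` (vertices, edges) is a finite connected subgraph of the open cluster of `v` which
contains `v`. -/
def IsSub (ω : E → Bool) (v : V) (U : Finset V) (A : Finset E) : Prop :=
  v ∈ U ∧ (∀ e ∈ A, ω e = true ∧ G.a e ∈ U ∧ G.b e ∈ U) ∧
    ∀ x ∈ U, G.Reach (↑A : Set E) Set.univ v x

/-- The open boundary edges of `(U, A)`: the open edges not in `A` with an end point in `U`. -/
def bdry (ω : E → Bool) (U : Finset V) (A : Finset E) : Finset E :=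
  (G.touch U).filter (fun e => ω e = true ∧ e ∉ A)

/-- The isoperimetric profile `ψ(G, t)`. -/
noncomputable def psi (t : ℝ) : ℝ :=
  sInf {m : ℝ | ∃ K : Finset V, t ≤ ∑ u ∈ K, ((G.inc u).card : ℝ) ∧ m = ((G.cut K).card : ℝ)}

/-- `I_n(c)`. -/
noncomputable def In (ω : E → Bool) (v : V) (c : ℝ) (n : ℕ) : ℝ :=
  sInf {r : ℝ | ∃ (U : Finset V) (A : Finset E), G.IsSub ω v U A ∧ n ≤ A.card ∧
    r = ((G.bdry ω U A).card : ℝ) / G.psi (c * n)}

end Gr

/-- The critical probability of `DL(q,q)`. -/
noncomputable def pc (q : ℕ) [NeZero q] : ℝ :=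
  sInf {r : ℝ | ∃ p : unitInterval, (p : ℝ) = r ∧
    0 < perc (DE q) p {ω | ((DL q).cluster ω (0, 0)).Infinite}}

end Pool.Agent.DLP
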