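import Pool.Agent.DLP.Cut

/-!
# DLP/Rank: the rank function of the sets `Ind`

`S ⊆ cut H` is `Ind` if for all `W ⊆ Λ \ H` : `|into W S| ≤ d H O W`.

* `ind_subset`: subsets of `Ind` sets are `Ind`. `ind_empty`.
* `exists_ind`: there is an `Ind` set with `rk` elements (`Finset.exists_mem_eq_sup`, or
  `Finset.le_sup` and `Finset.sup` properties; `∅` is `Ind`), and every `Ind` set has at most `rk`
  elements.
* `rk_minmax`: let `T` be an `Ind` set with `rk` elements, `ℱ` = the set of the tight sets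
  `W ⊆ Λ \ H`, `|into W T| = d H O W`. `∅` is tight. Tight sets are closed under unions: for tight
  `A, B`: `d (A ∪ B) + d (A ∩ B) ≤ d A + d B = |into A T| + |into B T|
    = |into (A ∪ B) T| + |into (A ∩ B) T| ≤ |into (A ∪ B) T| + d (A ∩ B)`
  (`d_submod`, `into_modular`, `Ind`). Let `W` be the union of all tight sets; it is tight. For
  `e ∈ cut H \ T` the set `insert e T` is not `Ind` (it would have more than `rk` elements), so some
  `W' ⊆ Λ \ H` has `|into W' (insert e T)| > d W' ≥ |into W' T|`; so `e` enters `W'` and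
  `W'` is tight; hence `e` enters `W`. Therefore every edge of `cut H` which does not enter `W` is in
  `T`, and `rk = |T| = |{e ∈ T : e does not enter W}| + |into W T|
    = |{e ∈ cut H: e does not enter W}| + d H O W`.
* `card_ind`: let `T` be `Ind` with `rk` elements; `T \ R` has at least `rk - |R|` elements and all
  its subsets with `k` elements are counted.
* `rk_mono`, `dep_rk`: `d H O W` is monotone in `O` and only depends on the edges of `O` which touch
  `Λ` (as `W ⊆ Λ`) and do not touch `H`.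
-/

namespace Pool.Agent.DLP

open Finset

namespace Gr

variable {V E : Type} [DecidableEq V] [DecidableEq E] (G : Gr V E)

theorem ind_subset {Λ H : Finset V} {O S S' : Finset E} (h : G.Ind Λ H O S) (hS : S' ⊆ S) :
    G.Ind Λ H O S' :=
  ⟨hS.trans h.1, fun W hW => (card_le_card (G.into_mono hS)).trans (h.2 W hW)⟩

private theorem ind_empty (Λ H : Finset V) (O : Finset E) : G.Ind Λ H O ∅ := by
  refine ⟨empty_subset _, fun W _ => ?_⟩
  unfold into
  simp

theorem exists_ind (Λ H : Finset V) (O : Finset E) :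
    ∃ T, G.Ind Λ H O T ∧ T.card = G.rk Λ H O := by
  classical
  have hne : ((G.cut H).powerset.filter (fun S => G.Ind Λ H O S)).Nonempty :=
    ⟨∅, mem_filter.2 ⟨mem_powerset.2 (empty_subset _), G.ind_empty Λ H O⟩⟩
  obtain ⟨T, hT, h⟩ := exists_mem_eq_sup _ hne Finset.card
  refine ⟨T, (mem_filter.1 hT).2, ?_⟩
  rw [rk, ← h]

theorem ind_card_le {Λ H : Finset V} {O S : Finset E} (h : G.Ind Λ H O S) :
    S.card ≤ G.rk Λ H O := by
  classical
  exact le_sup (f := Finset.card) (mem_filter.2 ⟨mem_powerset.2 h.1, h⟩)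

theorem rk_minmax (Λ H : Finset V) (O : Finset E) : ∃ W, W ⊆ Λ \ H ∧
    G.rk Λ H O = ((G.cut H).filter (fun e => G.a e ∉ W ∧ G.b e ∉ W)).card + G.d H O W := by
  classical
  obtain ⟨T, hT, hTc⟩ := G.exists_ind Λ H O
  set ℱ := (Λ \ H).powerset.filter (fun W => (G.into W T).card = G.d H O W) with hℱ
  have htight : ℱ.sup id ⊆ Λ \ H ∧ (G.into (ℱ.sup id) T).card = G.d H O (ℱ.sup id) := by
    refine Finset.sup_induction (p := fun W => W ⊆ Λ \ H ∧ (G.into W T).card = G.d H O W)
      ?_ ?_ ?_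
    · refine ⟨empty_subset _, ?_⟩
      rw [bot_eq_empty, d_empty]
      unfold into
      simp
    · rintro A ⟨hA, hA'⟩ B ⟨hB, hB'⟩
      refine ⟨union_subset hA hB, ?_⟩
      have hdA : Disjoint H A := (disjoint_sdiff.mono_right hA)
      have hdB : Disjoint H B := (disjoint_sdiff.mono_right hB)
      have h1 := G.into_modular hT.1 hdA hdB
      have h2 := G.d_submod H O A B
      have h3 := hT.2 (A ∪ B) (union_subset hA hB)
      have h4 := hT.2 (A ∩ B) (inter_subset_left.trans hA)
      show (G.into (A ∪ B) T).card = G.d H O (A ∪ B)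
      omega
    · intro W hW
      obtain ⟨h1, h2⟩ := mem_filter.1 hW
      exact ⟨mem_powerset.1 h1, h2⟩
  obtain ⟨W, hWdef⟩ : ∃ W, W = ℱ.sup id := ⟨_, rfl⟩
  rw [← hWdef] at htight
  refine ⟨W, htight.1, ?_⟩
  have hent : ∀ e ∈ G.cut H, e ∉ T → G.a e ∈ W ∨ G.b e ∈ W := by
    intro e he heT
    have hni : ¬ G.Ind Λ H O (insert e T) := by
      intro h
      have h1 := G.ind_card_le h
      rw [card_insert_of_notMem heT, hTc] at h1
      omega
    have h1 : ∃ W', W' ⊆ Λ \ H ∧ G.d H O W' < (G.into W' (insert e T)).card := by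
      by_contra hcon
      push Not at hcon
      exact hni ⟨insert_subset he hT.1, hcon⟩
    obtain ⟨W', hW', hlt⟩ := h1
    have h2 := hT.2 W' hW'
    by_cases hen : G.a e ∈ W' ∨ G.b e ∈ W'
    · have h3 : (G.into W' (insert e T)).card ≤ (G.into W' T).card + 1 := by
        unfold into
        rw [filter_insert, if_pos hen]
        exact card_insert_le _ _
      have h4 : W' ∈ ℱ := mem_filter.2 ⟨mem_powerset.2 hW', by omega⟩
      have h5 : W' ⊆ W := by
        rw [hWdef]
        exact le_sup (f := id) h4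
      exact hen.imp (fun h => h5 h) (fun h => h5 h)
    · have h3 : G.into W' (insert e T) = G.into W' T := by
        unfold into
        rw [filter_insert, if_neg hen]
      rw [h3] at hlt
      omega
  have h1 : T.filter (fun e => ¬ (G.a e ∈ W ∨ G.b e ∈ W)) =
      (G.cut H).filter (fun e => G.a e ∉ W ∧ G.b e ∉ W) := by
    ext e
    rw [mem_filter, mem_filter, not_or]
    constructor
    · rintro ⟨h2, h3⟩
      exact ⟨hT.1 h2, h3⟩
    · rintro ⟨h2, h3⟩
      refine ⟨?_, h3⟩
      by_contra h4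
      rcases hent e h2 h4 with h5 | h5
      · exact h3.1 h5
      · exact h3.2 h5
  rw [← hTc, ← htight.2, ← h1, add_comm]
  exact (card_filter_add_card_filter_not (s := T) (fun e => G.a e ∈ W ∨ G.b e ∈ W)).symm

theorem rk_mono (Λ H : Finset V) {O O' : Finset E} (h : O ⊆ O') :
    G.rk Λ H O ≤ G.rk Λ H O' := by
  obtain ⟨T, hT, hTc⟩ := G.exists_ind Λ H O
  rw [← hTc]
  exact G.ind_card_le ⟨hT.1, fun W hW => (hT.2 W hW).trans (G.d_mono h W)⟩

open Classical in
theorem card_ind (Λ H : Finset V) (O R : Finset E) (k : ℕ) :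
    Nat.choose (G.rk Λ H O - R.card) k ≤
      (((G.cut H \ R).powersetCard k).filter (fun S => G.Ind Λ H O S)).card := by
  obtain ⟨T, hT, hTc⟩ := G.exists_ind Λ H O
  have h1 : G.rk Λ H O - R.card ≤ (T \ R).card := by
    rw [← hTc]
    exact le_card_sdiff R T
  refine (Nat.choose_le_choose k h1).trans ?_
  rw [← card_powersetCard]
  refine card_le_card fun S hS => ?_
  obtain ⟨h2, h3⟩ := mem_powersetCard.1 hS
  refine mem_filter.2 ⟨mem_powersetCard.2 ⟨h2.trans (sdiff_subset_sdiff hT.1 (Subset.refl _)), h3⟩,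
    G.ind_subset hT (h2.trans sdiff_subset)⟩

theorem dep_ind (Λ H : Finset V) (S : Finset E) :
    Dep (↑(G.off Λ H) : Set E) (fun O : Finset E => G.Ind Λ H O S) := by
  intro O O' h
  have hd : ∀ W, W ⊆ Λ \ H → G.d H O W = G.d H O' W := by
    intro W hW
    unfold d
    congr 1
    ext e
    rw [mem_filter, mem_filter, mem_inter, mem_inter]
    constructor
    · rintro ⟨⟨h1, h2⟩, h3⟩
      have h4 : e ∈ G.off Λ H := by
        rw [mem_off]
        refine ⟨?_, h3⟩
        rcases G.mem_touch.1 (G.cut_subset_touch W h1) with h5 | h5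
        · exact Or.inl (mem_sdiff.1 (hW h5)).1
        · exact Or.inr (mem_sdiff.1 (hW h5)).1
      exact ⟨⟨h1, (h e (mem_coe.2 h4)).1 h2⟩, h3⟩
    · rintro ⟨⟨h1, h2⟩, h3⟩
      have h4 : e ∈ G.off Λ H := by
        rw [mem_off]
        refine ⟨?_, h3⟩
        rcases G.mem_touch.1 (G.cut_subset_touch W h1) with h5 | h5
        · exact Or.inl (mem_sdiff.1 (hW h5)).1
        · exact Or.inr (mem_sdiff.1 (hW h5)).1
      exact ⟨⟨h1, (h e (mem_coe.2 h4)).2 h2⟩, h3⟩
  refine propext ⟨fun h1 => ⟨h1.1, fun W hW => ?_⟩, fun h1 => ⟨h1.1, fun W hW => ?_⟩⟩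
  · rw [← hd W hW]
    exact h1.2 W hW
  · rw [hd W hW]
    exact h1.2 W hW

theorem dep_rk (Λ H : Finset V) :
    Dep (↑(G.off Λ H) : Set E) (fun O : Finset E => G.rk Λ H O) := by
  classical
  intro O O' h
  have h1 : ∀ S, G.Ind Λ H O S ↔ G.Ind Λ H O' S := fun S => iff_of_eq (G.dep_ind Λ H S O O' h)
  show G.rk Λ H O = G.rk Λ H O'
  apply le_antisymm
  · obtain ⟨T, hT, hTc⟩ := G.exists_ind Λ H O
    rw [← hTc]
    exact G.ind_card_le ((h1 T).1 hT)
  · obtain ⟨T, hT, hTc⟩ := G.exists_ind Λ H O'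
    rw [← hTc]
    exact G.ind_card_le ((h1 T).2 hT)

end Gr

end Pool.Agent.DLP
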