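import Pool.Agent.DLP.DLBasic
import Pool.Agent.DLP.Aut

/-!
# DLP/Shift: translations of `DL(q,q)`

`sh m f` = the configuration shifted by `m`: `(sh m f) i = f (i - m)`.
The translation `tr m φ : (n, f) ↦ (n + m, φ + sh m f)` is an automorphism; on the edges
`((n, f), x) ↦ ((n + m, φ + sh m f), x)` (`sh m (single n x) = single (n + m) x`).
The image of the block `blk a b f` is `blk (a + m) (b + m) (φ + sh m f)`.
`cp_tr` is `pr_reach_aut` with `blk_tr`.
`cp_base`: take `m = -n`, `φ = - sh (-n) f`: maps `(n, f)` to `(0, 0)`.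
`sum_cp_up`: reindex by `h ↦ sh (-n) h`, a bijection from `lamps (n + a') (n + b')` onto
`lamps a' b'`.
`sum_cp_down` : the sum over the `q^k` vertices `(n - k, f - h)` below `(n, f)`: each term is
`cp … (0,0) (k, sh (-(n-k)) h)`.
-/

namespace Pool.Agent.DLP

open Finset

variable {q : ℕ} [NeZero q]

/-- Shift of the lamps. -/
noncomputable def sh (m : ℤ) (f : Lm q) : Lm q := f.equivMapDomain (Equiv.addRight m)

theorem sh_apply (m : ℤ) (f : Lm q) (i : ℤ) : sh m f i = f (i - m) := by
  show f ((Equiv.addRight m).symm i) = f (i - m)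
  congr 1

theorem sh_add (m : ℤ) (f g : Lm q) : sh m (f + g) = sh m f + sh m g := by
  ext i
  rw [Finsupp.add_apply, sh_apply, sh_apply, sh_apply, Finsupp.add_apply]

theorem sh_mem_lamps {m a b : ℤ} {h : Lm q} :
    sh m h ∈ lamps q (a + m) (b + m) ↔ h ∈ lamps q a b := by
  rw [mem_lamps, mem_lamps]
  constructor
  · intro h1 i hi
    have h2 := h1 (i + m) (by omega)
    rw [sh_apply, add_sub_cancel_right] at h2
    exact h2
  · intro h1 i hi
    rw [sh_apply]
    exact h1 (i - m) (by omega)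

private theorem sh_zero (m : ℤ) : sh m (0 : Lm q) = 0 := by
  ext i
  rw [sh_apply, Finsupp.zero_apply, Finsupp.zero_apply]

private theorem sh_sh (m n : ℤ) (f : Lm q) : sh m (sh n f) = sh (m + n) f := by
  ext i
  rw [sh_apply, sh_apply, sh_apply]
  congr 1
  ring

private theorem sh_z (f : Lm q) : sh 0 f = f := by
  ext i
  rw [sh_apply, sub_zero]

private theorem sh_neg_sh (m : ℤ) (f : Lm q) : sh (-m) (sh m f) = f := by
  rw [sh_sh, neg_add_cancel, sh_z]

private theorem sh_sh_neg (m : ℤ) (f : Lm q) : sh m (sh (-m) f) = f := by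
  rw [sh_sh, add_neg_cancel, sh_z]

private theorem sh_single (m n : ℤ) (x : ZMod q) :
    sh m (Finsupp.single n x) = Finsupp.single (n + m) x := by
  ext i
  rw [sh_apply, Finsupp.single_apply, Finsupp.single_apply]
  by_cases h : n = i - m
  · rw [if_pos h, if_pos (by omega)]
  · rw [if_neg h, if_neg (by omega)]

/-- The translation. -/
noncomputable def tr (m : ℤ) (φ : Lm q) (v : DV q) : DV q := (v.1 + m, φ + sh m v.2)

/-- The translation as an automorphism. -/
theorem exists_trAut (m : ℤ) (φ : Lm q) : ∃ A : (DL q).Aut, ∀ v, A.v v = tr m φ v := by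
  let V : DV q ≃ DV q :=
    { toFun := tr m φ
      invFun := fun v => (v.1 - m, sh (-m) (v.2 - φ))
      left_inv := fun v => by
        refine Prod.ext ?_ ?_
        · show v.1 + m - m = v.1
          ring
        · show sh (-m) (φ + sh m v.2 - φ) = v.2
          rw [add_sub_cancel_left, sh_neg_sh]
      right_inv := fun v => by
        refine Prod.ext ?_ ?_
        · show v.1 - m + m = v.1
          ring
        · show φ + sh m (sh (-m) (v.2 - φ)) = v.2
          rw [sh_sh_neg, add_sub_cancel] }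
  refine ⟨⟨V, Equiv.prodCongr V (Equiv.refl _), fun x => rfl, fun x => ?_⟩, fun v => rfl⟩
  rw [DL_b, DL_b]
  refine Prod.ext ?_ ?_
  · show x.1.1 + m + 1 = x.1.1 + 1 + m
    ring
  · show φ + sh m x.1.2 + Finsupp.single (x.1.1 + m) x.2 =
      φ + sh m (x.1.2 + Finsupp.single x.1.1 x.2)
    rw [sh_add, sh_single, add_assoc]

/-- Every vertex is the image of every other one. -/
theorem exists_tr (x y : DV q) : ∃ m φ, tr m φ x = y := by
  refine ⟨y.1 - x.1, y.2 - sh (y.1 - x.1) x.2, Prod.ext ?_ ?_⟩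
  · show x.1 + (y.1 - x.1) = y.1
    ring
  · show y.2 - sh (y.1 - x.1) x.2 + sh (y.1 - x.1) x.2 = y.2
    rw [sub_add_cancel]

theorem blk_tr (A : (DL q).Aut) (m : ℤ) (φ : Lm q) (hA : ∀ v, A.v v = tr m φ v) (a b : ℤ)
    (f : Lm q) : (blk q a b f).map A.v.toEmbedding = blk q (a + m) (b + m) (φ + sh m f) := by
  ext v
  rw [mem_map_equiv]
  obtain ⟨u, rfl⟩ := A.v.surjective v
  rw [Equiv.symm_apply_apply, hA, mem_blk, mem_blk]
  have h1 : (tr m φ u).2 - (φ + sh m f) = sh m (u.2 - f) := by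
    have h2 := sh_add m (u.2 - f) f
    rw [sub_add_cancel] at h2
    show φ + sh m u.2 - (φ + sh m f) = _
    rw [h2]
    abel
  have h3 : (tr m φ u).1 = u.1 + m := rfl
  rw [h1, sh_mem_lamps, h3]
  constructor
  · rintro ⟨h4, h5, h6⟩
    exact ⟨by omega, by omega, h6⟩
  · rintro ⟨h4, h5, h6⟩
    exact ⟨by omega, by omega, h6⟩

theorem cp_tr (p : ℝ) (m : ℤ) (φ : Lm q) (a b : ℤ) (f : Lm q) (x y : DV q) :
    cp q p (a + m) (b + m) (φ + sh m f) (tr m φ x) (tr m φ y) = cp q p a b f x y := by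
  obtain ⟨A, hA⟩ := exists_trAut (q := q) m φ
  have h := Gr.pr_reach_aut A p (blk q a b f) x y
  rw [blk_tr A m φ hA, hA, hA] at h
  exact h

/-- The sum over the vertices `(n + j, f + h)` above `(n, f)`, connections in a block. -/
theorem sum_cp_up (p : ℝ) (n : ℤ) (f : Lm q) (N M j : ℕ) :
    ∑ h ∈ lamps q n (n + j), cp q p (n - N) (n + M) f (n, f) (n + j, f + h) =
      ∑ h ∈ lamps q 0 j, cp q p (-N) M 0 (0, 0) (j, h) := by
  have e1 : lamps q 0 (j : ℤ) = lamps q (n + -n) (n + j + -n) := by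
    congr 1 <;> ring
  have e2 : lamps q n (n + j) = lamps q (0 + n) (j + n) := by
    congr 1 <;> ring
  refine sum_nbij' (fun h => sh (-n) h) (fun h => sh n h) ?_ ?_ ?_ ?_ ?_
  · intro h hh
    rw [e1]
    exact sh_mem_lamps.2 hh
  · intro h hh
    rw [e2]
    exact sh_mem_lamps.2 hh
  · intro h _
    exact sh_sh_neg n h
  · intro h _
    exact sh_neg_sh n h
  · intro h _
    have h1 := cp_tr p n f (-(N : ℤ)) (M : ℤ) 0 (0, 0) ((j : ℤ), sh (-n) h)
    rw [← h1]
    have h2 : tr n f ((0, 0) : DV q) = (n, f) := by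
      refine Prod.ext ?_ ?_
      · show 0 + n = n
        ring
      · show f + sh n 0 = f
        rw [sh_zero, add_zero]
    have h3 : tr n f (((j : ℤ), sh (-n) h) : DV q) = (n + j, f + h) := by
      refine Prod.ext ?_ ?_
      · show (j : ℤ) + n = n + j
        ring
      · show f + sh n (sh (-n) h) = f + h
        rw [sh_sh_neg]
    rw [h2, h3, sh_zero, add_zero]
    congr 1 <;> ring

/-- The sum over the vertices `(n - k, f - h)` below `(n, f)`. -/
theorem sum_cp_down (p : ℝ) (n : ℤ) (f : Lm q) (k : ℕ) :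
    ∑ h ∈ lamps q (n - k) n, cp q p (n - k) n f (n - k, f - h) (n, f) = Msum q p k := by
  have e1 : lamps q 0 (k : ℤ) = lamps q ((n - k) + -(n - k)) (n + -(n - k)) := by
    congr 1 <;> ring
  have e2 : lamps q (n - k) n = lamps q (0 + (n - k)) (k + (n - k)) := by
    congr 1 <;> ring
  unfold Msum
  refine sum_nbij' (fun h => sh (-(n - k)) h) (fun h => sh (n - k) h) ?_ ?_ ?_ ?_ ?_
  · intro h hh
    rw [e1]
    exact sh_mem_lamps.2 hh
  · intro h hh
    rw [e2]
    exact sh_mem_lamps.2 hh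
  · intro h _
    exact sh_sh_neg _ h
  · intro h _
    exact sh_neg_sh _ h
  · intro h hh
    have h1 := cp_tr p (n - k) (f - h) 0 (k : ℤ) 0 (0, 0) ((k : ℤ), sh (-(n - k)) h)
    rw [← h1]
    have h2 : tr (n - k) (f - h) ((0, 0) : DV q) = (n - k, f - h) := by
      refine Prod.ext ?_ ?_
      · show 0 + (n - k) = n - k
        ring
      · show f - h + sh (n - k) 0 = f - h
        rw [sh_zero, add_zero]
    have h3 : tr (n - k) (f - h) (((k : ℤ), sh (-(n - k)) h) : DV q) = (n, f) := by
      refine Prod.ext ?_ ?_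
      · show (k : ℤ) + (n - k) = n
        ring
      · show f - h + sh (n - k) (sh (-(n - k)) h) = f
        rw [sh_sh_neg, sub_add_cancel]
    have h4 : blk q (n - k) n (f - h) = blk q (n - k) n f := by
      apply blk_eq
      rw [sub_sub_cancel_left]
      exact neg_mem_lamps hh
    have h5 : (0 : ℤ) + (n - k) = n - k := by ring
    have h6 : (k : ℤ) + (n - k) = n := by ring
    rw [h2, h3, sh_zero, add_zero, h5, h6]
    unfold cp
    rw [h4]

end Pool.Agent.DLP
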