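import Pool.Agent.DLP.Rch
import Pool.Agent.DLP.ExC

/-!
# DLP/TrickA: the separating sets of a pair of configurations

`ω` = edges open at level `p`, `ω ∩ η` = edges open at the lower level `p₁ = p t`.
`Sep Λ T H ω η`: `T ⊆ H ⊆ Λ`, every vertex of `H` is joined to `T` by `ω` inside `H`, and every edge
of `cut H` which is in `ω` is not in `η` and its end point off `H` exits `Λ` with edges of `ω ∩ η`
off `H`.

* `sep_unique`: let `Sep H` and `Sep H'`; suppose `x ∈ H' \ H`. `x` is joined by `ω` inside `H'` to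
  some `y ∈ T ⊆ H`; so (`Reach.exists_cut_edge`, path from `y ∈ H` to `x ∉ H`) there is an edge
  `e ∈ cut H ∩ ω` with both end points in `H'`. By `Sep H` its end point `w ∉ H` (`w ∈ H'`) exits
  `Λ ⊇ H'` with edges of `ω ∩ η`; this path leaves `H'` through an edge of `cut H'` in `ω ∩ η`,
  contradicting `Sep H'`. So `H' ⊆ H`, by symmetry `H = H'`.
* `sep_prob`: split `F = touch Λ = (inn H ∪ cut H) ∪ off Λ H` for `ω` and for `η`. The
  connection inside `H` depends on `ω ∩ inn H`; the exits depend on `(ω ∩ η) ∩ off Λ H`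
  (`dep_exit`); given the set `A ⊆ cut H` of the accessible edges, the event
  `every `e ∈ cut H` is not in `ω`, or is in `A` and not in `η`` has probability
  `(1 - p t)^{|A|} (1-p)^{|cut H| - |A|} = (1-p)^{|cut H|} κ^{|A|}`, `κ = (1 - p t)/(1 - p)`
  (`cut_prob`, by induction on the finite set `C = cut H`: each edge is closed with probability
  `1-p`, and in `ω \ η` with probability `p (1-t)`).
  Jensen (`ex_jensen`, for the pair expectation; or apply it to `ex (p t)` after `ex_thin`) and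
  `E |A| = ∑_{e ∈ cut H} acc (p t) Λ H e`.
-/

namespace Pool.Agent.DLP

open Finset

open Classical in
theorem cut_prob {ι : Type} [DecidableEq ι] {p t : ℝ} (h1 : p < 1) {A C : Finset ι}
    (hA : A ⊆ C) :
    ex p C (fun ω => pr t C (fun η => ∀ e ∈ C, e ∈ ω → e ∈ A ∧ e ∉ η)) =
      (1 - p) ^ C.card * ((1 - p * t) / (1 - p)) ^ A.card := by
  have hp : (0 : ℝ) < 1 - p := by linarith
  have e1 : ∀ ω, ω ⊆ C → pr t C (fun η => ∀ e ∈ C, e ∈ ω → e ∈ A ∧ e ∉ η) =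
      if ω ⊆ A then (1 - t) ^ ω.card else 0 := by
    intro ω hω
    by_cases h : ω ⊆ A
    · rw [if_pos h, ← pr_avoid t hω]
      refine pr_congr fun η _ => ?_
      rw [Finset.disjoint_left]
      constructor
      · intro h2 e he hη
        exact (h2 e (hω he) he).2 hη
      · intro h2 e _ he
        exact ⟨h he, h2 he⟩
    · rw [if_neg h]
      have h3 : pr t C (fun η => ∀ e ∈ C, e ∈ ω → e ∈ A ∧ e ∉ η) =
          pr t C (fun _ => ¬ True) := by
        refine pr_congr fun η _ => ?_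
        constructor
        · intro h2
          exact absurd (fun e he => (h2 e (hω he) he).1) h
        · intro h2
          exact absurd trivial h2
      rw [h3, pr_not, pr_true]
      ring
  rw [ex_congr e1]
  unfold ex
  have e2 : ∑ ω ∈ C.powerset, p ^ ω.card * (1 - p) ^ (C \ ω).card *
      (if ω ⊆ A then (1 - t) ^ ω.card else 0) =
      ∑ ω ∈ A.powerset, (1 - p) ^ (C.card - A.card) *
        ((p * (1 - t)) ^ ω.card * (1 - p) ^ (A.card - ω.card)) := by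
    rw [← Finset.sum_subset (Finset.powerset_mono.2 hA) (fun ω _ h => by
      rw [Finset.mem_powerset] at h
      rw [if_neg h, mul_zero])]
    refine Finset.sum_congr rfl fun ω hω => ?_
    rw [Finset.mem_powerset] at hω
    have h2 := Finset.card_le_card hω
    have h3 := Finset.card_le_card hA
    rw [if_pos hω, Finset.card_sdiff_of_subset (hω.trans hA)]
    have h4 : C.card - ω.card = (C.card - A.card) + (A.card - ω.card) := by omega
    rw [h4, pow_add, mul_pow]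
    ring
  rw [e2, ← Finset.mul_sum, Finset.sum_pow_mul_eq_add_pow]
  have h3 := Finset.card_le_card hA
  obtain ⟨m, hm⟩ : ∃ m, C.card = m + A.card := ⟨C.card - A.card, by omega⟩
  have h4 : p * (1 - t) + (1 - p) = 1 - p * t := by ring
  rw [h4, hm, Nat.add_sub_cancel, pow_add, div_pow]
  have h5 : (1 - p) ^ A.card ≠ 0 := pow_ne_zero _ hp.ne'
  field_simp

namespace Gr

variable {V E : Type} [DecidableEq V] [DecidableEq E] (G : Gr V E)

/-- The end point of `e` off `H` exits `Λ` off `H`. -/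
def Acc (Λ H : Finset V) (O : Finset E) (e : E) : Prop :=
  ∃ x, x ∉ H ∧ (G.a e = x ∨ G.b e = x) ∧ G.Exit Λ (↑O : Set E) {y | y ∉ H} x

def Sep (Λ T H : Finset V) (ω η : Finset E) : Prop :=
  T ⊆ H ∧ H ⊆ Λ ∧ (∀ x ∈ H, ∃ y ∈ T, G.Reach (↑ω : Set E) (↑H : Set V) y x) ∧
    ∀ e ∈ G.cut H, e ∈ ω → G.Acc Λ H (ω ∩ η) e ∧ e ∉ η

private theorem sep_sub {Λ T H H' : Finset V} {ω η : Finset E} (h : G.Sep Λ T H ω η)
    (h' : G.Sep Λ T H' ω η) : H' ⊆ H := by
  intro x hx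
  by_contra hxH
  obtain ⟨y, hy, hr⟩ := h'.2.2.1 x hx
  obtain ⟨e, he, heω, ha, hb⟩ := hr.exists_cut_edge (h.1 hy) hxH
  obtain ⟨⟨w, hwH, hw, z, hz, hr2⟩, _⟩ := h.2.2.2 e he (Finset.mem_coe.1 heω)
  have hwH' : w ∈ H' := by
    rcases hw with h1 | h1
    · rw [← h1]; exact Finset.mem_coe.1 ha
    · rw [← h1]; exact Finset.mem_coe.1 hb
  obtain ⟨f, hf, hfω, _, _⟩ := hr2.exists_cut_edge hwH' (fun h1 => hz (h'.2.1 h1))
  rw [Finset.mem_coe, Finset.mem_inter] at hfω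
  exact (h'.2.2.2 f hf hfω.1).2 hfω.2

theorem sep_unique {Λ T H H' : Finset V} {ω η : Finset E} (h : G.Sep Λ T H ω η)
    (h' : G.Sep Λ T H' ω η) : H = H' :=
  Finset.Subset.antisymm (G.sep_sub h' h) (G.sep_sub h h')

theorem dep_acc (Λ H : Finset V) (e : E) :
    Dep (↑(G.off Λ H) : Set E) (fun O : Finset E => G.Acc Λ H O e) := by
  intro ω ω' h
  have h1 : ∀ x, G.Exit Λ (↑ω : Set E) {y | y ∉ H} x = G.Exit Λ (↑ω' : Set E) {y | y ∉ H} x := by
    intro x
    refine G.dep_exit Λ H x ω ω' fun i hi => h i ?_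
    rw [Finset.mem_coe, mem_off]
    exact ⟨(mem_touch G).1 hi.1, hi.2.1, hi.2.2⟩
  unfold Acc
  simp only [h1]

private theorem sep_q {p t : ℝ} (h0 : 0 ≤ p) (h1 : p < 1) (ht0 : 0 ≤ t) (ht1 : t ≤ 1)
    {Λ H : Finset V} :
    (1 - p) ^ (G.cut H).card * ((1 - p * t) / (1 - p)) ^ (∑ e ∈ G.cut H, G.acc (p * t) Λ H e) ≤
      ex p (G.off Λ H ∪ G.cut H) (fun ω => pr t (G.off Λ H ∪ G.cut H)
        (fun η => ∀ e ∈ G.cut H, e ∈ ω → G.Acc Λ H (ω ∩ η) e ∧ e ∉ η)) := by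
  classical
  have hp : (0 : ℝ) < 1 - p := by linarith
  have hdis : Disjoint (G.off Λ H) (G.cut H) :=
    (Finset.disjoint_of_subset_left Finset.subset_union_right
      (G.disjoint_touch_off H Λ)).symm
  have hpt0 : 0 ≤ p * t := mul_nonneg h0 ht0
  have hpt1 : p * t ≤ 1 := by nlinarith
  have hκ : 0 < (1 - p * t) / (1 - p) := by
    refine div_pos ?_ hp
    nlinarith
  obtain ⟨A, hA⟩ : ∃ A : Finset E → Finset E, ∀ O, A O = (G.cut H).filter (fun e => G.Acc Λ H O e) :=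
    ⟨_, fun _ => rfl⟩
  have hAC : ∀ O, A O ⊆ G.cut H := fun O => by rw [hA]; exact Finset.filter_subset _ _
  -- the expectation is an expectation over the four parts
  have e1 : ex p (G.off Λ H ∪ G.cut H) (fun ω => pr t (G.off Λ H ∪ G.cut H)
        (fun η => ∀ e ∈ G.cut H, e ∈ ω → G.Acc Λ H (ω ∩ η) e ∧ e ∉ η)) =
      ex p (G.off Λ H) (fun ω₂ => ex t (G.off Λ H) (fun η₂ => ex p (G.cut H) (fun ω₁ =>
        pr t (G.cut H) (fun η₁ => ∀ e ∈ G.cut H, e ∈ ω₂ ∪ ω₁ →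
          G.Acc Λ H ((ω₂ ∪ ω₁) ∩ (η₂ ∪ η₁)) e ∧ e ∉ η₂ ∪ η₁)))) := by
    rw [ex_union p hdis]
    refine ex_congr fun ω₂ _ => ?_
    rw [ex_swap]
    refine ex_congr fun ω₁ _ => ?_
    unfold pr
    rw [ex_union t hdis]
  have e2 : ex p (G.off Λ H) (fun ω₂ => ex t (G.off Λ H) (fun η₂ => ex p (G.cut H) (fun ω₁ =>
        pr t (G.cut H) (fun η₁ => ∀ e ∈ G.cut H, e ∈ ω₂ ∪ ω₁ →
          G.Acc Λ H ((ω₂ ∪ ω₁) ∩ (η₂ ∪ η₁)) e ∧ e ∉ η₂ ∪ η₁)))) =
      ex p (G.off Λ H) (fun ω₂ => ex t (G.off Λ H) (fun η₂ =>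
        (1 - p) ^ (G.cut H).card * ((1 - p * t) / (1 - p)) ^ (A (ω₂ ∩ η₂)).card)) := by
    refine ex_congr fun ω₂ hω₂ => ex_congr fun η₂ hη₂ => ?_
    rw [← cut_prob h1 (hAC (ω₂ ∩ η₂))]
    refine ex_congr fun ω₁ hω₁ => pr_congr fun η₁ hη₁ => ?_
    refine forall_congr' fun e => forall_congr' fun he => ?_
    have hoff : e ∉ G.off Λ H := fun h => Finset.disjoint_left.1 hdis h he
    have h2 : e ∈ ω₂ ∪ ω₁ ↔ e ∈ ω₁ := by
      rw [Finset.mem_union]
      exact ⟨fun h => h.resolve_left fun h3 => hoff (hω₂ h3), Or.inr⟩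
    have h3 : e ∈ η₂ ∪ η₁ ↔ e ∈ η₁ := by
      rw [Finset.mem_union]
      exact ⟨fun h => h.resolve_left fun h3 => hoff (hη₂ h3), Or.inr⟩
    have h4 : G.Acc Λ H ((ω₂ ∪ ω₁) ∩ (η₂ ∪ η₁)) e = G.Acc Λ H (ω₂ ∩ η₂) e := by
      refine G.dep_acc Λ H e _ _ fun i hi => ?_
      have hi2 : i ∉ G.cut H := fun h => Finset.disjoint_left.1 hdis (Finset.mem_coe.1 hi) h
      have h5 : i ∉ ω₁ := fun h => hi2 (hω₁ h)
      have h6 : i ∉ η₁ := fun h => hi2 (hη₁ h)
      simp only [Finset.mem_inter, Finset.mem_union, h5, h6, or_false]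
    rw [h2, h3, h4, hA, Finset.mem_filter]
    simp only [he, true_and]
  rw [e1, e2]
  have e3 : ex p (G.off Λ H) (fun ω₂ => ex t (G.off Λ H) (fun η₂ =>
        (1 - p) ^ (G.cut H).card * ((1 - p * t) / (1 - p)) ^ (A (ω₂ ∩ η₂)).card)) =
      (1 - p) ^ (G.cut H).card * ex (p * t) (G.off Λ H) (fun O =>
        ((1 - p * t) / (1 - p)) ^ ((A O).card : ℝ)) := by
    rw [← ex_thin p t, ← ex_mul_left]
    refine ex_congr fun ω₂ _ => ?_
    rw [← ex_mul_left]
    refine ex_congr fun η₂ _ => ?_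
    rw [Real.rpow_natCast]
  rw [e3]
  refine mul_le_mul_of_nonneg_left ?_ (by positivity)
  have h5 := ex_jensen hpt0 hpt1 hκ (F := G.off Λ H) (fun O => ((A O).card : ℝ))
  have h6 : ex (p * t) (G.off Λ H) (fun O => ((A O).card : ℝ)) =
      ∑ e ∈ G.cut H, G.acc (p * t) Λ H e := by
    have h7 : ∀ O, O ⊆ G.off Λ H → ((A O).card : ℝ) =
        ∑ e ∈ G.cut H, if G.Acc Λ H O e then (1 : ℝ) else 0 := by
      intro O _
      rw [hA, Finset.card_filter]
      push_cast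
      rfl
    rw [ex_congr h7, ex_sum]
    refine Finset.sum_congr rfl fun e _ => ?_
    have h9 : G.acc (p * t) Λ H e = pr (p * t) (G.off Λ H) (fun O => G.Acc Λ H O e) := rfl
    rw [h9]
    unfold pr
    refine ex_congr fun O _ => ?_
    by_cases h8 : G.Acc Λ H O e
    · rw [if_pos h8]
    · rw [if_neg h8]
  rw [h6] at h5
  exact h5

theorem sep_prob {p t : ℝ} (h0 : 0 ≤ p) (h1 : p < 1) (ht0 : 0 ≤ t) (ht1 : t ≤ 1)
    {Λ T H : Finset V} (hT : T ⊆ H) (hH : H ⊆ Λ) :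
    pr p (G.inn H) (fun ω => ∀ x ∈ H, ∃ y ∈ T, G.Reach (↑ω : Set E) (↑H : Set V) y x) *
        ((1 - p) ^ (G.cut H).card *
          ((1 - p * t) / (1 - p)) ^ (∑ e ∈ G.cut H, G.acc (p * t) Λ H e)) ≤
      ex p (G.touch Λ) (fun ω => pr t (G.touch Λ) (fun η => G.Sep Λ T H ω η)) := by
  classical
  obtain ⟨R, hR⟩ : ∃ R : Finset E → Prop, R = fun ω : Finset E => ∀ x ∈ H, ∃ y ∈ T,
    G.Reach (↑ω : Set E) (↑H : Set V) y x := ⟨_, rfl⟩
  obtain ⟨Q, hQ⟩ : ∃ Q : Finset E → Finset E → Prop, Q = fun ω η => ∀ e ∈ G.cut H, e ∈ ω →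
    G.Acc Λ H (ω ∩ η) e ∧ e ∉ η := ⟨_, rfl⟩
  have hRd : Dep (↑(G.inn H) : Set E) R := by
    rw [hR]
    intro ω ω' h
    have h2 : ∀ x y, G.Reach (↑ω : Set E) (↑H : Set V) y x =
        G.Reach (↑ω' : Set E) (↑H : Set V) y x := fun x y => G.dep_reach H y x ω ω' h
    simp only [h2]
  have hQd : ∀ ω ω' η η' : Finset E,
      (∀ i ∈ (↑(G.off Λ H ∪ G.cut H) : Set E), (i ∈ ω ↔ i ∈ ω')) →
      (∀ i ∈ (↑(G.off Λ H ∪ G.cut H) : Set E), (i ∈ η ↔ i ∈ η')) → Q ω η = Q ω' η' := by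
    intro ω ω' η η' h h'
    rw [hQ]
    refine propext (forall_congr' fun e => forall_congr' fun he => ?_)
    have he2 : e ∈ (↑(G.off Λ H ∪ G.cut H) : Set E) := by
      rw [Finset.mem_coe, Finset.mem_union]
      exact Or.inr he
    have h3 : G.Acc Λ H (ω ∩ η) e = G.Acc Λ H (ω' ∩ η') e := by
      refine G.dep_acc Λ H e _ _ fun i hi => ?_
      have hi2 : i ∈ (↑(G.off Λ H ∪ G.cut H) : Set E) := by
        rw [Finset.mem_coe, Finset.mem_union]
        exact Or.inl (Finset.mem_coe.1 hi)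
      rw [Finset.mem_inter, Finset.mem_inter, h i hi2, h' i hi2]
    rw [h e he2, h' e he2, h3]
  have hsub : G.off Λ H ∪ G.cut H ⊆ G.touch Λ := by
    rw [G.touch_split hH]
    intro e he
    rw [Finset.mem_union] at he
    rw [Finset.mem_union, Finset.mem_union]
    rcases he with h | h
    · exact Or.inr h
    · exact Or.inl (Or.inr h)
  have hchg : ∀ i ∈ (↑(G.off Λ H ∪ G.cut H) : Set E),
      (i ∈ G.touch Λ ↔ i ∈ G.off Λ H ∪ G.cut H) := fun i hi =>
    ⟨fun _ => Finset.mem_coe.1 hi, fun _ => hsub (Finset.mem_coe.1 hi)⟩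
  have hinner : ∀ ω, pr t (G.touch Λ) (Q ω) = pr t (G.off Λ H ∪ G.cut H) (Q ω) := fun ω =>
    pr_dep (S := (↑(G.off Λ H ∪ G.cut H) : Set E))
      (fun η η' h => hQd ω ω η η' (fun _ _ => Iff.rfl) h) hchg
  have hQdep : Dep (↑(G.off Λ H ∪ G.cut H) : Set E)
      (fun ω => pr t (G.off Λ H ∪ G.cut H) (Q ω)) := by
    intro ω ω' h
    refine pr_congr fun η _ => ?_
    rw [hQd ω ω' η η h (fun _ _ => Iff.rfl)]
  have hdisj : Disjoint (↑(G.inn H) : Set E) (↑(G.off Λ H ∪ G.cut H) : Set E) := by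
    rw [Finset.disjoint_coe, Finset.disjoint_left]
    intro e he he2
    rw [Finset.mem_union] at he2
    rcases he2 with h | h
    · exact Finset.disjoint_left.1 (G.disjoint_touch_off H Λ)
        (Finset.mem_union_left _ he) h
    · exact Finset.disjoint_left.1 (G.disjoint_inn_cut H) he h
  have e1 : ex p (G.touch Λ) (fun ω => pr t (G.touch Λ) (fun η => G.Sep Λ T H ω η)) =
      ex p (G.touch Λ) (fun ω => (if R ω then (1 : ℝ) else 0) *
        pr t (G.off Λ H ∪ G.cut H) (Q ω)) := by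
    refine ex_congr fun ω _ => ?_
    rw [← hinner]
    have h2 : pr t (G.touch Λ) (fun η => G.Sep Λ T H ω η) =
        pr t (G.touch Λ) (fun η => R ω ∧ Q ω η) := by
      refine pr_congr fun η _ => ?_
      rw [hR, hQ]
      exact ⟨fun h => ⟨h.2.2.1, h.2.2.2⟩, fun h => ⟨hT, hH, h.1, h.2⟩⟩
    rw [h2]
    by_cases hRω : R ω
    · rw [if_pos hRω, one_mul]
      exact pr_congr fun η _ => ⟨fun h => h.2, fun h => ⟨hRω, h⟩⟩
    · rw [if_neg hRω, zero_mul]
      have h3 : pr t (G.touch Λ) (fun η => R ω ∧ Q ω η) =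
          pr t (G.touch Λ) (fun _ => ¬ True) :=
        pr_congr fun η _ => ⟨fun h => absurd h.1 hRω, fun h => absurd trivial h⟩
      rw [h3, pr_not, pr_true]
      ring
  rw [e1, ex_indep (S := (↑(G.inn H) : Set E)) (T := (↑(G.off Λ H ∪ G.cut H) : Set E))
    (hRd.comp (fun P => if P then (1 : ℝ) else 0)) hQdep hdisj]
  have e2 : ex p (G.touch Λ) (fun ω => if R ω then (1 : ℝ) else 0) = pr p (G.inn H) R := by
    have h2 : pr p (G.touch Λ) R = pr p (G.inn H) R := by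
      refine pr_dep hRd fun i hi => ⟨fun _ => Finset.mem_coe.1 hi, fun _ => ?_⟩
      rw [G.touch_split hH, Finset.mem_union, Finset.mem_union]
      exact Or.inl (Or.inl (Finset.mem_coe.1 hi))
    rw [← h2]
    rfl
  have e3 : ex p (G.touch Λ) (fun ω => pr t (G.off Λ H ∪ G.cut H) (Q ω)) =
      ex p (G.off Λ H ∪ G.cut H) (fun ω => pr t (G.off Λ H ∪ G.cut H) (Q ω)) :=
    ex_dep hQdep hchg
  rw [e2, e3]
  have h5 := G.sep_q h0 h1 ht0 ht1 (Λ := Λ) (H := H)
  have h6 : pr p (G.inn H) R = pr p (G.inn H) (fun ω => ∀ x ∈ H, ∃ y ∈ T,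
    G.Reach (↑ω : Set E) (↑H : Set V) y x) := by rw [hR]
  rw [← h6]
  refine mul_le_mul_of_nonneg_left ?_ (pr_nonneg h0 h1.le _ _)
  rw [hQ]
  exact h5

end Gr

end Pool.Agent.DLP
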